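import Mathlib
import Pool.Agent.Lib_MP_112ba8.Final

/-!
Definitions for the lower bound of the even moments (in particular the eighth moment) of zeta.
-/

namespace Pool.Agent.EvenMoment

open Filter Topology MeasureTheory

/-- Coprime pairs of positive integers. -/
abbrev CP : Type := {q : ℕ × ℕ // 0 < q.1 ∧ 0 < q.2 ∧ Nat.Coprime q.1 q.2}

/-- `log (m n)` of a pair -/
noncomputable def lnq (q : CP) : ℝ := Real.log ((q.1.1 : ℝ) * (q.1.2 : ℝ))

/-- `k`-tuples of coprime pairs `(m_i, n_i)` with `∏ m_i = ∏ n_i`. -/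
abbrev TQ (k : ℕ) : Type := {q : Fin k → CP // ∏ i, (q i).1.1 = ∏ i, (q i).1.2}

/-- the weight `1 / ∏ m_i` -/
noncomputable def tw {k : ℕ} (q : TQ k) : ℝ := 1 / ∏ i, ((q.1 i).1.1 : ℝ)

/-- edges of the complete graph on `Fin k` -/
abbrev Ed (k : ℕ) : Type := {e : Fin k × Fin k // e.1 < e.2}

/-- vertex sums of an edge weight -/
noncomputable def vs {k : ℕ} (y : Ed k → ℝ) (i : Fin k) : ℝ :=
  ∑ e : Ed k, if e.1.1 = i ∨ e.1.2 = i then y e else 0

/-- the limit functional: `∫ G(vertex sums of y) ∏ y_e dy` over `y > 0` -/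
noncomputable def LF (k : ℕ) (G : (Fin k → ℝ) → ℝ) : ℝ :=
  ∫ y in {y : Ed k → ℝ | ∀ e, 0 < y e}, (∏ e, y e) * G (vs y)

/-- the discrete functional: `∑ tw(q) G(log (m_i n_i) / L)` -/
noncomputable def DF (k : ℕ) (G : (Fin k → ℝ) → ℝ) (L : ℝ) : ℝ :=
  ∑' q : TQ k, tw q * G (fun i => lnq (q.1 i) / L)

/-- the arithmetic factor `a_k` -/
noncomputable def ar (k : ℕ) : ℝ := Pool.Agent.ZetaMoment.aG (Fin k)

/-- `∑_{a ≥ 1} 1 / (e^{a z} - 1)` -/
noncomputable def Sz (z : ℂ) : ℂ := ∑' a : ℕ, 1 / (Complex.exp (((a : ℂ) + 1) * z) - 1)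

/-- the point `1/2 + i t` -/
noncomputable def cl (t : ℝ) : ℂ := 1 / 2 + t * Complex.I

/-- weight functions: smooth, nonnegative, compactly supported in `(0,1)` -/
structure Wgt (w : ℝ → ℝ) : Prop where
  smooth : ContDiff ℝ (⊤ : ℕ∞) w
  nonneg : ∀ x, 0 ≤ w x
  supp : ∃ a : ℝ, 0 < a ∧ a < 1 ∧ ∀ x, (x < a ∨ 1 < x) → w x = 0

/-- the oscillating term `exp (i t (log m - log n))` -/
noncomputable def osc (q : CP) (t : ℝ) : ℂ :=
  Complex.exp (t * (Real.log q.1.1 - Real.log q.1.2 : ℝ) * Complex.I)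

lemma finite_CP (B : ℝ) : {q : CP | lnq q ≤ B}.Finite := by
  refine Set.Finite.of_finite_image (f := fun q : CP => q.1) ?_ (fun a _ b _ h => Subtype.ext h)
  refine ((Set.finite_Iic ⌊Real.exp B⌋₊).prod (Set.finite_Iic ⌊Real.exp B⌋₊)).subset ?_
  rintro _ ⟨q, hq, rfl⟩
  obtain ⟨⟨m, n⟩, hm, hn, hc⟩ := q
  have hm' : (1 : ℝ) ≤ m := by exact_mod_cast hm
  have hn' : (1 : ℝ) ≤ n := by exact_mod_cast hn
  have h1 : (m : ℝ) * n ≤ Real.exp B := by
    rw [← Real.log_le_iff_le_exp (by positivity)]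
    exact hq
  constructor
  · exact Nat.le_floor (le_trans (by nlinarith) h1)
  · exact Nat.le_floor (le_trans (by nlinarith) h1)

/-- the set of coprime pairs with `log (m n) ≤ B` -/
noncomputable def CS (B : ℝ) : Finset CP := (finite_CP B).toFinset

/-- the Dirichlet polynomial `W` with coefficient function `ω` and length `θ`
  (`L = log T`) -/
noncomputable def WW (ω : ℝ → ℝ) (θ L : ℝ) (t : ℝ) : ℂ :=
  ∑ q ∈ CS (θ * L), ((ω (lnq q / L) * Real.exp (-(lnq q / 2)) : ℝ) : ℂ) * osc q t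

/-- admissible coefficient functions -/
structure Adm (ω : ℝ → ℝ) (θ : ℝ) : Prop where
  cont : Continuous ω
  supp : ∀ s, θ ≤ s → ω s = 0

/-- discrete Laplace transform -/
noncomputable def LT (k : ℕ) (x : Fin k → ℝ) : ℝ :=
  ∑' q : TQ k, tw q * ∏ i, Real.exp (-(x i * lnq (q.1 i)))

/-- the kernel `e^{-pt} / (1 + i e^{-π t})` -/
noncomputable def ker (p : ℂ) (t : ℝ) : ℂ :=
  Complex.exp (-(p * t)) / (1 + Complex.I * Real.exp (-(Real.pi * t)))

/-- `∫ |ζ|^2 (h/k)^{it} e^{-pt}/(1+ie^{-πt}) dt` with `p = (2 + iξ)/T` -/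
noncomputable def JJ (h k : ℕ) (T ξ : ℝ) : ℂ :=
  ∫ t : ℝ, (‖riemannZeta (cl t)‖ ^ 2 : ℝ) * Complex.exp (t * (Real.log h - Real.log k : ℝ) * Complex.I) *
    ker ((2 + Complex.I * ξ) / T) t

/-- cut off -/
noncomputable def cut (s : ℝ) : ℝ := max 0 (min 1 (2 - s))

/-- test function for the mixed mean value -/
noncomputable def Gz (ω : ℝ → ℝ) (j : ℕ) (s : Fin (j + 1) → ℝ) : ℝ :=
  (∏ i : Fin j, ω (s i.castSucc)) * ((1 - s (Fin.last j)) * cut (s (Fin.last j)))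

/-- the hat function on `[θ - δ, θ]` with integral `δ / 2` -/
noncomputable def hat (θ δ s : ℝ) : ℝ := max 0 (1 - |2 * (s - θ) / δ + 1|)

end Pool.Agent.EvenMoment
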