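import Mathlib
import Pool.Agent.Lib_MP_112ba8_e.Defs

/-!
Basic facts on the Dirichlet polynomial `W`.
-/

namespace Pool.Agent.EvenMoment

open Filter Topology MeasureTheory

/-- the swap of a coprime pair -/
def swapCP (q : CP) : CP := ⟨(q.1.2, q.1.1), q.2.2.1, q.2.1, q.2.2.2.symm⟩

lemma swapCP_swapCP (q : CP) : swapCP (swapCP q) = q := rfl

lemma lnq_swap (q : CP) : lnq (swapCP q) = lnq q := by
  simp only [lnq, swapCP, mul_comm]

lemma mem_CS {B : ℝ} {q : CP} : q ∈ CS B ↔ lnq q ≤ B := by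
  simp [CS]

lemma osc_swap (q : CP) (t : ℝ) : osc (swapCP q) t = (starRingEnd ℂ) (osc q t) := by
  simp only [osc, swapCP]
  rw [← Complex.exp_conj]
  congr 1
  simp only [map_mul, Complex.conj_ofReal, Complex.conj_I]
  push_cast
  ring

theorem WW_real (ω : ℝ → ℝ) (θ L t : ℝ) : (WW ω θ L t).im = 0 := by
  have h : (starRingEnd ℂ) (WW ω θ L t) = WW ω θ L t := by
    unfold WW
    rw [map_sum]
    refine Finset.sum_bij' (fun q _ => swapCP q) (fun q _ => swapCP q) ?_ ?_ ?_ ?_ ?_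
    · intro q hq
      rw [mem_CS] at hq ⊢
      rwa [lnq_swap]
    · intro q hq
      rw [mem_CS] at hq ⊢
      rwa [lnq_swap]
    · intro q _; rfl
    · intro q _; rfl
    · intro q _
      rw [map_mul, Complex.conj_ofReal, lnq_swap, osc_swap]
  exact Complex.conj_eq_iff_im.mp h

theorem WW_cont (ω : ℝ → ℝ) (θ L : ℝ) : Continuous (WW ω θ L) := by
  unfold WW osc
  fun_prop

/-- crude bound for the sum of the coefficients -/
theorem CS_sum_le (ε : ℝ) (hε : 0 < ε) : ∃ C : ℝ, 0 < C ∧ ∀ B : ℝ, 0 ≤ B →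
    ∑ q ∈ CS B, Real.exp (-(lnq q / 2)) ≤ C * Real.exp ((1 / 2 + ε) * B) := by
  set h : ℕ × ℕ → ℝ := fun q => (q.1 : ℝ) ^ (-(1 + ε)) * (q.2 : ℝ) ^ (-(1 + ε)) with hh
  have hsum : Summable h := by
    have s1 : Summable fun a : ℕ => (a : ℝ) ^ (-(1 + ε)) :=
      Real.summable_nat_rpow.mpr (by linarith)
    exact s1.mul_of_nonneg s1 (fun a => by positivity) (fun b => by positivity)
  have hpos : ∀ q, 0 ≤ h q := fun q => by simp only [hh]; positivity
  have htpos : 0 ≤ ∑' q, h q := tsum_nonneg hpos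
  refine ⟨1 + ∑' q, h q, by linarith, fun B _ => ?_⟩
  have hterm : ∀ q ∈ CS B, Real.exp (-(lnq q / 2)) ≤ Real.exp ((1 / 2 + ε) * B) * h q.1 := by
    intro q hq
    rw [mem_CS] at hq
    have hm : (0 : ℝ) < q.1.1 := by exact_mod_cast q.2.1
    have hn : (0 : ℝ) < q.1.2 := by exact_mod_cast q.2.2.1
    have h1 : h q.1 = Real.exp (-((1 + ε) * lnq q)) := by
      simp only [hh, lnq]
      rw [← Real.mul_rpow hm.le hn.le, Real.rpow_def_of_pos (by positivity)]
      congr 1; ring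
    rw [h1, ← Real.exp_add]
    apply Real.exp_le_exp.mpr
    nlinarith
  calc ∑ q ∈ CS B, Real.exp (-(lnq q / 2))
      ≤ ∑ q ∈ CS B, Real.exp ((1 / 2 + ε) * B) * h q.1 := Finset.sum_le_sum hterm
    _ = Real.exp ((1 / 2 + ε) * B) * ∑ q ∈ (CS B).image (fun q : CP => q.1), h q := by
        rw [← Finset.mul_sum, Finset.sum_image (fun a _ b _ hab => Subtype.ext hab)]
    _ ≤ Real.exp ((1 / 2 + ε) * B) * ∑' q, h q :=
        mul_le_mul_of_nonneg_left (hsum.sum_le_tsum _ fun q _ => hpos q) (Real.exp_pos _).le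
    _ ≤ (1 + ∑' q, h q) * Real.exp ((1 / 2 + ε) * B) := by
        have := Real.exp_pos ((1 / 2 + ε) * B)
        nlinarith

end Pool.Agent.EvenMoment
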