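import Mathlib

/-!
P7a: Riemann sum versus integral for `1 / (exp (2 pi i theta + a eta) - 1)`.
-/

namespace Pool.Agent.EvenMoment

open Filter Topology MeasureTheory

namespace ClassC

/-- chord length from below -/
theorem norm_exp_sub_one_theta (θ : ℝ) :
    4 * |θ - round θ| ≤ ‖Complex.exp (2 * Real.pi * Complex.I * θ) - 1‖ := by
  have h1 : Complex.exp (2 * Real.pi * Complex.I * θ) =
      Complex.exp (Complex.I * ((2 * Real.pi * (θ - round θ) : ℝ) : ℂ)) := by
    rw [Complex.exp_eq_exp_iff_exists_int]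
    refine ⟨round θ, ?_⟩
    push_cast
    ring
  rw [h1, Complex.norm_exp_I_mul_ofReal_sub_one]
  have h2 : |θ - round θ| ≤ 1 / 2 := abs_sub_round θ
  have h3 : 2 * Real.pi * (θ - round θ) / 2 = Real.pi * (θ - round θ) := by ring
  rw [h3, norm_mul, Real.norm_eq_abs, Real.norm_eq_abs]
  have hpi := Real.pi_pos
  have h4 : |Real.pi * (θ - round θ)| ≤ Real.pi / 2 := by
    rw [abs_mul, abs_of_pos hpi]
    nlinarith
  have h5 := Real.mul_abs_le_abs_sin h4
  rw [abs_mul, abs_of_pos hpi] at h5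
  have h6 : 2 / Real.pi * (Real.pi * |θ - round θ|) = 2 * |θ - round θ| := by
    field_simp
  rw [h6] at h5
  rw [abs_of_pos (by norm_num : (0 : ℝ) < 2)]
  linarith

/-- growing radius increases the distance to one -/
theorem norm_exp_sub_one_ge (z : ℂ) (hz : 0 ≤ z.re) :
    ‖Complex.exp (z.im * Complex.I) - 1‖ ≤ ‖Complex.exp z - 1‖ := by
  have h1 : 1 ≤ Real.exp z.re := Real.one_le_exp hz
  have hs := Real.sin_sq_add_cos_sq z.im
  have hc := Real.cos_le_one z.im
  rw [← sq_le_sq₀ (norm_nonneg _) (norm_nonneg _), ← Complex.normSq_eq_norm_sq,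
    ← Complex.normSq_eq_norm_sq, Complex.normSq_apply, Complex.normSq_apply]
  have e1 : (Complex.exp (z.im * Complex.I) - 1).re = Real.cos z.im - 1 := by
    simp [Complex.exp_re]
  have e2 : (Complex.exp (z.im * Complex.I) - 1).im = Real.sin z.im := by
    simp [Complex.exp_im]
  have e3 : (Complex.exp z - 1).re = Real.exp z.re * Real.cos z.im - 1 := by
    simp [Complex.exp_re]
  have e4 : (Complex.exp z - 1).im = Real.exp z.re * Real.sin z.im := by
    simp [Complex.exp_im]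
  rw [e1, e2, e3, e4]
  have h2 := mul_nonneg (sub_nonneg.2 h1)
    (by linarith : (0:ℝ) ≤ Real.exp z.re + 1 - 2 * Real.cos z.im)
  have key : (Real.exp z.re * Real.cos z.im - 1) * (Real.exp z.re * Real.cos z.im - 1) +
      Real.exp z.re * Real.sin z.im * (Real.exp z.re * Real.sin z.im) -
      ((Real.cos z.im - 1) * (Real.cos z.im - 1) + Real.sin z.im * Real.sin z.im) =
      (Real.exp z.re - 1) * (Real.exp z.re + 1 - 2 * Real.cos z.im) := by
    linear_combination (Real.exp z.re ^ 2 - 1) * hs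
  linarith

theorem norm_exp_sub_one_ge' (z : ℂ) : Real.exp z.re - 1 ≤ ‖Complex.exp z - 1‖ := by
  have h1 := norm_sub_norm_le (Complex.exp z) 1
  rw [Complex.norm_exp, norm_one] at h1
  exact h1

/-- the phase function -/
noncomputable def zz (θ : ℝ) (η : ℂ) (a : ℝ) : ℂ := 2 * Real.pi * Complex.I * θ + a * η

theorem zz_re (θ : ℝ) (η : ℂ) (a : ℝ) : (zz θ η a).re = a * η.re := by
  simp [zz]

theorem zz_im (θ : ℝ) (η : ℂ) (a : ℝ) : (zz θ η a).im = 2 * Real.pi * θ + a * η.im := by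
  simp [zz]

/-- lower bound by the distance of `θ` to the integers -/
theorem lower1 (θ : ℝ) {η : ℂ} (hη : 0 < η.re) {a : ℝ} (ha : 0 ≤ a) :
    2 * |θ - round θ| * (η.re / ‖η‖) ≤ ‖Complex.exp (zz θ η a) - 1‖ := by
  set d := |θ - round θ| with hd
  have hd0 : 0 ≤ d := abs_nonneg _
  have hn : 0 < ‖η‖ := norm_pos_iff.2 (fun h => by rw [h] at hη; simp at hη)
  have hre : η.re ≤ ‖η‖ := (le_abs_self _).trans (Complex.abs_re_le_norm η)
  have him : |η.im| ≤ ‖η‖ := Complex.abs_im_le_norm η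
  by_cases hcase : a * ‖η‖ ≤ 2 * d
  · have h1 : ‖Complex.exp ((zz θ η a).im * Complex.I) - 1‖ ≤ ‖Complex.exp (zz θ η a) - 1‖ :=
      norm_exp_sub_one_ge _ (by rw [zz_re]; positivity)
    have h2 : Complex.exp ((zz θ η a).im * Complex.I) - 1 =
        Complex.exp (2 * Real.pi * Complex.I * θ) *
          (Complex.exp (Complex.I * ((a * η.im : ℝ) : ℂ)) - 1) +
        (Complex.exp (2 * Real.pi * Complex.I * θ) - 1) := by
      have : Complex.exp ((zz θ η a).im * Complex.I) =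
          Complex.exp (2 * Real.pi * Complex.I * θ) *
          Complex.exp (Complex.I * ((a * η.im : ℝ) : ℂ)) := by
        rw [← Complex.exp_add, zz_im]
        congr 1
        push_cast
        ring
      rw [this]
      ring
    have h3 : ‖Complex.exp (2 * Real.pi * Complex.I * θ) *
          (Complex.exp (Complex.I * ((a * η.im : ℝ) : ℂ)) - 1)‖ ≤ a * ‖η‖ := by
      rw [norm_mul]
      have e1 : ‖Complex.exp (2 * Real.pi * Complex.I * θ)‖ = 1 := by
        rw [Complex.norm_exp]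
        simp
      rw [e1, one_mul]
      refine (Real.norm_exp_I_mul_ofReal_sub_one_le).trans ?_
      rw [Real.norm_eq_abs, abs_mul, abs_of_nonneg ha]
      exact mul_le_mul_of_nonneg_left him ha
    have h4 := norm_exp_sub_one_theta θ
    have h5 : 4 * d - a * ‖η‖ ≤ ‖Complex.exp ((zz θ η a).im * Complex.I) - 1‖ := by
      rw [h2]
      have h6 := norm_sub_norm_le (Complex.exp (2 * Real.pi * Complex.I * θ) - 1)
        (-(Complex.exp (2 * Real.pi * Complex.I * θ) *
          (Complex.exp (Complex.I * ((a * η.im : ℝ) : ℂ)) - 1)))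
      rw [norm_neg, sub_neg_eq_add] at h6
      rw [add_comm (Complex.exp (2 * Real.pi * Complex.I * θ) * _)]
      linarith
    have h6 : 2 * d * (η.re / ‖η‖) ≤ 2 * d := by
      have : η.re / ‖η‖ ≤ 1 := (div_le_one hn).2 hre
      nlinarith
    linarith
  · push Not at hcase
    have h1 := norm_exp_sub_one_ge' (zz θ η a)
    rw [zz_re] at h1
    have h2 : a * η.re + 1 ≤ Real.exp (a * η.re) := Real.add_one_le_exp _
    have h3 : 2 * d * (η.re / ‖η‖) ≤ a * η.re := by
      rw [← mul_div_assoc, div_le_iff₀ hn]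
      nlinarith
    linarith

theorem lower2 (θ : ℝ) (η : ℂ) (a : ℝ) :
    Real.exp (a * η.re) - 1 ≤ ‖Complex.exp (zz θ η a) - 1‖ := by
  have h1 := norm_exp_sub_one_ge' (zz θ η a)
  rwa [zz_re] at h1

/-- the function `g` -/
noncomputable def gg (θ : ℝ) (η : ℂ) (a : ℝ) : ℂ := 1 / (Complex.exp (zz θ η a) - 1)

/-- the antiderivative of `g` -/
noncomputable def FFa (θ : ℝ) (η : ℂ) (a : ℝ) : ℂ := Complex.log (1 - Complex.exp (-(zz θ η a))) / η

theorem hasDerivAt_zz (θ : ℝ) (η : ℂ) (a : ℝ) : HasDerivAt (zz θ η) η a := by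
  unfold zz
  have h1 : HasDerivAt (fun a : ℝ => (a : ℂ)) 1 a := Complex.ofRealCLM.hasDerivAt
  have h2 := (h1.mul_const η).const_add (2 * Real.pi * Complex.I * θ)
  rw [one_mul] at h2
  exact h2

section
variable {θ : ℝ} {η : ℂ}

theorem ne_one (hθ : 0 < |θ - round θ|) (hη : 0 < η.re) {a : ℝ} (ha : 0 ≤ a) :
    Complex.exp (zz θ η a) - 1 ≠ 0 := by
  have h1 := lower1 θ hη ha
  have hn : 0 < ‖η‖ := norm_pos_iff.2 (fun h => by rw [h] at hη; simp at hη)
  have h2 : 0 < 2 * |θ - round θ| * (η.re / ‖η‖) := by positivity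
  exact norm_pos_iff.1 (h2.trans_le h1)

theorem hasDerivAt_gg (hθ : 0 < |θ - round θ|) (hη : 0 < η.re) {a : ℝ} (ha : 0 ≤ a) :
    HasDerivAt (gg θ η) (-(Complex.exp (zz θ η a) * η) / (Complex.exp (zz θ η a) - 1) ^ 2) a := by
  have h1 : HasDerivAt (fun a => Complex.exp (zz θ η a) - 1) (Complex.exp (zz θ η a) * η) a :=
    (hasDerivAt_zz θ η a).cexp.sub_const 1
  have h2 := h1.inv (ne_one hθ hη ha)
  have h3 : gg θ η = (fun a => Complex.exp (zz θ η a) - 1)⁻¹ := by
    funext x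
    simp [gg]
  rw [h3]
  exact h2

theorem hasDerivAt_FFa (hθ : 0 < |θ - round θ|) (hη : 0 < η.re) {a : ℝ} (ha : 0 ≤ a) :
    HasDerivAt (FFa θ η) (gg θ η a) a := by
  have hη0 : η ≠ 0 := fun h => by rw [h] at hη; simp at hη
  have hne := ne_one hθ hη ha
  have h1 : HasDerivAt (fun a => 1 - Complex.exp (-(zz θ η a)))
      (-(Complex.exp (-(zz θ η a)) * -η)) a :=
    ((hasDerivAt_zz θ η a).neg).cexp.const_sub 1
  have hE : Complex.exp (zz θ η a) ≠ 0 := Complex.exp_ne_zero _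
  have hw1 : ‖Complex.exp (-(zz θ η a))‖ ≤ 1 := by
    rw [Complex.norm_exp, Complex.neg_re, zz_re]
    apply Real.exp_le_one_iff.2
    have : 0 ≤ a * η.re := by positivity
    linarith
  have hw2 : Complex.exp (-(zz θ η a)) ≠ 1 := by
    intro h
    apply hne
    rw [Complex.exp_neg, inv_eq_one] at h
    rw [h, sub_self]
  have hsl : 1 - Complex.exp (-(zz θ η a)) ∈ Complex.slitPlane := by
    left
    rw [Complex.sub_re, Complex.one_re, sub_pos]
    set w := Complex.exp (-(zz θ η a)) with hw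
    have h2 : w.re ≤ 1 := (Complex.re_le_norm w).trans hw1
    rcases lt_or_eq_of_le h2 with h3 | h3
    · exact h3
    · exfalso
      apply hw2
      have h4 : Complex.normSq w ≤ 1 := by
        rw [Complex.normSq_eq_norm_sq]
        exact pow_le_one₀ (norm_nonneg _) hw1
      rw [Complex.normSq_apply, h3] at h4
      have h5 : w.im = 0 := by nlinarith [mul_self_nonneg w.im]
      exact Complex.ext (by simp [h3]) (by simp [h5])
  have h2 := (h1.clog_real hsl).div_const η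
  have h3 : gg θ η a = -(Complex.exp (-(zz θ η a)) * -η) / (1 - Complex.exp (-(zz θ η a))) / η := by
    unfold gg
    rw [Complex.exp_neg]
    have h6 : 1 - (Complex.exp (zz θ η a))⁻¹ ≠ 0 := by
      intro h
      apply hne
      rw [sub_eq_zero] at h ⊢
      rw [eq_comm, inv_eq_one] at h
      exact h
    field_simp
  rw [h3]
  exact h2

/-- decreasing majorant -/
noncomputable def MM (δ ρ a : ℝ) : ℝ := 1 / (δ + (Real.exp (a * ρ) - 1))

theorem MM_den_pos {δ ρ a : ℝ} (hδ : 0 < δ) (hρ : 0 < ρ) (ha : 0 ≤ a) :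
    0 < δ + (Real.exp (a * ρ) - 1) := by
  have := Real.one_le_exp (by positivity : 0 ≤ a * ρ)
  linarith

theorem hasDerivAt_MM {δ ρ a : ℝ} (hδ : 0 < δ) (hρ : 0 < ρ) (ha : 0 ≤ a) :
    HasDerivAt (MM δ ρ) (-(Real.exp (a * ρ) * ρ) / (δ + (Real.exp (a * ρ) - 1)) ^ 2) a := by
  have h0 : HasDerivAt (fun a : ℝ => a * ρ) ρ a := by
    simpa using (hasDerivAt_id a).mul_const ρ
  have h1 : HasDerivAt (fun a => δ + (Real.exp (a * ρ) - 1)) (Real.exp (a * ρ) * ρ) a :=
    (h0.exp.sub_const 1).const_add δ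
  have h2 := h1.inv (MM_den_pos hδ hρ ha).ne'
  have h3 : MM δ ρ = (fun a => δ + (Real.exp (a * ρ) - 1))⁻¹ := by
    funext x
    simp [MM]
  rw [h3]
  exact h2

theorem MM_pos {δ ρ a : ℝ} (hδ : 0 < δ) (hρ : 0 < ρ) (ha : 0 ≤ a) : 0 < MM δ ρ a :=
  one_div_pos.2 (MM_den_pos hδ hρ ha)

theorem MM_le {δ ρ a : ℝ} (hδ : 0 < δ) (hρ : 0 < ρ) (ha : 0 ≤ a) : MM δ ρ a ≤ 1 / δ := by
  apply one_div_le_one_div_of_le hδ
  have := Real.one_le_exp (by positivity : 0 ≤ a * ρ)
  linarith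

theorem MM_anti {δ ρ a b : ℝ} (hδ : 0 < δ) (hρ : 0 < ρ) (ha : 0 ≤ a) (hab : a ≤ b) :
    MM δ ρ b ≤ MM δ ρ a := by
  apply one_div_le_one_div_of_le (MM_den_pos hδ hρ ha)
  have : Real.exp (a * ρ) ≤ Real.exp (b * ρ) :=
    Real.exp_le_exp.2 (mul_le_mul_of_nonneg_right hab hρ.le)
  linarith

/-- the lower bound constant -/
noncomputable def dl (θ : ℝ) (η : ℂ) : ℝ := 2 * |θ - round θ| * (η.re / ‖η‖)

theorem norm_pos_of_re {η : ℂ} (hη : 0 < η.re) : 0 < ‖η‖ :=
  norm_pos_iff.2 (fun h => by rw [h] at hη; simp at hη)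

theorem dl_pos (hθ : 0 < |θ - round θ|) (hη : 0 < η.re) : 0 < dl θ η := by
  have := norm_pos_of_re hη
  unfold dl
  positivity

theorem lower3 (hη : 0 < η.re) {a : ℝ} (ha : 0 ≤ a) :
    (dl θ η + (Real.exp (a * η.re) - 1)) / 2 ≤ ‖Complex.exp (zz θ η a) - 1‖ := by
  have h1 := lower1 θ hη ha
  have h2 := lower2 θ η a
  unfold dl
  linarith

theorem norm_gg_le (hθ : 0 < |θ - round θ|) (hη : 0 < η.re) {a : ℝ} (ha : 0 ≤ a) :
    ‖gg θ η a‖ ≤ 1 / dl θ η := by
  unfold gg
  rw [norm_div, norm_one]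
  exact one_div_le_one_div_of_le (dl_pos hθ hη) (lower1 θ hη ha)

theorem norm_deriv_gg_le (hθ : 0 < |θ - round θ|) (hη : 0 < η.re) {a : ℝ} (ha : 0 ≤ a) :
    ‖-(Complex.exp (zz θ η a) * η) / (Complex.exp (zz θ η a) - 1) ^ 2‖ ≤
      4 * (‖η‖ / η.re) *
        (Real.exp (a * η.re) * η.re / (dl θ η + (Real.exp (a * η.re) - 1)) ^ 2) := by
  have hden := MM_den_pos (dl_pos hθ hη) hη ha
  have h3 := lower3 (θ := θ) hη ha
  have hn := norm_pos_of_re hη
  rw [norm_div, norm_neg, norm_mul, norm_pow, Complex.norm_exp, zz_re]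
  set E := Real.exp (a * η.re) with hE
  have hE0 : 0 < E := Real.exp_pos _
  set Q := dl θ η + (E - 1) with hQ
  have hD : 0 < ‖Complex.exp (zz θ η a) - 1‖ := by linarith
  have h4 : (Q / 2) ^ 2 ≤ ‖Complex.exp (zz θ η a) - 1‖ ^ 2 :=
    pow_le_pow_left₀ (by linarith) h3 2
  calc E * ‖η‖ / ‖Complex.exp (zz θ η a) - 1‖ ^ 2 ≤ E * ‖η‖ / (Q / 2) ^ 2 := by
        apply div_le_div_of_nonneg_left (by positivity) (by positivity) h4
    _ = 4 * (‖η‖ / η.re) * (E * η.re / Q ^ 2) := by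
        field_simp
        ring

theorem gg_sub_le (hθ : 0 < |θ - round θ|) (hη : 0 < η.re) {a b : ℝ} (ha : 0 ≤ a) (hab : a ≤ b) :
    ‖gg θ η b - gg θ η a‖ ≤
      4 * (‖η‖ / η.re) * (MM (dl θ η) η.re a - MM (dl θ η) η.re b) := by
  have hδ := dl_pos hθ hη
  have key := image_norm_le_of_norm_deriv_right_le_deriv_boundary' (a := a) (b := b)
    (f := fun x => gg θ η x - gg θ η a)
    (f' := fun x => -(Complex.exp (zz θ η x) * η) / (Complex.exp (zz θ η x) - 1) ^ 2)
    (B := fun x => 4 * (‖η‖ / η.re) * (MM (dl θ η) η.re a - MM (dl θ η) η.re x))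
    (B' := fun x => 4 * (‖η‖ / η.re) *
        (Real.exp (x * η.re) * η.re / (dl θ η + (Real.exp (x * η.re) - 1)) ^ 2))
    ?_ ?_ ?_ ?_ ?_ ?_ (Set.right_mem_Icc.2 hab)
  · exact key
  · intro x hx
    exact ((hasDerivAt_gg hθ hη (ha.trans hx.1)).sub_const _).continuousAt.continuousWithinAt
  · intro x hx
    exact ((hasDerivAt_gg hθ hη (ha.trans hx.1)).sub_const _).hasDerivWithinAt
  · simp
  · intro x hx
    exact ((((hasDerivAt_MM hδ hη (ha.trans hx.1)).const_sub _).const_mul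
      _).continuousAt).continuousWithinAt
  · intro x hx
    have h1 := ((hasDerivAt_MM hδ hη (ha.trans hx.1)).const_sub
      (MM (dl θ η) η.re a)).const_mul (4 * (‖η‖ / η.re))
    rw [neg_div, neg_neg] at h1
    exact h1.hasDerivWithinAt
  · intro x hx
    exact norm_deriv_gg_le hθ hη (ha.trans hx.1)

/-- one cell -/
theorem cell_le (hθ : 0 < |θ - round θ|) (hη : 0 < η.re) {a b : ℝ} (ha : 0 ≤ a) (hab : a ≤ b) :
    ‖((b - a : ℝ) : ℂ) * gg θ η a - (FFa θ η b - FFa θ η a)‖ ≤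
      (b - a) * (4 * (‖η‖ / η.re) * (MM (dl θ η) η.re a - MM (dl θ η) η.re b)) := by
  have hδ := dl_pos hθ hη
  have hn := norm_pos_of_re hη
  have key := norm_image_sub_le_of_norm_deriv_le_segment' (a := a) (b := b)
    (f := fun x : ℝ => FFa θ η x - (x : ℂ) * gg θ η a)
    (f' := fun x => gg θ η x - gg θ η a)
    (C := 4 * (‖η‖ / η.re) * (MM (dl θ η) η.re a - MM (dl θ η) η.re b))
    ?_ ?_ b (Set.right_mem_Icc.2 hab)
  · have e : FFa θ η b - (b : ℂ) * gg θ η a - (FFa θ η a - (a : ℂ) * gg θ η a) =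
        -(((b - a : ℝ) : ℂ) * gg θ η a - (FFa θ η b - FFa θ η a)) := by
      push_cast
      ring
    rw [← norm_neg, ← e]
    refine key.trans_eq ?_
    ring
  · intro x hx
    have h1 : HasDerivAt (fun a : ℝ => (a : ℂ)) 1 x := Complex.ofRealCLM.hasDerivAt
    have h2 := h1.mul_const (gg θ η a)
    rw [one_mul] at h2
    exact ((hasDerivAt_FFa hθ hη (ha.trans hx.1)).sub h2).hasDerivWithinAt
  · intro x hx
    refine (gg_sub_le hθ hη ha hx.1).trans ?_
    apply mul_le_mul_of_nonneg_left _ (by positivity)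
    have := MM_anti hδ hη (ha.trans hx.1) hx.2.le
    linarith

theorem FFa_sub_le (hθ : 0 < |θ - round θ|) (hη : 0 < η.re) {a : ℝ} (ha : 0 ≤ a) :
    ‖FFa θ η a - FFa θ η 0‖ ≤ a * (1 / dl θ η) := by
  have key := norm_image_sub_le_of_norm_deriv_le_segment' (a := 0) (b := a)
    (f := FFa θ η) (f' := gg θ η) (C := 1 / dl θ η) ?_ ?_ a (Set.right_mem_Icc.2 ha)
  · refine key.trans_eq ?_
    ring
  · intro x hx
    exact (hasDerivAt_FFa hθ hη hx.1).hasDerivWithinAt
  · intro x hx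
    exact norm_gg_le hθ hη hx.1

theorem sum_le (hθ : 0 < |θ - round θ|) (hη : 0 < η.re) {c h : ℝ} (hc : 0 ≤ c) (hh : 0 ≤ h)
    (J : ℕ) :
    ‖(h : ℂ) * ∑ j ∈ Finset.range J, gg θ η (c + j * h) - (FFa θ η (c + J * h) - FFa θ η c)‖ ≤
      h * (4 * (‖η‖ / η.re) * (MM (dl θ η) η.re c - MM (dl θ η) η.re (c + J * h))) := by
  induction J with
  | zero => simp
  | succ J ih =>
    have h1 := cell_le (θ := θ) (η := η) hθ hη (a := c + J * h) (b := c + ((J + 1 : ℕ) : ℝ) * h)
      (by positivity) (by push_cast; nlinarith)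
    have e1 : (c + ((J + 1 : ℕ) : ℝ) * h) - (c + J * h) = h := by push_cast; ring
    rw [e1] at h1
    have e2 : (h : ℂ) * ∑ j ∈ Finset.range (J + 1), gg θ η (c + j * h) -
        (FFa θ η (c + ((J + 1 : ℕ) : ℝ) * h) - FFa θ η c) =
        ((h : ℂ) * ∑ j ∈ Finset.range J, gg θ η (c + j * h) -
          (FFa θ η (c + J * h) - FFa θ η c)) +
        ((h : ℂ) * gg θ η (c + J * h) -
          (FFa θ η (c + ((J + 1 : ℕ) : ℝ) * h) - FFa θ η (c + J * h))) := by
      rw [Finset.sum_range_succ]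
      ring
    rw [e2]
    refine (norm_add_le _ _).trans ((add_le_add ih h1).trans_eq ?_)
    ring

/-- exponential decay -/
theorem norm_gg_decay (hη : 0 < η.re) {c h : ℝ} (hc : 1 ≤ c) (hh : 1 ≤ h) (j : ℕ) :
    ‖gg θ η (c + j * h)‖ ≤ (1 / (1 - Real.exp (-η.re))) * Real.exp (-η.re) ^ j := by
  have hj : (0 : ℝ) ≤ j := Nat.cast_nonneg j
  have h1 := lower2 θ η (c + j * h)
  have h2 : (1 : ℝ) + j ≤ c + j * h := by nlinarith
  set x := (c + j * h) * η.re with hx
  have h3 : (1 + (j : ℝ)) * η.re ≤ x := mul_le_mul_of_nonneg_right h2 hη.le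
  have hq : Real.exp (-η.re) < 1 := Real.exp_lt_one_iff.2 (by linarith)
  have h4 : Real.exp ((1 + (j : ℝ)) * η.re) ≤ Real.exp x := Real.exp_le_exp.2 h3
  have h5 : (1 - Real.exp (-η.re)) * Real.exp (j * η.re) ≤ Real.exp x - 1 := by
    have e1 : Real.exp (-η.re) * Real.exp (j * η.re) * Real.exp η.re = Real.exp (j * η.re) := by
      rw [← Real.exp_add, ← Real.exp_add]
      congr 1
      ring
    have e2 : Real.exp ((1 + (j : ℝ)) * η.re) = Real.exp (j * η.re) * Real.exp η.re := by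
      rw [← Real.exp_add]
      congr 1
      ring
    have e3 : 1 ≤ Real.exp (j * η.re) := Real.one_le_exp (by positivity)
    have e4 : 1 ≤ Real.exp η.re := Real.one_le_exp hη.le
    have e5 : Real.exp (-η.re) * Real.exp η.re = 1 := by
      rw [← Real.exp_add]; simp
    rw [e2] at h4
    have e6 : 0 < Real.exp (-η.re) := Real.exp_pos _
    nlinarith [mul_nonneg (sub_nonneg.2 e4) (sub_nonneg.2 e3)]
  have h6 : 0 < (1 - Real.exp (-η.re)) * Real.exp (j * η.re) := by
    have := Real.exp_pos (j * η.re)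
    apply mul_pos _ this
    linarith
  unfold gg
  rw [norm_div, norm_one]
  calc 1 / ‖Complex.exp (zz θ η (c + j * h)) - 1‖
      ≤ 1 / ((1 - Real.exp (-η.re)) * Real.exp (j * η.re)) :=
        one_div_le_one_div_of_le h6 (h5.trans h1)
    _ = (1 / (1 - Real.exp (-η.re))) * Real.exp (-η.re) ^ j := by
        rw [← Real.exp_nat_mul, mul_neg, Real.exp_neg (j * η.re), ← one_div, one_div_mul_one_div]

theorem summable_gg (hη : 0 < η.re) {c h : ℝ} (hc : 1 ≤ c) (hh : 1 ≤ h) :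
    Summable fun j : ℕ => gg θ η (c + j * h) := by
  apply Summable.of_norm_bounded (g := fun j : ℕ =>
    (1 / (1 - Real.exp (-η.re))) * Real.exp (-η.re) ^ j)
  · apply Summable.mul_left
    exact summable_geometric_of_lt_one (Real.exp_pos _).le (Real.exp_lt_one_iff.2 (by linarith))
  · intro j
    exact norm_gg_decay hη hc hh j

theorem FFa_tendsto (hη : 0 < η.re) {c h : ℝ} (hh : 0 < h) :
    Tendsto (fun J : ℕ => FFa θ η (c + J * h)) atTop (𝓝 0) := by
  have h1 : Tendsto (fun J : ℕ => (c + J * h) * η.re) atTop atTop := by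
    apply Tendsto.atTop_mul_const hη
    apply tendsto_atTop_add_const_left
    exact tendsto_natCast_atTop_atTop.atTop_mul_const hh
  have h2 : Tendsto (fun J : ℕ => Complex.exp (-(zz θ η (c + J * h)))) atTop (𝓝 0) := by
    rw [tendsto_zero_iff_norm_tendsto_zero]
    have : (fun J : ℕ => ‖Complex.exp (-(zz θ η (c + J * h)))‖) =
        fun J : ℕ => Real.exp (-((c + J * h) * η.re)) := by
      funext J
      rw [Complex.norm_exp, Complex.neg_re, zz_re]
    rw [this]
    exact Real.tendsto_exp_neg_atTop_nhds_zero.comp h1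
  have h3 : Tendsto (fun J : ℕ => Complex.log (1 - Complex.exp (-(zz θ η (c + J * h)))))
      atTop (𝓝 (Complex.log (1 - 0))) := by
    apply (continuousAt_clog (by simp)).tendsto.comp
    exact tendsto_const_nhds.sub h2
  have h4 := h3.div_const η
  simp only [sub_zero, Complex.log_one, zero_div] at h4
  exact h4

end

end ClassC

/-- class `c ≠ 0` -/
theorem class_c : ∃ C : ℝ, 0 < C ∧ ∀ (h : ℕ) (c : ℕ), 0 < c → c < h → ∀ θ : ℝ, (∀ n : ℤ, θ ≠ n) →
    ∀ η : ℂ, 0 < η.re →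
    Summable (fun j : ℕ => 1 / (Complex.exp (2 * Real.pi * Complex.I * θ + (c + j * h) * η) - 1)) ∧
    ‖(∑' j : ℕ, 1 / (Complex.exp (2 * Real.pi * Complex.I * θ + (c + j * h) * η) - 1)) -
      (1 / (h * η)) * (-Complex.log (1 - Complex.exp (-(2 * Real.pi * Complex.I * θ))))‖ ≤
      C * (‖η‖ / η.re) ^ 2 / |θ - round θ| := by
  refine ⟨3, by norm_num, ?_⟩
  intro h c hc hch θ hθ' η hη
  have hθ : 0 < |θ - round θ| := abs_pos.2 (sub_ne_zero.2 (hθ' _))
  have hc1 : (1 : ℝ) ≤ c := by exact_mod_cast hc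
  have hh1 : (1 : ℝ) ≤ h := by exact_mod_cast (by omega : 1 ≤ h)
  have hch' : (c : ℝ) ≤ h := by exact_mod_cast hch.le
  have hfun : (fun j : ℕ => 1 / (Complex.exp (2 * Real.pi * Complex.I * θ + (c + j * h) * η) - 1))
      = fun j : ℕ => ClassC.gg θ η ((c : ℝ) + j * h) := by
    funext j
    unfold ClassC.gg ClassC.zz
    push_cast
    rfl
  rw [hfun]
  have hsum := ClassC.summable_gg (θ := θ) hη hc1 hh1
  refine ⟨hsum, ?_⟩
  set S := ∑' j : ℕ, ClassC.gg θ η ((c : ℝ) + j * h) with hS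
  have hδ := ClassC.dl_pos hθ hη
  have hn := ClassC.norm_pos_of_re hη
  have hη0 : η ≠ 0 := norm_pos_iff.1 hn
  have h1 : Tendsto (fun J : ℕ => ‖((h : ℝ) : ℂ) * ∑ j ∈ Finset.range J, ClassC.gg θ η ((c : ℝ) + j * h) -
      (ClassC.FFa θ η (c + J * h) - ClassC.FFa θ η c)‖) atTop
      (𝓝 ‖((h : ℝ) : ℂ) * S - (0 - ClassC.FFa θ η c)‖) := by
    apply Tendsto.norm
    apply Tendsto.sub
    · exact (hsum.hasSum.tendsto_sum_nat).const_mul _
    · exact (ClassC.FFa_tendsto hη (by linarith)).sub_const _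
  have h2 : ‖((h : ℝ) : ℂ) * S - (0 - ClassC.FFa θ η c)‖ ≤
      h * (4 * (‖η‖ / η.re) * (1 / ClassC.dl θ η)) := by
    apply le_of_tendsto h1
    filter_upwards with J
    refine (ClassC.sum_le hθ hη (by linarith) (by linarith) J).trans ?_
    apply mul_le_mul_of_nonneg_left _ (by linarith)
    apply mul_le_mul_of_nonneg_left _ (by positivity)
    have e1 := ClassC.MM_le (a := (c : ℝ)) hδ hη (by linarith)
    have e2 := ClassC.MM_pos (a := (c : ℝ) + J * h) hδ hη (by positivity)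
    linarith
  have h3 := ClassC.FFa_sub_le hθ hη (a := (c : ℝ)) (by linarith)
  have h4 : ‖((h : ℝ) : ℂ) * S + ClassC.FFa θ η 0‖ ≤
      h * (4 * (‖η‖ / η.re) * (1 / ClassC.dl θ η)) + h * (1 / ClassC.dl θ η) := by
    have e1 : ((h : ℝ) : ℂ) * S + ClassC.FFa θ η 0 =
        (((h : ℝ) : ℂ) * S - (0 - ClassC.FFa θ η c)) - (ClassC.FFa θ η c - ClassC.FFa θ η 0) := by
      ring
    rw [e1]
    refine (norm_sub_le _ _).trans (add_le_add h2 (h3.trans ?_))
    exact mul_le_mul_of_nonneg_right hch' (by positivity)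
  have h5 : S - (1 / (h * η)) * (-Complex.log (1 - Complex.exp (-(2 * Real.pi * Complex.I * θ)))) =
      (((h : ℝ) : ℂ) * S + ClassC.FFa θ η 0) / ((h : ℝ) : ℂ) := by
    have hhne : ((h : ℝ) : ℂ) ≠ 0 := by
      rw [Complex.ofReal_ne_zero]
      linarith
    unfold ClassC.FFa ClassC.zz
    push_cast at hhne ⊢
    rw [zero_mul, add_zero]
    field_simp
    ring
  have hhnorm : ‖((h : ℝ) : ℂ)‖ = h := by
    rw [Complex.norm_real, Real.norm_eq_abs, abs_of_pos (by linarith)]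
  rw [h5, norm_div, hhnorm, div_le_iff₀ (by linarith)]
  refine h4.trans ?_
  set κ := ‖η‖ / η.re with hκ
  have hκ1 : 1 ≤ κ := by
    rw [hκ, one_le_div hη]
    exact (le_abs_self _).trans (Complex.abs_re_le_norm η)
  have hdl : 1 / ClassC.dl θ η = κ / (2 * |θ - round θ|) := by
    unfold ClassC.dl
    rw [hκ]
    field_simp
  rw [hdl]
  set d := |θ - round θ| with hd
  have h6 : 4 * κ * (κ / (2 * d)) + κ / (2 * d) ≤ 3 * κ ^ 2 / d := by
    rw [← sub_nonneg]
    have : 3 * κ ^ 2 / d - (4 * κ * (κ / (2 * d)) + κ / (2 * d)) = (2 * κ ^ 2 - κ) / (2 * d) := by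
      field_simp
      ring
    rw [this]
    apply div_nonneg _ (by positivity)
    nlinarith
  nlinarith [mul_le_mul_of_nonneg_left h6 (by linarith : (0:ℝ) ≤ h)]

end Pool.Agent.EvenMoment
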