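import Mathlib

/-!
Piece P7b: the class zero sum.
-/

namespace Pool.Agent.EvenMoment

open Filter Topology MeasureTheory

namespace P7b

lemma one_sub_exp_le {w : ℂ} (hw : 0 ≤ w.re) : ‖1 - Complex.exp (-w)‖ ≤ ‖w‖ := by
  have h := Convex.norm_image_sub_le_of_norm_deriv_le (𝕜 := ℂ) (f := fun z : ℂ => Complex.exp (-z))
    (C := 1) (s := {z : ℂ | 0 ≤ z.re}) (x := w) (y := 0)
    (fun z _ => by fun_prop)
    (fun z hz => by
      have h1 : HasDerivAt (fun z : ℂ => Complex.exp (-z)) (Complex.exp (-z) * (-1)) z :=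
        (Complex.hasDerivAt_exp (-z)).comp z (hasDerivAt_neg z)
      rw [h1.deriv]
      simp only [mul_neg, mul_one, norm_neg, Complex.norm_exp, Complex.neg_re]
      exact Real.exp_le_one_iff.mpr (neg_nonpos.mpr hz))
    (convex_halfSpace_re_ge 0) hw (by simp)
  simpa using h

lemma quad_le {w : ℂ} (hw : 0 ≤ w.re) : ‖w - 1 + Complex.exp (-w)‖ ≤ ‖w‖ ^ 2 := by
  have h := Convex.norm_image_sub_le_of_norm_deriv_le (𝕜 := ℂ)
    (f := fun z : ℂ => z - 1 + Complex.exp (-z))
    (C := ‖w‖) (s := {z : ℂ | 0 ≤ z.re} ∩ Metric.closedBall 0 ‖w‖) (x := 0) (y := w)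
    (fun z _ => by fun_prop)
    (fun z hz => by
      have h1 : HasDerivAt (fun z : ℂ => Complex.exp (-z)) (Complex.exp (-z) * (-1)) z :=
        (Complex.hasDerivAt_exp (-z)).comp z (hasDerivAt_neg z)
      have h2 : HasDerivAt (fun z : ℂ => z - 1 + Complex.exp (-z)) (1 + Complex.exp (-z) * (-1)) z :=
        ((hasDerivAt_id z).sub_const 1).add h1
      rw [h2.deriv]
      have h3 : (1 : ℂ) + Complex.exp (-z) * (-1) = 1 - Complex.exp (-z) := by ring
      rw [h3]
      refine (one_sub_exp_le hz.1).trans ?_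
      simpa using hz.2)
    ((convex_halfSpace_re_ge 0).inter (convex_closedBall 0 ‖w‖)) (by simp)
    ⟨hw, by simp⟩
  simpa [sq] using h

lemma low {w : ℂ} (hw : 0 < w.re) : w.re / (1 + w.re) ≤ ‖1 - Complex.exp (-w)‖ := by
  have h1 : 1 - Real.exp (-w.re) ≤ ‖1 - Complex.exp (-w)‖ := by
    have := norm_sub_norm_le (1 : ℂ) (Complex.exp (-w))
    simpa [Complex.norm_exp] using this
  refine le_trans ?_ h1
  have h2 : Real.exp (-w.re) ≤ (1 + w.re)⁻¹ := by
    rw [Real.exp_neg]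
    exact inv_anti₀ (by linarith) (by linarith [Real.add_one_le_exp w.re])
  have h3 : w.re / (1 + w.re) = 1 - (1 + w.re)⁻¹ := by
    field_simp
    ring
  linarith

lemma exp_sub_one_ne {w : ℂ} (hw : 0 < w.re) : Complex.exp w - 1 ≠ 0 := by
  intro h
  have h1 : Complex.exp w = 1 := sub_eq_zero.mp h
  have h2 := congrArg norm h1
  rw [Complex.norm_exp, norm_one, Real.exp_eq_one_iff] at h2
  linarith

lemma term_le {w : ℂ} (hw : 0 < w.re) :
    ‖1 / (Complex.exp w - 1) - Complex.exp (-w) / w‖ ≤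
      2 * (‖w‖ / w.re) * Real.exp (-(w.re / 2)) := by
  have hw0 : w ≠ 0 := by
    intro h
    rw [h] at hw
    simp at hw
  have hn : 0 < ‖w‖ := norm_pos_iff.mpr hw0
  have hne := exp_sub_one_ne hw
  have hlow := low hw
  have hpos : 0 < w.re / (1 + w.re) := by positivity
  have hne2 : 1 - Complex.exp (-w) ≠ 0 := by
    intro h
    rw [h, norm_zero] at hlow
    linarith
  have e1 : 1 / (Complex.exp w - 1) - Complex.exp (-w) / w =
      Complex.exp (-w) * (w - 1 + Complex.exp (-w)) / (w * (1 - Complex.exp (-w))) := by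
    have h1 : Complex.exp w - 1 = Complex.exp w * (1 - Complex.exp (-w)) := by
      rw [mul_sub, ← Complex.exp_add]
      simp
    rw [h1]
    have h2 : Complex.exp (-w) = (Complex.exp w)⁻¹ := Complex.exp_neg w
    have h3 := Complex.exp_ne_zero w
    rw [div_sub_div _ _ (mul_ne_zero h3 hne2) hw0, div_eq_div_iff
      (mul_ne_zero (mul_ne_zero h3 hne2) hw0) (mul_ne_zero hw0 hne2)]
    have h4 : Complex.exp w * Complex.exp (-w) = 1 := by
      rw [← Complex.exp_add]; simp
    linear_combination (w * (1 - Complex.exp (-w)) * (1 - w - Complex.exp (-w)) -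
      w * (1 - Complex.exp (-w)) * (1 - Complex.exp (-w))) * h4
  rw [e1, norm_div, norm_mul, norm_mul, Complex.norm_exp, Complex.neg_re]
  have hq := quad_le hw.le
  have h5 : Real.exp (-w.re) * ‖w - 1 + Complex.exp (-w)‖ / (‖w‖ * ‖1 - Complex.exp (-w)‖) ≤
      Real.exp (-w.re) * ‖w‖ ^ 2 / (‖w‖ * (w.re / (1 + w.re))) := by
    gcongr
  refine h5.trans ?_
  have h6 : Real.exp (-w.re) * ‖w‖ ^ 2 / (‖w‖ * (w.re / (1 + w.re))) =
      (‖w‖ / w.re) * ((1 + w.re) * Real.exp (-w.re)) := by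
    field_simp
  rw [h6]
  have h7 : (1 + w.re) * Real.exp (-w.re) ≤ 2 * Real.exp (-(w.re / 2)) := by
    have h8 : Real.exp (-w.re) = Real.exp (-(w.re / 2)) * Real.exp (-(w.re / 2)) := by
      rw [← Real.exp_add]; ring_nf
    have h9 : (1 + w.re) * Real.exp (-(w.re / 2)) ≤ 2 := by
      rw [Real.exp_neg, ← div_eq_mul_inv, div_le_iff₀ (Real.exp_pos _)]
      nlinarith [Real.add_one_le_exp (w.re / 2)]
    rw [h8, ← mul_assoc]
    exact mul_le_mul_of_nonneg_right h9 (Real.exp_pos _).le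
  calc (‖w‖ / w.re) * ((1 + w.re) * Real.exp (-w.re))
      ≤ (‖w‖ / w.re) * (2 * Real.exp (-(w.re / 2))) :=
        mul_le_mul_of_nonneg_left h7 (by positivity)
    _ = _ := by ring

end P7b

open P7b in
/-- class `0` -/
theorem class_0 : ∃ C : ℝ, 0 < C ∧ ∀ x : ℂ, 0 < x.re → ‖x‖ ≤ 1 →
    Summable (fun b : ℕ => 1 / (Complex.exp ((b + 1) * x) - 1)) ∧
    ‖(∑' b : ℕ, 1 / (Complex.exp ((b + 1) * x) - 1)) + Complex.log x / x‖ ≤
      C * (‖x‖ / x.re) ^ 2 / ‖x‖ := by
  refine ⟨4 + (Real.log 4 + 2 * Real.pi), by positivity, ?_⟩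
  intro x hx hx1
  have hx0 : x ≠ 0 := by
    intro h
    rw [h] at hx
    simp at hx
  have hn : 0 < ‖x‖ := norm_pos_iff.mpr hx0
  have hκ : 1 ≤ ‖x‖ / x.re := by
    rw [le_div_iff₀ hx, one_mul]
    exact (le_abs_self _).trans (Complex.abs_re_le_norm x)
  -- the main sum
  have hz : ‖Complex.exp (-x)‖ < 1 := by
    rw [Complex.norm_exp, Complex.neg_re]
    exact Real.exp_lt_one_iff.mpr (by linarith)
  have hS0 := Complex.hasSum_taylorSeries_neg_log hz
  have hS1 : HasSum (fun b : ℕ => Complex.exp (-x) ^ (b + 1) / ((b + 1 : ℕ) : ℂ))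
      (-Complex.log (1 - Complex.exp (-x))) := by
    have := (hasSum_nat_add_iff' (f := fun n : ℕ => Complex.exp (-x) ^ n / (n : ℂ)) 1).mpr hS0
    simpa using this
  have hS2 : HasSum (fun b : ℕ => Complex.exp (-((b + 1) * x)) / ((b + 1) * x))
      (-Complex.log (1 - Complex.exp (-x)) / x) := by
    have := hS1.div_const x
    have heq : (fun b : ℕ => Complex.exp (-((b + 1) * x)) / ((b + 1) * x)) =
        fun b : ℕ => Complex.exp (-x) ^ (b + 1) / ((b + 1 : ℕ) : ℂ) / x := by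
      funext b
      have h1 : Complex.exp (-((b + 1 : ℂ) * x)) = Complex.exp (-x) ^ (b + 1) := by
        rw [← Complex.exp_nat_mul]
        congr 1
        push_cast
        ring
      rw [h1, div_div]
      push_cast
      rfl
    rw [heq]
    exact this
  -- the error sum
  have hre : ∀ b : ℕ, (((b : ℂ) + 1) * x).re = (b + 1) * x.re := by
    intro b
    simp [Complex.add_re, Complex.mul_re]
  have hnorm : ∀ b : ℕ, ‖((b : ℂ) + 1) * x‖ = (b + 1) * ‖x‖ := by
    intro b
    rw [norm_mul]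
    congr 1
    have : ((b : ℂ) + 1) = ((b + 1 : ℕ) : ℂ) := by push_cast; rfl
    rw [this, Complex.norm_natCast]
    push_cast
    rfl
  have hterm : ∀ b : ℕ, ‖1 / (Complex.exp ((b + 1) * x) - 1) -
      Complex.exp (-((b + 1) * x)) / ((b + 1) * x)‖ ≤
      2 * (‖x‖ / x.re) * Real.exp (-(x.re / 2)) ^ (b + 1) := by
    intro b
    have hb : (0 : ℝ) < b + 1 := by positivity
    have h1 := term_le (w := ((b : ℂ) + 1) * x) (by rw [hre]; positivity)
    refine h1.trans (le_of_eq ?_)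
    rw [hre, hnorm, mul_div_mul_left _ _ hb.ne', ← Real.exp_nat_mul]
    congr 2
    push_cast
    ring
  have hr0 : 0 < Real.exp (-(x.re / 2)) := Real.exp_pos _
  have hr1 : Real.exp (-(x.re / 2)) < 1 := Real.exp_lt_one_iff.mpr (by linarith)
  have hg : HasSum (fun b : ℕ => 2 * (‖x‖ / x.re) * Real.exp (-(x.re / 2)) ^ (b + 1))
      (2 * (‖x‖ / x.re) * (Real.exp (-(x.re / 2)) * (1 - Real.exp (-(x.re / 2)))⁻¹)) := by
    have h1 := (hasSum_geometric_of_lt_one hr0.le hr1).mul_left (Real.exp (-(x.re / 2)))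
    have h2 := h1.mul_left (2 * (‖x‖ / x.re))
    have heq : (fun b : ℕ => 2 * (‖x‖ / x.re) * Real.exp (-(x.re / 2)) ^ (b + 1)) =
        fun b : ℕ => 2 * (‖x‖ / x.re) * (Real.exp (-(x.re / 2)) * Real.exp (-(x.re / 2)) ^ b) := by
      funext b
      rw [pow_succ]
      ring
    rw [heq]
    exact h2
  have hE : Summable (fun b : ℕ => 1 / (Complex.exp ((b + 1) * x) - 1) -
      Complex.exp (-((b + 1) * x)) / ((b + 1) * x)) :=
    Summable.of_norm_bounded hg.summable hterm
  have hsum : Summable (fun b : ℕ => 1 / (Complex.exp ((b + 1) * x) - 1)) := by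
    have := hE.add hS2.summable
    convert this using 2 with b
    ring
  refine ⟨hsum, ?_⟩
  have hErr : ‖∑' b : ℕ, (1 / (Complex.exp ((b + 1) * x) - 1) -
      Complex.exp (-((b + 1) * x)) / ((b + 1) * x))‖ ≤ 4 * (‖x‖ / x.re) ^ 2 / ‖x‖ := by
    refine (tsum_of_norm_bounded hg hterm).trans ?_
    have h1 : Real.exp (-(x.re / 2)) * (1 - Real.exp (-(x.re / 2)))⁻¹ ≤ 2 / x.re := by
      rw [← div_eq_mul_inv, div_le_div_iff₀ (by linarith) hx]
      have h2 : Real.exp (-(x.re / 2)) * Real.exp (x.re / 2) = 1 := by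
        rw [← Real.exp_add]; simp
      nlinarith [Real.add_one_le_exp (x.re / 2)]
    calc 2 * (‖x‖ / x.re) * (Real.exp (-(x.re / 2)) * (1 - Real.exp (-(x.re / 2)))⁻¹)
        ≤ 2 * (‖x‖ / x.re) * (2 / x.re) := mul_le_mul_of_nonneg_left h1 (by positivity)
      _ = 4 * (‖x‖ / x.re) ^ 2 / ‖x‖ := by
        field_simp
        ring
  have hsplit : ∑' b : ℕ, (1 / (Complex.exp ((b + 1) * x) - 1) -
      Complex.exp (-((b + 1) * x)) / ((b + 1) * x)) =
      (∑' b : ℕ, 1 / (Complex.exp ((b + 1) * x) - 1)) -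
        (-Complex.log (1 - Complex.exp (-x)) / x) := by
    rw [hsum.tsum_sub hS2.summable, hS2.tsum_eq]
  -- the logarithm
  have hup := one_sub_exp_le hx.le
  have hlo : ‖x‖ / 4 ≤ ‖1 - Complex.exp (-x)‖ := by
    have h1 := Complex.exp_bound (x := -x) (by simpa using hx1) (n := 2) (by norm_num)
    simp only [Finset.sum_range_succ, Finset.sum_range_zero, Nat.factorial] at h1
    norm_num at h1
    have h2 : ‖x‖ = ‖(1 - Complex.exp (-x)) + (Complex.exp (-x) - (1 + -x))‖ := by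
      congr 1
      ring
    have h3 := norm_add_le (1 - Complex.exp (-x)) (Complex.exp (-x) - (1 + -x))
    rw [← h2] at h3
    nlinarith
  have hpos : 0 < ‖1 - Complex.exp (-x)‖ := by
    refine lt_of_lt_of_le ?_ hlo
    positivity
  have hlog : ‖Complex.log x - Complex.log (1 - Complex.exp (-x))‖ ≤ Real.log 4 + 2 * Real.pi := by
    refine (Complex.norm_le_abs_re_add_abs_im _).trans ?_
    rw [Complex.sub_re, Complex.sub_im, Complex.log_re, Complex.log_re, Complex.log_im,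
      Complex.log_im]
    have h1 : |Real.log ‖x‖ - Real.log ‖1 - Complex.exp (-x)‖| ≤ Real.log 4 := by
      have h2 : Real.log ‖1 - Complex.exp (-x)‖ ≤ Real.log ‖x‖ := Real.log_le_log hpos hup
      have h3 : Real.log ‖x‖ ≤ Real.log ‖1 - Complex.exp (-x)‖ + Real.log 4 := by
        rw [← Real.log_mul hpos.ne' (by norm_num)]
        exact Real.log_le_log hn (by linarith)
      rw [abs_le]
      constructor
      · have := Real.log_nonneg (show (1 : ℝ) ≤ 4 by norm_num)
        linarith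
      · linarith
    have h4 : |Complex.arg x - Complex.arg (1 - Complex.exp (-x))| ≤ 2 * Real.pi := by
      refine (abs_sub _ _).trans ?_
      linarith [Complex.abs_arg_le_pi x, Complex.abs_arg_le_pi (1 - Complex.exp (-x))]
    linarith
  have hfin : (∑' b : ℕ, 1 / (Complex.exp ((b + 1) * x) - 1)) + Complex.log x / x =
      (∑' b : ℕ, (1 / (Complex.exp ((b + 1) * x) - 1) -
      Complex.exp (-((b + 1) * x)) / ((b + 1) * x))) +
      (Complex.log x - Complex.log (1 - Complex.exp (-x))) / x := by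
    rw [hsplit]
    ring
  rw [hfin]
  refine (norm_add_le _ _).trans ?_
  have h5 : ‖(Complex.log x - Complex.log (1 - Complex.exp (-x))) / x‖ ≤
      (Real.log 4 + 2 * Real.pi) * (‖x‖ / x.re) ^ 2 / ‖x‖ := by
    rw [norm_div]
    gcongr
    refine hlog.trans ?_
    have h6 : 0 ≤ Real.log 4 + 2 * Real.pi := (norm_nonneg _).trans hlog
    nlinarith [mul_nonneg h6 (by nlinarith : (0 : ℝ) ≤ (‖x‖ / x.re) ^ 2 - 1)]
  calc _ ≤ 4 * (‖x‖ / x.re) ^ 2 / ‖x‖ + (Real.log 4 + 2 * Real.pi) * (‖x‖ / x.re) ^ 2 / ‖x‖ :=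
        add_le_add hErr h5
    _ = _ := by ring

end Pool.Agent.EvenMoment
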