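import Mathlib
import Pool.Agent.Lib_MP_112ba8_e.Defs

/-!
Piece P13e: the constant for the eighth moment, from the estimates `shell_N`, `shell_D`,
`shell_D_pos` (given as hypotheses): `const8 hA = const8_of shell_N shell_D shell_D_pos hA`.
-/

namespace Pool.Agent.EvenMoment

open Filter Topology MeasureTheory

lemma adm_hat {θ δ : ℝ} (hδ : 0 < δ) : Adm (hat θ δ) θ := by
  refine ⟨?_, ?_⟩
  · unfold hat
    fun_prop
  · intro s hs
    unfold hat
    have h1 : 0 ≤ 2 * (s - θ) / δ := by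
      have : 0 ≤ s - θ := by linarith
      positivity
    rw [abs_of_nonneg (by linarith)]
    exact max_eq_left (by linarith)

theorem const8_of
    (shell_N : ∀ {θ δ : ℝ}, 0 < δ → δ < θ → 3 * θ < 1 →
      (δ / 2) ^ 3 * (2 * (θ - δ) ^ 10 * (19 / 179200)) ≤ LF 4 (Gz (hat θ δ) 3))
    (shell_D : ∀ {θ δ : ℝ}, 0 < δ → δ < θ → 3 * θ < 1 → δ ≤ 1 / 2 →
      LF 4 (fun s => ∏ i, hat θ δ (s i)) ≤ (δ / 2) ^ 4 / 2 * (θ ^ 8 / 5040 + 16 * δ))
    (shell_D_pos : ∀ {θ δ : ℝ}, 0 < δ → δ < θ → 0 < LF 4 (fun s => ∏ i, hat θ δ (s i)))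
    {A : ℝ} (hA : A < 1001 * (361 / 360) ^ 2) : ∃ θ : ℝ, ∃ ω : ℝ → ℝ, 0 < θ ∧
    3 * θ < 1 ∧ Adm ω θ ∧ 0 < LF 4 (Gz ω 3) ∧ 0 < LF 4 (fun s => ∏ i, ω (s i)) ∧
    A / (Nat.factorial 16) < (LF 4 (Gz ω 3)) ^ 4 / (LF 4 (fun s => ∏ i, ω (s i))) ^ 3 := by
  set f : ℝ → ℝ := fun δ => (128 * ((1 / 3 - δ - δ) ^ 10 * (19 / 179200)) ^ 4) /
    (((1 / 3 - δ) ^ 8 / 5040 + 16 * δ) ^ 3) with hf
  have hf0 : f 0 = 1001 * (361 / 360) ^ 2 / (Nat.factorial 16) := by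
    simp only [hf]
    norm_num [Nat.factorial]
  have hfc : ContinuousAt f 0 := by
    simp only [hf]
    apply ContinuousAt.div (by fun_prop) (by fun_prop)
    norm_num
  have hlt : A / (Nat.factorial 16) < f 0 := by
    rw [hf0]
    exact div_lt_div_of_pos_right hA (by positivity)
  have hev : ∀ᶠ δ in 𝓝 (0 : ℝ), A / (Nat.factorial 16) < f δ := hfc.eventually (lt_mem_nhds hlt)
  obtain ⟨ε, hε, hball⟩ := Metric.eventually_nhds_iff.1 hev
  set δ : ℝ := min (ε / 2) (1 / 10) with hδdef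
  have hδ : 0 < δ := lt_min (by linarith) (by norm_num)
  have hδ1 : δ ≤ 1 / 10 := min_le_right _ _
  have hδ2 : δ < ε := lt_of_le_of_lt (min_le_left _ _) (by linarith)
  have hmain : A / (Nat.factorial 16) < f δ := hball (by
    rw [Real.dist_eq, sub_zero, abs_of_pos hδ]; exact hδ2)
  have hδθ : δ < 1 / 3 - δ := by linarith
  have hθ : 3 * (1 / 3 - δ) < 1 := by linarith
  have hN := shell_N hδ hδθ hθ
  have hD := shell_D hδ hδθ hθ (by linarith)
  have hDp := shell_D_pos (θ := 1 / 3 - δ) hδ hδθ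
  set N := LF 4 (Gz (hat (1 / 3 - δ) δ) 3) with hNdef
  set D := LF 4 (fun s => ∏ i, hat (1 / 3 - δ) δ (s i)) with hDdef
  have hx : (0 : ℝ) < 1 / 3 - δ - δ := by linarith
  have hNp : 0 < N := lt_of_lt_of_le (by positivity) hN
  refine ⟨1 / 3 - δ, hat (1 / 3 - δ) δ, by linarith, hθ, adm_hat hδ, hNp, hDp, lt_of_lt_of_le hmain ?_⟩
  have hy : (0 : ℝ) < (1 / 3 - δ) ^ 8 / 5040 + 16 * δ := by
    have : (0 : ℝ) < 1 / 3 - δ := by linarith
    positivity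
  calc f δ = ((δ / 2) ^ 3 * (2 * (1 / 3 - δ - δ) ^ 10 * (19 / 179200))) ^ 4 /
        ((δ / 2) ^ 4 / 2 * ((1 / 3 - δ) ^ 8 / 5040 + 16 * δ)) ^ 3 := by
        simp only [hf]
        rw [div_eq_div_iff (by positivity) (by positivity)]
        ring
    _ ≤ N ^ 4 / D ^ 3 := by
        apply div_le_div₀ (by positivity) _ (by positivity) _
        · exact pow_le_pow_left₀ (by positivity) hN 4
        · exact pow_le_pow_left₀ hDp.le hD 3

end Pool.Agent.EvenMoment
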