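import Pool.Agent.Lib_MP_112ba8_e.ContourA

/-!
The double Dirichlet series `Sz` as an integral over the critical line.
-/

namespace Pool.Agent.EvenMoment

open Filter Topology MeasureTheory Set Complex

/-- the integrand -/
noncomputable def ctg (z s : ℂ) : ℂ := Complex.Gamma s * riemannZeta s ^ 2 * z ^ (-s)

lemma ctg_diff {z : ℂ} (hz : z ≠ 0) {s : ℂ} (hs : 0 < s.re) (h1 : s ≠ 1) :
    DifferentiableAt ℂ (ctg z) s := by
  unfold ctg
  refine DifferentiableAt.mul (DifferentiableAt.mul ?_ ?_) ?_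
  · refine Complex.differentiableAt_Gamma s fun m h => ?_
    have := congrArg Complex.re h
    simp at this
    have h3 : (0 : ℝ) ≤ m := Nat.cast_nonneg m
    linarith
  · exact (differentiableAt_riemannZeta h1).pow 2
  · exact (differentiableAt_id.neg).const_cpow (Or.inl hz)

lemma ct_pow_exp {c : ℝ} (hc : 0 < c) : ∃ K : ℝ, 0 < K ∧ ∀ t : ℝ, 0 ≤ t →
    (1 + t) ^ 4 * Real.exp (-(c * t)) ≤ K * Real.exp (-(c / 2 * t)) := by
  refine ⟨(8 / c + 1) ^ 4, by positivity, fun t ht => ?_⟩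
  have h1 : 1 + t ≤ (8 / c + 1) * Real.exp (c * t / 8) := by
    have h2 := Real.add_one_le_exp (c * t / 8)
    have h3 : (8 / c + 1) * (c * t / 8 + 1) = t + 1 + (8 / c + c * t / 8) := by
      field_simp; ring
    have h4 : 0 ≤ 8 / c + c * t / 8 := by positivity
    calc 1 + t ≤ (8 / c + 1) * (c * t / 8 + 1) := by rw [h3]; linarith
      _ ≤ _ := by gcongr
  calc (1 + t) ^ 4 * Real.exp (-(c * t)) ≤
        ((8 / c + 1) * Real.exp (c * t / 8)) ^ 4 * Real.exp (-(c * t)) := by gcongr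
    _ = (8 / c + 1) ^ 4 * (Real.exp (c * t / 8) ^ 4 * Real.exp (-(c * t))) := by ring
    _ = (8 / c + 1) ^ 4 * Real.exp (-(c / 2 * t)) := by
        rw [← Real.exp_nat_mul, ← Real.exp_add]
        congr 2
        push_cast; ring

/-- bound for Gamma times a power -/
lemma ct_gp_decay {z : ℂ} (hz : 0 < z.re) : ∃ K c : ℝ, 0 < K ∧ 0 < c ∧ ∀ s : ℂ, 1 / 2 ≤ s.re →
    s.re ≤ 2 → ‖Complex.Gamma s * z ^ (-s)‖ ≤ K * Real.exp (-(c * |s.im|)) := by
  have hz0 : z ≠ 0 := by rintro rfl; simp at hz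
  have hzn : 0 < ‖z‖ := norm_pos_iff.mpr hz0
  have harg : |Complex.arg z| < Real.pi / 2 := Complex.abs_arg_lt_pi_div_two_iff.mpr (Or.inl hz)
  set φ := |Complex.arg z| with hφ
  have hφ0 : 0 ≤ φ := abs_nonneg _
  obtain ⟨K, hK, hG⟩ := ct_Gamma_decay (θ := (φ + Real.pi / 2) / 2) (by positivity) (by linarith)
  set M := ‖z‖ ^ (-(1 / 2) : ℝ) + ‖z‖ ^ (-2 : ℝ) with hM
  have hM0 : 0 < M := by positivity
  refine ⟨K * M, (Real.pi / 2 - φ) / 2, by positivity, by linarith, fun s h1 h2 => ?_⟩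
  rw [norm_mul, ct_cpow_norm hz0]
  have hpow : ‖z‖ ^ (-s.re) ≤ M := by
    rcases le_total ‖z‖ 1 with h | h
    · have : ‖z‖ ^ (-s.re) ≤ ‖z‖ ^ (-2 : ℝ) :=
        Real.rpow_le_rpow_of_exponent_ge hzn h (by linarith)
      exact le_add_of_nonneg_of_le (by positivity) this
    · have : ‖z‖ ^ (-s.re) ≤ ‖z‖ ^ (-(1 / 2) : ℝ) :=
        Real.rpow_le_rpow_of_exponent_le h (by linarith)
      exact le_add_of_le_of_nonneg this (by positivity)
  have hexp : Real.exp (Complex.arg z * s.im) ≤ Real.exp (φ * |s.im|) := by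
    apply Real.exp_le_exp.mpr
    rw [hφ, ← abs_mul]
    exact le_abs_self _
  calc ‖Complex.Gamma s‖ * (‖z‖ ^ (-s.re) * Real.exp (Complex.arg z * s.im))
      ≤ (K * Real.exp (-((φ + Real.pi / 2) / 2 * |s.im|))) * (M * Real.exp (φ * |s.im|)) := by
        gcongr
        exact hG s h1 h2
    _ = K * M * (Real.exp (-((φ + Real.pi / 2) / 2 * |s.im|)) * Real.exp (φ * |s.im|)) := by ring
    _ = K * M * Real.exp (-((Real.pi / 2 - φ) / 2 * |s.im|)) := by
        rw [← Real.exp_add]; congr 2; ring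

/-- bound for the integrand -/
lemma ctg_decay {z : ℂ} (hz : 0 < z.re) : ∃ K c : ℝ, 0 < K ∧ 0 < c ∧ ∀ s : ℂ, 1 / 2 ≤ s.re →
    s.re ≤ 2 → 1 ≤ |s.im| → ‖ctg z s‖ ≤ K * Real.exp (-(c * |s.im|)) := by
  obtain ⟨K, c, hK, hc, h⟩ := ct_gp_decay hz
  obtain ⟨K', hK', h'⟩ := ct_pow_exp hc
  refine ⟨K * 196 * K', c / 2, by positivity, by positivity, fun s h1 h2 h3 => ?_⟩
  have e : ctg z s = (Complex.Gamma s * z ^ (-s)) * riemannZeta s ^ 2 := by unfold ctg; ring
  have hζ := ct_zeta_strip (s := s) (by linarith) h2 h3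
  rw [e, norm_mul, norm_pow]
  calc ‖Complex.Gamma s * z ^ (-s)‖ * ‖riemannZeta s‖ ^ 2
      ≤ (K * Real.exp (-(c * |s.im|))) * (14 * (1 + |s.im|) ^ 2) ^ 2 := by
        gcongr
        exact h s h1 h2
    _ = K * 196 * ((1 + |s.im|) ^ 4 * Real.exp (-(c * |s.im|))) := by ring
    _ ≤ K * 196 * (K' * Real.exp (-(c / 2 * |s.im|))) :=
        mul_le_mul_of_nonneg_left (h' _ (abs_nonneg _)) (by positivity)
    _ = _ := by ring

lemma ct_int_exp {c : ℝ} (hc : 0 < c) : Integrable fun t : ℝ => Real.exp (-(c * |t|)) := by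
  have h1 : IntegrableOn (fun t : ℝ => Real.exp (-(c * |t|))) (Ioi 0) := by
    refine (exp_neg_integrableOn_Ioi 0 hc).congr_fun (fun t ht => ?_) measurableSet_Ioi
    have ht' : (0 : ℝ) < t := ht
    simp only [abs_of_pos ht', neg_mul]
  have h2 : IntegrableOn (fun t : ℝ => Real.exp (-(c * |t|))) (Iic 0) := by
    have h3 : IntegrableOn (fun t : ℝ => Real.exp (-(c * |t|))) (Ici 0) :=
      Iff.mpr integrableOn_Ici_iff_integrableOn_Ioi h1
    have h4 := IntegrableOn.comp_neg_Iic (c := (0 : ℝ)) (by simpa using h3)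
    simpa using h4
  rw [← integrableOn_univ, ← Iic_union_Ioi (a := (0 : ℝ))]
  exact h2.union h1

lemma ct_integrable {f : ℝ → ℂ} (hf : Continuous f) {K c : ℝ} (hc : 0 < c)
    (h : ∀ t, 1 ≤ |t| → ‖f t‖ ≤ K * Real.exp (-(c * |t|))) : Integrable f := by
  obtain ⟨B, hB⟩ := (isCompact_Icc (a := (-1 : ℝ)) (b := 1)).exists_bound_of_continuousOn
    hf.continuousOn
  refine Integrable.mono' ((ct_int_exp hc).const_mul (|K| + |B| * Real.exp c))
    hf.aestronglyMeasurable (Eventually.of_forall fun t => ?_)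
  rcases le_total 1 |t| with h1 | h1
  · refine (h t h1).trans ?_
    gcongr
    exact (le_abs_self K).trans (le_add_of_nonneg_right (by positivity))
  · have h2 := hB t (abs_le.mp h1)
    calc ‖f t‖ ≤ |B| * (Real.exp c * Real.exp (-(c * |t|))) := by
          have h3 : 1 ≤ Real.exp c * Real.exp (-(c * |t|)) := by
            rw [← Real.exp_add]
            exact Real.one_le_exp (by nlinarith)
          calc ‖f t‖ ≤ |B| * 1 := by rw [mul_one]; exact h2.trans (le_abs_self B)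
            _ ≤ _ := by gcongr
      _ ≤ (|K| + |B| * Real.exp c) * Real.exp (-(c * |t|)) := by
          have : 0 ≤ |K| * Real.exp (-(c * |t|)) := by positivity
          nlinarith

lemma ctg_line_cont {z : ℂ} (hz : z ≠ 0) {σ : ℝ} (h0 : 0 < σ) (h1 : σ ≠ 1) :
    Continuous fun t : ℝ => ctg z (σ + t * I) := by
  rw [continuous_iff_continuousAt]
  intro t
  have hc : ContinuousAt (fun t : ℝ => (σ + t * I : ℂ)) t := by fun_prop
  refine ContinuousAt.comp (g := ctg z) (ctg_diff hz (by simpa using h0) ?_).continuousAt hc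
  intro h
  have := congrArg Complex.re h
  simp at this
  exact h1 this

lemma ctg_line_integrable {z : ℂ} (hz : 0 < z.re) {σ : ℝ} (h0 : 1 / 2 ≤ σ) (h2 : σ ≤ 2)
    (h1 : σ ≠ 1) : Integrable fun t : ℝ => ctg z (σ + t * I) := by
  have hz0 : z ≠ 0 := by rintro rfl; simp at hz
  obtain ⟨K, c, _, hc, h⟩ := ctg_decay hz
  refine ct_integrable (ctg_line_cont hz0 (by linarith) h1) hc (K := K) fun t ht => ?_
  have := h (σ + t * I) (by simpa using h0) (by simpa using h2) (by simpa using ht)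
  simpa using this

theorem Sz_line_integrable {z : ℂ} (hz : 0 < z.re) :
    Integrable fun t : ℝ => Complex.Gamma (cl t) * riemannZeta (cl t) ^ 2 * z ^ (-(cl t)) := by
  have h := ctg_line_integrable hz (σ := 1 / 2) le_rfl (by norm_num) (by norm_num)
  refine h.congr (Eventually.of_forall fun t => ?_)
  simp [ctg, cl]

/-! ### Mellin inversion -/

lemma ct_line2 {z : ℂ} (hz : 0 < z.re) :
    Integrable fun t : ℝ => Complex.Gamma ((2 : ℝ) + t * I) * z ^ (-((2 : ℝ) + t * I : ℂ)) := by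
  have hz0 : z ≠ 0 := by rintro rfl; simp at hz
  obtain ⟨K, c, _, hc, h⟩ := ct_gp_decay hz
  refine ct_integrable ?_ hc (K := K) fun t _ => ?_
  · rw [continuous_iff_continuousAt]
    intro t
    refine ContinuousAt.mul ?_ ?_
    · have hc : ContinuousAt (fun t : ℝ => ((2 : ℝ) + t * I : ℂ)) t := by fun_prop
      refine ContinuousAt.comp (g := Complex.Gamma)
        (Complex.differentiableAt_Gamma _ fun m h => ?_).continuousAt hc
      have := congrArg Complex.re h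
      simp at this
      have h3 : (0 : ℝ) ≤ m := Nat.cast_nonneg m
      linarith
    · refine ContinuousAt.const_cpow (by fun_prop) (Or.inl hz0)
  · have := h ((2 : ℝ) + t * I) (by simp; norm_num) (by simp) 
    simpa using this

lemma ct_mellin {z : ℂ} (hz : 0 < z.re) {x : ℝ} (hx : 0 < x) :
    (1 / (2 * Real.pi) : ℂ) * ∫ t : ℝ, (x : ℂ) ^ (-((2 : ℝ) + t * I : ℂ)) *
      (Complex.Gamma ((2 : ℝ) + t * I) * z ^ (-((2 : ℝ) + t * I : ℂ))) =
      Complex.exp (-(z * x)) := by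
  set f : ℝ → ℂ := fun t => Complex.exp (-(z * t)) with hf
  have hm : ∀ s : ℂ, 0 < s.re → mellin f s = z ^ (-s) * Complex.Gamma s := by
    intro s hs
    rw [← ct_eq hs hz, mellin]
    rfl
  have h1 : MellinConvergent f ((2 : ℝ) : ℂ) := by
    have := ct_int (a := ((2 : ℝ) : ℂ)) (by simp) hz
    exact this
  have h2 : VerticalIntegrable (mellin f) 2 := by
    refine (ct_line2 hz).congr (Eventually.of_forall fun t => ?_)
    simp only
    rw [hm _ (by simp), mul_comm]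
  have h3 : ContinuousAt f x := by
    rw [hf]; fun_prop
  have h4 := mellinInv_mellin_eq 2 f hx h1 h2 h3
  rw [mellinInv] at h4
  have h5 : f x = Complex.exp (-(z * x)) := rfl
  rw [← h5, ← h4]
  rw [Complex.real_smul]
  congr 1
  · push_cast; rfl
  · congr 1
    funext t
    rw [hm _ (by simp), smul_eq_mul]
    ring

lemma ct_zeta_sq {s : ℂ} (hs : 1 < s.re) :
    HasSum (fun p : ℕ × ℕ => (((p.1 + 1) * (p.2 + 1) : ℕ) : ℂ) ^ (-s)) (riemannZeta s ^ 2) := by
  have hsum : Summable fun n : ℕ => ‖((n + 1 : ℕ) : ℂ) ^ (-s)‖ := by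
    have h1 : Summable fun n : ℕ => (((n + 1 : ℕ) : ℝ)) ^ (-s.re) := by
      have := (Real.summable_nat_rpow (p := -s.re)).mpr (by linarith)
      exact (summable_nat_add_iff 1).mpr this
    have e : (fun n : ℕ => ‖((n + 1 : ℕ) : ℂ) ^ (-s)‖) =
        fun n : ℕ => (((n + 1 : ℕ) : ℝ)) ^ (-s.re) := by
      funext n
      rw [Complex.norm_natCast_cpow_of_pos (Nat.succ_pos n), Complex.neg_re]
    rw [e]
    exact h1
  have hz : HasSum (fun n : ℕ => ((n + 1 : ℕ) : ℂ) ^ (-s)) (riemannZeta s) := by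
    rw [zeta_eq_tsum_one_div_nat_add_one_cpow hs]
    have h2 : (fun n : ℕ => 1 / ((n : ℂ) + 1) ^ s) = fun n : ℕ => ((n + 1 : ℕ) : ℂ) ^ (-s) := by
      funext n
      rw [Complex.cpow_neg, one_div]
      push_cast; rfl
    rw [h2]
    exact hsum.of_norm.hasSum
  have h4 : (fun p : ℕ × ℕ => (((p.1 + 1) * (p.2 + 1) : ℕ) : ℂ) ^ (-s)) =
      fun p : ℕ × ℕ => ((p.1 + 1 : ℕ) : ℂ) ^ (-s) * ((p.2 + 1 : ℕ) : ℂ) ^ (-s) := by
    funext p
    rw [Nat.cast_mul, Complex.natCast_mul_natCast_cpow]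
  rw [sq, h4]
  obtain ⟨f, hf⟩ : ∃ f : ℕ → ℂ, ∀ n : ℕ, ((n + 1 : ℕ) : ℂ) ^ (-s) = f n := ⟨_, fun _ => rfl⟩
  simp only [hf] at hsum hz ⊢
  exact hz.mul hz (summable_mul_of_summable_norm hsum hsum)

/-- `Sz` as an integral over the line `Re s = 2` -/
lemma Sz_line2 {z : ℂ} (hz : 0 < z.re) :
    Sz z = (1 / (2 * Real.pi) : ℂ) * ∫ t : ℝ, ctg z ((2 : ℝ) + t * I) := by
  set h : ℝ → ℂ := fun t => Complex.Gamma ((2 : ℝ) + t * I) * z ^ (-((2 : ℝ) + t * I : ℂ))
    with hh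
  have hint := ct_line2 hz
  set F : ℕ × ℕ → ℝ → ℂ := fun p t =>
    ((((p.1 + 1) * (p.2 + 1) : ℕ) : ℝ) : ℂ) ^ (-((2 : ℝ) + t * I : ℂ)) * h t with hF
  have hpos : ∀ p : ℕ × ℕ, 0 < (p.1 + 1) * (p.2 + 1) := fun p => by positivity
  have hnorm : ∀ p t, ‖F p t‖ = (((p.1 + 1) * (p.2 + 1) : ℕ) : ℝ) ^ (-2 : ℝ) * ‖h t‖ := by
    intro p t
    rw [hF]
    simp only
    rw [norm_mul, Complex.norm_cpow_eq_rpow_re_of_pos (by exact_mod_cast hpos p)]
    simp
  have hFc : ∀ p : ℕ × ℕ, Continuous fun t : ℝ =>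
      ((((p.1 + 1) * (p.2 + 1) : ℕ) : ℝ) : ℂ) ^ (-((2 : ℝ) + t * I : ℂ)) := by
    intro p
    refine Continuous.const_cpow (by fun_prop) (Or.inl ?_)
    have := (hpos p).ne'
    exact_mod_cast this
  have hFint : ∀ p, Integrable (F p) := by
    intro p
    refine Integrable.mono' (g := fun t =>
      (((p.1 + 1) * (p.2 + 1) : ℕ) : ℝ) ^ (-2 : ℝ) * ‖h t‖) (hint.norm.const_mul _)
      ((hFc p).aestronglyMeasurable.mul hint.aestronglyMeasurable)
      (Eventually.of_forall fun t => (hnorm p t).le)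
  have hsummable : Summable fun p : ℕ × ℕ => (((p.1 + 1) * (p.2 + 1) : ℕ) : ℝ) ^ (-2 : ℝ) := by
    have h1 : Summable fun n : ℕ => (((n + 1 : ℕ) : ℝ)) ^ (-2 : ℝ) := by
      have := (Real.summable_nat_rpow (p := (-2 : ℝ))).mpr (by norm_num)
      exact (summable_nat_add_iff 1).mpr this
    have h2 := Summable.mul_of_nonneg h1 h1 (fun n => by positivity) (fun n => by positivity)
    refine h2.congr fun p => ?_
    rw [Nat.cast_mul, Real.mul_rpow (by positivity) (by positivity)]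
  have hFsum : Summable fun p => ∫ t, ‖F p t‖ := by
    simp_rw [hnorm, integral_const_mul]
    exact hsummable.mul_right _
  have key := hasSum_integral_of_summable_integral_norm hFint hFsum
  have h5 : (∫ t, ∑' p, F p t) = ∫ t : ℝ, ctg z ((2 : ℝ) + t * I) := by
    congr 1
    funext t
    have h6 := (ct_zeta_sq (s := (2 : ℝ) + t * I) (by simp)).mul_right (h t)
    have h7 : (fun p : ℕ × ℕ => (((p.1 + 1) * (p.2 + 1) : ℕ) : ℂ) ^ (-((2 : ℝ) + t * I : ℂ)) *
        h t) = fun p => F p t := by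
      funext p
      rw [hF]
      simp only
      norm_cast
    rw [h7] at h6
    rw [h6.tsum_eq, hh]
    simp only [ctg]
    ring
  rw [h5] at key
  have key2 := key.mul_left (1 / (2 * Real.pi) : ℂ)
  have h8 : (fun p => (1 / (2 * Real.pi) : ℂ) * ∫ t, F p t) =
      fun p : ℕ × ℕ => Complex.exp (-(z * (((p.1 + 1) * (p.2 + 1) : ℕ) : ℝ))) := by
    funext p
    exact ct_mellin hz (by exact_mod_cast hpos p)
  rw [h8] at key2
  rw [← key2.tsum_eq, key2.summable.tsum_prod, Sz]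
  congr 1
  funext a
  have hq : ‖Complex.exp (-(z * ((a : ℂ) + 1)))‖ < 1 := by
    rw [Complex.norm_exp]
    have h9 : (-(z * ((a : ℂ) + 1))).re = -(z.re * (a + 1)) := by simp
    rw [h9]
    have h9' : 0 < z.re * ((a : ℝ) + 1) := by positivity
    exact Real.exp_lt_one_iff.mpr (by linarith)
  have hgeo := hasSum_geometric_of_norm_lt_one hq
  have h10 : ∀ b : ℕ, Complex.exp (-(z * ((((a + 1) * (b + 1) : ℕ) : ℝ) : ℂ))) =
      Complex.exp (-(z * ((a : ℂ) + 1))) * Complex.exp (-(z * ((a : ℂ) + 1))) ^ b := by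
    intro b
    rw [← Complex.exp_nat_mul, ← Complex.exp_add]
    congr 1
    push_cast
    ring
  have h11 : (∑' b : ℕ, Complex.exp (-(z * ((((a + 1) * (b + 1) : ℕ) : ℝ) : ℂ)))) =
      Complex.exp (-(z * ((a : ℂ) + 1))) * (1 - Complex.exp (-(z * ((a : ℂ) + 1))))⁻¹ := by
    simp_rw [h10]
    exact (hgeo.mul_left _).tsum_eq
  rw [h11]
  have hne1 : 1 - Complex.exp (-(z * ((a : ℂ) + 1))) ≠ 0 := by
    intro h
    have : Complex.exp (-(z * ((a : ℂ) + 1))) = 1 := (sub_eq_zero.mp h).symm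
    rw [this] at hq; simp at hq
  have hE : Complex.exp (((a : ℂ) + 1) * z) * Complex.exp (-(z * ((a : ℂ) + 1))) = 1 := by
    rw [← Complex.exp_add]; simp [mul_comm]
  have hne2 : Complex.exp (((a : ℂ) + 1) * z) - 1 ≠ 0 := by
    intro h
    have h12 : Complex.exp (((a : ℂ) + 1) * z) = 1 := sub_eq_zero.mp h
    rw [h12, one_mul] at hE
    exact hne1 (by rw [hE]; simp)
  rw [← div_eq_mul_inv, div_eq_div_iff hne2 hne1]
  linear_combination -hE

/-! ### contour shift -/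

lemma ctg_H_tendsto {z : ℂ} (hz : 0 < z.re) :
    Tendsto (fun Y : ℝ => ∫ x in (1 / 2 : ℝ)..2, ctg z (x + Y * I)) atTop (𝓝 0) ∧
    Tendsto (fun Y : ℝ => ∫ x in (1 / 2 : ℝ)..2, ctg z (x + (-Y : ℝ) * I)) atTop (𝓝 0) := by
  obtain ⟨K, c, hK, hc, h⟩ := ctg_decay hz
  have hlim : Tendsto (fun Y : ℝ => K * Real.exp (-(c * Y)) * |(2 : ℝ) - 1 / 2|) atTop (𝓝 0) := by
    have h1 : Tendsto (fun Y : ℝ => Real.exp (-(c * Y))) atTop (𝓝 0) := by
      refine Real.tendsto_exp_neg_atTop_nhds_zero.comp ?_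
      exact tendsto_id.const_mul_atTop hc
    have h2 := (h1.const_mul K).mul_const |(2 : ℝ) - 1 / 2|
    simpa using h2
  constructor
  · refine squeeze_zero_norm' ?_ hlim
    filter_upwards [eventually_ge_atTop 1] with Y hY
    refine intervalIntegral.norm_integral_le_of_norm_le_const fun x hx => ?_
    rw [uIoc_of_le (by norm_num)] at hx
    have := h (x + Y * I) (by simpa using hx.1.le) (by simpa using hx.2)
      (by simpa using hY.trans (le_abs_self Y))
    have e : |((x : ℂ) + Y * I).im| = Y := by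
      simp only [Complex.add_im, Complex.ofReal_im, Complex.mul_im, Complex.ofReal_re,
        Complex.I_im, Complex.I_re]
      rw [abs_of_nonneg]
      · simp
      · simp; linarith
    rw [e] at this
    exact this
  · refine squeeze_zero_norm' ?_ hlim
    filter_upwards [eventually_ge_atTop 1] with Y hY
    refine intervalIntegral.norm_integral_le_of_norm_le_const fun x hx => ?_
    rw [uIoc_of_le (by norm_num)] at hx
    have := h (x + (-Y : ℝ) * I) (by simpa using hx.1.le) (by simpa using hx.2)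
      (by simpa using hY.trans (le_abs_self Y))
    have e : |((x : ℂ) + (-Y : ℝ) * I).im| = Y := by
      simp only [Complex.add_im, Complex.ofReal_im, Complex.mul_im, Complex.ofReal_re,
        Complex.I_im, Complex.I_re]
      rw [abs_of_nonpos]
      · simp
      · simp; linarith
    rw [e] at this
    exact this

lemma ctg_rect {z : ℂ} (hz : z ≠ 0) {a b : ℝ} (hab : ∀ y ∈ uIcc a b, y ≠ 0) :
    (∫ x in (1 / 2 : ℝ)..2, ctg z (x + a * I)) - (∫ x in (1 / 2 : ℝ)..2, ctg z (x + b * I)) +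
      I * (∫ y in a..b, ctg z ((2 : ℝ) + y * I)) -
      I * (∫ y in a..b, ctg z ((1 / 2 : ℝ) + y * I)) = 0 := by
  have h := Complex.integral_boundary_rect_eq_zero_of_differentiableOn (ctg z)
    (((1 / 2 : ℝ) : ℂ) + a * I) (((2 : ℝ) : ℂ) + b * I) ?_
  · have e1 : (((1 / 2 : ℝ) : ℂ) + a * I).re = 1 / 2 := by simp
    have e2 : (((2 : ℝ) : ℂ) + b * I).re = 2 := by simp
    have e3 : (((1 / 2 : ℝ) : ℂ) + a * I).im = a := by simp
    have e4 : (((2 : ℝ) : ℂ) + b * I).im = b := by simp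
    rw [e1, e2, e3, e4] at h
    simpa only [smul_eq_mul] using h
  · intro s hs
    rw [Complex.mem_reProdIm] at hs
    have h1 : s.re ∈ uIcc (1 / 2 : ℝ) 2 := by simpa using hs.1
    have h2 : s.im ∈ uIcc a b := by simpa using hs.2
    rw [uIcc_of_le (by norm_num)] at h1
    refine (ctg_diff hz (by linarith [h1.1]) ?_).differentiableWithinAt
    rintro rfl
    exact hab _ h2 (by simp)

lemma ctg_bdry : ∃ B : ℝ, 0 < B ∧ ∀ z : ℂ, 0 < z.re → 1 ≤ ‖z‖ → ∀ s : ℂ, 1 / 2 ≤ s.re →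
    s.re ≤ 2 → |s.im| ≤ 1 → (s.re = 1 / 2 ∨ s.re = 2 ∨ |s.im| = 1) →
    ‖ctg z s‖ ≤ B * ‖z‖ ^ (-(1 / 2) : ℝ) := by
  set S : Set ℂ := (Icc (1 / 2 : ℝ) 2 ×ℂ Icc (-1 : ℝ) 1) \ (Ioo (1 / 2 : ℝ) 2 ×ℂ Ioo (-1 : ℝ) 1)
    with hS
  have hSc : IsCompact S :=
    (isCompact_Icc.reProdIm isCompact_Icc).diff (isOpen_Ioo.reProdIm isOpen_Ioo)
  have hcont : ContinuousOn (fun s : ℂ => Complex.Gamma s * riemannZeta s ^ 2) S := by
    intro s hs
    have h1 := hs.1
    rw [Complex.mem_reProdIm] at h1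
    have hne : s ≠ 1 := by
      rintro rfl
      refine hs.2 ?_
      rw [Complex.mem_reProdIm]
      simp only [Complex.one_re, Complex.one_im, mem_Ioo]
      norm_num
    refine ContinuousAt.continuousWithinAt (ContinuousAt.mul ?_ ?_)
    · refine (Complex.differentiableAt_Gamma s fun m h => ?_).continuousAt
      have := congrArg Complex.re h
      simp at this
      have h3 : (0 : ℝ) ≤ m := Nat.cast_nonneg m
      have h4 := h1.1.1
      linarith
    · exact (differentiableAt_riemannZeta hne).continuousAt.pow 2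
  obtain ⟨B, hB⟩ := hSc.exists_bound_of_continuousOn hcont
  refine ⟨(|B| + 1) * Real.exp (Real.pi / 2), by positivity, fun z hz hz1 s h1 h2 h3 h4 => ?_⟩
  have hz0 : z ≠ 0 := by rintro rfl; simp at hz
  have harg : |Complex.arg z| < Real.pi / 2 := Complex.abs_arg_lt_pi_div_two_iff.mpr (Or.inl hz)
  have hs : s ∈ S := by
    refine ⟨?_, ?_⟩
    · rw [Complex.mem_reProdIm]; exact ⟨⟨h1, h2⟩, abs_le.mp h3⟩
    · rw [Complex.mem_reProdIm]
      rintro ⟨⟨a1, a2⟩, a3⟩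
      have a3' : |s.im| < 1 := abs_lt.mpr a3
      rcases h4 with h | h | h <;> linarith
  have hb := hB s hs
  unfold ctg
  rw [norm_mul, ct_cpow_norm hz0]
  have e1 : ‖z‖ ^ (-s.re) ≤ ‖z‖ ^ (-(1 / 2) : ℝ) :=
    Real.rpow_le_rpow_of_exponent_le hz1 (by linarith)
  have e2 : Real.exp (Complex.arg z * s.im) ≤ Real.exp (Real.pi / 2) := by
    apply Real.exp_le_exp.mpr
    calc Complex.arg z * s.im ≤ |Complex.arg z * s.im| := le_abs_self _
      _ = |Complex.arg z| * |s.im| := abs_mul _ _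
      _ ≤ Real.pi / 2 * 1 := by gcongr
      _ = Real.pi / 2 := mul_one _
  have e3 : ‖Complex.Gamma s * riemannZeta s ^ 2‖ ≤ |B| + 1 :=
    hb.trans ((le_abs_self B).trans (by linarith))
  calc ‖Complex.Gamma s * riemannZeta s ^ 2‖ * (‖z‖ ^ (-s.re) * Real.exp (Complex.arg z * s.im))
      ≤ (|B| + 1) * (‖z‖ ^ (-(1 / 2) : ℝ) * Real.exp (Real.pi / 2)) := by gcongr
    _ = _ := by ring

theorem Sz_contour : ∃ C : ℝ, 0 < C ∧ ∀ z : ℂ, 0 < z.re → 1 ≤ ‖z‖ →
    ‖Sz z - (1 / (2 * Real.pi) : ℂ) *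
      ∫ t : ℝ, Complex.Gamma (cl t) * riemannZeta (cl t) ^ 2 * z ^ (-(cl t))‖ ≤
      C * ‖z‖ ^ (-(1 / 2) : ℝ) := by
  obtain ⟨B, hB0, hB⟩ := ctg_bdry
  refine ⟨(1 / (2 * Real.pi)) * (7 * B), by positivity, fun z hz hz1 => ?_⟩
  have hz0 : z ≠ 0 := by rintro rfl; simp at hz
  have hzn : 0 < ‖z‖ ^ (-(1 / 2) : ℝ) := by
    have := norm_pos_iff.mpr hz0
    positivity
  set D : ℝ := B * ‖z‖ ^ (-(1 / 2) : ℝ) with hD
  have e0 : (∫ t : ℝ, Complex.Gamma (cl t) * riemannZeta (cl t) ^ 2 * z ^ (-(cl t))) =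
      ∫ t : ℝ, ctg z ((1 / 2 : ℝ) + t * I) := by
    congr 1
    funext t
    simp [ctg, cl]
  rw [e0, Sz_line2 hz, ← mul_sub]
  have i2 := ctg_line_integrable hz (σ := 2) (by norm_num) le_rfl (by norm_num)
  have i1 := ctg_line_integrable hz (σ := 1 / 2) le_rfl (by norm_num) (by norm_num)
  have hV2 : Tendsto (fun Y : ℝ => ∫ y in (-Y)..Y, ctg z ((2 : ℝ) + y * I)) atTop
      (𝓝 (∫ t : ℝ, ctg z ((2 : ℝ) + t * I))) :=
    intervalIntegral_tendsto_integral i2 tendsto_neg_atTop_atBot tendsto_id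
  have hV1 : Tendsto (fun Y : ℝ => ∫ y in (-Y)..Y, ctg z ((1 / 2 : ℝ) + y * I)) atTop
      (𝓝 (∫ t : ℝ, ctg z ((1 / 2 : ℝ) + t * I))) :=
    intervalIntegral_tendsto_integral i1 tendsto_neg_atTop_atBot tendsto_id
  obtain ⟨hH1, hH2⟩ := ctg_H_tendsto hz
  set R : ℂ := I * ((∫ y in (-1 : ℝ)..1, ctg z ((2 : ℝ) + y * I)) -
    ∫ y in (-1 : ℝ)..1, ctg z ((1 / 2 : ℝ) + y * I)) -
    (∫ x in (1 / 2 : ℝ)..2, ctg z (x + (1 : ℝ) * I)) +
    ∫ x in (1 / 2 : ℝ)..2, ctg z (x + (-1 : ℝ) * I) with hR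
  have hid : ∀ Y : ℝ, 1 ≤ Y → I * ((∫ y in (-Y)..Y, ctg z ((2 : ℝ) + y * I)) -
      ∫ y in (-Y)..Y, ctg z ((1 / 2 : ℝ) + y * I)) = R +
      (∫ x in (1 / 2 : ℝ)..2, ctg z (x + Y * I)) -
      ∫ x in (1 / 2 : ℝ)..2, ctg z (x + (-Y : ℝ) * I) := by
    intro Y hY
    have r1 := ctg_rect hz0 (a := 1) (b := Y) (by
      intro y hy
      rw [uIcc_of_le hY] at hy
      have := hy.1
      intro h
      linarith)
    have r2 := ctg_rect hz0 (a := -Y) (b := -1) (by
      intro y hy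
      rw [uIcc_of_le (by linarith)] at hy
      have := hy.2
      intro h
      linarith)
    have s2 : (∫ y in (-Y)..Y, ctg z ((2 : ℝ) + y * I)) =
        (∫ y in (-Y)..(-1), ctg z ((2 : ℝ) + y * I)) +
        (∫ y in (-1 : ℝ)..1, ctg z ((2 : ℝ) + y * I)) +
        ∫ y in (1 : ℝ)..Y, ctg z ((2 : ℝ) + y * I) := by
      rw [intervalIntegral.integral_add_adjacent_intervals i2.intervalIntegrable
        i2.intervalIntegrable, intervalIntegral.integral_add_adjacent_intervals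
        i2.intervalIntegrable i2.intervalIntegrable]
    have s1 : (∫ y in (-Y)..Y, ctg z ((1 / 2 : ℝ) + y * I)) =
        (∫ y in (-Y)..(-1), ctg z ((1 / 2 : ℝ) + y * I)) +
        (∫ y in (-1 : ℝ)..1, ctg z ((1 / 2 : ℝ) + y * I)) +
        ∫ y in (1 : ℝ)..Y, ctg z ((1 / 2 : ℝ) + y * I) := by
      rw [intervalIntegral.integral_add_adjacent_intervals i1.intervalIntegrable
        i1.intervalIntegrable, intervalIntegral.integral_add_adjacent_intervals
        i1.intervalIntegrable i1.intervalIntegrable]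
    rw [s1, s2, hR]
    linear_combination r1 + r2
  have hlim1 : Tendsto (fun Y : ℝ => I * ((∫ y in (-Y)..Y, ctg z ((2 : ℝ) + y * I)) -
      ∫ y in (-Y)..Y, ctg z ((1 / 2 : ℝ) + y * I))) atTop
      (𝓝 (I * ((∫ t : ℝ, ctg z ((2 : ℝ) + t * I)) - ∫ t : ℝ, ctg z ((1 / 2 : ℝ) + t * I)))) :=
    (hV2.sub hV1).const_mul I
  have hlim2 : Tendsto (fun Y : ℝ => R + (∫ x in (1 / 2 : ℝ)..2, ctg z (x + Y * I)) -
      ∫ x in (1 / 2 : ℝ)..2, ctg z (x + (-Y : ℝ) * I)) atTop (𝓝 (R + 0 - 0)) :=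
    (tendsto_const_nhds.add hH1).sub hH2
  have hRR : I * ((∫ t : ℝ, ctg z ((2 : ℝ) + t * I)) - ∫ t : ℝ, ctg z ((1 / 2 : ℝ) + t * I)) =
      R := by
    have := tendsto_nhds_unique (hlim1.congr' (by
      filter_upwards [eventually_ge_atTop 1] with Y hY
      exact hid Y hY)) hlim2
    simpa using this
  have hnR : ‖(∫ t : ℝ, ctg z ((2 : ℝ) + t * I)) - ∫ t : ℝ, ctg z ((1 / 2 : ℝ) + t * I)‖ = ‖R‖ := by
    rw [← hRR, norm_mul, Complex.norm_I, one_mul]
  have b1 : ‖∫ y in (-1 : ℝ)..1, ctg z ((2 : ℝ) + y * I)‖ ≤ D * |(1 : ℝ) - (-1)| := by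
    refine intervalIntegral.norm_integral_le_of_norm_le_const fun y hy => ?_
    rw [uIoc_of_le (by norm_num)] at hy
    have hy' : |y| ≤ 1 := abs_le.mpr ⟨hy.1.le, hy.2⟩
    exact hB z hz hz1 _ (by simp; norm_num) (by simp) (by simpa using hy') (by simp)
  have b2 : ‖∫ y in (-1 : ℝ)..1, ctg z ((1 / 2 : ℝ) + y * I)‖ ≤ D * |(1 : ℝ) - (-1)| := by
    refine intervalIntegral.norm_integral_le_of_norm_le_const fun y hy => ?_
    rw [uIoc_of_le (by norm_num)] at hy
    have hy' : |y| ≤ 1 := abs_le.mpr ⟨hy.1.le, hy.2⟩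
    exact hB z hz hz1 _ (by simp) (by simp; norm_num) (by simpa using hy') (by simp)
  have b3 : ‖∫ x in (1 / 2 : ℝ)..2, ctg z (x + (1 : ℝ) * I)‖ ≤ D * |(2 : ℝ) - 1 / 2| := by
    refine intervalIntegral.norm_integral_le_of_norm_le_const fun x hx => ?_
    rw [uIoc_of_le (by norm_num)] at hx
    exact hB z hz hz1 _ (by simpa using hx.1.le) (by simpa using hx.2) (by simp) (by simp)
  have b4 : ‖∫ x in (1 / 2 : ℝ)..2, ctg z (x + (-1 : ℝ) * I)‖ ≤ D * |(2 : ℝ) - 1 / 2| := by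
    refine intervalIntegral.norm_integral_le_of_norm_le_const fun x hx => ?_
    rw [uIoc_of_le (by norm_num)] at hx
    exact hB z hz hz1 _ (by simpa using hx.1.le) (by simpa using hx.2) (by simp) (by simp)
  have c1 : |(1 : ℝ) - (-1)| = 2 := by norm_num
  have c2 : |(2 : ℝ) - 1 / 2| = 3 / 2 := by norm_num
  rw [c1] at b1 b2
  rw [c2] at b3 b4
  have hRn : ‖R‖ ≤ 7 * D := by
    rw [hR]
    refine (norm_add_le _ _).trans ?_
    refine (add_le_add_left ((norm_sub_le _ _)) _).trans ?_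
    rw [norm_mul, Complex.norm_I, one_mul]
    have := norm_sub_le (∫ y in (-1 : ℝ)..1, ctg z ((2 : ℝ) + y * I))
      (∫ y in (-1 : ℝ)..1, ctg z ((1 / 2 : ℝ) + y * I))
    linarith
  rw [norm_mul, hnR]
  have c3 : ‖(1 / (2 * Real.pi) : ℂ)‖ = 1 / (2 * Real.pi) := by
    rw [norm_div, norm_one, norm_mul, Complex.norm_real, Real.norm_of_nonneg Real.pi_pos.le,
      Complex.norm_ofNat]
  rw [c3]
  calc 1 / (2 * Real.pi) * ‖R‖ ≤ 1 / (2 * Real.pi) * (7 * D) := by gcongr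
    _ = _ := by rw [hD]; ring

end Pool.Agent.EvenMoment
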