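import Pool.Agent.Lib_MP_112ba8_e.Defs

/-!
Gamma function on rotated rays, decay of Gamma and growth of zeta in vertical strips.
-/

namespace Pool.Agent.EvenMoment

open Filter Topology MeasureTheory Set Complex

lemma ct_real_int {s b : ℝ} (hs : -1 < s) (hb : 0 < b) :
    IntegrableOn (fun t : ℝ => t ^ s * Real.exp (-(b * t))) (Ioi 0) := by
  have h := integrableOn_rpow_mul_exp_neg_mul_rpow (p := 1) hs one_pos hb
  refine h.congr_fun (fun t _ => ?_) measurableSet_Ioi
  simp only [Real.rpow_one, neg_mul]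

lemma ct_norm {a z : ℂ} {t : ℝ} (ht : 0 < t) :
    ‖(t : ℂ) ^ (a - 1) * Complex.exp (-(z * t))‖ = t ^ (a.re - 1) * Real.exp (-(z.re * t)) := by
  rw [norm_mul, Complex.norm_cpow_eq_rpow_re_of_pos ht, Complex.norm_exp]
  simp

lemma ct_meas (a z : ℂ) : AEStronglyMeasurable
    (fun t : ℝ => (t : ℂ) ^ (a - 1) * Complex.exp (-(z * t))) (volume.restrict (Ioi 0)) := by
  refine ContinuousOn.aestronglyMeasurable ?_ measurableSet_Ioi
  intro t ht
  have ht' : (0 : ℝ) < t := ht
  refine ContinuousAt.continuousWithinAt ?_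
  refine ContinuousAt.mul ?_ (by fun_prop)
  exact (Complex.continuous_ofReal.continuousAt).cpow continuousAt_const
    (Or.inl (by simpa using ht'))

lemma ct_int {a z : ℂ} (ha : 0 < a.re) (hz : 0 < z.re) :
    IntegrableOn (fun t : ℝ => (t : ℂ) ^ (a - 1) * Complex.exp (-(z * t))) (Ioi 0) := by
  refine Integrable.mono' (ct_real_int (s := a.re - 1) (by linarith) hz) (ct_meas a z) ?_
  refine (ae_restrict_mem measurableSet_Ioi).mono fun t ht => ?_
  exact (ct_norm ht).le

lemma ct_diff {a : ℂ} (ha : 0 < a.re) :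
    DifferentiableOn ℂ (fun z : ℂ => ∫ t in Ioi (0 : ℝ), (t : ℂ) ^ (a - 1) *
      Complex.exp (-(z * t))) {z : ℂ | 0 < z.re} := by
  intro z hz
  have hz' : 0 < z.re := hz
  have hopen : {w : ℂ | z.re / 2 < w.re} ∈ 𝓝 z :=
    (isOpen_lt continuous_const Complex.continuous_re).mem_nhds (by simp; linarith)
  have key := hasDerivAt_integral_of_dominated_loc_of_deriv_le (μ := volume.restrict (Ioi (0 : ℝ)))
    (F := fun (w : ℂ) (t : ℝ) => (t : ℂ) ^ (a - 1) * Complex.exp (-(w * t)))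
    (F' := fun (w : ℂ) (t : ℝ) => (t : ℂ) ^ (a - 1) * (Complex.exp (-(w * t)) * (-t)))
    (x₀ := z) (s := {w : ℂ | z.re / 2 < w.re})
    (bound := fun t : ℝ => t ^ a.re * Real.exp (-(z.re / 2 * t))) hopen
    (Eventually.of_forall fun w => ct_meas a w) (ct_int ha hz) ?_ ?_
    (ct_real_int (by linarith) (by linarith)) ?_
  · exact key.2.differentiableAt.differentiableWithinAt
  · have := (ct_meas a z).mul (g := fun t : ℝ => (-(t : ℂ))) (by fun_prop)
    refine this.congr (Eventually.of_forall fun t => ?_)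
    simp only [Pi.mul_apply]; ring
  · refine (ae_restrict_mem measurableSet_Ioi).mono fun t ht w hw => ?_
    have ht' : (0 : ℝ) < t := ht
    have hw' : z.re / 2 < w.re := hw
    have e : (t : ℂ) ^ (a - 1) * (Complex.exp (-(w * t)) * (-t)) =
        ((t : ℂ) ^ (a - 1) * Complex.exp (-(w * t))) * (-t) := by ring
    rw [e, norm_mul, ct_norm ht', norm_neg, Complex.norm_real, Real.norm_of_nonneg ht'.le]
    have e2 : t ^ (a.re - 1) * Real.exp (-(w.re * t)) * t = t ^ a.re * Real.exp (-(w.re * t)) := by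
      rw [mul_right_comm]
      congr 1
      nth_rewrite 2 [← Real.rpow_one t]
      rw [← Real.rpow_add ht']
      congr 1; ring
    rw [e2]
    gcongr
  · refine (ae_restrict_mem measurableSet_Ioi).mono fun t _ w _ => ?_
    have h1 : HasDerivAt (fun w : ℂ => -(w * (t : ℂ))) (-(1 * (t : ℂ))) w :=
      ((hasDerivAt_id w).mul_const (t : ℂ)).neg
    have h2 := (h1.cexp).const_mul ((t : ℂ) ^ (a - 1))
    simpa using h2

/-- the Gamma integral along rotated rays -/
lemma ct_eq {a z : ℂ} (ha : 0 < a.re) (hz : 0 < z.re) :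
    ∫ t in Ioi (0 : ℝ), (t : ℂ) ^ (a - 1) * Complex.exp (-(z * t)) =
      z ^ (-a) * Complex.Gamma a := by
  have hopen : IsOpen {z : ℂ | 0 < z.re} := isOpen_lt continuous_const Complex.continuous_re
  have hconn : IsPreconnected {z : ℂ | 0 < z.re} :=
    (convex_halfSpace_re_gt 0).isPreconnected
  have h1 : AnalyticOnNhd ℂ (fun z : ℂ => ∫ t in Ioi (0 : ℝ), (t : ℂ) ^ (a - 1) *
      Complex.exp (-(z * t))) {z : ℂ | 0 < z.re} := (ct_diff ha).analyticOnNhd hopen
  have h2 : AnalyticOnNhd ℂ (fun z : ℂ => z ^ (-a) * Complex.Gamma a) {z : ℂ | 0 < z.re} := by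
    refine DifferentiableOn.analyticOnNhd ?_ hopen
    intro w hw
    have hw' : 0 < w.re := hw
    refine DifferentiableAt.differentiableWithinAt ?_
    refine DifferentiableAt.mul_const ?_ _
    exact (differentiableAt_id).cpow_const (Or.inl hw')
  refine h1.eqOn_of_preconnected_of_frequently_eq h2 hconn (z₀ := 1) (by simp) ?_ hz
  have hreal : ∀ r : ℝ, 0 < r → (∫ t in Ioi (0 : ℝ), (t : ℂ) ^ (a - 1) *
      Complex.exp (-((r : ℂ) * t))) = (r : ℂ) ^ (-a) * Complex.Gamma a := by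
    intro r hr
    rw [Complex.integral_cpow_mul_exp_neg_mul_Ioi ha hr, one_div,
      Complex.inv_cpow_eq_ite]
    rw [if_neg (by rw [Complex.arg_ofReal_of_nonneg hr.le]; exact Real.pi_pos.ne),
      Complex.cpow_neg]
  have ht : Tendsto (fun n : ℕ => ((1 + 1 / ((n : ℝ) + 1) : ℝ) : ℂ)) atTop (𝓝[≠] (1 : ℂ)) := by
    refine tendsto_nhdsWithin_iff.mpr ⟨?_, Eventually.of_forall fun n => ?_⟩
    · have : Tendsto (fun n : ℕ => (1 + 1 / ((n : ℝ) + 1) : ℝ)) atTop (𝓝 (1 + 0)) :=
        tendsto_const_nhds.add tendsto_one_div_add_atTop_nhds_zero_nat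
      rw [add_zero] at this
      have h3 := (Complex.continuous_ofReal.tendsto 1).comp this
      simpa [Function.comp_def] using h3
    · simp only [mem_compl_iff, mem_singleton_iff]
      intro h
      have : (1 + 1 / ((n : ℝ) + 1) : ℝ) = 1 := by exact_mod_cast h
      have h4 : 0 < 1 / ((n : ℝ) + 1) := by positivity
      linarith
  refine ht.frequently (Eventually.frequently (Eventually.of_forall fun n => ?_))
  exact hreal _ (by positivity)

lemma ct_cpow_norm {z : ℂ} (hz : z ≠ 0) (s : ℂ) :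
    ‖z ^ (-s)‖ = ‖z‖ ^ (-s.re) * Real.exp (Complex.arg z * s.im) := by
  rw [Complex.norm_cpow_of_ne_zero hz, Complex.neg_re, Complex.neg_im, mul_neg, Real.exp_neg,
    div_inv_eq_mul]

/-- exponential decay of Gamma in vertical strips -/
lemma ct_Gamma_decay {θ : ℝ} (h0 : 0 ≤ θ) (h1 : θ < Real.pi / 2) : ∃ K : ℝ, 0 < K ∧ ∀ s : ℂ,
    1 / 2 ≤ s.re → s.re ≤ 2 → ‖Complex.Gamma s‖ ≤ K * Real.exp (-(θ * |s.im|)) := by
  have hpi := Real.pi_pos
  have hcos : 0 < Real.cos θ := Real.cos_pos_of_mem_Ioo ⟨by linarith, h1⟩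
  set c := Real.cos θ with hc
  have i1 := ct_real_int (s := -(1 / 2)) (by norm_num) hcos
  have i2 := ct_real_int (s := 1) (by norm_num) hcos
  set K := (∫ t in Ioi (0 : ℝ), (t ^ (-(1 / 2) : ℝ) * Real.exp (-(c * t)) +
    t ^ (1 : ℝ) * Real.exp (-(c * t)))) + 1 with hK
  have hK0 : 0 ≤ ∫ t in Ioi (0 : ℝ), (t ^ (-(1 / 2) : ℝ) * Real.exp (-(c * t)) +
    t ^ (1 : ℝ) * Real.exp (-(c * t))) := by
    refine setIntegral_nonneg measurableSet_Ioi fun t ht => ?_
    have ht' : (0 : ℝ) < t := ht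
    positivity
  refine ⟨K, by linarith, fun s hs hs2 => ?_⟩
  obtain ⟨ψ, hψ1, hψ2⟩ : ∃ ψ : ℝ, |ψ| = θ ∧ ψ * s.im = θ * |s.im| := by
    rcases le_total 0 s.im with h | h
    · exact ⟨θ, abs_of_nonneg h0, by rw [abs_of_nonneg h]⟩
    · exact ⟨-θ, by rw [abs_neg, abs_of_nonneg h0], by rw [abs_of_nonpos h]; ring⟩
  have hψ3 := abs_le.mp hψ1.le
  set z : ℂ := Complex.exp (ψ * Complex.I) with hz
  have hz0 : z ≠ 0 := Complex.exp_ne_zero _
  have hzn : ‖z‖ = 1 := Complex.norm_exp_ofReal_mul_I ψ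
  have hzre : z.re = c := by
    rw [hz, Complex.exp_ofReal_mul_I_re, hc, ← hψ1, Real.cos_abs]
  have hzarg : Complex.arg z = ψ := by
    rw [hz, Complex.arg_exp_mul_I, toIocMod_eq_self]
    exact ⟨by linarith [hψ3.1], by linarith [hψ3.2]⟩
  have heq := ct_eq (a := s) (z := z) (by linarith) (by rw [hzre]; exact hcos)
  have hn : ‖z ^ (-s) * Complex.Gamma s‖ = Real.exp (θ * |s.im|) * ‖Complex.Gamma s‖ := by
    rw [norm_mul, ct_cpow_norm hz0, hzn, Real.one_rpow, hzarg, one_mul, hψ2]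
  have hle : ‖z ^ (-s) * Complex.Gamma s‖ ≤ K := by
    rw [← heq]
    refine (norm_integral_le_integral_norm _).trans ?_
    have hle2 : ∫ t in Ioi (0 : ℝ), ‖(t : ℂ) ^ (s - 1) * Complex.exp (-(z * t))‖ ≤
        ∫ t in Ioi (0 : ℝ), (t ^ (-(1 / 2) : ℝ) * Real.exp (-(c * t)) +
          t ^ (1 : ℝ) * Real.exp (-(c * t))) := by
      refine setIntegral_mono_on (ct_int (by linarith) (by rw [hzre]; exact hcos)).norm
        (i1.add i2) measurableSet_Ioi fun t ht => ?_
      have ht' : (0 : ℝ) < t := ht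
      rw [ct_norm ht', hzre, ← add_mul]
      gcongr
      rcases le_total t 1 with h | h
      · have : t ^ (s.re - 1) ≤ t ^ (-(1 / 2) : ℝ) :=
          Real.rpow_le_rpow_of_exponent_ge ht' h (by linarith)
        have h2 : 0 ≤ t ^ (1 : ℝ) := by positivity
        exact le_add_of_le_of_nonneg this h2
      · have : t ^ (s.re - 1) ≤ t ^ (1 : ℝ) :=
          Real.rpow_le_rpow_of_exponent_le h (by linarith)
        have h2 : 0 ≤ t ^ (-(1 / 2) : ℝ) := by positivity
        exact le_add_of_nonneg_of_le h2 this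
    linarith
  rw [hn] at hle
  rw [Real.exp_neg, ← div_eq_mul_inv, le_div_iff₀ (Real.exp_pos _)]
  linarith

/-- growth of zeta in the strip -/
lemma ct_zeta_strip {s : ℂ} (h0 : 0 < s.re) (h2 : s.re ≤ 2) (h1 : 1 ≤ |s.im|) :
    ‖riemannZeta s‖ ≤ 14 * (1 + |s.im|) ^ 2 := by
  wlog hpos : 0 < s.im generalizing s
  · have h3 := this (s := (starRingEnd ℂ) s) (by simpa using h0) (by simpa using h2)
      (by simpa using h1) (by
        have : s.im ≠ 0 := by
          intro h; rw [h] at h1; simp at h1; linarith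
        simp only [Complex.conj_im, Left.neg_pos_iff]
        exact lt_of_le_of_ne (not_lt.mp hpos) this)
    rw [riemannZeta_conj, Complex.norm_conj] at h3
    simpa using h3
  have hU : s ∈ ZetaMoment.Ud := ⟨h0, hpos⟩
  rw [abs_of_pos hpos] at h1 ⊢
  rw [← ZetaMoment.EM_eq_zeta one_pos hU, ZetaMoment.EM]
  have hsn : ‖s‖ ≤ 2 + s.im := by
    calc ‖s‖ ≤ |s.re| + |s.im| := Complex.norm_le_abs_re_add_abs_im s
      _ ≤ 2 + s.im := by rw [abs_of_pos h0, abs_of_pos hpos]; linarith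
  have hsn1 : ‖s + 1‖ ≤ 3 + s.im := by
    calc ‖s + 1‖ ≤ ‖s‖ + ‖(1 : ℂ)‖ := norm_add_le _ _
      _ ≤ 3 + s.im := by rw [norm_one]; linarith
  have hs1 : 1 ≤ ‖s - 1‖ := by
    have := Complex.abs_im_le_norm (s - 1)
    simp only [Complex.sub_im, Complex.one_im, sub_zero] at this
    exact (h1.trans (le_abs_self _)).trans this
  have hsum : ‖∑' j : ℕ, ZetaMoment.Gt (1 + j) s / (s * (s + 1))‖ ≤ 2 := by
    refine (tsum_of_norm_bounded (ZetaMoment.inv_sq_summable 1).hasSum
      (fun j => ZetaMoment.Gt_scaled_bound one_pos j hU)).trans ?_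
    have := ZetaMoment.tail_sum_le one_pos
    simpa using this
  have e1 : (∑ n ∈ Finset.Icc (1 : ℕ) 1, (n : ℂ) ^ (-s)) = 1 := by simp
  rw [e1]
  have e2 : ((1 : ℕ) : ℂ) ^ (-s) = 1 := by simp
  have e3 : ((1 : ℕ) : ℂ) ^ (1 - s) = 1 := by simp
  rw [e2, e3]
  have n1 : ‖(1 : ℂ) - 1 / 2 + 1 / (s - 1)‖ ≤ 2 := by
    refine (norm_add_le _ _).trans ?_
    have a1 : ‖(1 : ℂ) - 1 / 2‖ ≤ 1 := by norm_num
    have a2 : ‖1 / (s - 1)‖ ≤ 1 := by
      rw [norm_div, norm_one, div_le_one (by linarith)]; exact hs1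
    linarith
  refine (norm_add_le _ _).trans ?_
  rw [norm_mul, norm_mul]
  have n2 : ‖s‖ * ‖s + 1‖ * ‖∑' j : ℕ, ZetaMoment.Gt (1 + j) s / (s * (s + 1))‖ ≤
      (2 + s.im) * (3 + s.im) * 2 := by gcongr
  nlinarith

/-- polynomial growth on the critical line -/
theorem zeta_growth : ∃ C : ℝ, 0 < C ∧ ∀ t : ℝ, ‖riemannZeta (cl t)‖ ≤ C * (1 + |t|) ^ 2 := by
  have hre : ∀ t : ℝ, (cl t).re = 1 / 2 := fun t => by simp [cl]
  have him : ∀ t : ℝ, (cl t).im = t := fun t => by simp [cl]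
  have hcont : Continuous fun t : ℝ => riemannZeta (cl t) := by
    rw [continuous_iff_continuousAt]
    intro t
    have hne : cl t ≠ 1 := by
      intro h
      have := congrArg Complex.re h
      rw [hre] at this; norm_num at this
    have h1 : ContinuousAt cl t := by unfold cl; fun_prop
    exact ContinuousAt.comp (g := riemannZeta) (differentiableAt_riemannZeta hne).continuousAt h1
  obtain ⟨B, hB⟩ := (isCompact_Icc (a := (-1 : ℝ)) (b := 1)).exists_bound_of_continuousOn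
    hcont.continuousOn
  refine ⟨max B 14, by positivity, fun t => ?_⟩
  have ht := abs_nonneg t
  rcases le_total (|t|) 1 with h | h
  · have h1 := hB t (abs_le.mp h)
    calc ‖riemannZeta (cl t)‖ ≤ max B 14 * 1 := by rw [mul_one]; exact h1.trans (le_max_left _ _)
      _ ≤ max B 14 * (1 + |t|) ^ 2 := by
        gcongr
        nlinarith
  · have h1 := ct_zeta_strip (s := cl t) (by rw [hre]; norm_num) (by rw [hre]; norm_num)
      (by rw [him]; exact h)
    rw [him] at h1
    refine h1.trans ?_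
    gcongr
    exact le_max_right _ _

end Pool.Agent.EvenMoment
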