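import Pool.Agent.Lib_MP_112ba8_e.Basic

/-!
# Piece P10: diagonal mean values
-/

namespace Pool.Agent.EvenMoment

open Filter Topology MeasureTheory FourierTransform

lemma dg_hcs {w : ℝ → ℝ} (hw : Wgt w) : HasCompactSupport w := by
  obtain ⟨a, ha, ha1, h⟩ := hw.supp
  exact HasCompactSupport.intro (isCompact_Icc (a := a) (b := 1)) fun x hx => h x (by
    rw [Set.mem_Icc, not_and_or, not_le, not_le] at hx; exact hx)

/-- the weight as a Schwartz function -/
noncomputable def dgS {w : ℝ → ℝ} (hw : Wgt w) : SchwartzMap ℝ ℂ :=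
  HasCompactSupport.toSchwartzMap (f := fun x => (w x : ℂ))
    ((dg_hcs hw).comp_left (g := fun x : ℝ => (x : ℂ)) (by simp))
    (Complex.ofRealCLM.contDiff.comp hw.smooth)

lemma dg_decay {w : ℝ → ℝ} (hw : Wgt w) (A : ℕ) : ∃ C : ℝ, 0 < C ∧ ∀ ξ : ℝ,
    |ξ| ^ A * ‖𝓕 (fun x : ℝ => (w x : ℂ)) ξ‖ ≤ C := by
  obtain ⟨C, hC, h⟩ := (𝓕 (dgS hw) : SchwartzMap ℝ ℂ).decay A 0
  refine ⟨C, hC, fun ξ => ?_⟩
  have := h ξ
  rw [norm_iteratedFDeriv_zero, Real.norm_eq_abs] at this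
  exact this

lemma dg_scale (w : ℝ → ℝ) {T : ℝ} (hT : 0 < T) (u : ℝ) :
    ∫ t : ℝ, (w (t / T) : ℂ) * Complex.exp (t * u * Complex.I) =
      T * 𝓕 (fun x : ℝ => (w x : ℂ)) (-(T * u / (2 * Real.pi))) := by
  have h1 := Measure.integral_comp_div
    (fun x : ℝ => (w x : ℂ) * Complex.exp ((T * x : ℝ) * u * Complex.I)) T
  rw [Real.fourier_real_eq_integral_exp_smul]
  have h2 : ∀ t : ℝ, (w (t / T) : ℂ) * Complex.exp (t * u * Complex.I) =
      (w (t / T) : ℂ) * Complex.exp ((T * (t / T) : ℝ) * u * Complex.I) := by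
    intro t
    rw [mul_div_cancel₀ _ hT.ne']
  rw [integral_congr_ae (ae_of_all _ h2), h1, abs_of_pos hT, Complex.real_smul]
  congr 1
  refine integral_congr_ae (ae_of_all _ fun x => ?_)
  simp only [smul_eq_mul]
  rw [mul_comm]
  congr 2
  push_cast
  have : (Real.pi : ℂ) ≠ 0 := by exact_mod_cast Real.pi_ne_zero
  field_simp

/-- rapid decay of oscillating integrals -/
theorem osc_decay {w : ℝ → ℝ} (hw : Wgt w) (A : ℕ) : ∃ C : ℝ, 0 < C ∧ ∀ T : ℝ, 0 < T → ∀ u : ℝ,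
    u ≠ 0 → ‖∫ t : ℝ, (w (t / T) : ℂ) * Complex.exp (t * u * Complex.I)‖ ≤
      C * T * (T * |u|)⁻¹ ^ A := by
  obtain ⟨C, hC, hdec⟩ := dg_decay hw A
  refine ⟨C * (2 * Real.pi) ^ A, by positivity, fun T hT u hu => ?_⟩
  have hu' : 0 < |u| := abs_pos.mpr hu
  rw [dg_scale w hT u, norm_mul, Complex.norm_real, Real.norm_of_nonneg hT.le]
  have h1 := hdec (-(T * u / (2 * Real.pi)))
  have h2 : |(-(T * u / (2 * Real.pi)))| = T * |u| / (2 * Real.pi) := by
    rw [abs_neg, abs_div, abs_mul, abs_of_pos hT, abs_of_pos (by positivity : 0 < 2 * Real.pi)]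
  rw [h2] at h1
  have hpos : 0 < T * |u| / (2 * Real.pi) := by positivity
  rw [← le_div_iff₀' (by positivity)] at h1
  calc T * ‖𝓕 (fun x : ℝ => (w x : ℂ)) (-(T * u / (2 * Real.pi)))‖ ≤
      T * (C / (T * |u| / (2 * Real.pi)) ^ A) := mul_le_mul_of_nonneg_left h1 hT.le
    _ = C * (2 * Real.pi) ^ A * T * (T * |u|)⁻¹ ^ A := by
      rw [div_pow, inv_pow]
      field_simp

/-- frequency of a tuple -/
noncomputable def dgu {k : ℕ} (p : Fin k → CP) : ℝ :=
  Real.log ((∏ i, (p i).1.1 : ℕ) : ℝ) - Real.log ((∏ i, (p i).1.2 : ℕ) : ℝ)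

/-- coefficient of a tuple -/
noncomputable def dgc (ω : ℝ → ℝ) (L : ℝ) {k : ℕ} (p : Fin k → CP) : ℝ :=
  ∏ i, (ω (lnq (p i) / L) * Real.exp (-(lnq (p i) / 2)))

lemma dg_osc {k : ℕ} (p : Fin k → CP) (t : ℝ) :
    ∏ i, osc (p i) t = Complex.exp (t * dgu p * Complex.I) := by
  unfold osc dgu
  rw [← Complex.exp_sum]
  congr 1
  have h1 : Real.log ((∏ i, (p i).1.1 : ℕ) : ℝ) = ∑ i, Real.log ((p i).1.1 : ℝ) := by
    push_cast
    exact Real.log_prod fun i _ => by exact_mod_cast (p i).2.1.ne'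
  have h2 : Real.log ((∏ i, (p i).1.2 : ℕ) : ℝ) = ∑ i, Real.log ((p i).1.2 : ℝ) := by
    push_cast
    exact Real.log_prod fun i _ => by exact_mod_cast (p i).2.2.1.ne'
  rw [h1, h2, ← Finset.sum_sub_distrib]
  push_cast
  rw [Finset.mul_sum, Finset.sum_mul]

lemma dg_pow (ω : ℝ → ℝ) (θ L t : ℝ) (k : ℕ) :
    (WW ω θ L t) ^ k = ∑ p ∈ Fintype.piFinset (fun _ : Fin k => CS (θ * L)),
      (dgc ω L p : ℂ) * Complex.exp (t * dgu p * Complex.I) := by
  have h1 : (WW ω θ L t) ^ k = ∏ _i : Fin k, WW ω θ L t := by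
    rw [Finset.prod_const, Finset.card_fin]
  rw [h1]
  unfold WW
  rw [Finset.prod_univ_sum]
  apply Finset.sum_congr rfl
  intro p _
  rw [Finset.prod_mul_distrib, dg_osc, dgc]
  push_cast
  rfl

lemma dg_lnq_nonneg (q : CP) : 0 ≤ lnq q := by
  obtain ⟨⟨m, n⟩, hm, hn, hc⟩ := q
  have hm' : (1 : ℝ) ≤ m := by exact_mod_cast hm
  have hn' : (1 : ℝ) ≤ n := by exact_mod_cast hn
  exact Real.log_nonneg (by simp only; nlinarith)

lemma dg_mem_CS {q : CP} {B : ℝ} : q ∈ CS B ↔ lnq q ≤ B := by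
  unfold CS; simp

lemma dg_exp_lnq (q : CP) : Real.exp (lnq q) = (q.1.1 : ℝ) * q.1.2 := by
  have h1 : (0:ℝ) < q.1.1 := by exact_mod_cast q.2.1
  have h2 : (0:ℝ) < q.1.2 := by exact_mod_cast q.2.2.1
  rw [lnq, Real.exp_log (by positivity)]

/-- the frequency of an off-diagonal tuple is not small -/
lemma dg_gap {k : ℕ} {B : ℝ} (p : Fin k → CP) (hp : ∀ i, lnq (p i) ≤ B)
    (hne : ∏ i, (p i).1.1 ≠ ∏ i, (p i).1.2) :
    (1 / 2) * Real.exp (-(k * B / 2)) ≤ |dgu p| := by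
  set M : ℕ := ∏ i, (p i).1.1 with hM
  set N : ℕ := ∏ i, (p i).1.2 with hN
  have hM0 : 0 < M := Finset.prod_pos fun i _ => (p i).2.1
  have hN0 : 0 < N := Finset.prod_pos fun i _ => (p i).2.2.1
  have hM1 : (1:ℝ) ≤ M := by exact_mod_cast hM0
  have hN1 : (1:ℝ) ≤ N := by exact_mod_cast hN0
  have hMN : (M:ℝ) * N ≤ Real.exp (k * B) := by
    have h1 : (M:ℝ) * N = ∏ i, Real.exp (lnq (p i)) := by
      rw [hM, hN]; push_cast
      rw [← Finset.prod_mul_distrib]
      exact Finset.prod_congr rfl fun i _ => (dg_exp_lnq (p i)).symm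
    rw [h1, ← Real.exp_sum]
    apply Real.exp_le_exp.mpr
    calc ∑ i, lnq (p i) ≤ ∑ _i : Fin k, B := Finset.sum_le_sum fun i _ => hp i
      _ = k * B := by simp
  have g1 := Pool.Agent.ZetaMoment.log_gap hM0 hN0 hne
  have g2 := Pool.Agent.ZetaMoment.log_gap hN0 hM0 hne.symm
  rw [abs_sub_comm] at g2
  have hdg : dgu p = Real.log M - Real.log N := rfl
  rw [hdg]
  have hexp : Real.exp (k * B / 2) ^ 2 = Real.exp (k * B) := by
    rw [← Real.exp_nat_mul]; congr 1; push_cast; ring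
  have hE := Real.exp_pos (k * B / 2)
  have key : ∀ x y : ℝ, 1 ≤ x → x ≤ y → x * y ≤ Real.exp (k * B) →
      (1 / 2) * Real.exp (-(k * B / 2)) ≤ 1 / (x + 1) := by
    intro x y hx hxy hle
    have h1 : x ≤ Real.exp (k * B / 2) := by
      rw [← hexp] at hle
      nlinarith
    rw [Real.exp_neg, ← one_div, div_mul_div_comm, one_mul, one_div_le_one_div (by positivity)
      (by positivity)]
    linarith
  rcases le_total (M:ℝ) N with h | h
  · exact (key M N hM1 h hMN).trans g2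
  · exact (key N M hN1 h (by rw [mul_comm]; exact hMN)).trans g1

/-- diagonal coefficients -/
lemma dg_diag (ω : ℝ → ℝ) (L : ℝ) {k : ℕ} (p : Fin k → CP)
    (he : ∏ i, (p i).1.1 = ∏ i, (p i).1.2) :
    dgc ω L p = (1 / ∏ i, ((p i).1.1 : ℝ)) * ∏ i, ω (lnq (p i) / L) := by
  have hM0 : (0:ℝ) < ∏ i, ((p i).1.1 : ℝ) :=
    Finset.prod_pos fun i _ => by exact_mod_cast (p i).2.1
  have he' : ∏ i, ((p i).1.1 : ℝ) = ∏ i, ((p i).1.2 : ℝ) := by exact_mod_cast he
  have h1 : ∏ i, Real.exp (-(lnq (p i) / 2)) = 1 / ∏ i, ((p i).1.1 : ℝ) := by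
    have h2 : (∏ i, Real.exp (-(lnq (p i) / 2))) ^ 2 = (1 / ∏ i, ((p i).1.1 : ℝ)) ^ 2 := by
      rw [← Finset.prod_pow]
      have h3 : ∀ i, Real.exp (-(lnq (p i) / 2)) ^ 2 = (((p i).1.1 : ℝ) * (p i).1.2)⁻¹ := by
        intro i
        rw [← dg_exp_lnq, ← Real.exp_neg, ← Real.exp_nat_mul]
        congr 1; push_cast; ring
      simp_rw [h3]
      rw [Finset.prod_inv_distrib, Finset.prod_mul_distrib, ← he']
      field_simp
    have h4 : 0 ≤ ∏ i, Real.exp (-(lnq (p i) / 2)) :=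
      Finset.prod_nonneg fun i _ => (Real.exp_pos _).le
    exact (pow_left_inj₀ h4 (by positivity) two_ne_zero).mp h2
  rw [dgc, Finset.prod_mul_distrib, h1, mul_comm]

/-- the discrete functional as a finite sum -/
lemma dg_DF (k : ℕ) {θ : ℝ} {ω : ℝ → ℝ} (hω : Adm ω θ) {L : ℝ} (hL : 0 < L) :
    DF k (fun s => ∏ i, ω (s i)) L = ∑ p ∈ Fintype.piFinset (fun _ : Fin k => CS (θ * L)),
      if ∏ i, (p i).1.1 = ∏ i, (p i).1.2 then dgc ω L p else 0 := by
  classical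
  set F : (Fin k → CP) → ℝ := fun p => (1 / ∏ i, ((p i).1.1 : ℝ)) * ∏ i, ω (lnq (p i) / L) with hF
  have h1 : DF k (fun s => ∏ i, ω (s i)) L =
      ∑' q : {q : Fin k → CP | ∏ i, (q i).1.1 = ∏ i, (q i).1.2}, F q := rfl
  rw [h1, tsum_subtype, tsum_eq_sum (s := Fintype.piFinset (fun _ : Fin k => CS (θ * L)))]
  · apply Finset.sum_congr rfl
    intro p _
    by_cases he : ∏ i, (p i).1.1 = ∏ i, (p i).1.2
    · rw [if_pos he, Set.indicator_of_mem (by exact he), dg_diag ω L p he]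
    · rw [if_neg he, Set.indicator_of_notMem (by exact he)]
  · intro p hp
    rw [Fintype.mem_piFinset] at hp
    push Not at hp
    obtain ⟨i, hi⟩ := hp
    rw [dg_mem_CS, not_le] at hi
    have h0 : ω (lnq (p i) / L) = 0 := hω.supp _ (by rw [le_div_iff₀ hL]; exact hi.le)
    have h3 : ∏ i, ω (lnq (p i) / L) = 0 := Finset.prod_eq_zero (Finset.mem_univ i) h0
    have h2 : F p = 0 := by
      simp only [hF]
      rw [h3, mul_zero]
    by_cases he : ∏ i, (p i).1.1 = ∏ i, (p i).1.2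
    · rw [Set.indicator_of_mem (by exact he), h2]
    · rw [Set.indicator_of_notMem (by exact he)]

lemma dg_integrable {w : ℝ → ℝ} (hw : Wgt w) {T : ℝ} (hT : 0 < T) {h : ℝ → ℂ} (hh : Continuous h) :
    Integrable fun t => (w (t / T) : ℂ) * h t := by
  obtain ⟨a, ha, ha1, hs⟩ := hw.supp
  have hwc : Continuous w := hw.smooth.continuous
  refine Continuous.integrable_of_hasCompactSupport ?_ ?_
  · exact (Complex.continuous_ofReal.comp (hwc.comp (continuous_id.div_const T))).mul hh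
  · refine HasCompactSupport.intro (isCompact_Icc (a := a * T) (b := T)) fun t ht => ?_
    have h0 : w (t / T) = 0 := by
      apply hs
      rw [Set.mem_Icc, not_and_or, not_le, not_le] at ht
      rcases ht with h | h
      · left; rwa [div_lt_iff₀ hT]
      · right; rwa [one_lt_div hT]
    rw [h0]; simp

/-- exact expansion of the mean value -/
lemma dg_expand {w : ℝ → ℝ} (hw : Wgt w) (k : ℕ) (θ : ℝ) (ω : ℝ → ℝ) {T : ℝ} (hT : 0 < T) (L : ℝ) :
    ((∫ t : ℝ, w (t / T) * (WW ω θ L t).re ^ k : ℝ) : ℂ) =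
      ∑ p ∈ Fintype.piFinset (fun _ : Fin k => CS (θ * L)), (dgc ω L p : ℂ) *
        ∫ t : ℝ, (w (t / T) : ℂ) * Complex.exp (t * dgu p * Complex.I) := by
  rw [← integral_complex_ofReal]
  have h1 : ∀ t : ℝ, ((w (t / T) * (WW ω θ L t).re ^ k : ℝ) : ℂ) =
      ∑ p ∈ Fintype.piFinset (fun _ : Fin k => CS (θ * L)), (dgc ω L p : ℂ) *
        ((w (t / T) : ℂ) * Complex.exp (t * dgu p * Complex.I)) := by
    intro t
    have h2 : (((WW ω θ L t).re : ℝ) : ℂ) = WW ω θ L t := by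
      apply Complex.ext
      · simp
      · simp [WW_real]
    rw [Complex.ofReal_mul, Complex.ofReal_pow, h2, dg_pow, Finset.mul_sum]
    exact Finset.sum_congr rfl fun p _ => by ring
  simp_rw [h1]
  rw [integral_finsetSum]
  · refine Finset.sum_congr rfl fun p _ => ?_
    rw [integral_const_mul]
  · intro p _
    exact (dg_integrable hw hT (by fun_prop)).const_mul _

theorem mean_W {w : ℝ → ℝ} (hw : Wgt w) (k : ℕ) {θ : ℝ} (hθ : 0 < θ) (hkθ : k * θ < 2) {ω : ℝ → ℝ}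
    (hω : Adm ω θ) :
    Tendsto (fun T : ℝ => (1 / T) * (∫ t : ℝ, w (t / T) * (WW ω θ (Real.log T) t).re ^ k) -
      (∫ x, w x) * DF k (fun s => ∏ i, ω (s i)) (Real.log T)) atTop (𝓝 0) := by
  classical
  set β : ℝ := 1 - k * θ / 2 with hβ
  have hβ0 : 0 < β := by rw [hβ]; linarith
  obtain ⟨A, hA⟩ := exists_nat_ge (3 / β)
  rw [div_le_iff₀ hβ0] at hA
  obtain ⟨C₂, hC₂, hosc⟩ := osc_decay hw A
  obtain ⟨C₁, hC₁, hCS⟩ := CS_sum_le (1 / 2) (by norm_num)
  obtain ⟨Ω, hΩ⟩ := (isCompact_Icc (a := (0:ℝ)) (b := θ)).exists_bound_of_continuousOn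
    hω.cont.continuousOn
  have hΩ0 : 0 ≤ Ω := (norm_nonneg _).trans (hΩ 0 ⟨le_rfl, hθ.le⟩)
  set K : ℝ := (Ω * C₁) ^ k * (C₂ * 2 ^ A) with hK
  refine squeeze_zero_norm' (a := fun T : ℝ => K / T) ?_ ?_
  swap
  · exact tendsto_id.const_div_atTop K
  filter_upwards [eventually_ge_atTop (Real.exp 1)] with T hTe
  have hT : 0 < T := (Real.exp_pos 1).trans_le hTe
  set L := Real.log T with hL
  have hL1 : 1 ≤ L := by rw [hL, Real.le_log_iff_exp_le hT]; exact hTe
  have hL0 : 0 < L := by linarith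
  have hTL : T = Real.exp L := (Real.exp_log hT).symm
  set S := Fintype.piFinset (fun _ : Fin k => CS (θ * L)) with hS
  set J : (Fin k → CP) → ℂ := fun p =>
    ∫ t : ℝ, (w (t / T) : ℂ) * Complex.exp (t * dgu p * Complex.I) with hJ
  -- diagonal integrals
  have hJd : ∀ p : Fin k → CP, ∏ i, (p i).1.1 = ∏ i, (p i).1.2 →
      J p = T * ((∫ x, w x : ℝ) : ℂ) := by
    intro p he
    have hu : dgu p = 0 := by unfold dgu; rw [he, sub_self]
    simp only [hJ, hu, Complex.ofReal_zero, mul_zero, zero_mul, Complex.exp_zero, mul_one]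
    have h1 := Measure.integral_comp_div (fun x : ℝ => (w x : ℂ)) T
    rw [h1, abs_of_pos hT, Complex.real_smul, integral_complex_ofReal]
  -- off diagonal integrals
  have hJo : ∀ p ∈ S, ∏ i, (p i).1.1 ≠ ∏ i, (p i).1.2 →
      ‖J p‖ ≤ T * (C₂ * 2 ^ A * Real.exp (-(3 * L))) := by
    intro p hp hne
    rw [hS, Fintype.mem_piFinset] at hp
    have hp' : ∀ i, lnq (p i) ≤ θ * L := fun i => dg_mem_CS.mp (hp i)
    have hg := dg_gap p hp' hne
    have hu0 : 0 < |dgu p| := lt_of_lt_of_le (by positivity) hg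
    have hu : dgu p ≠ 0 := abs_pos.mp hu0
    refine (hosc T hT (dgu p) hu).trans ?_
    have h1 : (1 / 2) * Real.exp (β * L) ≤ T * |dgu p| := by
      calc (1 / 2) * Real.exp (β * L) = T * ((1 / 2) * Real.exp (-(k * (θ * L) / 2))) := by
            rw [hTL, mul_left_comm, ← Real.exp_add]
            congr 2
            rw [hβ]; ring
        _ ≤ T * |dgu p| := mul_le_mul_of_nonneg_left hg hT.le
    have h2 : (T * |dgu p|)⁻¹ ≤ 2 * Real.exp (-(β * L)) := by
      calc (T * |dgu p|)⁻¹ ≤ ((1 / 2) * Real.exp (β * L))⁻¹ :=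
            inv_anti₀ (by positivity) h1
        _ = 2 * Real.exp (-(β * L)) := by
            rw [mul_inv, Real.exp_neg]; norm_num
    have h3 : (T * |dgu p|)⁻¹ ^ A ≤ 2 ^ A * Real.exp (-(3 * L)) := by
      calc (T * |dgu p|)⁻¹ ^ A ≤ (2 * Real.exp (-(β * L))) ^ A :=
            pow_le_pow_left₀ (by positivity) h2 A
        _ = 2 ^ A * Real.exp (A * (-(β * L))) := by rw [mul_pow, ← Real.exp_nat_mul]
        _ ≤ 2 ^ A * Real.exp (-(3 * L)) := by
            apply mul_le_mul_of_nonneg_left _ (by positivity)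
            apply Real.exp_le_exp.mpr
            nlinarith
    calc C₂ * T * (T * |dgu p|)⁻¹ ^ A ≤ C₂ * T * (2 ^ A * Real.exp (-(3 * L))) :=
          mul_le_mul_of_nonneg_left h3 (by positivity)
      _ = _ := by ring
  -- coefficient sum
  have hcoef : ∑ p ∈ S, |dgc ω L p| ≤ (Ω * C₁) ^ k * Real.exp (2 * L) := by
    have h1 : ∀ p ∈ S, |dgc ω L p| ≤ ∏ i, (Ω * Real.exp (-(lnq (p i) / 2))) := by
      intro p hp
      rw [hS, Fintype.mem_piFinset] at hp
      rw [dgc, Finset.abs_prod]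
      apply Finset.prod_le_prod
      · intro i _; exact abs_nonneg _
      · intro i _
        rw [abs_mul, abs_of_pos (Real.exp_pos _)]
        apply mul_le_mul_of_nonneg_right _ (Real.exp_pos _).le
        apply hΩ
        constructor
        · exact div_nonneg (dg_lnq_nonneg _) hL0.le
        · rw [div_le_iff₀ hL0]
          exact dg_mem_CS.mp (hp i)
    have h2 : ∑ p ∈ S, ∏ i, (Ω * Real.exp (-(lnq (p i) / 2))) =
        (Ω * ∑ q ∈ CS (θ * L), Real.exp (-(lnq q / 2))) ^ k := by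
      rw [Finset.mul_sum]
      have := Finset.prod_univ_sum (fun _ : Fin k => CS (θ * L))
        (fun (_ : Fin k) q => Ω * Real.exp (-(lnq q / 2)))
      rw [hS, ← this, Finset.prod_const, Finset.card_fin]
    have h3 := hCS (θ * L) (by positivity)
    have h4 : (1 / 2 + 1 / 2 : ℝ) * (θ * L) = θ * L := by ring
    rw [h4] at h3
    calc ∑ p ∈ S, |dgc ω L p| ≤ ∑ p ∈ S, ∏ i, (Ω * Real.exp (-(lnq (p i) / 2))) :=
          Finset.sum_le_sum h1
      _ = (Ω * ∑ q ∈ CS (θ * L), Real.exp (-(lnq q / 2))) ^ k := h2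
      _ ≤ (Ω * (C₁ * Real.exp (θ * L))) ^ k := by
          apply pow_le_pow_left₀
          · exact mul_nonneg hΩ0 (Finset.sum_nonneg fun q _ => (Real.exp_pos _).le)
          · exact mul_le_mul_of_nonneg_left h3 hΩ0
      _ = (Ω * C₁) ^ k * Real.exp (k * (θ * L)) := by
          rw [← mul_assoc, mul_pow, ← Real.exp_nat_mul]
      _ ≤ (Ω * C₁) ^ k * Real.exp (2 * L) := by
          apply mul_le_mul_of_nonneg_left _ (by positivity)
          apply Real.exp_le_exp.mpr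
          nlinarith
  -- the identity
  have hT' : (T : ℂ) ≠ 0 := by exact_mod_cast hT.ne'
  have hid : (((1 / T) * (∫ t : ℝ, w (t / T) * (WW ω θ L t).re ^ k) -
      (∫ x, w x) * DF k (fun s => ∏ i, ω (s i)) L : ℝ) : ℂ) =
      (1 / T) * ∑ p ∈ S, (if ∏ i, (p i).1.1 = ∏ i, (p i).1.2 then 0 else
        (dgc ω L p : ℂ) * J p) := by
    rw [Complex.ofReal_sub, Complex.ofReal_mul, dg_expand hw k θ ω hT L, dg_DF k hω hL0]
    push_cast
    rw [Finset.mul_sum, Finset.mul_sum, Finset.mul_sum, ← Finset.sum_sub_distrib]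
    refine Finset.sum_congr rfl fun p _ => ?_
    by_cases he : ∏ i, (p i).1.1 = ∏ i, (p i).1.2
    · rw [if_pos he, if_pos he]
      have := hJd p he
      simp only [hJ] at this
      rw [this]
      push_cast
      field_simp
      ring
    · rw [if_neg he, if_neg he]
      simp [hJ]
  rw [← Complex.norm_real, hid, norm_mul]
  have hTn : ‖(1 / T : ℂ)‖ = 1 / T := by
    rw [norm_div, norm_one, Complex.norm_real, Real.norm_of_nonneg hT.le]
  rw [hTn]
  have hsum : ‖∑ p ∈ S, (if ∏ i, (p i).1.1 = ∏ i, (p i).1.2 then 0 else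
      (dgc ω L p : ℂ) * J p)‖ ≤ (∑ p ∈ S, |dgc ω L p|) *
        (T * (C₂ * 2 ^ A * Real.exp (-(3 * L)))) := by
    rw [Finset.sum_mul]
    refine (norm_sum_le _ _).trans (Finset.sum_le_sum fun p hp => ?_)
    by_cases he : ∏ i, (p i).1.1 = ∏ i, (p i).1.2
    · rw [if_pos he, norm_zero]; positivity
    · rw [if_neg he, norm_mul, Complex.norm_real, Real.norm_eq_abs]
      exact mul_le_mul_of_nonneg_left (hJo p hp he) (abs_nonneg _)
  calc 1 / T * ‖∑ p ∈ S, (if ∏ i, (p i).1.1 = ∏ i, (p i).1.2 then 0 else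
      (dgc ω L p : ℂ) * J p)‖ ≤ 1 / T * ((∑ p ∈ S, |dgc ω L p|) *
        (T * (C₂ * 2 ^ A * Real.exp (-(3 * L))))) :=
        mul_le_mul_of_nonneg_left hsum (by positivity)
    _ ≤ 1 / T * (((Ω * C₁) ^ k * Real.exp (2 * L)) *
        (T * (C₂ * 2 ^ A * Real.exp (-(3 * L))))) := by
        apply mul_le_mul_of_nonneg_left _ (by positivity)
        exact mul_le_mul_of_nonneg_right hcoef (by positivity)
    _ = K * (Real.exp (2 * L) * Real.exp (-(3 * L))) := by
        rw [hK]; field_simp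
    _ = K / T := by
        rw [← Real.exp_add, div_eq_mul_inv]
        congr 1
        rw [hTL, ← Real.exp_neg]
        congr 1
        ring

end Pool.Agent.EvenMoment
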