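import Mathlib
import Pool.Agent.Lib_MP_112ba8_e.Defs

/-!
Piece P13d: an explicit triple integral.
-/

namespace Pool.Agent.EvenMoment

open Filter Topology MeasureTheory

lemma int_poly_aux (n : ℕ) (p : ℕ → ℝ) (u v : ℝ) :
    ∫ c in u..v, ∑ i ∈ Finset.range n, p i * c ^ i =
      ∑ i ∈ Finset.range n, p i * ((v ^ (i + 1) - u ^ (i + 1)) / (i + 1)) := by
  rw [intervalIntegral.integral_finsetSum]
  · refine Finset.sum_congr rfl fun i _ => ?_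
    rw [intervalIntegral.integral_const_mul, integral_pow]
  · intro i _
    exact (Continuous.intervalIntegrable (by fun_prop) _ _)

lemma eta_inner (a b : ℝ) : (∫ c in (0 : ℝ)..(1 - b),
      a * b * c * ((1 - a - b) * (1 - a - c) * (1 - b - c)) * (a + b + c)) =
    a * b * (1 - a - b) * ((a + b) * (1 - a) * (1 - b) * ((1 - b) ^ 2 / 2) +
      ((1 - a) * (1 - b) - (a + b) * ((1 - a) + (1 - b))) * ((1 - b) ^ 3 / 3) +
      ((a + b) - ((1 - a) + (1 - b))) * ((1 - b) ^ 4 / 4) + (1 - b) ^ 5 / 5) := by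
  have h := int_poly_aux 5 (fun i => if i = 0 then 0 else if i = 1 then
      a * b * (1 - a - b) * ((a + b) * (1 - a) * (1 - b)) else if i = 2 then
      a * b * (1 - a - b) * ((1 - a) * (1 - b) - (a + b) * ((1 - a) + (1 - b))) else if i = 3 then
      a * b * (1 - a - b) * ((a + b) - ((1 - a) + (1 - b))) else a * b * (1 - a - b)) 0 (1 - b)
  simp only [Finset.sum_range_succ, Finset.sum_range_zero] at h
  norm_num at h
  rw [show (fun c : ℝ => a * b * c * ((1 - a - b) * (1 - a - c) * (1 - b - c)) * (a + b + c)) =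
    fun c : ℝ => a * b * (1 - a - b) * ((a + b) * (1 - a) * (1 - b)) * c +
      a * b * (1 - a - b) * ((1 - a) * (1 - b) - (a + b) * ((1 - a) + (1 - b))) * c ^ 2 +
      a * b * (1 - a - b) * ((a + b) - ((1 - a) + (1 - b))) * c ^ 3 +
      a * b * (1 - a - b) * c ^ 4 from by funext c; ring]
  rw [h]
  ring


lemma int9 (q : Fin 10 → ℝ) (u v : ℝ) :
    (∫ b in u..v, (q 0 + q 1 * b + q 2 * b ^ 2 + q 3 * b ^ 3 + q 4 * b ^ 4 + q 5 * b ^ 5 +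
      q 6 * b ^ 6 + q 7 * b ^ 7 + q 8 * b ^ 8 + q 9 * b ^ 9)) =
    q 0 * (v - u) + q 1 * ((v ^ 2 - u ^ 2) / 2) + q 2 * ((v ^ 3 - u ^ 3) / 3) +
      q 3 * ((v ^ 4 - u ^ 4) / 4) + q 4 * ((v ^ 5 - u ^ 5) / 5) + q 5 * ((v ^ 6 - u ^ 6) / 6) +
      q 6 * ((v ^ 7 - u ^ 7) / 7) + q 7 * ((v ^ 8 - u ^ 8) / 8) + q 8 * ((v ^ 9 - u ^ 9) / 9) +
      q 9 * ((v ^ 10 - u ^ 10) / 10) := by
  have h := int_poly_aux 10 (fun i => if hi : i < 10 then q ⟨i, hi⟩ else 0) u v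
  simp only [Finset.sum_range_succ, Finset.sum_range_zero] at h
  norm_num at h
  exact h

lemma eta_middle (a : ℝ) : (∫ b in a..(1 - a), a * b * (1 - a - b) * ((a + b) * (1 - a) * (1 - b) * ((1 - b) ^ 2 / 2) +
      ((1 - a) * (1 - b) - (a + b) * ((1 - a) + (1 - b))) * ((1 - b) ^ 3 / 3) +
      ((a + b) - ((1 - a) + (1 - b))) * ((1 - b) ^ 4 / 4) + (1 - b) ^ 5 / 5)) =
    ((0 : ℝ)) * a ^ 0 + ((11 / 5040 : ℝ)) * a ^ 1 + ((-1 / 280 : ℝ)) * a ^ 2 + ((-1 / 45 : ℝ)) * a ^ 3 + ((13 / 360 : ℝ)) * a ^ 4 + ((1 / 8 : ℝ)) * a ^ 5 + ((-73 / 180 : ℝ)) * a ^ 6 + ((7 / 15 : ℝ)) * a ^ 7 + ((-9 / 35 : ℝ)) * a ^ 8 + ((2 / 35 : ℝ)) * a ^ 9 := by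
  have h := int9 (![(0 : ℝ),
    (1 / 30 : ℝ) * a + (-1 / 30 : ℝ) * a ^ 2 + (-1 / 6 : ℝ) * a ^ 3 + (1 / 6 : ℝ) * a ^ 4,
    (-1 / 30 : ℝ) * a + (2 / 3 : ℝ) * a ^ 3 + (-1 / 2 : ℝ) * a ^ 4,
    (-1 / 6 : ℝ) * a + (1 / 6 : ℝ) * a ^ 2 + (-1 / 1 : ℝ) * a ^ 3 + (1 / 2 : ℝ) * a ^ 4,
    (1 / 3 : ℝ) * a + (-1 / 6 : ℝ) * a ^ 2 + (2 / 3 : ℝ) * a ^ 3 + (-1 / 6 : ℝ) * a ^ 4,
    (-1 / 6 : ℝ) * a + (-1 / 6 : ℝ) * a ^ 3,
    (-1 / 30 : ℝ) * a + (1 / 30 : ℝ) * a ^ 2,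
    (1 / 30 : ℝ) * a,
    (0 : ℝ),
    (0 : ℝ)]) a (1 - a)
  simp only [Matrix.cons_val] at h
  refine Eq.trans (intervalIntegral.integral_congr fun b _ => ?_) (h.trans ?_)
  · ring
  · ring


theorem eta_integral :
    ∫ a in (0 : ℝ)..(1 / 2), ∫ b in a..(1 - a), ∫ c in (0 : ℝ)..(1 - b),
      a * b * c * ((1 - a - b) * (1 - a - c) * (1 - b - c)) * (a + b + c) = 19 / 358400 := by
  simp only [eta_inner, eta_middle]

  have h := int9 (![(0 : ℝ),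
    (11 / 5040 : ℝ),
    (-1 / 280 : ℝ),
    (-1 / 45 : ℝ),
    (13 / 360 : ℝ),
    (1 / 8 : ℝ),
    (-73 / 180 : ℝ),
    (7 / 15 : ℝ),
    (-9 / 35 : ℝ),
    (2 / 35 : ℝ)]) 0 (1 / 2)
  simp only [Matrix.cons_val] at h
  refine Eq.trans (intervalIntegral.integral_congr fun b _ => ?_) (h.trans ?_)
  · ring
  · norm_num

end Pool.Agent.EvenMoment
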