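import Pool.Agent.Lib_MP_112ba8_e.Defs

/-!
P6: the functional equation on the critical line.
-/

namespace Pool.Agent.EvenMoment

open Filter Topology MeasureTheory

theorem ker_den_ge (y : ℝ) : 1 ≤ ‖(1 + Complex.I * (y : ℂ))‖ ∧ y ≤ ‖(1 + Complex.I * (y : ℂ))‖ := by
  constructor
  · have := Complex.abs_re_le_norm (1 + Complex.I * (y : ℂ))
    simpa using this
  · have := Complex.abs_im_le_norm (1 + Complex.I * (y : ℂ))
    simp only [Complex.add_im, Complex.one_im, Complex.mul_im, Complex.I_re, Complex.ofReal_im,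
      Complex.I_im, Complex.ofReal_re, zero_mul, one_mul, zero_add] at this
    exact (le_abs_self y).trans this

theorem ker_den_ne (t : ℝ) : (1 + Complex.I * (Real.exp (-(Real.pi * t)) : ℂ)) ≠ 0 := by
  intro h
  have h1 := (ker_den_ge (Real.exp (-(Real.pi * t)))).1
  rw [h, norm_zero] at h1
  linarith

theorem ker_norm_le (p : ℂ) (t : ℝ) :
    ‖ker p t‖ ≤ Real.exp (-(p.re * t)) ∧ ‖ker p t‖ ≤ Real.exp (-(p.re * t)) * Real.exp (Real.pi * t) := by
  have h1 : ‖ker p t‖ = Real.exp (-(p.re * t)) / ‖(1 + Complex.I * (Real.exp (-(Real.pi * t)) : ℂ))‖ := by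
    unfold ker
    rw [norm_div, Complex.norm_exp]
    congr 2
    simp
  obtain ⟨h2, h3⟩ := ker_den_ge (Real.exp (-(Real.pi * t)))
  have h0 : 0 < ‖(1 + Complex.I * (Real.exp (-(Real.pi * t)) : ℂ))‖ := by linarith
  rw [h1]
  constructor
  · rw [div_le_iff₀ h0]
    have := Real.exp_pos (-(p.re * t))
    nlinarith
  · rw [div_le_iff₀ h0]
    have e1 := Real.exp_pos (-(p.re * t))
    have e2 : Real.exp (Real.pi * t) * Real.exp (-(Real.pi * t)) = 1 := by
      rw [← Real.exp_add, add_neg_cancel, Real.exp_zero]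
    have e3 := Real.exp_pos (Real.pi * t)
    have e4 : 1 ≤ Real.exp (Real.pi * t) * ‖(1 + Complex.I * (Real.exp (-(Real.pi * t)) : ℂ))‖ := by
      rw [← e2]
      exact mul_le_mul_of_nonneg_left h3 e3.le
    nlinarith

theorem cl_ne_neg_nat (t : ℝ) (n : ℕ) : cl t ≠ -(n : ℂ) := by
  intro h
  have := congrArg Complex.re h
  simp only [cl, Complex.add_re, Complex.mul_re, Complex.ofReal_re, Complex.I_re, mul_zero,
    Complex.ofReal_im, Complex.I_im, mul_one, sub_self, add_zero, Complex.neg_re,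
    Complex.natCast_re] at this
  norm_num at this
  have h2 : (0 : ℝ) ≤ n := Nat.cast_nonneg n
  linarith

theorem cl_ne_one (t : ℝ) : cl t ≠ 1 := by
  intro h
  have := congrArg Complex.re h
  simp [cl] at this

theorem one_sub_cl (t : ℝ) : 1 - cl t = (starRingEnd ℂ) (cl t) := by
  apply Complex.ext
  · simp [cl]
    norm_num
  · simp [cl]

/-- twice the cosine on the critical line -/
theorem two_cos (t : ℝ) : 2 * Complex.cos (Real.pi * cl t / 2) =
    Complex.exp (-(Complex.I * Real.pi / 4) + Real.pi * t / 2) *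
      (1 + Complex.I * (Real.exp (-(Real.pi * t)) : ℂ)) := by
  have hI2 : Complex.I * Complex.I = -1 := Complex.I_mul_I
  have e1 : Real.pi * cl t / 2 * Complex.I = Complex.I * Real.pi / 4 - Real.pi * t / 2 := by
    unfold cl
    linear_combination (Real.pi * t / 2 : ℂ) * hI2
  have e2 : -(Real.pi * cl t / 2) * Complex.I = -(Complex.I * Real.pi / 4) + Real.pi * t / 2 := by
    unfold cl
    linear_combination (-(Real.pi * t / 2) : ℂ) * hI2
  have e3 : Complex.exp (Complex.I * Real.pi / 4 - Real.pi * t / 2) =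
      Complex.exp (-(Complex.I * Real.pi / 4) + Real.pi * t / 2) *
        (Complex.I * (Real.exp (-(Real.pi * t)) : ℂ)) := by
    have e4 : Complex.exp (Real.pi / 2 * Complex.I) = Complex.I := Complex.exp_pi_div_two_mul_I
    have e5 : Complex.exp (-(Complex.I * Real.pi / 4) + Real.pi * t / 2) *
        (Complex.exp (Real.pi / 2 * Complex.I) * Complex.exp ((-(Real.pi * t) : ℝ) : ℂ)) =
        Complex.exp (Complex.I * Real.pi / 4 - Real.pi * t / 2) := by
      rw [← Complex.exp_add, ← Complex.exp_add]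
      congr 1
      push_cast
      ring
    rw [← e5, e4, Complex.ofReal_exp]
  rw [Complex.two_cos, e1, e2, e3]
  ring

theorem gamma_zeta (t : ℝ) :
    Complex.Gamma (cl t) * riemannZeta (cl t) ^ 2 * (2 * Complex.cos (Real.pi * cl t / 2)) =
      ((‖riemannZeta (cl t)‖ ^ 2 : ℝ) : ℂ) * (2 * Real.pi : ℂ) ^ (cl t) := by
  have h1 := riemannZeta_one_sub (cl_ne_neg_nat t) (cl_ne_one t)
  rw [one_sub_cl, riemannZeta_conj] at h1
  have h2 : ((‖riemannZeta (cl t)‖ ^ 2 : ℝ) : ℂ) =
      (starRingEnd ℂ) (riemannZeta (cl t)) * riemannZeta (cl t) := by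
    rw [Complex.conj_mul', Complex.ofReal_pow]
  have h3 : (2 * Real.pi : ℂ) ^ (-(cl t)) * (2 * Real.pi : ℂ) ^ (cl t) = 1 := by
    rw [← Complex.cpow_add _ _ (by
      have := Real.pi_ne_zero
      simp), neg_add_cancel, Complex.cpow_zero]
  rw [h2, h1]
  linear_combination (-(Complex.Gamma (cl t) * riemannZeta (cl t) ^ 2 *
    (2 * Complex.cos (Real.pi * cl t / 2)))) * h3

theorem gamma_line {r : ℝ} (hr : 0 < r) {p : ℂ} (hp : 0 < p.re) (hp' : p.re < Real.pi) (t : ℝ) :
    Complex.Gamma (cl t) * riemannZeta (cl t) ^ 2 *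
      (2 * Real.pi * Complex.I * (r⁻¹ : ℝ) * Complex.exp (-(Complex.I * p))) ^ (-(cl t)) =
    Real.sqrt r * Complex.exp (Complex.I * p / 2) *
      ((‖riemannZeta (cl t)‖ ^ 2 : ℝ) * Complex.exp (t * Real.log r * Complex.I) * ker p t) := by
  have hpi := Real.pi_pos
  have hI2 : Complex.I * Complex.I = -1 := Complex.I_mul_I
  -- the logarithm of the base
  set w : ℂ := (Real.log (2 * Real.pi) : ℝ) - (Real.log r : ℝ) + Complex.I * (Real.pi / 2 - p)
    with hw
  have hwim : w.im = Real.pi / 2 - p.re := by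
    rw [hw]
    simp
  have hz : 2 * Real.pi * Complex.I * (r⁻¹ : ℝ) * Complex.exp (-(Complex.I * p)) =
      Complex.exp w := by
    have e1 : Complex.exp ((Real.log (2 * Real.pi) : ℝ) : ℂ) = 2 * Real.pi := by
      rw [← Complex.ofReal_exp, Real.exp_log (by positivity)]
      push_cast
      ring
    have e2 : Complex.exp (-((Real.log r : ℝ) : ℂ)) = (r⁻¹ : ℝ) := by
      rw [← Complex.ofReal_neg, ← Complex.ofReal_exp, Real.exp_neg, Real.exp_log hr]
    have e4 : Complex.exp (Real.pi / 2 * Complex.I) = Complex.I := Complex.exp_pi_div_two_mul_I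
    have e5 : w = ((Real.log (2 * Real.pi) : ℝ) : ℂ) + (-((Real.log r : ℝ) : ℂ)) +
        Real.pi / 2 * Complex.I + (-(Complex.I * p)) := by
      rw [hw]
      ring
    rw [e5, Complex.exp_add, Complex.exp_add, Complex.exp_add, e1, e2, e4]
    ring
  have hlog : Complex.log (Complex.exp w) = w := by
    apply Complex.log_exp
    · rw [hwim]
      linarith
    · rw [hwim]
      linarith
  have hpow : (2 * Real.pi * Complex.I * (r⁻¹ : ℝ) * Complex.exp (-(Complex.I * p))) ^ (-(cl t)) =
      Complex.exp (-(w * cl t)) := by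
    rw [hz, Complex.cpow_def_of_ne_zero (Complex.exp_ne_zero _), hlog]
    congr 1
    ring
  have h2pi : (2 * Real.pi : ℂ) ^ (cl t) = Complex.exp ((Real.log (2 * Real.pi) : ℝ) * cl t) := by
    rw [Complex.cpow_def_of_ne_zero (by simp), Complex.ofReal_log (by positivity)]
    push_cast
    rfl
  have hsqrt : ((Real.sqrt r : ℝ) : ℂ) = Complex.exp ((Real.log r : ℝ) / 2) := by
    have : Real.sqrt r = Real.exp (Real.log r / 2) := by
      rw [Real.exp_half, Real.exp_log hr]
    rw [this]
    push_cast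
    rfl
  have hgz := gamma_zeta t
  rw [two_cos, h2pi] at hgz
  have hden := ker_den_ne t
  have hE : Complex.exp (-(Complex.I * Real.pi / 4) + Real.pi * t / 2) ≠ 0 := Complex.exp_ne_zero _
  have hgz' : Complex.Gamma (cl t) * riemannZeta (cl t) ^ 2 =
      ((‖riemannZeta (cl t)‖ ^ 2 : ℝ) : ℂ) * Complex.exp ((Real.log (2 * Real.pi) : ℝ) * cl t) *
        Complex.exp (-(-(Complex.I * Real.pi / 4) + Real.pi * t / 2)) /
        (1 + Complex.I * (Real.exp (-(Real.pi * t)) : ℂ)) := by
    rw [eq_div_iff hden, Complex.exp_neg, ← div_eq_mul_inv, eq_div_iff hE, ← hgz]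
    ring
  rw [hpow, hgz', hsqrt]
  unfold ker
  have hexp : Complex.exp ((Real.log (2 * Real.pi) : ℝ) * cl t) *
      Complex.exp (-(-(Complex.I * Real.pi / 4) + Real.pi * t / 2)) * Complex.exp (-(w * cl t)) =
      Complex.exp ((Real.log r : ℝ) / 2) * Complex.exp (Complex.I * p / 2) *
        Complex.exp (t * Real.log r * Complex.I) * Complex.exp (-(p * t)) := by
    rw [← Complex.exp_add, ← Complex.exp_add, ← Complex.exp_add, ← Complex.exp_add,
      ← Complex.exp_add]
    congr 1
    rw [hw]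
    unfold cl
    linear_combination (-(Real.pi / 2 - p) * t : ℂ) * hI2
  calc ((‖riemannZeta (cl t)‖ ^ 2 : ℝ) : ℂ) * Complex.exp ((Real.log (2 * Real.pi) : ℝ) * cl t) *
        Complex.exp (-(-(Complex.I * Real.pi / 4) + Real.pi * t / 2)) /
        (1 + Complex.I * (Real.exp (-(Real.pi * t)) : ℂ)) * Complex.exp (-(w * cl t))
      = ((‖riemannZeta (cl t)‖ ^ 2 : ℝ) : ℂ) * (Complex.exp ((Real.log (2 * Real.pi) : ℝ) * cl t) *
          Complex.exp (-(-(Complex.I * Real.pi / 4) + Real.pi * t / 2)) * Complex.exp (-(w * cl t))) /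
          (1 + Complex.I * (Real.exp (-(Real.pi * t)) : ℂ)) := by ring
    _ = _ := by
        rw [hexp]
        ring

end Pool.Agent.EvenMoment
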