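import Pool.Agent.Lib_MP_112ba8_e.LogSum
import Pool.Agent.Lib_MP_112ba8_e.ClassC
import Pool.Agent.Lib_MP_112ba8_e.ClassZero

/-!
P7d: the sum near a rational point.
-/

namespace Pool.Agent.EvenMoment

open Filter Topology MeasureTheory

theorem near_summable {z : ℂ} (hz : 0 < z.re) :
    Summable (fun a : ℕ => 1 / (Complex.exp (((a : ℂ) + 1) * z) - 1)) := by
  set ρ := z.re with hρ
  have hq0 : 0 < Real.exp (-ρ) := Real.exp_pos _
  have hq1 : Real.exp (-ρ) < 1 := by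
    rw [Real.exp_lt_one_iff]
    linarith
  have hs : Summable (fun a : ℕ => (1 - Real.exp (-ρ))⁻¹ * Real.exp (-ρ) ^ (a + 1)) :=
    ((summable_nat_add_iff 1).2 (summable_geometric_of_lt_one hq0.le hq1)).mul_left _
  refine Summable.of_norm_bounded hs fun a => ?_
  have h1 : Real.exp (-ρ) ^ (a + 1) * Real.exp (((a : ℝ) + 1) * ρ) = 1 := by
    rw [← Real.exp_nat_mul, ← Real.exp_add]
    push_cast
    rw [show ((a : ℝ) + 1) * -ρ + (a + 1) * ρ = 0 by ring, Real.exp_zero]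
  have h2 : ‖Complex.exp (((a : ℂ) + 1) * z)‖ = Real.exp (((a : ℝ) + 1) * ρ) := by
    rw [Complex.norm_exp]
    congr 1
    simp [hρ]
  have h3 : Real.exp (((a : ℝ) + 1) * ρ) - 1 ≤ ‖Complex.exp (((a : ℂ) + 1) * z) - 1‖ := by
    have := norm_sub_norm_le (Complex.exp (((a : ℂ) + 1) * z)) 1
    rw [h2, norm_one] at this
    exact this
  have h4 : Real.exp (((a : ℝ) + 1) * ρ) * (1 - Real.exp (-ρ)) ≤ Real.exp (((a : ℝ) + 1) * ρ) - 1 := by
    have h5 : Real.exp (((a : ℝ) + 1) * ρ) * Real.exp (-ρ) = Real.exp ((a : ℝ) * ρ) := by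
      rw [← Real.exp_add]
      congr 1
      ring
    have h6 : 1 ≤ Real.exp ((a : ℝ) * ρ) := by
      rw [← Real.exp_zero]
      exact Real.exp_le_exp.2 (by positivity)
    nlinarith
  have hpos : 0 < Real.exp (((a : ℝ) + 1) * ρ) * (1 - Real.exp (-ρ)) := by
    have := Real.exp_pos (((a : ℝ) + 1) * ρ)
    have h7 : 0 < 1 - Real.exp (-ρ) := by linarith
    positivity
  rw [norm_div, norm_one]
  have h8 : 0 < 1 - Real.exp (-ρ) := by linarith
  calc 1 / ‖Complex.exp (((a : ℂ) + 1) * z) - 1‖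
      ≤ 1 / (Real.exp (((a : ℝ) + 1) * ρ) * (1 - Real.exp (-ρ))) :=
        one_div_le_one_div_of_le hpos (h4.trans h3)
    _ = (1 - Real.exp (-ρ))⁻¹ * Real.exp (-ρ) ^ (a + 1) := by
        have h9 := Real.exp_pos (((a : ℝ) + 1) * ρ)
        have h10 : Real.exp (-ρ) ^ (a + 1) = (Real.exp (((a : ℝ) + 1) * ρ))⁻¹ :=
          eq_inv_of_mul_eq_one_left h1
        rw [h10, one_div, mul_inv, mul_comm]

theorem near_split {z : ℂ} (hz : 0 < z.re) (n : ℕ) :
    Sz z = (∑ r ∈ Finset.range n, ∑' m : ℕ,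
      1 / (Complex.exp (((r : ℂ) + 1 + m * ((n + 1 : ℕ) : ℂ)) * z) - 1)) +
      ∑' m : ℕ, 1 / (Complex.exp (((m : ℂ) + 1) * (((n + 1 : ℕ) : ℂ) * z)) - 1) := by
  have h1 := Nat.sumByResidueClasses (near_summable hz) (n + 1)
  unfold Sz
  rw [h1]
  have h2 : (∑ j : ZMod (n + 1), ∑' m : ℕ,
      1 / (Complex.exp (((j.val + (n + 1) * m : ℕ) + 1 : ℂ) * z) - 1)) =
      ∑ r ∈ Finset.range (n + 1), ∑' m : ℕ,
        1 / (Complex.exp (((r + (n + 1) * m : ℕ) + 1 : ℂ) * z) - 1) :=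
    Fin.sum_univ_eq_sum_range (fun r : ℕ => ∑' m : ℕ,
      1 / (Complex.exp (((r + (n + 1) * m : ℕ) + 1 : ℂ) * z) - 1)) (n + 1)
  rw [h2, Finset.sum_range_succ]
  congr 1
  · refine Finset.sum_congr rfl fun r _ => ?_
    refine tsum_congr fun m => ?_
    congr 3
    push_cast
    ring
  · refine tsum_congr fun m => ?_
    congr 3
    push_cast
    ring

theorem Sz_near : ∃ C : ℝ, 0 < C ∧ ∀ h k : ℕ, 0 < h → h.Coprime k → ∀ η : ℂ, 0 < η.re →
    h * ‖η‖ ≤ 1 →
    ‖Sz (2 * Real.pi * Complex.I * (k / h) + η) -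
      (1 / (h * η)) * (-Complex.log η - 2 * Real.log h)‖ ≤
      C * (‖η‖ / η.re) ^ 2 * (h * (1 + Real.log h) + 1 / (h * ‖η‖)) := by
  obtain ⟨C1, hC1, hc⟩ := class_c
  obtain ⟨C0, hC0, h0⟩ := class_0
  refine ⟨C0 + 2 * C1, by positivity, ?_⟩
  intro h k hh hk η hη hle
  obtain ⟨n, rfl⟩ : ∃ n, h = n + 1 := ⟨h - 1, by omega⟩
  have hη0 : η ≠ 0 := by
    rintro rfl
    simp at hη
  have hhR : (0 : ℝ) < ((n + 1 : ℕ) : ℝ) := by exact_mod_cast hh
  have hhC : ((n + 1 : ℕ) : ℂ) ≠ 0 := by exact_mod_cast hh.ne'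
  set H : ℂ := ((n + 1 : ℕ) : ℂ) with hH
  set z : ℂ := 2 * Real.pi * Complex.I * (k / H) + η with hz
  have hzre : z.re = η.re := by
    have : (2 * (Real.pi : ℂ) * Complex.I * ((k : ℂ) / H)).re = 0 := by
      have e : (2 * (Real.pi : ℂ) * Complex.I * ((k : ℂ) / H)) =
          ((2 * Real.pi * (k / (n + 1 : ℕ)) : ℝ) : ℂ) * Complex.I := by
        rw [hH]
        push_cast
        ring
      rw [e, Complex.re_ofReal_mul, Complex.I_re, mul_zero]
    rw [hz, Complex.add_re, this, zero_add]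
  have hz0 : 0 < z.re := by rw [hzre]; exact hη
  set x : ℂ := H * η with hx
  have hxre : x.re = ((n + 1 : ℕ) : ℝ) * η.re := by
    rw [hx, hH]
    simp
  have hxnorm : ‖x‖ = ((n + 1 : ℕ) : ℝ) * ‖η‖ := by
    rw [hx, norm_mul, hH, Complex.norm_natCast]
  have hx0 : 0 < x.re := by rw [hxre]; positivity
  have hxle : ‖x‖ ≤ 1 := by rw [hxnorm]; exact hle
  -- the angles
  set θ : ℕ → ℝ := fun c => (c : ℝ) * k / (n + 1 : ℕ) with hθ
  have hθint : ∀ c : ℕ, 0 < c → c < n + 1 → ∀ m : ℤ, θ c ≠ m := by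
    intro c hc1 hc2 m hm
    have h1 : (c : ℝ) * k = m * (n + 1 : ℕ) := by
      rw [← hm, hθ]
      field_simp
    have h2 : ((c * k : ℕ) : ℤ) = m * ((n + 1 : ℕ) : ℤ) := by
      have : ((c * k : ℕ) : ℝ) = ((m * ((n + 1 : ℕ) : ℤ) : ℤ) : ℝ) := by
        push_cast
        push_cast at h1
        exact h1
      exact_mod_cast this
    have h3 : (n + 1) ∣ c * k := by
      have : ((n + 1 : ℕ) : ℤ) ∣ ((c * k : ℕ) : ℤ) := ⟨m, by rw [h2]; ring⟩
      exact_mod_cast this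
    have h4 : (n + 1) ∣ c := hk.dvd_of_dvd_mul_right h3
    have := Nat.le_of_dvd hc1 h4
    omega
  -- periodicity
  have hclass : ∀ (c m : ℕ), Complex.exp (((c : ℂ) + m * H) * z) =
      Complex.exp (2 * Real.pi * Complex.I * (θ c : ℝ) + (c + m * H) * η) := by
    intro c m
    have e1 : ((c : ℂ) + m * H) * z = (2 * Real.pi * Complex.I * (θ c : ℝ) + (c + m * H) * η) +
        ((m * k : ℕ) : ℂ) * (2 * Real.pi * Complex.I) := by
      rw [hz, hθ]
      push_cast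
      have hHc : ((n : ℂ) + 1) = H := by rw [hH]; push_cast; ring
      rw [hHc]
      field_simp
      ring
    rw [e1, Complex.exp_add, Complex.exp_nat_mul_two_pi_mul_I, mul_one]
  have hclass0 : ∀ m : ℕ, Complex.exp (((m : ℂ) + 1) * (H * z)) = Complex.exp (((m : ℂ) + 1) * x) := by
    intro m
    have e1 : ((m : ℂ) + 1) * (H * z) = ((m : ℂ) + 1) * x +
        (((m + 1) * k : ℕ) : ℂ) * (2 * Real.pi * Complex.I) := by
      rw [hz, hx]
      push_cast
      field_simp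
      ring
    rw [e1, Complex.exp_add, Complex.exp_nat_mul_two_pi_mul_I, mul_one]
  have hsplit := near_split hz0 n
  rw [← hH] at hsplit
  have hB : (∑' m : ℕ, 1 / (Complex.exp (((m : ℂ) + 1) * (H * z)) - 1)) =
      ∑' m : ℕ, 1 / (Complex.exp (((m : ℂ) + 1) * x) - 1) :=
    tsum_congr fun m => by rw [hclass0]
  have hA : ∀ r : ℕ, (∑' m : ℕ, 1 / (Complex.exp (((r : ℂ) + 1 + m * H) * z) - 1)) =
      ∑' m : ℕ, 1 / (Complex.exp (2 * Real.pi * Complex.I * (θ (r + 1) : ℝ) +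
        (((r + 1 : ℕ) : ℂ) + m * H) * η) - 1) := by
    intro r
    refine tsum_congr fun m => ?_
    rw [← hclass (r + 1) m]
    push_cast
    rfl
  rw [hB] at hsplit
  simp_rw [hA] at hsplit
  -- main terms
  have hlogx : Complex.log x = (Real.log (n + 1 : ℕ) : ℝ) + Complex.log η := by
    have : x = (((n + 1 : ℕ) : ℝ) : ℂ) * η := by
      rw [hx, hH]
      push_cast
      ring
    rw [this, Complex.log_ofReal_mul hhR hη0]
  have hls := log_sum (h := n + 1) (k := k) hh hk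
  rw [Finset.sum_Ico_eq_sum_range] at hls
  simp only [Nat.add_sub_cancel] at hls
  have hmain : (1 / (H * η)) * (-Complex.log η - 2 * (Real.log (n + 1 : ℕ) : ℝ)) =
      (∑ r ∈ Finset.range n, (1 / (H * η)) *
        (-Complex.log (1 - Complex.exp (-(2 * Real.pi * Complex.I * (θ (r + 1) : ℝ)))))) +
      (-(Complex.log x / x)) := by
    rw [← Finset.mul_sum, Finset.sum_neg_distrib]
    have e2 : ∑ r ∈ Finset.range n,
        Complex.log (1 - Complex.exp (-(2 * Real.pi * Complex.I * (θ (r + 1) : ℝ)))) =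
        (Real.log (n + 1 : ℕ) : ℝ) := by
      rw [← hls]
      refine Finset.sum_congr rfl fun r _ => ?_
      congr 5
      simp only [hθ]
      push_cast
      ring
    rw [e2, hlogx, hx]
    field_simp
    ring
  have hgoal : Sz z - (1 / (H * η)) * (-Complex.log η - 2 * (Real.log (n + 1 : ℕ) : ℝ)) =
      (∑ r ∈ Finset.range n, ((∑' m : ℕ, 1 / (Complex.exp (2 * Real.pi * Complex.I *
        (θ (r + 1) : ℝ) + (((r + 1 : ℕ) : ℂ) + m * H) * η) - 1)) - (1 / (H * η)) *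
        (-Complex.log (1 - Complex.exp (-(2 * Real.pi * Complex.I * (θ (r + 1) : ℝ))))))) +
      ((∑' m : ℕ, 1 / (Complex.exp (((m : ℂ) + 1) * x) - 1)) + Complex.log x / x) := by
    rw [hsplit, hmain, Finset.sum_sub_distrib]
    ring
  rw [hgoal]
  set κ := ‖η‖ / η.re with hκ
  have hκx : ‖x‖ / x.re = κ := by
    rw [hxnorm, hxre, hκ]
    field_simp
  have hb0 := (h0 x hx0 hxle).2
  rw [hκx, hxnorm] at hb0
  have hds := dist_sum (h := n + 1) (k := k) hh hk
  rw [Finset.sum_Ico_eq_sum_range] at hds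
  simp only [Nat.add_sub_cancel] at hds
  have hsum : ‖∑ r ∈ Finset.range n, ((∑' m : ℕ, 1 / (Complex.exp (2 * Real.pi * Complex.I *
        (θ (r + 1) : ℝ) + (((r + 1 : ℕ) : ℂ) + m * H) * η) - 1)) - (1 / (H * η)) *
        (-Complex.log (1 - Complex.exp (-(2 * Real.pi * Complex.I * (θ (r + 1) : ℝ))))))‖ ≤
      C1 * κ ^ 2 * (2 * ((n + 1 : ℕ) : ℝ) * (1 + Real.log (n + 1 : ℕ))) := by
    refine (norm_sum_le _ _).trans ?_
    calc _ ≤ ∑ r ∈ Finset.range n, C1 * κ ^ 2 * (1 / |θ (r + 1) - round (θ (r + 1))|) := by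
          refine Finset.sum_le_sum fun r hr => ?_
          rw [Finset.mem_range] at hr
          have := (hc (n + 1) (r + 1) (by omega) (by omega) (θ (r + 1))
            (hθint (r + 1) (by omega) (by omega)) η hη).2
          refine this.trans (le_of_eq ?_)
          rw [← hκ]
          ring
      _ = C1 * κ ^ 2 * ∑ r ∈ Finset.range n, 1 / |θ (r + 1) - round (θ (r + 1))| := by
          rw [Finset.mul_sum]
      _ ≤ _ := by
          apply mul_le_mul_of_nonneg_left _ (by positivity)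
          refine le_trans (le_of_eq ?_) hds
          refine Finset.sum_congr rfl fun r _ => ?_
          simp only [hθ]
          rw [add_comm r 1]
  have hlog0 : 0 ≤ Real.log (n + 1 : ℕ) := Real.log_natCast_nonneg _
  have hk2 : 0 ≤ κ ^ 2 := sq_nonneg _
  have hd0 : 0 ≤ 1 / (((n + 1 : ℕ) : ℝ) * ‖η‖) := by positivity
  have he0 : 0 ≤ ((n + 1 : ℕ) : ℝ) * (1 + Real.log (n + 1 : ℕ)) := by positivity
  refine (norm_add_le _ _).trans ((add_le_add hsum hb0).trans ?_)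
  have e3 : C0 * κ ^ 2 / (((n + 1 : ℕ) : ℝ) * ‖η‖) = C0 * κ ^ 2 * (1 / (((n + 1 : ℕ) : ℝ) * ‖η‖)) := by
    ring
  rw [e3]
  have h5 : 0 ≤ C0 * κ ^ 2 * (((n + 1 : ℕ) : ℝ) * (1 + Real.log (n + 1 : ℕ))) := by positivity
  have h6 : 0 ≤ C1 * κ ^ 2 * (1 / (((n + 1 : ℕ) : ℝ) * ‖η‖)) := by positivity
  nlinarith

end Pool.Agent.EvenMoment
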