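import Pool.Agent.Lib_MP_112ba8_e.Defs
import Pool.Agent.Lib_MP_112ba8_e.Contour
import Pool.Agent.Lib_MP_112ba8_e.Line
import Pool.Agent.Lib_MP_112ba8_e.Near

/-! ### P8: the Laplace weighted twisted second moment -/

namespace Pool.Agent.EvenMoment

open Filter Topology MeasureTheory

lemma pp_re (T ξ : ℝ) : ((2 + Complex.I * ξ) / T : ℂ).re = 2 / T := by
  rw [Complex.div_ofReal_re]
  simp

lemma pp_im (T ξ : ℝ) : ((2 + Complex.I * ξ) / T : ℂ).im = ξ / T := by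
  rw [Complex.div_ofReal_im]
  simp

lemma pp_norm_le {T : ℝ} (hT : 0 < T) (ξ : ℝ) : ‖((2 + Complex.I * ξ) / T : ℂ)‖ ≤ (2 + |ξ|) / T := by
  rw [norm_div, Complex.norm_real, Real.norm_of_nonneg hT.le]
  gcongr
  refine (norm_add_le _ _).trans ?_
  simp

lemma pp_norm_ge {T : ℝ} (_hT : 0 < T) (ξ : ℝ) : 2 / T ≤ ‖((2 + Complex.I * ξ) / T : ℂ)‖ := by
  rw [← pp_re T ξ]
  exact (le_abs_self _).trans (Complex.abs_re_le_norm _)

lemma rho_eq (p : ℂ) : Complex.I * (Complex.exp (-(Complex.I * p)) - 1) =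
    2 * Complex.sin (p / 2) * Complex.exp (-(Complex.I * p / 2)) := by
  have e1 : Complex.exp (-(Complex.I * p)) =
      Complex.exp (-(Complex.I * p / 2)) * Complex.exp (-(Complex.I * p / 2)) := by
    rw [← Complex.exp_add]; ring_nf
  have e2 : Complex.exp (p / 2 * Complex.I) * Complex.exp (-(Complex.I * p / 2)) = 1 := by
    rw [← Complex.exp_add]; ring_nf; simp
  have e3 : Complex.exp (-(p / 2) * Complex.I) = Complex.exp (-(Complex.I * p / 2)) := by
    congr 1; ring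
  rw [Complex.sin, e3, e1]
  linear_combination (Complex.I) * e2

lemma sin_half_bound {p : ℂ} (hp : p ≠ 0) (hp1 : ‖p‖ ≤ 1) :
    Complex.sin (p / 2) ≠ 0 ∧ ‖1 / (2 * Complex.sin (p / 2)) - 1 / p‖ ≤ 1 := by
  obtain ⟨w, hw⟩ : ∃ w, w = p / 2 := ⟨_, rfl⟩
  have hw0 : w ≠ 0 := by rw [hw]; exact div_ne_zero hp two_ne_zero
  have hwn : 0 < ‖w‖ := norm_pos_iff.2 hw0
  have hw1 : ‖w‖ ≤ 1 / 2 := by
    rw [hw, norm_div]; simp; linarith
  have hb := Complex.sin_bound (x := w) (by linarith)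
  have hb2 : ‖Complex.sin w - w‖ ≤ ‖w‖ ^ 3 / 4 := by
    calc ‖Complex.sin w - w‖ = ‖(Complex.sin w - (w - w ^ 3 / 6)) + (-(w ^ 3 / 6))‖ := by
          congr 1; ring
      _ ≤ ‖Complex.sin w - (w - w ^ 3 / 6)‖ + ‖-(w ^ 3 / 6)‖ := norm_add_le _ _
      _ ≤ ‖w‖ ^ 5 / 100 + ‖w‖ ^ 3 / 6 := by
          apply add_le_add hb
          rw [norm_neg, norm_div, norm_pow]; simp
      _ ≤ ‖w‖ ^ 3 / 4 := by
          have h5 : ‖w‖ ^ 5 = ‖w‖ ^ 3 * (‖w‖ * ‖w‖) := by ring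
          have h6 : ‖w‖ * ‖w‖ ≤ 1 := by nlinarith
          have h7 : ‖w‖ ^ 3 * (‖w‖ * ‖w‖) ≤ ‖w‖ ^ 3 * 1 :=
            mul_le_mul_of_nonneg_left h6 (by positivity)
          rw [h5]
          nlinarith [pow_pos hwn 3]
  have hb3 : 3 / 4 * ‖w‖ ≤ ‖Complex.sin w‖ := by
    have h1 : ‖w‖ - ‖Complex.sin w‖ ≤ ‖Complex.sin w - w‖ := by
      rw [norm_sub_rev]; exact norm_sub_norm_le _ _
    have h2 : ‖w‖ ^ 3 / 4 ≤ ‖w‖ / 4 := by
      have : ‖w‖ ^ 3 ≤ ‖w‖ := by
        calc ‖w‖ ^ 3 = ‖w‖ * (‖w‖ * ‖w‖) := by ring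
          _ ≤ ‖w‖ * 1 := by
              apply mul_le_mul_of_nonneg_left _ hwn.le
              nlinarith
          _ = ‖w‖ := mul_one _
      linarith
    linarith
  have hs0 : Complex.sin w ≠ 0 := by
    rw [← norm_pos_iff]; nlinarith
  have hs1 : 0 < ‖Complex.sin w‖ := norm_pos_iff.2 hs0
  rw [← hw]
  refine ⟨hs0, ?_⟩
  have hp2 : p = 2 * w := by rw [hw]; ring
  have e : 1 / (2 * Complex.sin w) - 1 / p = -((Complex.sin w - w) / (2 * w * Complex.sin w)) := by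
    rw [hp2]; field_simp; ring
  rw [e, norm_neg, norm_div, norm_mul, norm_mul, div_le_one (by simp; positivity)]
  simp only [Complex.norm_ofNat]
  calc ‖Complex.sin w - w‖ ≤ ‖w‖ ^ 3 / 4 := hb2
    _ ≤ 2 * ‖w‖ * (3 / 4 * ‖w‖) := by
        have : ‖w‖ ^ 3 = ‖w‖ ^ 2 * ‖w‖ := by ring
        rw [this]
        nlinarith [pow_pos hwn 2]
    _ ≤ 2 * ‖w‖ * ‖Complex.sin w‖ := by gcongr

/-- geometry of the point `z = 2πi (k/h) e^{-ip}` for small `p` -/
lemma rho_facts {T ξ : ℝ} (hT : 0 < T) (hs : (2 + |ξ|) / T ≤ 1 / 20) {ρ : ℂ}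
    (hρ : ρ = Complex.I * (Complex.exp (-(Complex.I * ((2 + Complex.I * ξ) / T))) - 1)) :
    1 / T ≤ ρ.re ∧ ‖ρ‖ ≤ 2 * (2 + |ξ|) / T := by
  obtain ⟨p, hp⟩ : ∃ p : ℂ, p = (2 + Complex.I * ξ) / T := ⟨_, rfl⟩
  rw [← hp] at hρ
  have hT40 : 40 ≤ T := by
    rw [div_le_iff₀ hT] at hs
    nlinarith [abs_nonneg ξ]
  have hre : p.re = 2 / T := by rw [hp]; exact pp_re T ξ
  have him : p.im = ξ / T := by rw [hp]; exact pp_im T ξ
  have hexp : Complex.exp (-(Complex.I * p)) =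
      Real.exp (ξ / T) * (Real.cos (2 / T) - Real.sin (2 / T) * Complex.I) := by
    have e : -(Complex.I * p) = ((ξ / T : ℝ) : ℂ) + (-(2 / T) : ℝ) * Complex.I := by
      apply Complex.ext
      · simp [him]
      · simp [hre]
    rw [e, Complex.exp_add, Complex.exp_mul_I, ← Complex.ofReal_exp, ← Complex.ofReal_cos,
      ← Complex.ofReal_sin, Real.cos_neg, Real.sin_neg]
    push_cast
    ring
  have hρre : ρ.re = Real.exp (ξ / T) * Real.sin (2 / T) := by
    rw [hρ, hexp]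
    generalize Real.exp (ξ / T) = e1
    generalize Real.cos (2 / T) = e2
    generalize Real.sin (2 / T) = e3
    simp
  constructor
  · rw [hρre]
    have h1 : -(1 / 20) ≤ ξ / T := by
      have : |ξ / T| ≤ 1 / 20 := by
        rw [abs_div, abs_of_pos hT]
        refine le_trans ?_ hs
        gcongr
        linarith [abs_nonneg ξ]
      exact (abs_le.1 this).1
    have h2 : 19 / 20 ≤ Real.exp (ξ / T) := by
      have := Real.add_one_le_exp (ξ / T)
      linarith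
    have h3 : 2 / Real.pi * (2 / T) ≤ Real.sin (2 / T) := by
      apply Real.mul_le_sin (by positivity)
      rw [div_le_iff₀ hT]
      nlinarith [Real.pi_gt_three]
    have h4 : (3 : ℝ) / 5 ≤ 2 / Real.pi := by
      rw [le_div_iff₀ Real.pi_pos]
      nlinarith [Real.pi_lt_d2]
    calc 1 / T ≤ 19 / 20 * (3 / 5 * (2 / T)) := by
          rw [div_le_iff₀ hT]
          field_simp
          norm_num
      _ ≤ Real.exp (ξ / T) * Real.sin (2 / T) := by
          apply mul_le_mul h2 _ (by positivity) (Real.exp_pos _).le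
          refine le_trans ?_ h3
          gcongr
  · have hpn : ‖p‖ ≤ (2 + |ξ|) / T := by rw [hp]; exact pp_norm_le hT ξ
    rw [hρ, norm_mul, Complex.norm_I, one_mul]
    have h1 : ‖-(Complex.I * p)‖ ≤ 1 := by
      rw [norm_neg, norm_mul, Complex.norm_I, one_mul]; linarith
    refine (Complex.norm_exp_sub_one_le h1).trans ?_
    rw [norm_neg, norm_mul, Complex.norm_I, one_mul, mul_div_assoc]
    linarith

lemma final_ineq {C5 C7 x X L : ℝ} (hC5 : 0 < C5) (hC7 : 0 < C7) (hx : 0 ≤ x) (hX : 0 ≤ X)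
    (hL : 0 ≤ L) : (16 * C5 + 256 * C7 * (1 + x) ^ 2 * X) + (L + 14 * (1 + x) * X) ≤
      1000 * (1 + C5 + C7) * (1 + x) ^ 2 * (X + 1 + L) := by
  obtain ⟨y, hy⟩ : ∃ y, y = (1 + x) ^ 2 := ⟨_, rfl⟩
  have h1 : 1 ≤ y := by rw [hy]; nlinarith
  have h2 : 1 + x ≤ y := by rw [hy]; nlinarith
  have hy0 : 0 ≤ y := by linarith
  rw [← hy]
  have f1 : C5 ≤ C5 * y := le_mul_of_one_le_right hC5.le h1
  have f2 : L ≤ L * y := le_mul_of_one_le_right hL h1
  have f3 : (1 + x) * X ≤ y * X := mul_le_mul_of_nonneg_right h2 hX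
  have g1 : 0 ≤ C5 * y * X := by positivity
  have g2 : 0 ≤ C5 * y * L := by positivity
  have g3 : 0 ≤ C7 * y * L := by positivity
  have g4 : 0 ≤ C7 * y := by positivity
  have g5 : 0 ≤ y * X := by positivity
  have g6 : 0 ≤ C7 * y * X := by positivity
  have g7 : 0 ≤ C5 * y := by positivity
  have g8 : 0 ≤ L * y := by positivity
  have e : 1000 * (1 + C5 + C7) * y * (X + 1 + L) =
      1000 * (y * X) + 1000 * y + 1000 * (L * y) + 1000 * (C5 * y) + 1000 * (C5 * y * X) +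
      1000 * (C5 * y * L) + 1000 * (C7 * y * X) + 1000 * (C7 * y) + 1000 * (C7 * y * L) := by ring
  rw [e]
  linarith

/-- small `ξ`: the main estimate -/
lemma JJ_small : ∃ C : ℝ, 0 < C ∧ ∀ T : ℝ, 0 < T → ∀ h k : ℕ, 0 < h → h ≤ k → h.Coprime k →
    ∀ ξ : ℝ, (2 + |ξ|) * k ≤ T / 20 →
    ‖JJ h k T ξ - (Real.log T - Real.log (h * k) : ℝ) / (Real.sqrt (h * k)) *
      (T / (2 + Complex.I * ξ))‖ ≤
      C * (1 + |ξ|) ^ 2 * ((T + (h * k) * (1 + Real.log h)) / Real.sqrt (h * k) + 1 +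
        |Real.log T - Real.log (h * k)| / Real.sqrt (h * k)) := by
  obtain ⟨C5, hC5, h5⟩ := Sz_contour
  obtain ⟨C7, hC7, h7⟩ := Sz_near
  refine ⟨1000 * (1 + C5 + C7), by positivity, ?_⟩
  intro T hT h k hh hhk hcop ξ hξ
  have hh0 : (0 : ℝ) < h := by exact_mod_cast hh
  have hk : 0 < k := lt_of_lt_of_le hh hhk
  have hk0 : (0 : ℝ) < k := by exact_mod_cast hk
  have hk1 : (1 : ℝ) ≤ k := by exact_mod_cast hk
  have hhk' : (h : ℝ) ≤ k := by exact_mod_cast hhk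
  have hξ0 := abs_nonneg ξ
  have hs : (2 + |ξ|) / T ≤ 1 / 20 := by
    rw [div_le_iff₀ hT]
    have h20 := le_mul_of_one_le_right (by linarith only [hξ0] : (0:ℝ) ≤ 2 + |ξ|) hk1
    linarith only [h20, hξ]
  obtain ⟨p, hp⟩ : ∃ p : ℂ, p = (2 + Complex.I * ξ) / T := ⟨_, rfl⟩
  have hre : p.re = 2 / T := by rw [hp]; exact pp_re T ξ
  have hpn : ‖p‖ ≤ (2 + |ξ|) / T := by rw [hp]; exact pp_norm_le hT ξ
  have hpg : 2 / T ≤ ‖p‖ := by rw [hp]; exact pp_norm_ge hT ξ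
  have hp1 : ‖p‖ ≤ 1 := by linarith
  have hp0 : p ≠ 0 := by
    rw [← norm_pos_iff]
    exact lt_of_lt_of_le (by positivity) hpg
  obtain ⟨hsin0, hsinb⟩ := sin_half_bound hp0 hp1
  obtain ⟨ρ, hρ⟩ : ∃ ρ : ℂ, ρ = Complex.I * (Complex.exp (-(Complex.I * p)) - 1) := ⟨_, rfl⟩
  obtain ⟨hρre, hρn⟩ := rho_facts hT hs (by rw [hρ, hp] : ρ = _)
  have hρ2 := rho_eq p
  rw [← hρ] at hρ2
  have hρre0 : 0 < ρ.re := lt_of_lt_of_le (by positivity) hρre
  have hρnge : 1 / T ≤ ‖ρ‖ := hρre.trans ((le_abs_self _).trans (Complex.abs_re_le_norm _))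
  have hρn0 : 0 < ‖ρ‖ := lt_of_lt_of_le (by positivity) hρnge
  have hρ0 : ρ ≠ 0 := norm_pos_iff.1 hρn0
  obtain ⟨η, hη⟩ : ∃ η : ℂ, η = ((2 * Real.pi * (k / h) : ℝ) : ℂ) * ρ := ⟨_, rfl⟩
  have hc0 : 0 < 2 * Real.pi * ((k : ℝ) / h) := by positivity
  have hηre : η.re = 2 * Real.pi * (k / h) * ρ.re := by
    rw [hη, Complex.re_ofReal_mul]
  have hηn : ‖η‖ = 2 * Real.pi * (k / h) * ‖ρ‖ := by
    rw [hη, norm_mul, Complex.norm_real, Real.norm_of_nonneg hc0.le]
  have hT40 : 40 ≤ T := by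
    have h20 := (div_le_iff₀ hT).1 hs
    linarith only [h20, hξ0]
  have hηre0 : 0 < η.re := by rw [hηre]; positivity
  have hhη : h * ‖η‖ = 2 * Real.pi * k * ‖ρ‖ := by
    rw [hηn]; field_simp
  have hhη1 : h * ‖η‖ ≤ 1 := by
    rw [hhη]
    calc 2 * Real.pi * k * ‖ρ‖ ≤ 2 * Real.pi * k * (2 * (2 + |ξ|) / T) := by gcongr
      _ = 4 * Real.pi * ((2 + |ξ|) * k / T) := by ring
      _ ≤ 4 * Real.pi * (1 / 20) := by
          apply mul_le_mul_of_nonneg_left _ (by positivity)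
          rw [div_le_iff₀ hT]; linarith
      _ ≤ 1 := by linarith only [Real.pi_lt_d2]
  have hκ : ‖η‖ / η.re ≤ 4 * (1 + |ξ|) := by
    rw [hηn, hηre, mul_div_mul_left _ _ hc0.ne', div_le_iff₀ hρre0]
    calc ‖ρ‖ ≤ 2 * (2 + |ξ|) / T := hρn
      _ ≤ 4 * (1 + |ξ|) * (1 / T) := by
          rw [mul_one_div]
          exact div_le_div_of_nonneg_right (by linarith) hT.le
      _ ≤ 4 * (1 + |ξ|) * ρ.re := by gcongr
  have hκ0 : 0 ≤ ‖η‖ / η.re := by positivity
  -- the point z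
  obtain ⟨z, hz⟩ : ∃ z : ℂ, z = 2 * Real.pi * Complex.I * ((((h : ℝ) / k)⁻¹ : ℝ) : ℂ) *
    Complex.exp (-(Complex.I * p)) := ⟨_, rfl⟩
  have hzη : 2 * Real.pi * Complex.I * (k / h) + η = z := by
    rw [hz, hη, hρ]
    push_cast
    rw [inv_div]
    ring
  have hzre : 0 < z.re := by
    rw [← hzη, Complex.add_re]
    have : (2 * Real.pi * Complex.I * (k / h) : ℂ).re = 0 := by
      have : (2 * Real.pi * Complex.I * (k / h) : ℂ) =
        ((2 * Real.pi * (k / h) : ℝ) : ℂ) * Complex.I := by push_cast; ring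
      rw [this]
      simp
    rw [this, zero_add]
    exact hηre0
  have hexpn : ‖Complex.exp (-(Complex.I * p))‖ = Real.exp (ξ / T) := by
    rw [Complex.norm_exp]
    congr 1
    have him : p.im = ξ / T := by rw [hp]; exact pp_im T ξ
    simp [him]
  have hzn : ‖z‖ = 2 * Real.pi * (k / h) * Real.exp (ξ / T) := by
    rw [hz, norm_mul, hexpn, norm_mul, norm_mul, norm_mul, Complex.norm_real, Complex.norm_real,
      Complex.norm_I, Real.norm_of_nonneg Real.pi_pos.le, inv_div,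
      Real.norm_of_nonneg (by positivity)]
    simp
  have hξT : |ξ / T| ≤ 1 / 20 := by
    rw [abs_div, abs_of_pos hT]
    refine le_trans ?_ hs
    gcongr
    linarith
  have hkh1 : (1 : ℝ) ≤ k / h := by rw [le_div_iff₀ hh0]; linarith
  have hznge : (k : ℝ) / h ≤ ‖z‖ := by
    rw [hzn]
    have h2 : 19 / 20 ≤ Real.exp (ξ / T) := by
      have := Real.add_one_le_exp (ξ / T)
      linarith [(abs_le.1 hξT).1]
    have h3 : 1 ≤ 2 * Real.pi * Real.exp (ξ / T) := by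
      have h4 : (6 : ℝ) * (19 / 20) ≤ 2 * Real.pi * Real.exp (ξ / T) :=
        mul_le_mul (by linarith only [Real.pi_gt_three]) h2 (by norm_num)
          (by linarith only [Real.pi_gt_three])
      linarith only [h4]
    calc (k : ℝ) / h = (k / h) * 1 := (mul_one _).symm
      _ ≤ (k / h) * (2 * Real.pi * Real.exp (ξ / T)) := by gcongr
      _ = _ := by ring
  have hz1 : 1 ≤ ‖z‖ := hkh1.trans hznge
  -- the contour estimate
  obtain ⟨Q, hQ⟩ : ∃ Q : ℂ, Q = ∫ t : ℝ, Complex.Gamma (cl t) * riemannZeta (cl t) ^ 2 *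
    z ^ (-(cl t)) := ⟨_, rfl⟩
  have hcont := h5 z hzre hz1
  rw [← hQ] at hcont
  have hnear := h7 h k hh hcop η hηre0 hhη1
  rw [hzη] at hnear
  obtain ⟨M, hM⟩ : ∃ M : ℂ, M = (1 / (h * η)) * (-Complex.log η - 2 * Real.log h) := ⟨_, rfl⟩
  rw [← hM] at hnear
  have hQM : ‖(1 / (2 * Real.pi) : ℂ) * Q - M‖ ≤ C5 * ‖z‖ ^ (-(1 / 2) : ℝ) +
      C7 * (‖η‖ / η.re) ^ 2 * (h * (1 + Real.log h) + 1 / (h * ‖η‖)) := by
    calc ‖(1 / (2 * Real.pi) : ℂ) * Q - M‖ =
        ‖(Sz z - M) - (Sz z - (1 / (2 * Real.pi) : ℂ) * Q)‖ := by congr 1; ring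
      _ ≤ ‖Sz z - M‖ + ‖Sz z - (1 / (2 * Real.pi) : ℂ) * Q‖ := norm_sub_le _ _
      _ ≤ _ := by linarith
  -- square roots
  obtain ⟨s, hs_def⟩ : ∃ s : ℝ, s = Real.sqrt (h * k) := ⟨_, rfl⟩
  have hs0 : 0 < s := by rw [hs_def]; exact Real.sqrt_pos.2 (by positivity)
  have hss : s * s = h * k := by rw [hs_def]; exact Real.mul_self_sqrt (by positivity)
  have hg1 : Real.sqrt (k / h) = s / h := by
    rw [Real.sqrt_eq_iff_mul_self_eq (by positivity) (by positivity)]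
    field_simp
    linear_combination -hss
  have hg2 : Real.sqrt (h / k) = s / k := by
    rw [Real.sqrt_eq_iff_mul_self_eq (by positivity) (by positivity)]
    field_simp
    linear_combination -hss
  -- the integral
  obtain ⟨r, hr⟩ : ∃ r : ℝ, r = (h : ℝ) / k := ⟨_, rfl⟩
  have hr0 : 0 < r := by rw [hr]; positivity
  have hlogr : Real.log r = Real.log h - Real.log k := by
    rw [hr, Real.log_div hh0.ne' hk0.ne']
  have hQJ : Q = Real.sqrt r * Complex.exp (Complex.I * p / 2) * JJ h k T ξ := by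
    rw [hQ, JJ, ← MeasureTheory.integral_const_mul]
    congr 1
    funext t
    have hpre0 : 0 < p.re := by rw [hre]; positivity
    have hprepi : p.re < Real.pi := by
      rw [hre, div_lt_iff₀ hT]
      have h40 : (3 : ℝ) * 40 ≤ Real.pi * T :=
        mul_le_mul Real.pi_gt_three.le hT40 (by norm_num) Real.pi_pos.le
      linarith only [h40]
    have := gamma_line hr0 hpre0 hprepi t
    rw [← hr] at hz
    rw [hz, this, hlogr, ← hp]
  have hE0 : Complex.exp (Complex.I * p / 2) ≠ 0 := Complex.exp_ne_zero _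
  have hrs : Real.sqrt r = s / k := by rw [hr]; exact hg2
  have hEinv : Complex.exp (-(Complex.I * p / 2)) * Complex.exp (Complex.I * p / 2) = 1 := by
    rw [← Complex.exp_add]; simp
  have hπ : (Real.pi : ℂ) ≠ 0 := by exact_mod_cast Real.pi_ne_zero
  have hsC : (s : ℂ) ≠ 0 := by exact_mod_cast hs0.ne'
  have hkC : (k : ℂ) ≠ 0 := by exact_mod_cast hk0.ne'
  have hhC : (h : ℂ) ≠ 0 := by exact_mod_cast hh0.ne'
  have hssC : (s : ℂ) * s = h * k := by exact_mod_cast hss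
  obtain ⟨a, ha⟩ : ∃ a : ℂ, a = 2 * Real.pi * (k / s) * Complex.exp (-(Complex.I * p / 2)) :=
    ⟨_, rfl⟩
  have hJa : JJ h k T ξ = a * ((1 / (2 * Real.pi) : ℂ) * Q) := by
    rw [hQJ, ha, hrs]
    push_cast
    field_simp
    linear_combination (-(JJ h k T ξ)) * hEinv
  have hEn : ‖Complex.exp (-(Complex.I * p / 2))‖ ≤ 2 := by
    rw [Complex.norm_exp]
    have him : p.im = ξ / T := by rw [hp]; exact pp_im T ξ
    have e : (-(Complex.I * p / 2)).re = ξ / T / 2 := by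
      simp [him]
      ring
    rw [e]
    have h1 : ξ / T / 2 ≤ 1 / 2 := by linarith [(abs_le.1 hξT).2]
    calc Real.exp (ξ / T / 2) ≤ Real.exp (1 / 2) := Real.exp_le_exp.2 h1
      _ ≤ 2 := by
          have h2 : Real.exp (1 / 2) * Real.exp (1 / 2) = Real.exp 1 := by
            rw [← Real.exp_add]; norm_num
          have h3 := Real.exp_one_lt_d9
          by_contra hc
          have hc' : 2 < Real.exp (1 / 2) := not_le.1 hc
          have h4 := mul_lt_mul'' hc' hc' (by norm_num) (by norm_num)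
          rw [h2] at h4
          linarith only [h3, h4]
  have han : ‖a‖ ≤ 16 * (k / s) := by
    rw [ha, norm_mul, norm_mul, norm_mul, norm_div, Complex.norm_real, Complex.norm_real,
      Complex.norm_natCast, Real.norm_of_nonneg Real.pi_pos.le, Real.norm_of_nonneg hs0.le]
    simp only [Complex.norm_ofNat]
    calc 2 * Real.pi * (k / s) * ‖Complex.exp (-(Complex.I * p / 2))‖
        ≤ 2 * Real.pi * (k / s) * 2 := by gcongr
      _ = (4 * Real.pi) * (k / s) := by ring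
      _ ≤ 16 * (k / s) := by
          gcongr
          linarith [Real.pi_lt_four]
  -- the main term
  obtain ⟨Λ, hΛ⟩ : ∃ Λ : ℝ, Λ = Real.log T - Real.log (h * k) := ⟨_, rfl⟩
  obtain ⟨S, hS⟩ : ∃ S : ℂ, S = 1 / (2 * Complex.sin (p / 2)) := ⟨_, rfl⟩
  rw [← hS] at hsinb
  have hTρ : (T : ℂ) * ρ ≠ 0 := mul_ne_zero (by exact_mod_cast hT.ne') hρ0
  have hlogη : -Complex.log η - 2 * Real.log h =
      Λ - Real.log (2 * Real.pi) - Complex.log (T * ρ) := by
    have e1 : Complex.log η = Real.log (2 * Real.pi * (k / h)) + Complex.log ρ := by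
      rw [hη, Complex.log_ofReal_mul hc0 hρ0]
    have e2 : Complex.log (T * ρ) = Real.log T + Complex.log ρ := by
      rw [Complex.log_ofReal_mul hT hρ0]
    have e3 : Real.log (2 * Real.pi * (k / h)) =
        Real.log (2 * Real.pi) + (Real.log k - Real.log h) := by
      rw [Real.log_mul (by positivity) (by positivity), Real.log_div hk0.ne' hh0.ne']
    have e4 : Real.log (h * k) = Real.log h + Real.log k := Real.log_mul hh0.ne' hk0.ne'
    rw [e1, e2, e3, hΛ, e4]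
    push_cast
    ring
  have haM : a * M = (1 / s) * S * (Λ - Real.log (2 * Real.pi) - Complex.log (T * ρ)) := by
    rw [hM, ← hlogη, ← mul_assoc]
    congr 1
    have hexp0 : Complex.exp (-(Complex.I * p / 2)) ≠ 0 := Complex.exp_ne_zero _
    rw [ha, hS, hη, hρ2]
    push_cast
    field_simp
  have hmain : JJ h k T ξ - (Λ : ℂ) / s * (1 / p) =
      a * ((1 / (2 * Real.pi) : ℂ) * Q - M) +
        (1 / s) * ((S - 1 / p) * Λ - S * (Real.log (2 * Real.pi) + Complex.log (T * ρ))) := by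
    have : a * ((1 / (2 * Real.pi) : ℂ) * Q - M) = JJ h k T ξ - a * M := by rw [hJa]; ring
    rw [this, haM]
    ring
  have hgoal : (Real.log T - Real.log (h * k) : ℝ) / (Real.sqrt (h * k)) *
      (T / (2 + Complex.I * ξ)) = (Λ : ℂ) / s * (1 / p) := by
    rw [← hΛ, ← hs_def, hp, one_div_div]
  rw [hgoal, hmain]
  -- bounds
  have hSn : ‖S‖ ≤ T := by
    have h1 : ‖1 / p‖ ≤ T / 2 := by
      rw [norm_div, norm_one, div_le_iff₀ (norm_pos_iff.2 hp0)]
      calc (1 : ℝ) = T / 2 * (2 / T) := by field_simp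
        _ ≤ T / 2 * ‖p‖ := by gcongr
    calc ‖S‖ = ‖(S - 1 / p) + 1 / p‖ := by congr 1; ring
      _ ≤ ‖S - 1 / p‖ + ‖1 / p‖ := norm_add_le _ _
      _ ≤ T := by linarith
  have hlogn : ‖(Real.log (2 * Real.pi) : ℂ) + Complex.log (T * ρ)‖ ≤ 14 * (1 + |ξ|) := by
    have hTρn : ‖(T : ℂ) * ρ‖ = T * ‖ρ‖ := by
      rw [norm_mul, Complex.norm_real, Real.norm_of_nonneg hT.le]
    have hTρ1 : 1 ≤ T * ‖ρ‖ := by
      rw [div_le_iff₀ hT] at hρnge; linarith
    have hTρ2 : T * ‖ρ‖ ≤ 2 * (2 + |ξ|) := by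
      rw [le_div_iff₀ hT] at hρn; linarith
    have e1 : ‖Complex.log (T * ρ)‖ ≤ 2 * (2 + |ξ|) - 1 + Real.pi := by
      have e2 : Complex.log (T * ρ) = ((Real.log (T * ‖ρ‖) : ℝ) : ℂ) +
          (Complex.arg (T * ρ) : ℝ) * Complex.I := by
        rw [Complex.log, hTρn]
      rw [e2]
      refine (norm_add_le _ _).trans ?_
      rw [norm_mul, Complex.norm_I, mul_one, Complex.norm_real, Complex.norm_real]
      apply add_le_add
      · rw [Real.norm_of_nonneg (Real.log_nonneg hTρ1)]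
        have := Real.log_le_sub_one_of_pos (show 0 < T * ‖ρ‖ by linarith)
        linarith
      · exact Complex.abs_arg_le_pi _
    have e3 : ‖(Real.log (2 * Real.pi) : ℂ)‖ ≤ 2 * Real.pi - 1 := by
      rw [Complex.norm_real, Real.norm_of_nonneg
        (Real.log_nonneg (by linarith only [Real.pi_gt_three]))]
      exact Real.log_le_sub_one_of_pos (by positivity)
    refine (norm_add_le _ _).trans ?_
    linarith only [Real.pi_lt_d2, e1, e3, hξ0]
  have hzn2 : (k / s) * ‖z‖ ^ (-(1 / 2) : ℝ) ≤ 1 := by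
    have e1 : ‖z‖ ^ (-(1 / 2) : ℝ) ≤ ((k : ℝ) / h) ^ (-(1 / 2) : ℝ) :=
      Real.rpow_le_rpow_of_nonpos (by positivity) hznge (by norm_num)
    have e2 : ((k : ℝ) / h) ^ (-(1 / 2) : ℝ) = (s / h)⁻¹ := by
      rw [Real.rpow_neg (by positivity), ← Real.sqrt_eq_rpow, hg1]
    rw [e2] at e1
    calc (k / s) * ‖z‖ ^ (-(1 / 2) : ℝ) ≤ (k / s) * (s / h)⁻¹ := by gcongr
      _ = (h * k) / (s * s) := by field_simp
      _ = 1 := by rw [hss]; exact div_self (by positivity)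
  have hlogh : 0 ≤ Real.log h := Real.log_nonneg (by exact_mod_cast hh)
  have hκ2 : (‖η‖ / η.re) ^ 2 ≤ 16 * (1 + |ξ|) ^ 2 := by
    calc (‖η‖ / η.re) ^ 2 ≤ (4 * (1 + |ξ|)) ^ 2 := pow_le_pow_left₀ hκ0 hκ 2
      _ = _ := by ring
  have hterm : (k / s) * (h * (1 + Real.log h) + 1 / (h * ‖η‖)) ≤
      (T + (h * k) * (1 + Real.log h)) / s := by
    have e1 : 1 / (h * ‖η‖) ≤ T / k := by
      rw [hhη, div_le_div_iff₀ (by positivity) hk0]
      have : 1 ≤ T * ‖ρ‖ := by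
        rw [div_le_iff₀ hT] at hρnge; linarith
      calc 1 * (k : ℝ) ≤ (2 * Real.pi) * k * 1 := by
            have h20 := mul_le_mul_of_nonneg_right
              (by linarith only [Real.pi_gt_three] : 1 ≤ 2 * Real.pi) hk0.le
            linarith only [h20]
        _ ≤ (2 * Real.pi) * k * (T * ‖ρ‖) := by gcongr
        _ = _ := by ring
    calc (k / s) * (h * (1 + Real.log h) + 1 / (h * ‖η‖))
        ≤ (k / s) * (h * (1 + Real.log h) + T / k) := by gcongr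
      _ = (T + (h * k) * (1 + Real.log h)) / s := by field_simp; ring
  obtain ⟨X, hX⟩ : ∃ X : ℝ, X = (T + (h * k) * (1 + Real.log h)) / s := ⟨_, rfl⟩
  rw [← hX] at hterm
  have hX0 : 0 ≤ X := by rw [hX]; positivity
  have hTX : T / s ≤ X := by
    rw [hX]
    gcongr
    have : 0 ≤ (h * k : ℝ) * (1 + Real.log h) := by positivity
    linarith
  have hA : ‖a * ((1 / (2 * Real.pi) : ℂ) * Q - M)‖ ≤
      16 * C5 + 256 * C7 * (1 + |ξ|) ^ 2 * X := by
    rw [norm_mul]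
    calc ‖a‖ * ‖(1 / (2 * Real.pi) : ℂ) * Q - M‖
        ≤ (16 * (k / s)) * (C5 * ‖z‖ ^ (-(1 / 2) : ℝ) +
          C7 * (‖η‖ / η.re) ^ 2 * (h * (1 + Real.log h) + 1 / (h * ‖η‖))) := by
          apply mul_le_mul han hQM (norm_nonneg _) (by positivity)
      _ = 16 * C5 * ((k / s) * ‖z‖ ^ (-(1 / 2) : ℝ)) + 16 * C7 * (‖η‖ / η.re) ^ 2 *
          ((k / s) * (h * (1 + Real.log h) + 1 / (h * ‖η‖))) := by ring
      _ ≤ 16 * C5 * 1 + 16 * C7 * (16 * (1 + |ξ|) ^ 2) * X := by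
          apply add_le_add
          · exact mul_le_mul_of_nonneg_left hzn2 (by positivity)
          · apply mul_le_mul _ hterm _ (by positivity)
            · exact mul_le_mul_of_nonneg_left hκ2 (by positivity)
            · have : 0 < ‖η‖ := lt_of_lt_of_le hηre0 ((le_abs_self _).trans
                (Complex.abs_re_le_norm _))
              positivity
      _ = _ := by ring
  have hB : ‖(1 / s : ℂ) * ((S - 1 / p) * Λ - S * (Real.log (2 * Real.pi) +
      Complex.log (T * ρ)))‖ ≤ |Λ| / s + 14 * (1 + |ξ|) * X := by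
    rw [norm_mul, norm_div, norm_one, Complex.norm_real, Real.norm_of_nonneg hs0.le]
    calc 1 / s * ‖(S - 1 / p) * Λ - S * (Real.log (2 * Real.pi) + Complex.log (T * ρ))‖
        ≤ 1 / s * (1 * |Λ| + T * (14 * (1 + |ξ|))) := by
          gcongr
          refine (norm_sub_le _ _).trans ?_
          rw [norm_mul, norm_mul, Complex.norm_real, Real.norm_eq_abs]
          apply add_le_add
          · exact mul_le_mul_of_nonneg_right hsinb (abs_nonneg _)
          · exact mul_le_mul hSn hlogn (norm_nonneg _) hT.le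
      _ = |Λ| / s + 14 * (1 + |ξ|) * (T / s) := by ring
      _ ≤ |Λ| / s + 14 * (1 + |ξ|) * X := by gcongr
  rw [← hs_def, ← hX, ← hΛ]
  refine (norm_add_le _ _).trans ?_
  have hΛs : 0 ≤ |Λ| / s := div_nonneg (abs_nonneg _) hs0.le
  exact (add_le_add hA hB).trans (final_ineq hC5 hC7 hξ0 hX0 hΛs)

lemma ker_decay {T : ℝ} (hT : 2 ≤ T) (ξ t : ℝ) :
    ‖ker ((2 + Complex.I * ξ) / T) t‖ ≤ Real.exp (-(2 * (|t| / T))) := by
  obtain ⟨h1, h2⟩ := ker_norm_le ((2 + Complex.I * ξ) / T) t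
  rw [pp_re] at h1 h2
  have hT0 : 0 < T := by linarith
  rcases le_or_gt 0 t with ht | ht
  · rw [abs_of_nonneg ht]
    refine h1.trans (le_of_eq ?_)
    congr 1; ring
  · rw [abs_of_neg ht]
    refine h2.trans ?_
    rw [← Real.exp_add, Real.exp_le_exp]
    have h3 : (-t) * (4 / T) ≤ (-t) * Real.pi := by
      apply mul_le_mul_of_nonneg_left _ (by linarith)
      rw [div_le_iff₀ hT0]
      have h20 : (3 : ℝ) * 2 ≤ Real.pi * T :=
        mul_le_mul Real.pi_gt_three.le hT (by norm_num) Real.pi_pos.le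
      linarith only [h20]
    have h4 : (-t) * (4 / T) = 2 * (2 * (-t / T)) := by ring
    have h5 : 2 / T * t = -(2 * (-t / T)) := by ring
    linarith

lemma exp_poly {u : ℝ} (hu : 0 ≤ u) :
    (1 + u) ^ 4 * Real.exp (-(2 * u)) ≤ 2160 * (1 + u ^ 2)⁻¹ := by
  have h1 := Real.pow_div_factorial_le_exp (1 + u) (by linarith) 6
  have h2 : Real.exp (1 + u) ≤ 3 * Real.exp (2 * u) := by
    rw [Real.exp_add]
    have h3 := Real.exp_one_lt_d9
    have h4 : Real.exp u ≤ Real.exp (2 * u) := Real.exp_le_exp.2 (by linarith)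
    have h5 := Real.exp_pos u
    nlinarith
  have h3 : ((Nat.factorial 6 : ℕ) : ℝ) = 720 := by norm_num [Nat.factorial]
  rw [h3, div_le_iff₀ (by norm_num)] at h1
  have h4 : (1 + u) ^ 6 ≤ 2160 * Real.exp (2 * u) := by linarith
  have h5 : 1 + u ^ 2 ≤ (1 + u) ^ 2 := by nlinarith
  rw [Real.exp_neg, ← div_eq_mul_inv, ← div_eq_mul_inv, div_le_div_iff₀ (Real.exp_pos _)
    (by positivity)]
  calc (1 + u) ^ 4 * (1 + u ^ 2) ≤ (1 + u) ^ 4 * (1 + u) ^ 2 := by gcongr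
    _ = (1 + u) ^ 6 := by ring
    _ ≤ _ := h4

lemma JJ_large : ∃ C : ℝ, 0 < C ∧ ∀ T : ℝ, 2 ≤ T → ∀ h k : ℕ, ∀ ξ : ℝ,
    ‖JJ h k T ξ‖ ≤ C * T ^ 5 := by
  obtain ⟨C, hC, hz⟩ := zeta_growth
  refine ⟨C ^ 2 * 2160 * Real.pi, by positivity, fun T hT h k ξ => ?_⟩
  have hT0 : 0 < T := by linarith
  have hint : Integrable fun t : ℝ => C ^ 2 * T ^ 4 * 2160 * (1 + (t / T) ^ 2)⁻¹ := by
    apply Integrable.const_mul
    exact integrable_inv_one_add_sq.comp_div hT0.ne'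
  have hval : ∫ t : ℝ, C ^ 2 * T ^ 4 * 2160 * (1 + (t / T) ^ 2)⁻¹ =
      C ^ 2 * 2160 * Real.pi * T ^ 5 := by
    rw [MeasureTheory.integral_const_mul,
      MeasureTheory.Measure.integral_comp_div (fun x : ℝ => (1 + x ^ 2)⁻¹) T,
      integral_univ_inv_one_add_sq, abs_of_pos hT0, smul_eq_mul]
    ring
  rw [← hval, JJ]
  apply norm_integral_le_of_norm_le hint
  refine Eventually.of_forall fun t => ?_
  rw [norm_mul, norm_mul]
  have e1 : ‖Complex.exp (t * (Real.log h - Real.log k : ℝ) * Complex.I)‖ = 1 := by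
    rw [← Complex.ofReal_mul, Complex.norm_exp_ofReal_mul_I]
  rw [e1, mul_one, Complex.norm_real, Real.norm_of_nonneg (by positivity)]
  have h1 : ‖riemannZeta (cl t)‖ ^ 2 ≤ (C * (1 + |t|) ^ 2) ^ 2 :=
    pow_le_pow_left₀ (norm_nonneg _) (hz t) 2
  have hu : 0 ≤ |t| / T := by positivity
  have h2 : 1 + |t| ≤ T * (1 + |t| / T) := by
    have : T * (1 + |t| / T) = T + |t| := by field_simp
    rw [this]; linarith
  have h3 := exp_poly hu
  have h4 : (1 + (|t| / T) ^ 2)⁻¹ = (1 + (t / T) ^ 2)⁻¹ := by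
    rw [div_pow, sq_abs, div_pow]
  rw [h4] at h3
  calc ‖riemannZeta (cl t)‖ ^ 2 * ‖ker ((2 + Complex.I * ξ) / T) t‖
      ≤ (C * (1 + |t|) ^ 2) ^ 2 * Real.exp (-(2 * (|t| / T))) :=
        mul_le_mul h1 (ker_decay hT ξ t) (norm_nonneg _) (by positivity)
    _ = C ^ 2 * ((1 + |t|) ^ 4 * Real.exp (-(2 * (|t| / T)))) := by ring
    _ ≤ C ^ 2 * ((T * (1 + |t| / T)) ^ 4 * Real.exp (-(2 * (|t| / T)))) := by gcongr
    _ = C ^ 2 * T ^ 4 * ((1 + |t| / T) ^ 4 * Real.exp (-(2 * (|t| / T)))) := by ring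
    _ ≤ C ^ 2 * T ^ 4 * (2160 * (1 + (t / T) ^ 2)⁻¹) := by gcongr
    _ = _ := by ring

theorem JJ_bound {ε : ℝ} (hε : 0 < ε) (hε1 : ε < 1) : ∃ C T₀ : ℝ, ∃ B : ℕ, 0 < C ∧ 1 ≤ T₀ ∧
    ∀ T : ℝ, T₀ ≤ T → ∀ h k : ℕ, 0 < h → h ≤ k → h.Coprime k → (h : ℝ) * k ≤ T ^ (1 - ε) → ∀ ξ : ℝ,
    ‖JJ h k T ξ - (Real.log T - Real.log (h * k) : ℝ) / (Real.sqrt (h * k)) *
      (T / (2 + Complex.I * ξ))‖ ≤ C * (1 + |ξ|) ^ B * (T / Real.sqrt (h * k)) := by
  obtain ⟨Cs, hCs, hsmall⟩ := JJ_small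
  obtain ⟨Cl, hCl, hlarge⟩ := JJ_large
  obtain ⟨B, hB⟩ := exists_nat_ge (5 / ε)
  have hB2 : 2 ≤ B := by
    have : (5 : ℝ) ≤ B := by
      refine le_trans ?_ hB
      rw [le_div_iff₀ hε]; linarith
    have h5 : 5 ≤ B := by exact_mod_cast this
    omega
  refine ⟨Cs * (4 + 1 / ε) + (Cl + 1) * 40 ^ B, 2, B, by positivity, by norm_num, ?_⟩
  intro T hT h k hh hhk hcop hle ξ
  have hT0 : 0 < T := by linarith
  have hT1 : 1 ≤ T := by linarith
  have hh0 : (0 : ℝ) < h := by exact_mod_cast hh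
  have hh1 : (1 : ℝ) ≤ h := by exact_mod_cast hh
  have hk : 0 < k := lt_of_lt_of_le hh hhk
  have hk0 : (0 : ℝ) < k := by exact_mod_cast hk
  have hk1 : (1 : ℝ) ≤ k := by exact_mod_cast hk
  have hξ0 := abs_nonneg ξ
  have hhk1 : (1 : ℝ) ≤ h * k := one_le_mul_of_one_le_of_one_le hh1 hk1
  obtain ⟨s, hs⟩ : ∃ s, s = Real.sqrt (h * k) := ⟨_, rfl⟩
  have hs0 : 0 < s := by rw [hs]; exact Real.sqrt_pos.2 (by positivity)
  have hTε : T ^ (1 - ε) ≤ T := by
    calc T ^ (1 - ε) ≤ T ^ (1 : ℝ) := Real.rpow_le_rpow_of_exponent_le hT1 (by linarith)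
      _ = T := Real.rpow_one T
  have hhkT : (h : ℝ) * k ≤ T := hle.trans hTε
  have hsT : s ≤ T := by
    rw [hs, Real.sqrt_le_left hT0.le]
    nlinarith
  have hTs : 1 ≤ T / s := by rw [le_div_iff₀ hs0]; linarith
  have hlogT : Real.log T ≤ T := (Real.log_le_sub_one_of_pos hT0).trans (by linarith)
  obtain ⟨Λ, hΛ⟩ : ∃ Λ : ℝ, Λ = Real.log T - Real.log (h * k) := ⟨_, rfl⟩
  have hΛ0 : 0 ≤ Λ := by
    rw [hΛ, sub_nonneg]
    exact Real.log_le_log (by positivity) hhkT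
  have hΛT : Λ ≤ T := by
    rw [hΛ]
    have := Real.log_nonneg hhk1
    linarith
  rw [← hs, ← hΛ]
  have hξ1 : 1 ≤ 1 + |ξ| := by linarith
  have hpow : (1 + |ξ|) ^ 2 ≤ (1 + |ξ|) ^ B := pow_le_pow_right₀ hξ1 hB2
  rcases le_or_gt ((2 + |ξ|) * k) (T / 20) with hc | hc
  · have h1 := hsmall T hT0 h k hh hhk hcop ξ hc
    rw [← hs, ← hΛ] at h1
    refine h1.trans ?_
    have hlog : (h * k : ℝ) * (1 + Real.log h) ≤ (1 + 1 / ε) * T := by
      have e1 : Real.log h ≤ Real.log T :=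
        Real.log_le_log hh0 ((le_mul_of_one_le_right hh0.le hk1).trans hhkT)
      have e2 : Real.log T ≤ T ^ ε / ε := Real.log_le_rpow_div hT0.le hε
      have e3 : 1 ≤ T ^ ε := Real.one_le_rpow hT1 hε.le
      have e4 : 1 + Real.log h ≤ (1 + 1 / ε) * T ^ ε := by
        have : (1 + 1 / ε) * T ^ ε = T ^ ε + T ^ ε / ε := by ring
        rw [this]; linarith
      have e5 : 0 ≤ 1 + Real.log h := by
        have := Real.log_nonneg hh1
        linarith
      calc (h * k : ℝ) * (1 + Real.log h) ≤ T ^ (1 - ε) * ((1 + 1 / ε) * T ^ ε) := by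
            apply mul_le_mul hle e4 e5 (by positivity)
        _ = (1 + 1 / ε) * (T ^ (1 - ε) * T ^ ε) := by ring
        _ = (1 + 1 / ε) * T := by
            rw [← Real.rpow_add hT0]; norm_num
    have hbr : (T + (h * k) * (1 + Real.log h)) / s + 1 + |Λ| / s ≤ (4 + 1 / ε) * (T / s) := by
      rw [abs_of_nonneg hΛ0]
      have e1 : (T + (h * k) * (1 + Real.log h)) / s ≤ (2 + 1 / ε) * (T / s) := by
        rw [← mul_div_assoc]
        apply div_le_div_of_nonneg_right _ hs0.le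
        linarith
      have e2 : Λ / s ≤ T / s := div_le_div_of_nonneg_right hΛT hs0.le
      linarith
    calc Cs * (1 + |ξ|) ^ 2 * ((T + (h * k) * (1 + Real.log h)) / s + 1 + |Λ| / s)
        ≤ Cs * (1 + |ξ|) ^ B * ((4 + 1 / ε) * (T / s)) := by
          apply mul_le_mul _ hbr _ (by positivity)
          · exact mul_le_mul_of_nonneg_left hpow hCs.le
          · have : 0 ≤ Real.log h := Real.log_nonneg hh1
            positivity
      _ = Cs * (4 + 1 / ε) * ((1 + |ξ|) ^ B * (T / s)) := by ring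
      _ ≤ (Cs * (4 + 1 / ε) + (Cl + 1) * 40 ^ B) * ((1 + |ξ|) ^ B * (T / s)) := by
          apply mul_le_mul_of_nonneg_right _ (by positivity)
          have : 0 ≤ (Cl + 1) * 40 ^ B := by positivity
          linarith
      _ = _ := by ring
  · have hkT : (k : ℝ) ≤ T ^ (1 - ε) := (le_mul_of_one_le_left hk0.le hh1).trans hle
    have h1 : T ^ ε < 40 * (1 + |ξ|) := by
      have e1 : T ^ ε * T ^ (1 - ε) = T := by
        rw [← Real.rpow_add hT0]; norm_num
      have e2 : T < 40 * (1 + |ξ|) * T ^ (1 - ε) := by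
        have : (2 + |ξ|) * k ≤ (2 + |ξ|) * T ^ (1 - ε) := by gcongr
        have h3 : 0 < T ^ (1 - ε) := Real.rpow_pos_of_pos hT0 _
        have h4 : 0 ≤ |ξ| * T ^ (1 - ε) := mul_nonneg hξ0 h3.le
        linarith only [this, h3, h4, hc]
      rw [← e1] at e2
      have h3 : 0 < T ^ (1 - ε) := Real.rpow_pos_of_pos hT0 _
      rw [e1] at e2
      rw [← e1] at e2
      exact lt_of_mul_lt_mul_right (by rw [e1] at e2 ⊢; exact e2) h3.le
    have hT5 : T ^ 5 ≤ 40 ^ B * (1 + |ξ|) ^ B := by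
      have e1 : T ^ 5 = (T ^ ε) ^ (5 / ε) := by
        rw [← Real.rpow_mul hT0.le]
        rw [mul_div_cancel₀ _ hε.ne']
        norm_cast
      rw [e1, ← mul_pow]
      calc (T ^ ε) ^ (5 / ε) ≤ (40 * (1 + |ξ|)) ^ (5 / ε) :=
            Real.rpow_le_rpow (by positivity) h1.le (by positivity)
        _ ≤ (40 * (1 + |ξ|)) ^ (B : ℝ) :=
            Real.rpow_le_rpow_of_exponent_le (by linarith) hB
        _ = (40 * (1 + |ξ|)) ^ B := Real.rpow_natCast _ _
    obtain ⟨Y, hY⟩ : ∃ Y : ℝ, Y = 40 ^ B * (1 + |ξ|) ^ B := ⟨_, rfl⟩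
    rw [← hY] at hT5
    have hY0 : 0 ≤ Y := by rw [hY]; positivity
    have hJ : ‖JJ h k T ξ‖ ≤ Cl * Y * (T / s) := by
      calc ‖JJ h k T ξ‖ ≤ Cl * T ^ 5 := hlarge T hT h k ξ
        _ ≤ Cl * Y := by gcongr
        _ ≤ Cl * Y * (T / s) := le_mul_of_one_le_right (by positivity) hTs
    have hM : ‖(Λ : ℂ) / s * (T / (2 + Complex.I * ξ))‖ ≤ Y * (T / s) := by
      rw [norm_mul, norm_div, norm_div, Complex.norm_real, Complex.norm_real, Complex.norm_real,
        Real.norm_of_nonneg hΛ0, Real.norm_of_nonneg hs0.le, Real.norm_of_nonneg hT0.le]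
      have e1 : 1 ≤ ‖(2 + Complex.I * ξ : ℂ)‖ := by
        have : (2 + Complex.I * ξ : ℂ).re = 2 := by simp
        have h2 := Complex.abs_re_le_norm (2 + Complex.I * ξ : ℂ)
        rw [this, abs_of_pos (by norm_num)] at h2
        linarith
      have e2 : T / ‖(2 + Complex.I * ξ : ℂ)‖ ≤ T := div_le_self hT0.le e1
      have e3 : T ≤ Y := by
        refine le_trans ?_ hT5
        calc T = T ^ 1 := (pow_one T).symm
          _ ≤ T ^ 5 := pow_le_pow_right₀ hT1 (by norm_num)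
      calc Λ / s * (T / ‖(2 + Complex.I * ξ : ℂ)‖) ≤ T / s * Y := by
            apply mul_le_mul _ (e2.trans e3) (by positivity) (by positivity)
            exact div_le_div_of_nonneg_right hΛT hs0.le
        _ = _ := mul_comm _ _
    calc ‖JJ h k T ξ - (Λ : ℂ) / s * (T / (2 + Complex.I * ξ))‖
        ≤ ‖JJ h k T ξ‖ + ‖(Λ : ℂ) / s * (T / (2 + Complex.I * ξ))‖ := norm_sub_le _ _
      _ ≤ Cl * Y * (T / s) + Y * (T / s) := add_le_add hJ hM
      _ = (Cl + 1) * 40 ^ B * ((1 + |ξ|) ^ B * (T / s)) := by rw [hY]; ring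
      _ ≤ (Cs * (4 + 1 / ε) + (Cl + 1) * 40 ^ B) * ((1 + |ξ|) ^ B * (T / s)) := by
          apply mul_le_mul_of_nonneg_right _ (by positivity)
          have : 0 ≤ Cs * (4 + 1 / ε) := by positivity
          linarith
      _ = _ := by ring

end Pool.Agent.EvenMoment
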