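import Mathlib
import Pool.Agent.Lib_MP_112ba8_e.Defs
import Pool.Agent.Lib_MP_112ba8_e.Line
import Pool.Agent.Lib_MP_112ba8_e.Contour
import Pool.Agent.Lib_MP_112ba8_e.Laplace

/-!
P9: the twisted second moment with a smooth weight, from the Laplace weighted one.
-/

namespace Pool.Agent.EvenMoment

open Filter Topology MeasureTheory FourierTransform

namespace Tw

lemma hcs {w : ℝ → ℝ} (hw : Wgt w) : HasCompactSupport w := by
  obtain ⟨a, ha, ha1, h⟩ := hw.supp
  refine HasCompactSupport.intro (isCompact_Icc (a := a) (b := 1)) fun t ht => ?_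
  apply h
  rw [Set.mem_Icc, not_and_or, not_le, not_le] at ht
  exact ht

lemma exists_G {w : ℝ → ℝ} (hw : Wgt w) : ∃ G : ℝ → ℂ, Continuous G ∧ Integrable G ∧
    (∀ n : ℕ, Integrable fun v : ℝ => |v| ^ n * ‖G v‖) ∧
    ∀ x : ℝ, ∫ v : ℝ, G v * Complex.exp ((2 * Real.pi * v * x : ℝ) * Complex.I) =
      ((w x * Real.exp (2 * x) : ℝ) : ℂ) := by
  have h1 : HasCompactSupport fun x : ℝ => ((w x * Real.exp (2 * x) : ℝ) : ℂ) := by
    have := (hcs hw)
    have h2 : HasCompactSupport fun x => w x * Real.exp (2 * x) := this.mul_right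
    exact h2.comp_left (g := fun x : ℝ => (x : ℂ)) (by simp)
  have h2 : ContDiff ℝ (⊤ : ℕ∞) fun x : ℝ => ((w x * Real.exp (2 * x) : ℝ) : ℂ) := by
    refine Complex.ofRealCLM.contDiff.comp (hw.smooth.mul ?_)
    exact Real.contDiff_exp.comp (contDiff_const.mul contDiff_id)
  set f : SchwartzMap ℝ ℂ := h1.toSchwartzMap h2 with hf
  set g : SchwartzMap ℝ ℂ := 𝓕 f with hg
  refine ⟨g, g.continuous, g.integrable, fun n => ?_, fun x => ?_⟩
  · have := g.integrable_pow_mul (μ := volume) n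
    simpa using this
  · have h3 : (𝓕⁻ g : SchwartzMap ℝ ℂ) = f := by
      rw [hg]; exact FourierTransform.fourierInv_fourier_eq f
    have h4 : (𝓕⁻ g : SchwartzMap ℝ ℂ) x = f x := by rw [h3]
    rw [SchwartzMap.fourierInv_coe, Real.fourierInv_eq'] at h4
    have h5 : f x = ((w x * Real.exp (2 * x) : ℝ) : ℂ) := rfl
    rw [← h5, ← h4]
    refine integral_congr_ae (ae_of_all _ fun v => ?_)
    simp only [smul_eq_mul]
    rw [mul_comm]
    congr 3
    simp
    ring

lemma zcont : Continuous fun t : ℝ => riemannZeta (cl t) := by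
  rw [continuous_iff_continuousAt]
  intro t
  have h1 : cl t ≠ 1 := by
    intro h
    have := congrArg Complex.re h
    simp [cl] at this
  have h2 : ContinuousAt cl t := by
    unfold cl
    fun_prop
  exact ContinuousAt.comp (differentiableAt_riemannZeta h1).continuousAt h2

lemma re_one (y : ℝ) : (1 + Complex.I * (y : ℂ)).re = 1 := by simp

lemma den_ne (t : ℝ) : (1 + Complex.I * Real.exp (-(Real.pi * t)) : ℂ) ≠ 0 := by
  intro h
  have := congrArg Complex.re h
  rw [re_one] at this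
  simp at this

lemma ker_cont (p : ℂ) : Continuous (ker p) := by
  unfold ker
  refine Continuous.div (by fun_prop) (by fun_prop) den_ne

lemma poly_exp {c : ℝ} (hc : 0 < c) : ∃ K : ℝ, 0 < K ∧ ∀ t : ℝ,
    (1 + |t|) ^ 4 * Real.exp (-(c * |t|)) ≤ K * (1 + t ^ 2)⁻¹ := by
  refine ⟨720 * Real.exp c / c ^ 6, by positivity, fun t => ?_⟩
  have h1 := Real.pow_div_factorial_le_exp (x := c * (1 + |t|)) (by positivity) 6
  have h2 : (1 + t ^ 2) ≤ (1 + |t|) ^ 2 := by
    nlinarith [abs_nonneg t, sq_abs t]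
  rw [← div_eq_mul_inv, le_div_iff₀ (by positivity)]
  have h3 : (1 + |t|) ^ 4 * Real.exp (-(c * |t|)) * (1 + t ^ 2) ≤
      (1 + |t|) ^ 6 * Real.exp (-(c * |t|)) := by
    have : (1 + |t|) ^ 4 * Real.exp (-(c * |t|)) * (1 + t ^ 2) ≤
      (1 + |t|) ^ 4 * Real.exp (-(c * |t|)) * (1 + |t|) ^ 2 := by gcongr
    refine this.trans (le_of_eq ?_)
    ring
  refine h3.trans ?_
  rw [le_div_iff₀ (by positivity)]
  have h4 : (c * (1 + |t|)) ^ 6 ≤ 720 * Real.exp (c * (1 + |t|)) := by
    rw [div_le_iff₀ (by positivity)] at h1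
    have : ((Nat.factorial 6 : ℕ) : ℝ) = 720 := by norm_num [Nat.factorial]
    rw [this] at h1
    linarith
  have h5 : Real.exp (c * (1 + |t|)) * Real.exp (-(c * |t|)) = Real.exp c := by
    rw [← Real.exp_add]; congr 1; ring
  calc (1 + |t|) ^ 6 * Real.exp (-(c * |t|)) * c ^ 6
      = (c * (1 + |t|)) ^ 6 * Real.exp (-(c * |t|)) := by ring
    _ ≤ 720 * Real.exp (c * (1 + |t|)) * Real.exp (-(c * |t|)) := by gcongr
    _ = 720 * Real.exp c := by rw [mul_assoc, h5]

/-- `|ζ|²` times something exponentially small is integrable -/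
lemma zint {c : ℝ} (hc : 0 < c) : ∃ K : ℝ, 0 < K ∧ ∀ t : ℝ,
    ‖riemannZeta (cl t)‖ ^ 2 * Real.exp (-(c * |t|)) ≤ K * (1 + t ^ 2)⁻¹ := by
  obtain ⟨C, hC, h⟩ := zeta_growth
  obtain ⟨K, hK, h'⟩ := poly_exp hc
  refine ⟨C ^ 2 * K, by positivity, fun t => ?_⟩
  calc ‖riemannZeta (cl t)‖ ^ 2 * Real.exp (-(c * |t|))
      ≤ (C * (1 + |t|) ^ 2) ^ 2 * Real.exp (-(c * |t|)) := by
        gcongr
        exact h t
    _ = C ^ 2 * ((1 + |t|) ^ 4 * Real.exp (-(c * |t|))) := by ring
    _ ≤ C ^ 2 * (K * (1 + t ^ 2)⁻¹) := by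
        exact mul_le_mul_of_nonneg_left (h' t) (by positivity)
    _ = _ := by ring

lemma ker_bound {T : ℝ} (hT : 2 ≤ T) (t : ℝ) :
    ‖ker (2 / T : ℝ) t‖ ≤ Real.exp (-(2 / T * |t|)) := by
  obtain ⟨h1, h2⟩ := ker_norm_le (2 / T : ℝ) t
  rw [Complex.ofReal_re] at h1 h2
  rcases le_total 0 t with ht | ht
  · rw [abs_of_nonneg ht]
    exact h1
  · refine h2.trans ?_
    rw [← Real.exp_add, abs_of_nonpos ht]
    apply Real.exp_le_exp.mpr
    have h3 : 2 / T ≤ 1 := by
      rw [div_le_one (by linarith)]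
      exact hT
    have h4 := Real.pi_gt_three
    nlinarith

/-- the main integrable function -/
noncomputable def HH (h k : ℕ) (T t : ℝ) : ℂ :=
  (‖riemannZeta (cl t)‖ ^ 2 : ℝ) * Complex.exp (t * (Real.log h - Real.log k : ℝ) * Complex.I) *
    ker (2 / T : ℝ) t

lemma osc_norm (t u : ℝ) : ‖Complex.exp (t * u * Complex.I)‖ = 1 := by
  rw [← Complex.ofReal_mul]
  exact Complex.norm_exp_ofReal_mul_I _

lemma HH_cont (h k : ℕ) (T : ℝ) : Continuous (HH h k T) := by
  unfold HH
  refine Continuous.mul (Continuous.mul ?_ (by fun_prop)) (ker_cont _)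
  exact Complex.continuous_ofReal.comp (zcont.norm.pow 2)

lemma HH_integrable (h k : ℕ) {T : ℝ} (hT : 2 ≤ T) : Integrable (HH h k T) := by
  obtain ⟨K, hK, hz⟩ := zint (c := 2 / T) (by positivity)
  refine Integrable.mono' ((integrable_inv_one_add_sq).const_mul K)
    (HH_cont h k T).aestronglyMeasurable (ae_of_all _ fun t => ?_)
  unfold HH
  rw [norm_mul, norm_mul, osc_norm, mul_one, Complex.norm_real, Real.norm_eq_abs,
    abs_of_nonneg (by positivity)]
  refine le_trans ?_ (hz t)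
  gcongr
  exact ker_bound hT t

lemma ker_split {T : ℝ} (v t : ℝ) :
    ker ((2 + Complex.I * (-(2 * Real.pi * v) : ℝ)) / T) t =
      ker (2 / T : ℝ) t * Complex.exp ((2 * Real.pi * v * (t / T) : ℝ) * Complex.I) := by
  unfold ker
  have h : Complex.exp (-((2 + Complex.I * (-(2 * Real.pi * v) : ℝ)) / T * t)) =
      Complex.exp (-((2 / T : ℝ) * t)) *
        Complex.exp ((2 * Real.pi * v * (t / T) : ℝ) * Complex.I) := by
    rw [← Complex.exp_add]
    congr 1
    push_cast
    ring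
  rw [h]
  ring

lemma fubini1 {w : ℝ → ℝ} {G : ℝ → ℂ} (hGi : Integrable G)
    (hG : ∀ x : ℝ, ∫ v : ℝ, G v * Complex.exp ((2 * Real.pi * v * x : ℝ) * Complex.I) =
      ((w x * Real.exp (2 * x) : ℝ) : ℂ)) (h k : ℕ) {T : ℝ} (hT : 2 ≤ T) :
    ∫ v : ℝ, G v * JJ h k T (-(2 * Real.pi * v)) =
      ∫ t : ℝ, HH h k T t * ((w (t / T) * Real.exp (2 * (t / T)) : ℝ) : ℂ) := by
  have h1 : ∀ v : ℝ, G v * JJ h k T (-(2 * Real.pi * v)) =
      ∫ t : ℝ, G v * (HH h k T t * Complex.exp ((2 * Real.pi * v * (t / T) : ℝ) * Complex.I)) := by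
    intro v
    rw [integral_const_mul]
    congr 1
    unfold JJ
    refine integral_congr_ae (ae_of_all _ fun t => ?_)
    simp only
    rw [ker_split, HH, mul_assoc, mul_assoc, mul_assoc]
    ring
  simp_rw [h1]
  rw [integral_integral_swap]
  · refine integral_congr_ae (ae_of_all _ fun t => ?_)
    simp only
    rw [← hG, ← integral_const_mul]
    refine integral_congr_ae (ae_of_all _ fun v => ?_)
    simp only
    ring
  · have h2 := hGi.mul_prod (HH_integrable h k hT)
    have h3 : (Function.uncurry fun (v t : ℝ) => G v * (HH h k T t *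
        Complex.exp ((2 * Real.pi * v * (t / T) : ℝ) * Complex.I))) =
        fun z : ℝ × ℝ => Complex.exp ((2 * Real.pi * z.1 * (z.2 / T) : ℝ) * Complex.I) *
          (G z.1 * HH h k T z.2) := by
      ext z
      simp only [Function.uncurry]
      ring
    rw [h3]
    refine h2.bdd_mul (c := 1) ?_ (ae_of_all _ fun z => ?_)
    · exact Continuous.aestronglyMeasurable (by fun_prop)
    · exact (Complex.norm_exp_ofReal_mul_I _).le

lemma fubini2 {w : ℝ → ℝ} (hw : Wgt w) {G : ℝ → ℂ} (hGi : Integrable G)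
    (hG : ∀ x : ℝ, ∫ v : ℝ, G v * Complex.exp ((2 * Real.pi * v * x : ℝ) * Complex.I) =
      ((w x * Real.exp (2 * x) : ℝ) : ℂ)) :
    ∫ v : ℝ, G v * (1 / (2 + Complex.I * (-(2 * Real.pi * v) : ℝ))) = ((∫ x, w x : ℝ) : ℂ) := by
  have h1 : ∀ v : ℝ, G v * (1 / (2 + Complex.I * (-(2 * Real.pi * v) : ℝ))) =
      ∫ x in Set.Ioi (0 : ℝ), G v * (Complex.exp (-(2 * x) : ℝ) *
        Complex.exp ((2 * Real.pi * v * x : ℝ) * Complex.I)) := by
    intro v
    rw [integral_const_mul]
    congr 1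
    have := integral_exp_mul_complex_Ioi (a := -(2 + Complex.I * (-(2 * Real.pi * v) : ℝ)))
      (by simp) 0
    rw [Complex.ofReal_zero, mul_zero, Complex.exp_zero, neg_div_neg_eq] at this
    rw [← this]
    refine integral_congr_ae (ae_of_all _ fun x => ?_)
    simp only
    rw [← Complex.exp_add]
    congr 1
    push_cast
    ring
  simp_rw [h1]
  rw [integral_integral_swap]
  · have h2 : ∀ x : ℝ, ∫ v : ℝ, G v * (Complex.exp (-(2 * x) : ℝ) *
        Complex.exp ((2 * Real.pi * v * x : ℝ) * Complex.I)) = ((w x : ℝ) : ℂ) := by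
      intro x
      have h3 : ∀ v : ℝ, G v * (Complex.exp (-(2 * x) : ℝ) *
          Complex.exp ((2 * Real.pi * v * x : ℝ) * Complex.I)) = Complex.exp (-(2 * x) : ℝ) *
          (G v * Complex.exp ((2 * Real.pi * v * x : ℝ) * Complex.I)) := fun v => by ring
      simp_rw [h3]
      rw [integral_const_mul, hG, ← Complex.ofReal_exp, ← Complex.ofReal_mul]
      congr 1
      rw [mul_left_comm, ← Real.exp_add]
      simp
    simp_rw [h2]
    rw [← integral_complex_ofReal, setIntegral_eq_integral_of_forall_compl_eq_zero]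
    intro x hx
    obtain ⟨a, ha, _, hs⟩ := hw.supp
    rw [hs x (Or.inl (by simp only [Set.mem_Ioi, not_lt] at hx; linarith))]
    simp
  · have h4 : Integrable (fun x : ℝ => Complex.exp (-(2 * x) : ℝ)) (volume.restrict (Set.Ioi 0)) := by
      have := (integrableOn_exp_mul_complex_Ioi (a := -2) (by simp) 0)
      refine this.congr_fun (fun x _ => ?_) measurableSet_Ioi
      simp only
      push_cast
      ring_nf
    have h2 := hGi.mul_prod h4
    have h3 : (Function.uncurry fun (v x : ℝ) => G v * (Complex.exp (-(2 * x) : ℝ) *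
        Complex.exp ((2 * Real.pi * v * x : ℝ) * Complex.I))) =
        fun z : ℝ × ℝ => Complex.exp ((2 * Real.pi * z.1 * z.2 : ℝ) * Complex.I) *
          (G z.1 * Complex.exp (-(2 * z.2) : ℝ)) := by
      ext z
      simp only [Function.uncurry]
      ring
    rw [h3]
    refine h2.bdd_mul (c := 1) ?_ (ae_of_all _ fun z => ?_)
    · exact Continuous.aestronglyMeasurable (by fun_prop)
    · exact (Complex.norm_exp_ofReal_mul_I _).le

/-- removing the factor `1 / (1 + i e^{-πt})` -/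
lemma remove {w : ℝ → ℝ} (hw : Wgt w) : ∃ D : ℝ, 0 < D ∧ ∀ T : ℝ, 2 ≤ T → ∀ h k : ℕ,
    ‖(∫ t : ℝ, (w (t / T) * ‖riemannZeta (cl t)‖ ^ 2 : ℝ) *
        Complex.exp (t * (Real.log h - Real.log k : ℝ) * Complex.I)) -
      ∫ t : ℝ, HH h k T t * ((w (t / T) * Real.exp (2 * (t / T)) : ℝ) : ℂ)‖ ≤ D := by
  obtain ⟨M, hM⟩ := (hcs hw).exists_bound_of_continuous hw.smooth.continuous
  obtain ⟨K, hK, hz⟩ := zint (c := Real.pi) Real.pi_pos
  have hM0 : 0 ≤ M := (norm_nonneg _).trans (hM 0)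
  refine ⟨∫ t : ℝ, (M * K + 1) * (1 + t ^ 2)⁻¹, ?_, fun T hT h k => ?_⟩
  · rw [integral_const_mul, integral_univ_inv_one_add_sq]
    positivity
  have hT0 : 0 < T := by linarith
  have hcs' : HasCompactSupport fun t : ℝ => w (t / T) := by
    obtain ⟨a, ha, ha1, h⟩ := hw.supp
    refine HasCompactSupport.intro (isCompact_Icc (a := 0) (b := T)) fun t ht => ?_
    apply h
    rw [Set.mem_Icc, not_and_or, not_le, not_le] at ht
    rcases ht with ht | ht
    · left
      have : t / T < 0 := div_neg_of_neg_of_pos ht hT0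
      linarith
    · right
      rwa [one_lt_div hT0]
  have hwc : Continuous fun t : ℝ => w (t / T) := hw.smooth.continuous.comp (continuous_id.div_const T)
  have hi1 : Integrable fun t : ℝ => ((w (t / T) * ‖riemannZeta (cl t)‖ ^ 2 : ℝ) : ℂ) *
        Complex.exp (t * (Real.log h - Real.log k : ℝ) * Complex.I) := by
    refine Continuous.integrable_of_hasCompactSupport ?_ ?_
    · refine Continuous.mul ?_ (by fun_prop)
      exact Complex.continuous_ofReal.comp (hwc.mul (zcont.norm.pow 2))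
    · refine HasCompactSupport.mul_right ?_
      exact (HasCompactSupport.mul_right hcs').comp_left (g := fun x : ℝ => (x : ℂ)) (by simp)
  have hi2 : Integrable fun t : ℝ => HH h k T t *
      ((w (t / T) * Real.exp (2 * (t / T)) : ℝ) : ℂ) := by
    refine Continuous.integrable_of_hasCompactSupport ?_ ?_
    · refine Continuous.mul (HH_cont h k T) ?_
      exact Complex.continuous_ofReal.comp (hwc.mul (by fun_prop))
    · refine HasCompactSupport.mul_left ?_
      exact (HasCompactSupport.mul_right hcs').comp_left (g := fun x : ℝ => (x : ℂ)) (by simp)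
  rw [← integral_sub hi1 hi2]
  refine norm_integral_le_of_norm_le ((integrable_inv_one_add_sq).const_mul _)
    (ae_of_all _ fun t => ?_)
  have h1 : ((w (t / T) * ‖riemannZeta (cl t)‖ ^ 2 : ℝ) : ℂ) *
        Complex.exp (t * (Real.log h - Real.log k : ℝ) * Complex.I) -
      HH h k T t * ((w (t / T) * Real.exp (2 * (t / T)) : ℝ) : ℂ) =
      ((w (t / T) * ‖riemannZeta (cl t)‖ ^ 2 : ℝ) : ℂ) *
        Complex.exp (t * (Real.log h - Real.log k : ℝ) * Complex.I) *
        (Complex.I * Real.exp (-(Real.pi * t)) / (1 + Complex.I * Real.exp (-(Real.pi * t)))) := by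
    have h2 : ker (2 / T : ℝ) t * (Real.exp (2 * (t / T)) : ℝ) =
        1 / (1 + Complex.I * Real.exp (-(Real.pi * t))) := by
      unfold ker
      rw [div_mul_eq_mul_div, Complex.ofReal_exp (2 * (t / T)), ← Complex.exp_add]
      congr 1
      rw [← Complex.exp_zero]
      congr 1
      push_cast
      ring
    have h3 : Complex.I * Real.exp (-(Real.pi * t)) / (1 + Complex.I * Real.exp (-(Real.pi * t))) =
        1 - 1 / (1 + Complex.I * Real.exp (-(Real.pi * t))) := by
      have := den_ne t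
      field_simp
      ring
    rw [h3, ← h2, HH]
    push_cast
    ring
  rw [h1, norm_mul, norm_mul, osc_norm, mul_one, Complex.norm_real]
  rcases lt_or_ge t 0 with ht | ht
  · obtain ⟨a, ha, _, hs⟩ := hw.supp
    rw [hs (t / T) (Or.inl ((div_neg_of_neg_of_pos ht hT0).trans ha))]
    simp
    positivity
  · have h4 : ‖(Complex.I * Real.exp (-(Real.pi * t)) /
        (1 + Complex.I * Real.exp (-(Real.pi * t))) : ℂ)‖ ≤ Real.exp (-(Real.pi * |t|)) := by
      rw [norm_div, norm_mul, Complex.norm_I, one_mul, Complex.norm_real, Real.norm_eq_abs,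
        abs_of_pos (Real.exp_pos _), abs_of_nonneg ht]
      refine div_le_self (Real.exp_pos _).le ?_
      have := Complex.abs_re_le_norm (1 + Complex.I * (Real.exp (-(Real.pi * t)) : ℝ))
      rw [re_one, abs_one] at this
      exact this
    calc ‖w (t / T) * ‖riemannZeta (cl t)‖ ^ 2‖ * ‖(Complex.I * Real.exp (-(Real.pi * t)) /
        (1 + Complex.I * Real.exp (-(Real.pi * t))) : ℂ)‖
        ≤ (M * ‖riemannZeta (cl t)‖ ^ 2) * Real.exp (-(Real.pi * |t|)) := by
          rw [norm_mul, norm_pow, norm_norm]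
          gcongr
          exact hM _
      _ = M * (‖riemannZeta (cl t)‖ ^ 2 * Real.exp (-(Real.pi * |t|))) := by ring
      _ ≤ M * (K * (1 + t ^ 2)⁻¹) := by
          exact mul_le_mul_of_nonneg_left (hz t) hM0
      _ ≤ (M * K + 1) * (1 + t ^ 2)⁻¹ := by
          have : 0 < (1 + t ^ 2)⁻¹ := by positivity
          nlinarith

/-- the bound for `h ≤ k` -/
lemma main {w : ℝ → ℝ} (hw : Wgt w) {ε : ℝ} (hε : 0 < ε) (hε1 : ε < 1) :
    ∃ C T₀ : ℝ, 0 < C ∧ 1 ≤ T₀ ∧ ∀ T : ℝ, T₀ ≤ T →
    ∀ h k : ℕ, 0 < h → h ≤ k → h.Coprime k → (h : ℝ) * k ≤ T ^ (1 - ε) →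
    ‖(∫ t : ℝ, (w (t / T) * ‖riemannZeta (cl t)‖ ^ 2 : ℝ) *
        Complex.exp (t * (Real.log h - Real.log k : ℝ) * Complex.I)) -
      ((∫ x, w x) * T * (Real.log T - Real.log (h * k)) / Real.sqrt (h * k) : ℝ)‖ ≤
      C * (T / Real.sqrt (h * k)) := by
  obtain ⟨G, hGc, hGi, hGp, hG⟩ := exists_G hw
  obtain ⟨C, T₀, B, hC, hT₀, hJ⟩ := JJ_bound hε hε1
  obtain ⟨D, hD, hrem⟩ := remove hw
  have hint : Integrable fun v : ℝ => (1 + |-(2 * Real.pi * v)|) ^ B * ‖G v‖ := by
    have h1 : ∀ v : ℝ, (1 + |-(2 * Real.pi * v)|) ^ B * ‖G v‖ =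
        ∑ m ∈ Finset.range (B + 1), (2 * Real.pi) ^ m * (B.choose m : ℝ) * (|v| ^ m * ‖G v‖) := by
      intro v
      rw [add_comm, add_pow, Finset.sum_mul]
      refine Finset.sum_congr rfl fun m _ => ?_
      rw [abs_neg, abs_mul, abs_of_pos Real.two_pi_pos, mul_pow, one_pow]
      ring
    simp_rw [h1]
    exact integrable_finsetSum _ fun m _ => (hGp m).const_mul _
  set E : ℝ := ∫ v : ℝ, C * ((1 + |-(2 * Real.pi * v)|) ^ B * ‖G v‖) with hE
  have hE0 : 0 ≤ E := integral_nonneg fun v => by positivity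
  refine ⟨E + D, max T₀ 2, by positivity, le_max_of_le_right (by norm_num),
    fun T hT h k hh hhk hc hle => ?_⟩
  have hT1 : T₀ ≤ T := (le_max_left _ _).trans hT
  have hT2 : 2 ≤ T := (le_max_right _ _).trans hT
  have hk : 0 < k := hh.trans_le hhk
  have hh' : (0 : ℝ) < h := by exact_mod_cast hh
  have hk' : (0 : ℝ) < k := by exact_mod_cast hk
  set R : ℝ := Real.sqrt (h * k) with hR
  have hR0 : 0 < R := Real.sqrt_pos.mpr (by positivity)
  have hRT : R ≤ T := by
    rw [hR, Real.sqrt_le_left (by linarith)]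
    refine hle.trans ?_
    calc T ^ (1 - ε) ≤ T ^ (2 : ℝ) := Real.rpow_le_rpow_of_exponent_le (by linarith) (by linarith)
      _ = T ^ 2 := by norm_cast
  set Mc : ℂ := ((Real.log T - Real.log (h * k) : ℝ) : ℂ) / (R : ℂ) with hMc
  have h1 := hrem T hT2 h k
  rw [← fubini1 hGi hG h k hT2] at h1
  -- the main term
  have h2 : (((∫ x, w x) * T * (Real.log T - Real.log (h * k)) / R : ℝ) : ℂ) =
      ∫ v : ℝ, G v * (Mc * (T / (2 + Complex.I * (-(2 * Real.pi * v) : ℝ)))) := by
    have h3 : ∀ v : ℝ, G v * (Mc * (T / (2 + Complex.I * (-(2 * Real.pi * v) : ℝ)))) =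
        (Mc * T) * (G v * (1 / (2 + Complex.I * (-(2 * Real.pi * v) : ℝ)))) := fun v => by
      ring
    simp_rw [h3]
    rw [integral_const_mul, fubini2 hw hGi hG, hMc]
    push_cast
    ring
  have hden : ∀ v : ℝ, (2 + Complex.I * (-(2 * Real.pi * v) : ℝ) : ℂ) ≠ 0 := by
    intro v h
    have := congrArg Complex.re h
    simp at this
  have hi2 : Integrable fun v : ℝ => G v * (Mc * (T / (2 + Complex.I * (-(2 * Real.pi * v) : ℝ)))) := by
    have h3 : (fun v : ℝ => G v * (Mc * (T / (2 + Complex.I * (-(2 * Real.pi * v) : ℝ))))) =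
        fun v : ℝ => (Mc * (T / (2 + Complex.I * (-(2 * Real.pi * v) : ℝ)))) * G v := by
      ext v; ring
    rw [h3]
    refine hGi.bdd_mul (c := ‖Mc‖ * (T / 2)) ?_ (ae_of_all _ fun v => ?_)
    · refine Continuous.aestronglyMeasurable ?_
      exact continuous_const.mul (Continuous.div continuous_const (by fun_prop) hden)
    · have hTT : ‖(T : ℂ)‖ = T := by
        rw [Complex.norm_real, Real.norm_eq_abs, abs_of_pos (by linarith)]
      rw [norm_mul Mc, norm_div (T : ℂ), hTT]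
      refine mul_le_mul_of_nonneg_left ?_ (norm_nonneg _)
      refine div_le_div_of_nonneg_left (by linarith) (by norm_num) ?_
      have := Complex.abs_re_le_norm (2 + Complex.I * (-(2 * Real.pi * v) : ℝ))
      have h9 : (2 + Complex.I * ((-(2 * Real.pi * v) : ℝ) : ℂ)).re = 2 := by simp
      rw [h9] at this
      simpa using this
  have hi1 : Integrable fun v : ℝ => G v * JJ h k T (-(2 * Real.pi * v)) := by
    have h3 : (fun v : ℝ => G v * JJ h k T (-(2 * Real.pi * v))) = fun v : ℝ => ∫ t : ℝ,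
      Complex.exp ((2 * Real.pi * v * (t / T) : ℝ) * Complex.I) * (G v * HH h k T t) := by
      ext v
      unfold JJ
      rw [← integral_const_mul]
      refine integral_congr_ae (ae_of_all _ fun t => ?_)
      simp only
      rw [ker_split, HH]
      ring
    rw [h3]
    have h4 := hGi.mul_prod (HH_integrable h k hT2)
    have h5 : Integrable (fun z : ℝ × ℝ => Complex.exp ((2 * Real.pi * z.1 * (z.2 / T) : ℝ) *
        Complex.I) * (G z.1 * HH h k T z.2)) (volume.prod volume) := by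
      refine h4.bdd_mul (c := 1) ?_ (ae_of_all _ fun z => ?_)
      · exact Continuous.aestronglyMeasurable (by fun_prop)
      · exact (Complex.norm_exp_ofReal_mul_I _).le
    exact h5.integral_prod_left
  have h6 : ‖(∫ v : ℝ, G v * JJ h k T (-(2 * Real.pi * v))) -
      (((∫ x, w x) * T * (Real.log T - Real.log (h * k)) / R : ℝ) : ℂ)‖ ≤ E * (T / R) := by
    rw [h2, ← integral_sub hi1 hi2, hE, ← integral_mul_const]
    refine norm_integral_le_of_norm_le ((hint.const_mul C).mul_const _) (ae_of_all _ fun v => ?_)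
    rw [← mul_sub, norm_mul]
    have := hJ T hT1 h k hh hhk hc hle (-(2 * Real.pi * v))
    calc ‖G v‖ * ‖JJ h k T (-(2 * Real.pi * v)) -
          Mc * (T / (2 + Complex.I * (-(2 * Real.pi * v) : ℝ)))‖
        ≤ ‖G v‖ * (C * (1 + |-(2 * Real.pi * v)|) ^ B * (T / R)) := by gcongr
      _ = _ := by ring
  have h7 : D ≤ D * (T / R) := by
    have : 1 ≤ T / R := by rwa [one_le_div hR0]
    nlinarith
  calc _ ≤ _ := norm_sub_le_norm_sub_add_norm_sub _ (∫ v : ℝ, G v * JJ h k T (-(2 * Real.pi * v))) _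
    _ ≤ D + E * (T / R) := add_le_add h1 h6
    _ ≤ (E + D) * (T / R) := by linarith

end Tw

/-- the twisted second moment, smooth weight -/
theorem twisted {w : ℝ → ℝ} (hw : Wgt w) {ε : ℝ} (hε : 0 < ε) (hε1 : ε < 1) :
    ∃ C T₀ : ℝ, 0 < C ∧ 1 ≤ T₀ ∧ ∀ T : ℝ, T₀ ≤ T →
    ∀ h k : ℕ, 0 < h → 0 < k → h.Coprime k → (h : ℝ) * k ≤ T ^ (1 - ε) →
    ‖(∫ t : ℝ, (w (t / T) * ‖riemannZeta (cl t)‖ ^ 2 : ℝ) *
        Complex.exp (t * (Real.log h - Real.log k : ℝ) * Complex.I)) -
      ((∫ x, w x) * T * (Real.log T - Real.log (h * k)) / Real.sqrt (h * k) : ℝ)‖ ≤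
      C * (T / Real.sqrt (h * k)) := by
  obtain ⟨C, T₀, hC, hT₀, hmain⟩ := Tw.main hw hε hε1
  refine ⟨C, T₀, hC, hT₀, fun T hT h k hh hk hc hle => ?_⟩
  rcases le_total h k with hhk | hhk
  · exact hmain T hT h k hh hhk hc hle
  · have h1 := hmain T hT k h hk hhk hc.symm (by rwa [mul_comm])
    rw [← Complex.norm_conj, map_sub, Complex.conj_ofReal, ← integral_conj] at h1
    rw [mul_comm (k : ℝ) h] at h1
    have h2 : (∫ t : ℝ, (starRingEnd ℂ) ((w (t / T) * ‖riemannZeta (cl t)‖ ^ 2 : ℝ) *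
        Complex.exp (t * (Real.log k - Real.log h : ℝ) * Complex.I))) =
        ∫ t : ℝ, (w (t / T) * ‖riemannZeta (cl t)‖ ^ 2 : ℝ) *
        Complex.exp (t * (Real.log h - Real.log k : ℝ) * Complex.I) := by
      refine integral_congr_ae (ae_of_all _ fun t => ?_)
      simp only
      rw [map_mul, Complex.conj_ofReal, ← Complex.exp_conj]
      congr 2
      simp only [map_mul, Complex.conj_ofReal, Complex.conj_I]
      push_cast
      ring
    rw [h2] at h1
    exact h1

end Pool.Agent.EvenMoment
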