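import Mathlib
import Pool.Agent.Lib_MP_112ba8_e.Defs

/-!
P3: the continuous Laplace transform.
-/

namespace Pool.Agent.EvenMoment

open Filter Topology MeasureTheory

theorem sum_vs {k : ℕ} (x : Fin k → ℝ) (y : Ed k → ℝ) :
    ∑ i, x i * vs y i = ∑ e : Ed k, (x e.1.1 + x e.1.2) * y e := by
  unfold vs
  simp_rw [Finset.mul_sum]
  rw [Finset.sum_comm]
  refine Finset.sum_congr rfl fun e _ => ?_
  have h : ∀ i, x i * (if e.1.1 = i ∨ e.1.2 = i then y e else 0) =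
      (if e.1.1 = i then x i * y e else 0) + (if e.1.2 = i then x i * y e else 0) := by
    intro i
    have hne : e.1.1 ≠ e.1.2 := ne_of_lt e.2
    by_cases h1 : e.1.1 = i
    · have h2 : e.1.2 ≠ i := by rw [← h1]; exact hne.symm
      simp [h1, h2]
    · by_cases h2 : e.1.2 = i <;> simp [h1, h2]
  simp_rw [h, Finset.sum_add_distrib, Finset.sum_ite_eq, Finset.mem_univ, if_true]
  ring

theorem prod_exp_vs {k : ℕ} (x : Fin k → ℝ) (y : Ed k → ℝ) :
    (∏ e, y e) * Real.exp (-∑ i, x i * vs y i) =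
      ∏ e : Ed k, (y e * Real.exp (-((x e.1.1 + x e.1.2) * y e))) := by
  rw [Finset.prod_mul_distrib, ← Real.exp_sum, sum_vs, ← Finset.sum_neg_distrib]

theorem set_eq_pi (k : ℕ) :
    {y : Ed k → ℝ | ∀ e, 0 < y e} = Set.pi Set.univ (fun _ : Ed k => Set.Ioi (0 : ℝ)) := by
  ext y
  simp

theorem restrict_eq (k : ℕ) :
    (volume : Measure (Ed k → ℝ)).restrict {y : Ed k → ℝ | ∀ e, 0 < y e} =
      Measure.pi (fun _ : Ed k => (volume : Measure ℝ).restrict (Set.Ioi 0)) := by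
  rw [set_eq_pi, volume_pi, Measure.restrict_pi_pi]

theorem one_dim {b : ℝ} (hb : 0 < b) :
    IntegrableOn (fun t : ℝ => t * Real.exp (-(b * t))) (Set.Ioi 0) ∧
      ∫ t in Set.Ioi (0 : ℝ), t * Real.exp (-(b * t)) = (b ^ 2)⁻¹ := by
  have h1 := integrableOn_rpow_mul_exp_neg_mul_rpow (p := 1) (s := 1) (by norm_num) one_pos hb
  have h2 := Real.integral_rpow_mul_exp_neg_mul_Ioi (a := 2) (r := b) (by norm_num) hb
  constructor
  · refine h1.congr_fun (fun t _ => ?_) measurableSet_Ioi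
    simp
  · rw [Real.Gamma_two] at h2
    have h3 : ((1 : ℝ) / b) ^ (2 : ℝ) * 1 = (b ^ 2)⁻¹ := by
      rw [mul_one, ← inv_pow, ← one_div]
      exact_mod_cast Real.rpow_natCast _ 2
    rw [← h3, ← h2]
    refine setIntegral_congr_fun measurableSet_Ioi (fun t _ => ?_)
    have : (2 : ℝ) - 1 = 1 := by norm_num
    simp [this]

theorem LF_exp_integrable (k : ℕ) {x : Fin k → ℝ} (hx : ∀ i, 0 < x i) :
    IntegrableOn (fun y : Ed k → ℝ => (∏ e, y e) * Real.exp (-∑ i, x i * vs y i))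
      {y : Ed k → ℝ | ∀ e, 0 < y e} := by
  unfold IntegrableOn
  rw [restrict_eq]
  simp_rw [prod_exp_vs]
  exact Integrable.fintype_prod (f := fun (e : Ed k) (t : ℝ) =>
    t * Real.exp (-((x e.1.1 + x e.1.2) * t)))
    (fun e => (one_dim (add_pos (hx _) (hx _))).1)

theorem LF_exp (k : ℕ) {x : Fin k → ℝ} (hx : ∀ i, 0 < x i) :
    LF k (fun s => Real.exp (-∑ i, x i * s i)) = ∏ e : Ed k, ((x e.1.1 + x e.1.2) ^ 2)⁻¹ := by
  unfold LF
  rw [restrict_eq]
  simp_rw [prod_exp_vs]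
  rw [integral_fintype_prod_eq_prod (fun (e : Ed k) (t : ℝ) =>
    t * Real.exp (-((x e.1.1 + x e.1.2) * t)))]
  exact Finset.prod_congr rfl fun e _ => (one_dim (add_pos (hx _) (hx _))).2

end Pool.Agent.EvenMoment
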