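import Pool.Agent.Lib_MP_112ba8_e.Lap
import Pool.Agent.Lib_MP_112ba8_e.LapC

/-! # P4: weak convergence, from the convergence of the Laplace transforms (Stone-Weierstrass) -/

namespace Pool.Agent.EvenMoment

open Filter Topology MeasureTheory

namespace Weak

variable {k : ℕ}

theorem tw_nonneg (q : TQ k) : 0 ≤ tw q := by
  unfold tw
  positivity

theorem lnq_nonneg (q : CP) : 0 ≤ lnq q := by
  obtain ⟨⟨m, n⟩, hm, hn, hc⟩ := q
  have hm' : (1 : ℝ) ≤ m := by exact_mod_cast hm
  have hn' : (1 : ℝ) ≤ n := by exact_mod_cast hn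
  exact Real.log_nonneg (by simpa using one_le_mul_of_one_le_of_one_le hm' hn')

theorem vs_nonneg {y : Ed k → ℝ} (hy : ∀ e, 0 < y e) (i : Fin k) : 0 ≤ vs y i := by
  unfold vs
  apply Finset.sum_nonneg
  intro e _
  split_ifs
  · exact (hy e).le
  · exact le_rfl

@[fun_prop]
theorem vs_cont : Continuous (fun y : Ed k → ℝ => vs y) := by
  unfold vs
  apply continuous_pi
  intro i
  apply continuous_finsetSum
  intro e _
  split_ifs
  · exact continuous_apply e
  · exact continuous_const

/-- the point of the cube with coordinates `exp (- s i)` -/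
noncomputable def cu (s : Fin k → ℝ) : Fin k → unitInterval :=
  fun i => ⟨Real.exp (-(max (s i) 0)), (Real.exp_pos _).le, Real.exp_le_one_iff.mpr (by simp)⟩

theorem cu_cont : Continuous (cu : (Fin k → ℝ) → Fin k → unitInterval) := by
  unfold cu
  apply continuous_pi
  intro i
  apply Continuous.subtype_mk
  fun_prop

theorem cu_val {s : Fin k → ℝ} {i : Fin k} (h : 0 ≤ s i) : ((cu s i : unitInterval) : ℝ) =
    Real.exp (-(s i)) := by
  unfold cu
  simp only [max_eq_left h]

/-- the test function attached to a continuous function on the cube -/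
noncomputable def gf (F : C(Fin k → unitInterval, ℝ)) (s : Fin k → ℝ) : ℝ :=
  Real.exp (-∑ i, s i) * F (cu s)

theorem gf_cont (F : C(Fin k → unitInterval, ℝ)) : Continuous (gf F) := by
  unfold gf
  exact (by fun_prop : Continuous fun s : Fin k → ℝ => Real.exp (-∑ i, s i)).mul
    (F.continuous.comp cu_cont)

theorem gf_abs_le (F : C(Fin k → unitInterval, ℝ)) (s : Fin k → ℝ) :
    |gf F s| ≤ ‖F‖ * Real.exp (-∑ i, s i) := by
  unfold gf
  rw [abs_mul, abs_of_pos (Real.exp_pos _), mul_comm]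
  exact mul_le_mul_of_nonneg_right (F.norm_coe_le_norm _) (Real.exp_pos _).le

theorem exp_sum_eq (q : TQ k) (L : ℝ) :
    Real.exp (-∑ i, lnq (q.1 i) / L) = ∏ i, Real.exp (-(1 / L * lnq (q.1 i))) := by
  rw [← Real.exp_sum]
  congr 1
  rw [← Finset.sum_neg_distrib]
  apply Finset.sum_congr rfl
  intro i _
  ring

theorem summable_one {L : ℝ} (hL : 0 < L) :
    Summable fun q : TQ k => tw q * Real.exp (-∑ i, lnq (q.1 i) / L) := by
  have h := LT_summable k (x := fun _ => 1 / L) (fun _ => by positivity)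
  refine h.congr fun q => ?_
  rw [exp_sum_eq]

theorem summable_gf (F : C(Fin k → unitInterval, ℝ)) {L : ℝ} (hL : 0 < L) :
    Summable fun q : TQ k => tw q * gf F (fun i => lnq (q.1 i) / L) := by
  refine Summable.of_norm_bounded ((summable_one (k := k) hL).mul_left ‖F‖) fun q => ?_
  rw [Real.norm_eq_abs, abs_mul, abs_of_nonneg (tw_nonneg q)]
  calc tw q * |gf F fun i => lnq (q.1 i) / L|
      ≤ tw q * (‖F‖ * Real.exp (-∑ i, lnq (q.1 i) / L)) :=
        mul_le_mul_of_nonneg_left (gf_abs_le F _) (tw_nonneg q)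
    _ = ‖F‖ * (tw q * Real.exp (-∑ i, lnq (q.1 i) / L)) := by ring

theorem DF_add (F F' : C(Fin k → unitInterval, ℝ)) {L : ℝ} (hL : 0 < L) :
    DF k (gf (F + F')) L = DF k (gf F) L + DF k (gf F') L := by
  unfold DF
  rw [← (summable_gf F hL).tsum_add (summable_gf F' hL)]
  congr 1
  funext q
  simp only [gf, ContinuousMap.add_apply]
  ring

theorem DF_smul (a : ℝ) (F : C(Fin k → unitInterval, ℝ)) (L : ℝ) :
    DF k (gf (a • F)) L = a * DF k (gf F) L := by
  unfold DF
  rw [← tsum_mul_left]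
  congr 1
  funext q
  simp only [gf, ContinuousMap.smul_apply, smul_eq_mul]
  ring

theorem DF_abs_le (F : C(Fin k → unitInterval, ℝ)) {L : ℝ} (hL : 0 < L) :
    |DF k (gf F) L| ≤ ‖F‖ * DF k (gf 1) L := by
  have h1 : |DF k (gf F) L| ≤ ∑' q : TQ k, ‖tw q * gf F (fun i => lnq (q.1 i) / L)‖ := by
    rw [← Real.norm_eq_abs]
    exact norm_tsum_le_tsum_norm (summable_gf F hL).norm
  have h2 : ∑' q : TQ k, ‖tw q * gf F (fun i => lnq (q.1 i) / L)‖ ≤
      ∑' q : TQ k, ‖F‖ * (tw q * gf 1 (fun i => lnq (q.1 i) / L)) := by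
    apply Summable.tsum_le_tsum _ (summable_gf F hL).norm ((summable_gf 1 hL).mul_left _)
    intro q
    rw [Real.norm_eq_abs, abs_mul, abs_of_nonneg (tw_nonneg q)]
    have h3 : gf (1 : C(Fin k → unitInterval, ℝ)) (fun i => lnq (q.1 i) / L) =
        Real.exp (-∑ i, lnq (q.1 i) / L) := by simp [gf]
    rw [h3]
    calc tw q * |gf F fun i => lnq (q.1 i) / L|
        ≤ tw q * (‖F‖ * Real.exp (-∑ i, lnq (q.1 i) / L)) :=
          mul_le_mul_of_nonneg_left (gf_abs_le F _) (tw_nonneg q)
      _ = ‖F‖ * (tw q * Real.exp (-∑ i, lnq (q.1 i) / L)) := by ring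
  rw [tsum_mul_left] at h2
  exact h1.trans h2

theorem meas_pos : MeasurableSet {y : Ed k → ℝ | ∀ e, 0 < y e} := by
  have : {y : Ed k → ℝ | ∀ e, 0 < y e} = ⋂ e, {y | 0 < y e} := by ext y; simp
  rw [this]
  exact MeasurableSet.iInter fun e => measurableSet_lt measurable_const (measurable_pi_apply e)

theorem integrable_gf (F : C(Fin k → unitInterval, ℝ)) :
    IntegrableOn (fun y : Ed k → ℝ => (∏ e, y e) * gf F (vs y)) {y : Ed k → ℝ | ∀ e, 0 < y e} := by
  have h := (LF_exp_integrable k (x := fun _ => 1) (fun _ => one_pos)).const_mul ‖F‖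
  refine Integrable.mono h ?_ ?_
  · have hc : Continuous (fun y : Ed k → ℝ => (∏ e, y e) * gf F (vs y)) := by
      have h1 := (gf_cont F).comp (vs_cont (k := k))
      exact (by fun_prop : Continuous fun y : Ed k → ℝ => ∏ e, y e).mul h1
    exact hc.aestronglyMeasurable
  · filter_upwards [ae_restrict_mem (meas_pos (k := k))] with y hy
    have hp : 0 ≤ ∏ e, y e := Finset.prod_nonneg fun e _ => (hy e).le
    rw [norm_mul, norm_mul, norm_mul, Real.norm_of_nonneg hp, Real.norm_eq_abs (gf F (vs y)),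
      norm_norm, Real.norm_of_nonneg (Real.exp_pos _).le]
    have h1 := gf_abs_le F (vs y)
    simp only [one_mul]
    calc (∏ e, y e) * |gf F (vs y)| ≤ (∏ e, y e) * (‖F‖ * Real.exp (-∑ i, vs y i)) :=
          mul_le_mul_of_nonneg_left h1 hp
      _ = ‖F‖ * ((∏ e, y e) * Real.exp (-∑ i, vs y i)) := by ring

theorem LF_add (F F' : C(Fin k → unitInterval, ℝ)) :
    LF k (gf (F + F')) = LF k (gf F) + LF k (gf F') := by
  unfold LF
  rw [← integral_add (integrable_gf F) (integrable_gf F')]
  congr 1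
  funext y
  simp only [gf, ContinuousMap.add_apply]
  ring

theorem LF_smul (a : ℝ) (F : C(Fin k → unitInterval, ℝ)) :
    LF k (gf (a • F)) = a * LF k (gf F) := by
  unfold LF
  rw [← integral_const_mul]
  congr 1
  funext y
  simp only [gf, ContinuousMap.smul_apply, smul_eq_mul]
  ring

theorem LF_abs_le (F : C(Fin k → unitInterval, ℝ)) :
    |LF k (gf F)| ≤ ‖F‖ * LF k (gf 1) := by
  unfold LF
  rw [← integral_const_mul, ← Real.norm_eq_abs]
  refine norm_integral_le_of_norm_le ((integrable_gf 1).const_mul _) ?_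
  filter_upwards [ae_restrict_mem (meas_pos (k := k))] with y hy
  have hp : 0 ≤ ∏ e, y e := Finset.prod_nonneg fun e _ => (hy e).le
  rw [norm_mul, Real.norm_of_nonneg hp, Real.norm_eq_abs]
  have h3 : gf (1 : C(Fin k → unitInterval, ℝ)) (vs y) = Real.exp (-∑ i, vs y i) := by simp [gf]
  rw [h3]
  calc (∏ e, y e) * |gf F (vs y)| ≤ (∏ e, y e) * (‖F‖ * Real.exp (-∑ i, vs y i)) :=
        mul_le_mul_of_nonneg_left (gf_abs_le F (vs y)) hp
    _ = ‖F‖ * ((∏ e, y e) * Real.exp (-∑ i, vs y i)) := by ring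

/-- the statement for a function on the cube -/
def Goo (F : C(Fin k → unitInterval, ℝ)) : Prop :=
  Tendsto (fun L : ℝ => DF k (gf F) L / L ^ (k * (k - 1))) atTop (𝓝 (ar k * LF k (gf F)))

theorem Goo.add {F F' : C(Fin k → unitInterval, ℝ)} (h : Goo F) (h' : Goo F') : Goo (F + F') := by
  unfold Goo at *
  rw [LF_add, mul_add]
  refine (h.add h').congr' ?_
  filter_upwards [eventually_gt_atTop 0] with L hL
  rw [DF_add F F' hL, add_div]

theorem Goo.smul {F : C(Fin k → unitInterval, ℝ)} (h : Goo F) (a : ℝ) : Goo (a • F) := by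
  unfold Goo at *
  rw [LF_smul, mul_left_comm]
  refine (h.const_mul a).congr fun L => ?_
  rw [DF_smul, mul_div_assoc]

/-- coordinate functions -/
noncomputable def coord (i : Fin k) : C(Fin k → unitInterval, ℝ) :=
  ⟨fun u => (u i : ℝ), by fun_prop⟩

/-- monomials -/
noncomputable def mono (n : Fin k → ℕ) : C(Fin k → unitInterval, ℝ) := ∏ i, coord i ^ n i

theorem mono_apply (n : Fin k → ℕ) (u : Fin k → unitInterval) :
    mono n u = ∏ i, (u i : ℝ) ^ n i := by
  unfold mono
  rw [ContinuousMap.coe_prod, Finset.prod_apply]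
  rfl

theorem gf_mono (n : Fin k → ℕ) {s : Fin k → ℝ} (hs : ∀ i, 0 ≤ s i) :
    gf (mono n) s = Real.exp (-∑ i, (1 + (n i : ℝ)) * s i) := by
  unfold gf
  rw [mono_apply]
  have h : ∀ i, ((cu s i : unitInterval) : ℝ) ^ n i = Real.exp (-((n i : ℝ) * s i)) := by
    intro i
    rw [cu_val (hs i), ← Real.exp_nat_mul]
    congr 1; ring
  rw [Finset.prod_congr rfl fun i _ => h i, ← Real.exp_sum, ← Real.exp_add]
  congr 1
  rw [Finset.sum_neg_distrib, ← neg_add, ← Finset.sum_add_distrib]
  congr 1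
  apply Finset.sum_congr rfl
  intro i _
  ring

theorem goo_mono (n : Fin k → ℕ) : Goo (mono n) := by
  unfold Goo
  have hx : ∀ i, (0 : ℝ) < 1 + (n i : ℝ) := fun i => by positivity
  have h1 := LT_tendsto k hx
  have h2 : LF k (gf (mono n)) = ∏ e : Ed k, (((1 + (n e.1.1 : ℝ)) + (1 + (n e.1.2 : ℝ))) ^ 2)⁻¹ := by
    rw [← LF_exp k hx]
    unfold LF
    apply setIntegral_congr_fun meas_pos
    intro y hy
    show (∏ e, y e) * gf (mono n) (vs y) = _
    rw [gf_mono n (vs_nonneg hy)]
  rw [h2]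
  refine h1.congr' ?_
  filter_upwards [eventually_gt_atTop 0] with L hL
  congr 1
  unfold LT DF
  congr 1
  funext q
  rw [gf_mono n (fun i => div_nonneg (lnq_nonneg _) hL.le), ← Real.exp_sum]
  congr 2
  rw [← Finset.sum_neg_distrib]
  apply Finset.sum_congr rfl
  intro i _
  ring

theorem mono_closure (F : C(Fin k → unitInterval, ℝ))
    (h : F ∈ Submonoid.closure (Set.range (coord : Fin k → _))) : ∃ n, F = mono n := by
  induction h using Submonoid.closure_induction with
  | mem x hx =>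
    obtain ⟨i, rfl⟩ := hx
    classical
    refine ⟨Pi.single i 1, ?_⟩
    unfold mono
    rw [Finset.prod_eq_single i]
    · simp
    · intro j _ hj
      simp [Pi.single_eq_of_ne hj]
    · simp
  | one => exact ⟨0, by simp [mono]⟩
  | mul x y _ _ hx hy =>
    obtain ⟨n, rfl⟩ := hx
    obtain ⟨m, rfl⟩ := hy
    refine ⟨n + m, ?_⟩
    unfold mono
    rw [← Finset.prod_mul_distrib]
    apply Finset.prod_congr rfl
    intro i _
    rw [Pi.add_apply, pow_add]

theorem goo_adjoin (F : C(Fin k → unitInterval, ℝ))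
    (h : F ∈ Algebra.adjoin ℝ (Set.range (coord : Fin k → _))) : Goo F := by
  rw [← Subalgebra.mem_toSubmodule, Algebra.adjoin_eq_span] at h
  induction h using Submodule.span_induction with
  | mem x hx =>
    obtain ⟨n, rfl⟩ := mono_closure x hx
    exact goo_mono n
  | zero =>
    have := (goo_mono (k := k) 0).smul 0
    rwa [zero_smul] at this
  | add x y _ _ hx hy => exact hx.add hy
  | smul a x _ hx => exact hx.smul a

theorem gf_sub_goo {F F' : C(Fin k → unitInterval, ℝ)} {L : ℝ} (hL : 0 < L) :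
    DF k (gf F) L = DF k (gf (F - F')) L + DF k (gf F') L := by
  rw [← DF_add (F - F') F' hL, sub_add_cancel]

theorem goo_all (F : C(Fin k → unitInterval, ℝ)) : Goo F := by
  have hsep : (Algebra.adjoin ℝ (Set.range (coord : Fin k → C(Fin k → unitInterval, ℝ)))).SeparatesPoints := by
    intro u v huv
    obtain ⟨i, hi⟩ := Function.ne_iff.mp huv
    refine ⟨coord i, ⟨coord i, Algebra.subset_adjoin ⟨i, rfl⟩, rfl⟩, ?_⟩
    intro h
    exact hi (Subtype.ext h)
  have htop := ContinuousMap.subalgebra_topologicalClosure_eq_top_of_separatesPoints _ hsep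
  have hF : F ∈ (Algebra.adjoin ℝ (Set.range (coord : Fin k → C(Fin k → unitInterval, ℝ)))).topologicalClosure := by
    rw [htop]; trivial
  have hF' : F ∈ closure ((Algebra.adjoin ℝ (Set.range (coord : Fin k → C(Fin k → unitInterval, ℝ))) :
      Set C(Fin k → unitInterval, ℝ))) := hF
  rw [Metric.mem_closure_iff] at hF'
  -- the bound
  have h1 : Goo (1 : C(Fin k → unitInterval, ℝ)) := by
    have := goo_mono (k := k) 0
    have e : mono (0 : Fin k → ℕ) = 1 := by simp [mono]
    rwa [e] at this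
  set C := |ar k * LF k (gf (1 : C(Fin k → unitInterval, ℝ)))| + 1 with hC
  have hCpos : 0 < C := by positivity
  have hbd : ∀ᶠ L in atTop, DF k (gf (1 : C(Fin k → unitInterval, ℝ))) L / L ^ (k * (k - 1)) ≤ C := by
    have := (h1.eventually (gt_mem_nhds (lt_of_le_of_lt (le_abs_self _) (lt_add_one _))))
    filter_upwards [this] with L hL
    exact hL.le
  unfold Goo
  rw [Metric.tendsto_atTop]
  intro ε hε
  set D := |ar k| * |LF k (gf (1 : C(Fin k → unitInterval, ℝ)))| with hD
  have hD0 : 0 ≤ D := by positivity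
  set η := ε / (3 * (C + D + 1)) with hη
  have hη0 : 0 < η := by positivity
  obtain ⟨F', hF'A, hdist⟩ := hF' η hη0
  have hnorm : ‖F - F'‖ < η := by rwa [← dist_eq_norm]
  have hgo := goo_adjoin F' hF'A
  unfold Goo at hgo
  rw [Metric.tendsto_atTop] at hgo
  obtain ⟨L₁, hL₁⟩ := hgo (ε / 3) (by positivity)
  obtain ⟨L₂, hL₂⟩ := (eventually_atTop.mp hbd)
  refine ⟨max (max L₁ L₂) 1, fun L hL => ?_⟩
  have hLpos : 0 < L := lt_of_lt_of_le one_pos (le_trans (le_max_right _ _) hL)
  have g1 := hL₁ L (le_trans (le_trans (le_max_left _ _) (le_max_left _ _)) hL)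
  have g2 := hL₂ L (le_trans (le_trans (le_max_right _ _) (le_max_left _ _)) hL)
  rw [Real.dist_eq] at g1 ⊢
  have hLp : 0 < L ^ (k * (k - 1)) := pow_pos hLpos _
  have e1 : |DF k (gf (F - F')) L / L ^ (k * (k - 1))| ≤ η * C := by
    rw [abs_div, abs_of_pos hLp]
    calc |DF k (gf (F - F')) L| / L ^ (k * (k - 1))
        ≤ (‖F - F'‖ * DF k (gf 1) L) / L ^ (k * (k - 1)) :=
          div_le_div_of_nonneg_right (DF_abs_le _ hLpos) hLp.le
      _ = ‖F - F'‖ * (DF k (gf 1) L / L ^ (k * (k - 1))) := by rw [mul_div_assoc]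
      _ ≤ ‖F - F'‖ * C := mul_le_mul_of_nonneg_left g2 (norm_nonneg _)
      _ ≤ η * C := mul_le_mul_of_nonneg_right hnorm.le hCpos.le
  have e2 : |ar k * LF k (gf (F - F'))| ≤ η * D := by
    rw [abs_mul]
    calc |ar k| * |LF k (gf (F - F'))| ≤ |ar k| * (‖F - F'‖ * LF k (gf 1)) :=
          mul_le_mul_of_nonneg_left (LF_abs_le _) (abs_nonneg _)
      _ ≤ |ar k| * (‖F - F'‖ * |LF k (gf (1 : C(Fin k → unitInterval, ℝ)))|) :=
          mul_le_mul_of_nonneg_left (mul_le_mul_of_nonneg_left (le_abs_self _) (norm_nonneg _))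
            (abs_nonneg _)
      _ = ‖F - F'‖ * D := by rw [hD]; ring
      _ ≤ η * D := mul_le_mul_of_nonneg_right hnorm.le hD0
  have e3 : LF k (gf F) = LF k (gf (F - F')) + LF k (gf F') := by
    rw [← LF_add, sub_add_cancel]
  rw [gf_sub_goo (F := F) (F' := F') hLpos, e3, add_div, mul_add]
  have e4 : η * (C + D + 1) = ε / 3 := by
    rw [hη]
    field_simp
  have e5 : η * C + η * D < ε / 3 := by nlinarith
  have a1 := abs_le.mp e1
  have a2 := abs_le.mp e2
  have a3 := abs_lt.mp g1
  rw [abs_lt]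
  constructor <;> linarith [a1.1, a1.2, a2.1, a2.2, a3.1, a3.2]

end Weak

open Weak in
theorem DF_tendsto (k : ℕ) {G : (Fin k → ℝ) → ℝ} (hG : Continuous G) (B : ℝ)
    (hB : ∀ s, (∃ i, B ≤ s i) → G s = 0) :
    Tendsto (fun L : ℝ => DF k G L / L ^ (k * (k - 1))) atTop (𝓝 (ar k * LF k G)) := by
  have hBp := Real.exp_pos (-B)
  have hmax : ∀ x : ℝ, 0 < max x (Real.exp (-B)) := fun x => lt_of_lt_of_le hBp (le_max_right _ _)
  set F : C(Fin k → unitInterval, ℝ) :=
    ⟨fun u => G (fun i => -Real.log (max (u i : ℝ) (Real.exp (-B)))) *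
      ∏ i, (max (u i : ℝ) (Real.exp (-B)))⁻¹, by
      apply Continuous.mul
      · apply hG.comp
        apply continuous_pi
        intro i
        apply Continuous.neg
        apply Continuous.log
        · fun_prop
        · intro u; exact (hmax _).ne'
      · apply continuous_finsetProd
        intro i _
        apply Continuous.inv₀
        · fun_prop
        · intro u; exact (hmax _).ne'⟩ with hF
  have key : ∀ s : Fin k → ℝ, (∀ i, 0 ≤ s i) → gf F s = G s := by
    intro s hs
    have hval : ∀ i, ((cu s i : unitInterval) : ℝ) = Real.exp (-(s i)) := fun i => cu_val (hs i)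
    show Real.exp (-∑ i, s i) * (G (fun i => -Real.log (max ((cu s i : unitInterval) : ℝ) (Real.exp (-B)))) *
      ∏ i, (max ((cu s i : unitInterval) : ℝ) (Real.exp (-B)))⁻¹) = G s
    simp only [hval]
    by_cases h : ∃ i, B ≤ s i
    · rw [hB s h]
      obtain ⟨i, hi⟩ := h
      rw [hB _ ⟨i, ?_⟩]
      · ring
      · rw [max_eq_right (Real.exp_le_exp.mpr (by linarith)), Real.log_exp]
        linarith
    · push Not at h
      have hm : ∀ i, max (Real.exp (-(s i))) (Real.exp (-B)) = Real.exp (-(s i)) := fun i =>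
        max_eq_left (Real.exp_le_exp.mpr (by linarith [h i]))
      simp only [hm, Real.log_exp, neg_neg]
      rw [Finset.prod_inv_distrib, ← Real.exp_sum, Finset.sum_neg_distrib]
      have h0 := (Real.exp_pos (-∑ i, s i)).ne'
      field_simp
  have h := goo_all F
  unfold Goo at h
  have hLF : LF k (gf F) = LF k G := by
    unfold LF
    apply setIntegral_congr_fun meas_pos
    intro y hy
    show (∏ e, y e) * gf F (vs y) = (∏ e, y e) * G (vs y)
    rw [key _ (vs_nonneg hy)]
  rw [hLF] at h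
  refine h.congr' ?_
  filter_upwards [eventually_gt_atTop 0] with L hL
  congr 1
  unfold DF
  congr 1
  funext q
  rw [key _ (fun i => div_nonneg (lnq_nonneg _) hL.le)]

end Pool.Agent.EvenMoment
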