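import Pool.Agent.Lib_MP_112ba8_e.Basic
import Pool.Agent.Lib_MP_112ba8_e.Weak
import Pool.Agent.Lib_MP_112ba8_e.Twisted

/-!
Even moments of zeta, piece P11: the mixed mean value of the second moment and a power of `W`.
-/

namespace Pool.Agent.EvenMoment

open Filter Topology MeasureTheory

/-! ### the bijection with tuples of length `j + 1` -/

lemma mx_uniq {M N m n : ℕ} (hm : 0 < m) (hN : 0 < N) (hc : Nat.Coprime m n)
    (h : M * m = N * n) : m = N / Nat.gcd M N ∧ n = M / Nat.gcd M N := by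
  have h1 : m ∣ N := by
    have : m ∣ N * n := ⟨M, by rw [← h, mul_comm]⟩
    exact hc.dvd_of_dvd_mul_right this
  obtain ⟨c, rfl⟩ := h1
  have hc0 : 0 < c := Nat.pos_of_mul_pos_left hN
  have h2 : M = c * n := by
    have : M * m = (c * n) * m := by rw [h]; ring
    exact Nat.eq_of_mul_eq_mul_right hm this
  subst h2
  have h3 : Nat.gcd (c * n) (m * c) = c := by
    rw [mul_comm m c, Nat.gcd_mul_left, Nat.Coprime.gcd_eq_one hc.symm, mul_one]
  rw [h3]
  refine ⟨?_, ?_⟩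
  · rw [Nat.mul_div_cancel _ hc0]
  · rw [Nat.mul_div_cancel_left _ hc0]

/-- product of the numerators -/
def mxM {j : ℕ} (q : Fin j → CP) : ℕ := ∏ i, (q i).1.1
/-- product of the denominators -/
def mxN {j : ℕ} (q : Fin j → CP) : ℕ := ∏ i, (q i).1.2

lemma mxM_pos {j : ℕ} (q : Fin j → CP) : 0 < mxM q := Finset.prod_pos fun i _ => (q i).2.1
lemma mxN_pos {j : ℕ} (q : Fin j → CP) : 0 < mxN q := Finset.prod_pos fun i _ => (q i).2.2.1

/-- the last pair -/
def mxLast {j : ℕ} (q : Fin j → CP) : CP :=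
  ⟨(mxN q / Nat.gcd (mxM q) (mxN q), mxM q / Nat.gcd (mxM q) (mxN q)), by
    have hg : 0 < Nat.gcd (mxM q) (mxN q) := Nat.gcd_pos_of_pos_left _ (mxM_pos q)
    refine ⟨?_, ?_, ?_⟩
    · exact Nat.div_pos (Nat.le_of_dvd (mxN_pos q) (Nat.gcd_dvd_right _ _)) hg
    · exact Nat.div_pos (Nat.le_of_dvd (mxM_pos q) (Nat.gcd_dvd_left _ _)) hg
    · exact (Nat.coprime_div_gcd_div_gcd hg).symm⟩

lemma mxLast_mul {j : ℕ} (q : Fin j → CP) :
    mxM q * (mxLast q).1.1 = mxN q * (mxLast q).1.2 := by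
  have hg : 0 < Nat.gcd (mxM q) (mxN q) := Nat.gcd_pos_of_pos_left _ (mxM_pos q)
  obtain ⟨a, ha⟩ := Nat.gcd_dvd_left (mxM q) (mxN q)
  obtain ⟨b, hb⟩ := Nat.gcd_dvd_right (mxM q) (mxN q)
  have h1 : (mxLast q).1.1 = b := by
    show mxN q / Nat.gcd (mxM q) (mxN q) = b
    exact Nat.div_eq_of_eq_mul_right hg hb
  have h2 : (mxLast q).1.2 = a := by
    show mxM q / Nat.gcd (mxM q) (mxN q) = a
    exact Nat.div_eq_of_eq_mul_right hg ha
  rw [h1, h2]
  conv_lhs => rw [ha]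
  conv_rhs => rw [hb]
  ring

/-- adding the last pair -/
def mxSnoc {j : ℕ} (q : Fin j → CP) : Fin (j + 1) → CP := Fin.snoc (α := fun _ => CP) q (mxLast q)

lemma mxSnoc_castSucc {j : ℕ} (q : Fin j → CP) (i : Fin j) : mxSnoc q i.castSucc = q i :=
  Fin.snoc_castSucc (α := fun _ => CP) _ _ _

lemma mxSnoc_last {j : ℕ} (q : Fin j → CP) : mxSnoc q (Fin.last j) = mxLast q :=
  Fin.snoc_last (α := fun _ => CP) _ _

/-- tuples of length `j + 1` with equal products are tuples of length `j` -/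
def mxEquiv (j : ℕ) : (Fin j → CP) ≃ TQ (j + 1) where
  toFun q := ⟨mxSnoc q, by
    rw [Fin.prod_univ_castSucc, Fin.prod_univ_castSucc]
    simp only [mxSnoc_castSucc, mxSnoc_last]
    exact mxLast_mul q⟩
  invFun q := fun i => q.1 i.castSucc
  left_inv q := by
    funext i
    exact mxSnoc_castSucc q i
  right_inv q := by
    apply Subtype.ext
    funext i
    refine Fin.lastCases ?_ (fun i => ?_) i
    · show mxSnoc _ (Fin.last j) = _
      rw [mxSnoc_last]
      have h := q.2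
      rw [Fin.prod_univ_castSucc, Fin.prod_univ_castSucc] at h
      have h' := mx_uniq (q.1 (Fin.last j)).2.1
        (mxN_pos (fun i : Fin j => q.1 i.castSucc)) (q.1 (Fin.last j)).2.2.2 h
      apply Subtype.ext
      apply Prod.ext
      · exact h'.1.symm
      · exact h'.2.symm
    · exact mxSnoc_castSucc _ i

lemma mxEquiv_val {j : ℕ} (q : Fin j → CP) : (mxEquiv j q).1 = mxSnoc q := rfl

lemma mx_lnq_exp (q : CP) : Real.exp (lnq q) = (q.1.1 : ℝ) * q.1.2 := by
  have h1 : (0 : ℝ) < q.1.1 := by exact_mod_cast q.2.1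
  have h2 : (0 : ℝ) < q.1.2 := by exact_mod_cast q.2.2.1
  rw [lnq, Real.exp_log (by positivity)]

lemma mx_lnq_nonneg (q : CP) : 0 ≤ lnq q := by
  have h1 : (1 : ℝ) ≤ q.1.1 := by exact_mod_cast q.2.1
  have h2 : (1 : ℝ) ≤ q.1.2 := by exact_mod_cast q.2.2.1
  exact Real.log_nonneg (by nlinarith)

/-- the product of the weights is the weight of the tuple -/
lemma mx_weight {j : ℕ} (q : Fin j → CP) :
    (∏ i, Real.exp (-(lnq (q i) / 2))) / Real.sqrt ((mxLast q).1.2 * (mxLast q).1.1) =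
      tw (mxEquiv j q) := by
  set h : ℝ := ((mxLast q).1.2 : ℝ) with hh
  set k : ℝ := ((mxLast q).1.1 : ℝ) with hk
  have hh0 : 0 < h := by rw [hh]; exact_mod_cast (mxLast q).2.2.1
  have hk0 : 0 < k := by rw [hk]; exact_mod_cast (mxLast q).2.1
  set M : ℝ := (mxM q : ℝ) with hM
  set N : ℝ := (mxN q : ℝ) with hN
  have hM0 : 0 < M := by rw [hM]; exact_mod_cast mxM_pos q
  have hN0 : 0 < N := by rw [hN]; exact_mod_cast mxN_pos q
  have hMN : M * k = N * h := by
    rw [hM, hN, hh, hk]; exact_mod_cast mxLast_mul q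
  have h1 : (∏ i, Real.exp (-(lnq (q i) / 2))) = (Real.sqrt (M * N))⁻¹ := by
    rw [← Real.exp_sum]
    have e1 : ∑ i, -(lnq (q i) / 2) = -((∑ i, lnq (q i)) / 2) := by
      rw [Finset.sum_neg_distrib, Finset.sum_div]
    rw [e1, Real.exp_neg, Real.exp_half, Real.exp_sum]
    simp_rw [mx_lnq_exp]
    rw [Finset.prod_mul_distrib, hM, hN, mxM, mxN]
    push_cast
    rfl
  have h2 : tw (mxEquiv j q) = (M * k)⁻¹ := by
    rw [tw, mxEquiv_val, Fin.prod_univ_castSucc]
    simp only [mxSnoc_castSucc, mxSnoc_last]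
    rw [hM, hk, mxM]
    push_cast
    rw [one_div]
  rw [h1, h2, div_eq_mul_inv, ← mul_inv, ← Real.sqrt_mul (by positivity)]
  congr 1
  have e2 : M * N * (h * k) = (M * k) ^ 2 := by
    rw [sq]
    nth_rewrite 2 [hMN]
    ring
  rw [e2, Real.sqrt_sq (by positivity)]

/-- the product of the oscillating terms -/
lemma mx_osc {j : ℕ} (q : Fin j → CP) (t : ℝ) :
    ∏ i, osc (q i) t = Complex.exp (t * (Real.log ((mxLast q).1.2 : ℕ) -
      Real.log ((mxLast q).1.1 : ℕ) : ℝ) * Complex.I) := by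
  unfold osc
  rw [← Complex.exp_sum]
  congr 1
  rw [← Finset.sum_mul, ← Finset.mul_sum]
  congr 2
  rw [← Complex.ofReal_sum]
  congr 1
  rw [Finset.sum_sub_distrib]
  have h1 : ∑ i, Real.log ((q i).1.1 : ℝ) = Real.log (mxM q : ℝ) := by
    rw [mxM]
    push_cast
    rw [Real.log_prod]
    intro i _
    have := (q i).2.1
    positivity
  have h2 : ∑ i, Real.log ((q i).1.2 : ℝ) = Real.log (mxN q : ℝ) := by
    rw [mxN]
    push_cast
    rw [Real.log_prod]
    intro i _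
    have := (q i).2.2.1
    positivity
  rw [h1, h2]
  have hM0 : (0 : ℝ) < mxM q := by exact_mod_cast mxM_pos q
  have hN0 : (0 : ℝ) < mxN q := by exact_mod_cast mxN_pos q
  have hh0 : (0 : ℝ) < (mxLast q).1.2 := by exact_mod_cast (mxLast q).2.2.1
  have hk0 : (0 : ℝ) < (mxLast q).1.1 := by exact_mod_cast (mxLast q).2.1
  have hMN : (mxM q : ℝ) * (mxLast q).1.1 = (mxN q : ℝ) * (mxLast q).1.2 := by
    exact_mod_cast mxLast_mul q
  have h3 := congrArg Real.log hMN
  rw [Real.log_mul hM0.ne' hk0.ne', Real.log_mul hN0.ne' hh0.ne'] at h3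
  linarith

/-- the last pair is small -/
lemma mx_last_le {j : ℕ} (q : Fin j → CP) : lnq (mxLast q) ≤ ∑ i, lnq (q i) := by
  have hM0 : 0 < mxM q := mxM_pos q
  have hN0 : 0 < mxN q := mxN_pos q
  have h1 : (((mxLast q).1.1 : ℕ) : ℝ) ≤ mxN q := by
    exact_mod_cast Nat.div_le_self _ _
  have h2 : (((mxLast q).1.2 : ℕ) : ℝ) ≤ mxM q := by
    exact_mod_cast Nat.div_le_self _ _
  have h3 : Real.exp (∑ i, lnq (q i)) = (mxM q : ℝ) * mxN q := by
    rw [Real.exp_sum]
    simp_rw [mx_lnq_exp]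
    rw [Finset.prod_mul_distrib, mxM, mxN]
    push_cast
    rfl
  rw [← Real.exp_le_exp, mx_lnq_exp, h3, mul_comm (mxM q : ℝ)]
  exact mul_le_mul h1 h2 (by positivity) (by positivity)

/-! ### the discrete functional as a finite sum -/

lemma mx_mem_CS {B : ℝ} {q : CP} : q ∈ CS B ↔ lnq q ≤ B := by
  rw [CS, Set.Finite.mem_toFinset]
  rfl

lemma mx_DF (j : ℕ) (ω' φ : ℝ → ℝ) {θ L : ℝ} (hL : 0 < L) (hω : ∀ s, θ ≤ s → ω' s = 0) :
    DF (j + 1) (fun s => (∏ i : Fin j, ω' (s i.castSucc)) * φ (s (Fin.last j))) L =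
      ∑ q ∈ Fintype.piFinset (fun _ : Fin j => CS (θ * L)),
        tw (mxEquiv j q) * ((∏ i, ω' (lnq (q i) / L)) * φ (lnq (mxLast q) / L)) := by
  have h1 : ∀ q : Fin j → CP, tw (mxEquiv j q) *
      ((fun s : Fin (j + 1) → ℝ => (∏ i : Fin j, ω' (s i.castSucc)) * φ (s (Fin.last j)))
        (fun i => lnq ((mxEquiv j q).1 i) / L)) =
      tw (mxEquiv j q) * ((∏ i, ω' (lnq (q i) / L)) * φ (lnq (mxLast q) / L)) := by
    intro q
    simp only [mxEquiv_val, mxSnoc_castSucc, mxSnoc_last]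
  unfold DF
  rw [← (mxEquiv j).tsum_eq]
  rw [tsum_congr h1]
  refine tsum_eq_sum ?_
  intro q hq
  rw [Fintype.mem_piFinset] at hq
  push Not at hq
  obtain ⟨i, hi⟩ := hq
  rw [mx_mem_CS, not_le] at hi
  have h2 : ω' (lnq (q i) / L) = 0 := by
    apply hω
    rw [le_div_iff₀ hL]
    exact hi.le
  have h3 : ∏ i, ω' (lnq (q i) / L) = 0 := Finset.prod_eq_zero (Finset.mem_univ i) h2
  rw [h3]
  ring

lemma mx_cut_cont : Continuous cut := by
  unfold cut
  fun_prop

lemma mx_cut_one {s : ℝ} (hs : s ≤ 1) : cut s = 1 := by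
  unfold cut
  rw [min_eq_left (by linarith), max_eq_right (by norm_num)]

lemma mx_cut_zero {s : ℝ} (hs : 2 ≤ s) : cut s = 0 := by
  unfold cut
  rw [max_eq_left]
  exact (min_le_right _ _).trans (by linarith)

lemma mx_DF_bound (j : ℕ) {θ : ℝ} {ω : ℝ → ℝ} (hω : Adm ω θ) :
    ∃ C L₀ : ℝ, ∀ L : ℝ, L₀ ≤ L →
      DF (j + 1) (fun s => (∏ i : Fin j, |ω (s i.castSucc)|) * cut (s (Fin.last j))) L ≤
        C * L ^ ((j + 1) * j) := by
  have hcont : Continuous (fun s : Fin (j + 1) → ℝ =>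
      (∏ i : Fin j, |ω (s i.castSucc)|) * cut (s (Fin.last j))) := by
    refine Continuous.mul ?_ (mx_cut_cont.comp (continuous_apply _))
    exact continuous_finsetProd _ fun i _ => (hω.cont.comp (continuous_apply _)).abs
  have h1 := DF_tendsto (j + 1) hcont (max θ 2) (by
    rintro s ⟨i, hi⟩
    revert hi
    refine Fin.lastCases ?_ (fun i => ?_) i
    · intro hi
      rw [mx_cut_zero ((le_max_right _ _).trans hi), mul_zero]
    · intro hi
      have h2 : |ω (s i.castSucc)| = 0 := by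
        rw [hω.supp _ ((le_max_left _ _).trans hi), abs_zero]
      rw [Finset.prod_eq_zero (Finset.mem_univ i) h2, zero_mul])
  set c := ar (j + 1) * LF (j + 1) (fun s : Fin (j + 1) → ℝ =>
      (∏ i : Fin j, |ω (s i.castSucc)|) * cut (s (Fin.last j))) with hc
  have h2 := (h1.eventually_le_const (lt_add_one c)).and (eventually_gt_atTop (0 : ℝ))
  obtain ⟨L₀, hL₀⟩ := eventually_atTop.mp h2
  refine ⟨c + 1, L₀, fun L hL => ?_⟩
  obtain ⟨h3, h4⟩ := hL₀ L hL
  rw [div_le_iff₀ (by positivity)] at h3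
  simpa using h3

/-! ### the integral -/

lemma mx_cl_cont : Continuous cl := by
  unfold cl
  fun_prop

lemma mx_zeta_cont : Continuous fun t : ℝ => riemannZeta (cl t) := by
  rw [continuous_iff_continuousAt]
  intro t
  have h1 : cl t ≠ 1 := by
    intro h
    have := congrArg Complex.re h
    simp [cl] at this
  exact (differentiableAt_riemannZeta h1).continuousAt.comp mx_cl_cont.continuousAt

lemma mx_int {w : ℝ → ℝ} (hw : Wgt w) {T : ℝ} (hT : 0 < T) (u : ℝ) :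
    Integrable fun t : ℝ => ((w (t / T) * ‖riemannZeta (cl t)‖ ^ 2 : ℝ) : ℂ) *
      Complex.exp (t * (u : ℝ) * Complex.I) := by
  have hwc : Continuous w := hw.smooth.continuous
  have hz := mx_zeta_cont
  have hcont : Continuous fun t : ℝ => ((w (t / T) * ‖riemannZeta (cl t)‖ ^ 2 : ℝ) : ℂ) *
      Complex.exp (t * (u : ℝ) * Complex.I) := by
    refine Continuous.mul ?_ (by fun_prop)
    refine Complex.continuous_ofReal.comp ?_
    refine Continuous.mul (hwc.comp (by fun_prop)) (hz.norm.pow 2)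
  refine hcont.integrable_of_hasCompactSupport ?_
  obtain ⟨a, ha0, ha1, ha⟩ := hw.supp
  refine HasCompactSupport.intro (isCompact_Icc : IsCompact (Set.Icc (0 : ℝ) T)) ?_
  intro t ht
  have h1 : w (t / T) = 0 := by
    apply ha
    rw [Set.mem_Icc, not_and_or, not_le, not_le] at ht
    rcases ht with h | h
    · left
      exact (div_neg_of_neg_of_pos h hT).trans ha0
    · right
      rw [lt_div_iff₀ hT, one_mul]
      exact h
  rw [h1]
  simp

/-- coefficient of a tuple -/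
noncomputable def mxc (ω : ℝ → ℝ) (L : ℝ) {j : ℕ} (q : Fin j → CP) : ℝ :=
  ∏ i, (ω (lnq (q i) / L) * Real.exp (-(lnq (q i) / 2)))

lemma mx_pow (ω : ℝ → ℝ) (θ L t : ℝ) (j : ℕ) :
    WW ω θ L t ^ j = ∑ q ∈ Fintype.piFinset (fun _ : Fin j => CS (θ * L)),
      ((mxc ω L q : ℝ) : ℂ) * Complex.exp (t * (Real.log ((mxLast q).1.2 : ℕ) -
      Real.log ((mxLast q).1.1 : ℕ) : ℝ) * Complex.I) := by
  have h1 : WW ω θ L t ^ j = ∏ _i : Fin j, WW ω θ L t := by
    rw [Finset.prod_const, Finset.card_univ, Fintype.card_fin]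
  rw [h1]
  unfold WW
  rw [Finset.prod_univ_sum]
  refine Finset.sum_congr rfl fun q _ => ?_
  rw [Finset.prod_mul_distrib, mx_osc, mxc]
  congr 1
  push_cast
  rfl

lemma mx_expand {w : ℝ → ℝ} (hw : Wgt w) {T : ℝ} (hT : 0 < T) (ω : ℝ → ℝ) (θ : ℝ) (j : ℕ) :
    ((∫ t : ℝ, w (t / T) * (‖riemannZeta (cl t)‖ ^ 2 * (WW ω θ (Real.log T) t).re ^ j) : ℝ) : ℂ) =
      ∑ q ∈ Fintype.piFinset (fun _ : Fin j => CS (θ * Real.log T)),
        ((mxc ω (Real.log T) q : ℝ) : ℂ) *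
        ∫ t : ℝ, ((w (t / T) * ‖riemannZeta (cl t)‖ ^ 2 : ℝ) : ℂ) *
          Complex.exp (t * (Real.log ((mxLast q).1.2 : ℕ) -
            Real.log ((mxLast q).1.1 : ℕ) : ℝ) * Complex.I) := by
  rw [← integral_complex_ofReal]
  have h1 : ∀ t : ℝ, ((w (t / T) * (‖riemannZeta (cl t)‖ ^ 2 *
      (WW ω θ (Real.log T) t).re ^ j) : ℝ) : ℂ) =
      ∑ q ∈ Fintype.piFinset (fun _ : Fin j => CS (θ * Real.log T)),
        ((mxc ω (Real.log T) q : ℝ) : ℂ) *
        (((w (t / T) * ‖riemannZeta (cl t)‖ ^ 2 : ℝ) : ℂ) *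
          Complex.exp (t * (Real.log ((mxLast q).1.2 : ℕ) -
            Real.log ((mxLast q).1.1 : ℕ) : ℝ) * Complex.I)) := by
    intro t
    have h2 : (((WW ω θ (Real.log T) t).re : ℝ) : ℂ) = WW ω θ (Real.log T) t := by
      apply Complex.ext
      · simp
      · simp [WW_real]
    have h3 : ((w (t / T) * (‖riemannZeta (cl t)‖ ^ 2 *
      (WW ω θ (Real.log T) t).re ^ j) : ℝ) : ℂ) =
      ((w (t / T) * ‖riemannZeta (cl t)‖ ^ 2 : ℝ) : ℂ) * WW ω θ (Real.log T) t ^ j := by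
      rw [← h2]
      push_cast
      simp only [Complex.ofReal_re]
      ring
    rw [h3, mx_pow, Finset.mul_sum]
    refine Finset.sum_congr rfl fun q _ => ?_
    ring
  simp_rw [h1]
  rw [integral_finsetSum]
  · refine Finset.sum_congr rfl fun q _ => ?_
    rw [integral_const_mul]
  · intro q _
    exact (mx_int hw hT _).const_mul _

theorem mean_zW {w : ℝ → ℝ} (hw : Wgt w) (j : ℕ) {θ : ℝ} (hθ : 0 < θ) (hjθ : j * θ < 1) {ω : ℝ → ℝ}
    (hω : Adm ω θ) : ∃ C T₀ : ℝ, ∀ T : ℝ, T₀ ≤ T →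
    |(1 / T) * (∫ t : ℝ, w (t / T) * (‖riemannZeta (cl t)‖ ^ 2 * (WW ω θ (Real.log T) t).re ^ j)) -
      (∫ x, w x) * Real.log T * DF (j + 1) (Gz ω j) (Real.log T)| ≤
      C * Real.log T ^ ((j + 1) * j) := by
  set ε : ℝ := min (1 - j * θ) (1 / 2) with hε
  have hε0 : 0 < ε := lt_min (by linarith) (by norm_num)
  have hε1 : ε < 1 := (min_le_right _ _).trans_lt (by norm_num)
  have hεj : j * θ ≤ 1 - ε := by
    have := min_le_left (1 - j * θ) (1 / 2 : ℝ)
    linarith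
  obtain ⟨C, T₀, hC, hT₀, htw⟩ := twisted hw hε0 hε1
  obtain ⟨C', L₀, hbd⟩ := mx_DF_bound j hω
  refine ⟨C * C', max T₀ (max (Real.exp L₀) (Real.exp 1)), fun T hT => ?_⟩
  have hT1 : T₀ ≤ T := (le_max_left _ _).trans hT
  have hT2 : Real.exp L₀ ≤ T := ((le_max_left _ _).trans (le_max_right _ _)).trans hT
  have hT3 : Real.exp 1 ≤ T := ((le_max_right _ _).trans (le_max_right _ _)).trans hT
  have hTpos : 0 < T := lt_of_lt_of_le (by linarith) hT1
  set L := Real.log T with hL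
  have hL1 : 1 ≤ L := by rw [hL, Real.le_log_iff_exp_le hTpos]; exact hT3
  have hL2 : L₀ ≤ L := by rw [hL, Real.le_log_iff_exp_le hTpos]; exact hT2
  have hLpos : 0 < L := by linarith
  set S := Fintype.piFinset (fun _ : Fin j => CS (θ * L)) with hS
  have hlast : ∀ q ∈ S, lnq (mxLast q) ≤ j * θ * L := by
    intro q hq
    rw [hS, Fintype.mem_piFinset] at hq
    refine (mx_last_le q).trans ?_
    calc ∑ i, lnq (q i) ≤ ∑ _i : Fin j, θ * L :=
          Finset.sum_le_sum fun i _ => mx_mem_CS.mp (hq i)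
      _ = j * θ * L := by
          rw [Finset.sum_const, Finset.card_univ, Fintype.card_fin, nsmul_eq_mul]
          ring
  have hcut : ∀ q ∈ S, cut (lnq (mxLast q) / L) = 1 := by
    intro q hq
    apply mx_cut_one
    rw [div_le_one hLpos]
    refine (hlast q hq).trans ?_
    nlinarith
  -- the main term
  have hmain : DF (j + 1) (Gz ω j) L = ∑ q ∈ S, tw (mxEquiv j q) *
      ((∏ i, ω (lnq (q i) / L)) * (1 - lnq (mxLast q) / L)) := by
    have h1 := mx_DF j ω (fun s => (1 - s) * cut s) hLpos hω.supp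
    have h2 : (Gz ω j) = (fun s : Fin (j + 1) → ℝ => (∏ i : Fin j, ω (s i.castSucc)) *
        (fun s => (1 - s) * cut s) (s (Fin.last j))) := by
      funext s
      rfl
    rw [h2, h1]
    refine Finset.sum_congr rfl fun q hq => ?_
    rw [hcut q hq, mul_one]
  have herr : DF (j + 1) (fun s => (∏ i : Fin j, |ω (s i.castSucc)|) * cut (s (Fin.last j))) L =
      ∑ q ∈ S, tw (mxEquiv j q) * (∏ i, |ω (lnq (q i) / L)|) := by
    have h1 := mx_DF j (fun s => |ω s|) cut hLpos (θ := θ)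
      (fun s hs => by rw [hω.supp s hs, abs_zero])
    rw [h1]
    refine Finset.sum_congr rfl fun q hq => ?_
    rw [hcut q hq, mul_one]
  -- comparison, term by term
  have hcoef : ∀ q : Fin j → CP, mxc ω L q / Real.sqrt ((mxLast q).1.2 * (mxLast q).1.1) =
      tw (mxEquiv j q) * ∏ i, ω (lnq (q i) / L) := by
    intro q
    rw [mxc, Finset.prod_mul_distrib, mul_div_assoc, mx_weight]
    ring
  have hsq : ∀ q : Fin j → CP, 0 < Real.sqrt ((mxLast q).1.2 * (mxLast q).1.1) := by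
    intro q
    have h1 : (0 : ℝ) < (mxLast q).1.2 := by exact_mod_cast (mxLast q).2.2.1
    have h2 : (0 : ℝ) < (mxLast q).1.1 := by exact_mod_cast (mxLast q).2.1
    positivity
  have htwpos : ∀ q : Fin j → CP, 0 ≤ tw (mxEquiv j q) := by
    intro q
    rw [tw]
    positivity
  have hterm : ∀ q ∈ S, ‖(((1 / T : ℝ) : ℂ) * (((mxc ω L q : ℝ) : ℂ) *
      ∫ t : ℝ, ((w (t / T) * ‖riemannZeta (cl t)‖ ^ 2 : ℝ) : ℂ) *
          Complex.exp (t * (Real.log ((mxLast q).1.2 : ℕ) -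
            Real.log ((mxLast q).1.1 : ℕ) : ℝ) * Complex.I))) -
      (((∫ x, w x) * L * (tw (mxEquiv j q) *
      ((∏ i, ω (lnq (q i) / L)) * (1 - lnq (mxLast q) / L))) : ℝ) : ℂ)‖ ≤
      C * (tw (mxEquiv j q) * (∏ i, |ω (lnq (q i) / L)|)) := by
    intro q hq
    have h0 := (mxLast q).2
    have hexp : ((mxLast q).1.2 : ℝ) * (mxLast q).1.1 ≤ T ^ (1 - ε) := by
      rw [mul_comm, ← mx_lnq_exp, Real.rpow_def_of_pos hTpos]
      apply Real.exp_le_exp.mpr
      refine (hlast q hq).trans ?_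
      rw [← hL, mul_comm L]
      exact mul_le_mul_of_nonneg_right hεj hLpos.le
    have h1 := htw T hT1 (mxLast q).1.2 (mxLast q).1.1 h0.2.1 h0.1 h0.2.2.symm hexp
    set Iq := ∫ t : ℝ, ((w (t / T) * ‖riemannZeta (cl t)‖ ^ 2 : ℝ) : ℂ) *
          Complex.exp (t * (Real.log ((mxLast q).1.2 : ℕ) -
            Real.log ((mxLast q).1.1 : ℕ) : ℝ) * Complex.I) with hIq
    set sq := Real.sqrt ((mxLast q).1.2 * (mxLast q).1.1) with hsqd
    have hsqpos : 0 < sq := hsq q
    have hlog : Real.log (((mxLast q).1.2 : ℝ) * (mxLast q).1.1) = lnq (mxLast q) := by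
      rw [lnq, mul_comm]
    rw [hlog, ← hL] at h1
    have h2 : (((1 / T : ℝ) : ℂ) * (((mxc ω L q : ℝ) : ℂ) * Iq)) -
      (((∫ x, w x) * L * (tw (mxEquiv j q) *
      ((∏ i, ω (lnq (q i) / L)) * (1 - lnq (mxLast q) / L))) : ℝ) : ℂ) =
      ((mxc ω L q / T : ℝ) : ℂ) * (Iq - (((∫ x, w x) * T * (L - lnq (mxLast q)) / sq : ℝ) : ℂ)) := by
      have h3 : (∫ x, w x) * L * (tw (mxEquiv j q) *
          ((∏ i, ω (lnq (q i) / L)) * (1 - lnq (mxLast q) / L))) =
          (mxc ω L q / T) * ((∫ x, w x) * T * (L - lnq (mxLast q)) / sq) := by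
        have h4 := hcoef q
        rw [← hsqd] at h4
        have hs0 : sq ≠ 0 := (hsq q).ne'
        calc (∫ x, w x) * L * (tw (mxEquiv j q) *
          ((∏ i, ω (lnq (q i) / L)) * (1 - lnq (mxLast q) / L)))
            = (∫ x, w x) * L * ((tw (mxEquiv j q) *
              (∏ i, ω (lnq (q i) / L))) * (1 - lnq (mxLast q) / L)) := by ring
          _ = (∫ x, w x) * L * ((mxc ω L q / sq) * (1 - lnq (mxLast q) / L)) := by rw [← h4]
          _ = _ := by
            field_simp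
      rw [h3]
      push_cast
      ring
    rw [h2, norm_mul, Complex.norm_real]
    calc ‖mxc ω L q / T‖ * ‖Iq - (((∫ x, w x) * T * (L - lnq (mxLast q)) / sq : ℝ) : ℂ)‖
        ≤ ‖mxc ω L q / T‖ * (C * (T / sq)) := by gcongr
      _ = C * ‖mxc ω L q / sq‖ := by
          rw [norm_div, norm_div, Real.norm_of_nonneg hTpos.le, Real.norm_of_nonneg hsqpos.le]
          field_simp
      _ = C * (tw (mxEquiv j q) * (∏ i, |ω (lnq (q i) / L)|)) := by
          rw [hsqd, hcoef q, norm_mul, Real.norm_of_nonneg (htwpos q), norm_prod]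
          rfl
  -- conclusion
  have hfin : (((1 / T) * (∫ t : ℝ, w (t / T) * (‖riemannZeta (cl t)‖ ^ 2 *
      (WW ω θ L t).re ^ j)) - (∫ x, w x) * L * DF (j + 1) (Gz ω j) L : ℝ) : ℂ) =
      ∑ q ∈ S, ((((1 / T : ℝ) : ℂ) * (((mxc ω L q : ℝ) : ℂ) *
      ∫ t : ℝ, ((w (t / T) * ‖riemannZeta (cl t)‖ ^ 2 : ℝ) : ℂ) *
          Complex.exp (t * (Real.log ((mxLast q).1.2 : ℕ) -
            Real.log ((mxLast q).1.1 : ℕ) : ℝ) * Complex.I))) -
      (((∫ x, w x) * L * (tw (mxEquiv j q) *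
      ((∏ i, ω (lnq (q i) / L)) * (1 - lnq (mxLast q) / L))) : ℝ) : ℂ)) := by
    have h1 := mx_expand hw hTpos ω θ j
    rw [← hL] at h1
    rw [Finset.sum_sub_distrib, ← Finset.mul_sum, Complex.ofReal_sub, Complex.ofReal_mul, h1,
      hmain, ← Complex.ofReal_sum, Finset.mul_sum S _ ((∫ x, w x) * L)]
  rw [← Real.norm_eq_abs, ← Complex.norm_real, hfin]
  refine (norm_sum_le _ _).trans ?_
  refine (Finset.sum_le_sum hterm).trans ?_
  rw [← Finset.mul_sum, ← herr, mul_assoc]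
  exact mul_le_mul_of_nonneg_left (hbd L hL2) hC.le

end Pool.Agent.EvenMoment
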