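import Mathlib
import Pool.Agent.Lib_MP_112ba8_e.Diag
import Pool.Agent.Lib_MP_112ba8_e.Mixed

/-!
Lower bounds for the even moments of zeta.
-/

namespace Pool.Agent.EvenMoment

open Filter Topology MeasureTheory

lemma tangent {j : ℕ} (hj : Odd j) {x : ℝ} (hx : 0 ≤ x) (v : ℝ) :
    ((j : ℝ) + 1) * x * v ^ j - j * v ^ (j + 1) ≤ x ^ (j + 1) := by
  have hj' : Even (j + 1) := hj.add_one
  rcases le_or_gt v 0 with hv | hv
  · have h1 : v ^ j ≤ 0 := hj.pow_nonpos hv
    have h2 : 0 ≤ v ^ (j + 1) := hj'.pow_nonneg v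
    have h3 : ((j : ℝ) + 1) * x * v ^ j ≤ 0 := mul_nonpos_of_nonneg_of_nonpos (by positivity) h1
    have h4 : 0 ≤ (j : ℝ) * v ^ (j + 1) := by positivity
    have h5 : 0 ≤ x ^ (j + 1) := by positivity
    linarith
  · have hb := one_add_mul_le_pow (a := x / v - 1) (by
      have : 0 ≤ x / v := by positivity
      linarith) (j + 1)
    have e1 : (1 + (x / v - 1)) ^ (j + 1) = x ^ (j + 1) / v ^ (j + 1) := by
      rw [← div_pow]; congr 1; ring
    rw [e1, le_div_iff₀ (by positivity)] at hb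
    refine le_trans (le_of_eq ?_) hb
    push_cast
    have hv' : v ≠ 0 := hv.ne'
    field_simp
    ring

/-- the weight used for the final bound -/
noncomputable def wK (κ : ℝ) (h : 0 < κ ∧ κ < 1 / 2) : ContDiffBump (1 / 2 : ℝ) :=
  ⟨1 / 2 - κ, 1 / 2 - κ / 2, by linarith [h.2], by linarith [h.1]⟩

lemma wK_wgt (κ : ℝ) (h : 0 < κ ∧ κ < 1 / 2) : Wgt (wK κ h) := by
  refine ⟨(wK κ h).contDiff, fun x => (wK κ h).nonneg, κ / 2, by linarith [h.1], by linarith [h.2], ?_⟩
  intro x hx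
  apply (wK κ h).zero_of_le_dist
  rw [Real.dist_eq]
  change (1 / 2 - κ / 2 : ℝ) ≤ _
  rcases hx with hx | hx
  · rw [abs_sub_comm]
    exact le_trans (by linarith) (le_abs_self _)
  · exact le_trans (by linarith [h.1]) (le_abs_self _)

lemma wK_mass (κ : ℝ) (h : 0 < κ ∧ κ < 1 / 2) : 1 - 2 * κ ≤ ∫ x, wK κ h x := by
  have h1 : ∫ x in Set.Icc κ (1 - κ), (1 : ℝ) = 1 - 2 * κ := by
    rw [setIntegral_const, smul_eq_mul, mul_one, Measure.real, Real.volume_Icc,
      ENNReal.toReal_ofReal (by linarith [h.2])]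
    ring
  have hint : Integrable (wK κ h) :=
    (wK κ h).continuous.integrable_of_hasCompactSupport (wK κ h).hasCompactSupport
  have h2 : ∫ x in Set.Icc κ (1 - κ), (1 : ℝ) ≤ ∫ x in Set.Icc κ (1 - κ), wK κ h x := by
    refine setIntegral_mono_on (by simp) hint.integrableOn measurableSet_Icc fun x hx => ?_
    have : (wK κ h) x = 1 := by
      apply (wK κ h).one_of_mem_closedBall
      rw [Metric.mem_closedBall, Real.dist_eq]
      change _ ≤ (1 / 2 - κ : ℝ)
      rw [abs_le]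
      constructor <;> linarith [hx.1, hx.2]
    rw [this]
  have h3 : ∫ x in Set.Icc κ (1 - κ), wK κ h x ≤ ∫ x, wK κ h x :=
    setIntegral_le_integral hint (Filter.Eventually.of_forall fun x => (wK κ h).nonneg)
  linarith

lemma ev_cl_ne_one (t : ℝ) : cl t ≠ 1 := by
  intro h
  have := congrArg Complex.re h
  simp [cl] at this

lemma zeta_cl_cont : Continuous fun t : ℝ => riemannZeta (cl t) := by
  have h : Continuous cl := by unfold cl; fun_prop
  rw [continuous_iff_continuousAt]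
  intro t
  exact ContinuousAt.comp (g := riemannZeta) (differentiableAt_riemannZeta (ev_cl_ne_one t)).continuousAt
    h.continuousAt

lemma integrable_wt {w : ℝ → ℝ} (hw : Wgt w) {T : ℝ} (hT : 0 < T) {f : ℝ → ℝ} (hf : Continuous f) :
    Integrable fun t => w (t / T) * f t := by
  obtain ⟨a, ha, ha1, hs⟩ := hw.supp
  refine Continuous.integrable_of_hasCompactSupport ?_ ?_
  · exact (hw.smooth.continuous.comp (continuous_id.div_const T)).mul hf
  · refine HasCompactSupport.intro (isCompact_Icc (a := 0) (b := T)) fun t ht => ?_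
    have : w (t / T) = 0 := by
      apply hs
      rw [Set.mem_Icc, not_and_or] at ht
      rcases ht with h | h
      · left
        have : t / T < 0 := div_neg_of_neg_of_pos (not_le.mp h) hT
        linarith
      · right
        rw [lt_div_iff₀ hT]
        linarith
    rw [this, zero_mul]

lemma weight_le {w : ℝ → ℝ} (hw : Wgt w) (hw1 : ∀ x, w x ≤ 1) {T : ℝ} (hT : 0 < T) {f : ℝ → ℝ}
    (hf : Continuous f) (hf0 : ∀ t, 0 ≤ f t) :
    ∫ t : ℝ, w (t / T) * f t ≤ ∫ t in (0 : ℝ)..T, f t := by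
  rw [intervalIntegral.integral_of_le hT.le, ← integral_indicator measurableSet_Ioc]
  obtain ⟨a, ha, ha1, hs⟩ := hw.supp
  refine integral_mono (integrable_wt hw hT hf) ?_ ?_
  · rw [integrable_indicator_iff measurableSet_Ioc]
    exact (hf.integrableOn_Icc (a := 0) (b := T)).mono_set Set.Ioc_subset_Icc_self
  · intro t
    by_cases ht : t ∈ Set.Ioc 0 T
    · rw [Set.indicator_of_mem ht]
      calc w (t / T) * f t ≤ 1 * f t := by
            apply mul_le_mul_of_nonneg_right (hw1 _) (hf0 t)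
        _ = f t := one_mul _
    · rw [Set.indicator_of_notMem ht]
      have : w (t / T) = 0 := by
        apply hs
        rw [Set.mem_Ioc, not_and_or] at ht
        rcases ht with h | h
        · left
          have : t / T ≤ 0 := div_nonpos_of_nonpos_of_nonneg (not_lt.mp h) hT.le
          linarith
        · right
          rw [lt_div_iff₀ hT]
          linarith
      simp [this]

lemma cut_cont : Continuous cut := by unfold cut; fun_prop

lemma cut_zero {s : ℝ} (h : 2 ≤ s) : cut s = 0 := by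
  unfold cut
  rw [max_eq_left]
  exact (min_le_right _ _).trans (by linarith)

lemma ev_Gz_cont {ω : ℝ → ℝ} (hω : Continuous ω) (j : ℕ) : Continuous (Gz ω j) := by
  unfold Gz
  refine (continuous_finsetProd _ fun i _ => hω.comp (continuous_apply _)).mul ?_
  exact (continuous_const.sub (continuous_apply _)).mul (cut_cont.comp (continuous_apply _))

lemma Gz_zero {ω : ℝ → ℝ} {θ : ℝ} (hω : Adm ω θ) (j : ℕ) (s : Fin (j + 1) → ℝ)
    (h : ∃ i, max θ 2 ≤ s i) : Gz ω j s = 0 := by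
  obtain ⟨i, hi⟩ := h
  unfold Gz
  rcases Fin.eq_castSucc_or_eq_last i with ⟨i', rfl⟩ | rfl
  · rw [Finset.prod_eq_zero (Finset.mem_univ i') (hω.supp _ ((le_max_left _ _).trans hi)), zero_mul]
  · rw [cut_zero ((le_max_right _ _).trans hi)]; simp

lemma even_moment_weight {j : ℕ} (hj : Odd j) {θ : ℝ} (hθ : 0 < θ) (hθ1 : j * θ < 1)
    {ω : ℝ → ℝ} (hω : Adm ω θ) (hN : 0 < LF (j + 1) (Gz ω j))
    (hD : 0 < LF (j + 1) (fun s => ∏ i, ω (s i))) {w : ℝ → ℝ} (hw : Wgt w) {A : ℝ}
    (hA : A < (∫ x, w x) * (ar (j + 1) * (LF (j + 1) (Gz ω j) ^ (j + 1) /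
      LF (j + 1) (fun s => ∏ i, ω (s i)) ^ j))) :
    ∀ᶠ T : ℝ in atTop, A * Real.log T ^ ((j + 1) ^ 2) ≤
      (1 / T) * ∫ t : ℝ, w (t / T) * ‖riemannZeta (cl t)‖ ^ (2 * (j + 1)) := by
  set N := LF (j + 1) (Gz ω j) with hNdef
  set D := LF (j + 1) (fun s => ∏ i, ω (s i)) with hDdef
  set I := ∫ x, w x with hI
  set c : ℝ := N / D with hc
  have hc0 : 0 < c := div_pos hN hD
  have hj1 : 1 ≤ j := hj.pos
  have hkθ : ((j + 1 : ℕ) : ℝ) * θ < 2 := by
    push_cast
    have : θ ≤ j * θ := by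
      have : (1 : ℝ) ≤ j := by exact_mod_cast hj1
      nlinarith
    nlinarith
  have hlog : Tendsto Real.log atTop atTop := Real.tendsto_log_atTop
  -- limits
  have hex : (j + 1) * (j + 1 - 1) = (j + 1) * j := by simp
  have t1 : Tendsto (fun T : ℝ => DF (j + 1) (fun s => ∏ i, ω (s i)) (Real.log T) /
      Real.log T ^ ((j + 1) * j)) atTop (𝓝 (ar (j + 1) * D)) := by
    have := (DF_tendsto (j + 1) (G := fun s => ∏ i, ω (s i))
      (continuous_finsetProd _ fun i _ => hω.cont.comp (continuous_apply _)) θ (by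
        rintro s ⟨i, hi⟩
        exact Finset.prod_eq_zero (Finset.mem_univ i) (hω.supp _ hi))).comp hlog
    rw [hex] at this
    exact this
  have t2 : Tendsto (fun T : ℝ => DF (j + 1) (Gz ω j) (Real.log T) /
      Real.log T ^ ((j + 1) * j)) atTop (𝓝 (ar (j + 1) * N)) := by
    have := (DF_tendsto (j + 1) (ev_Gz_cont hω.cont j) (max θ 2) (Gz_zero hω j)).comp hlog
    rw [hex] at this
    exact this
  set E2 : ℝ → ℝ := fun T => (1 / T) * (∫ t : ℝ, w (t / T) * (WW ω θ (Real.log T) t).re ^ (j + 1))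
    with hE2
  set E1 : ℝ → ℝ := fun T => (1 / T) * (∫ t : ℝ, w (t / T) *
    (‖riemannZeta (cl t)‖ ^ 2 * (WW ω θ (Real.log T) t).re ^ j)) with hE1
  have hLpos : ∀ᶠ T : ℝ in atTop, 1 ≤ Real.log T := hlog.eventually_ge_atTop 1
  have t3 : Tendsto (fun T : ℝ => E2 T / Real.log T ^ ((j + 1) * j)) atTop
      (𝓝 (I * (ar (j + 1) * D))) := by
    have h1 := mean_W hw (j + 1) hθ hkθ hω
    have h2 : Tendsto (fun T : ℝ => (E2 T - I * DF (j + 1) (fun s => ∏ i, ω (s i)) (Real.log T)) /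
        Real.log T ^ ((j + 1) * j)) atTop (𝓝 0) := by
      rw [tendsto_zero_iff_norm_tendsto_zero] at h1 ⊢
      refine squeeze_zero' (Eventually.of_forall fun T => norm_nonneg _) ?_ h1
      filter_upwards [hLpos] with T hT
      rw [norm_div]
      refine div_le_self (norm_nonneg _) ?_
      rw [Real.norm_of_nonneg (by positivity)]
      exact one_le_pow₀ hT
    have h3 := h2.add (t1.const_mul I)
    rw [zero_add] at h3
    refine h3.congr fun T => ?_
    ring
  obtain ⟨C, T₀, hC⟩ := mean_zW hw j hθ hθ1 hω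
  have t4 : Tendsto (fun T : ℝ => E1 T / Real.log T ^ ((j + 1) * j + 1)) atTop
      (𝓝 (I * (ar (j + 1) * N))) := by
    have h2 : Tendsto (fun T : ℝ => (E1 T - I * Real.log T * DF (j + 1) (Gz ω j) (Real.log T)) /
        Real.log T ^ ((j + 1) * j + 1)) atTop (𝓝 0) := by
      have h5 : Tendsto (fun T : ℝ => |C| * (Real.log T)⁻¹) atTop (𝓝 0) := by
        have := (tendsto_inv_atTop_zero.comp hlog).const_mul |C|
        rw [mul_zero] at this
        exact this
      rw [tendsto_zero_iff_norm_tendsto_zero]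
      refine squeeze_zero' (Eventually.of_forall fun T => norm_nonneg _) ?_ h5
      filter_upwards [hLpos, eventually_ge_atTop T₀] with T hT hT0
      have h6 := hC T hT0
      have hL0 : 0 < Real.log T := by linarith
      rw [norm_div, Real.norm_eq_abs, Real.norm_of_nonneg (by positivity), div_le_iff₀ (by positivity)]
      refine h6.trans ?_
      calc C * Real.log T ^ ((j + 1) * j) ≤ |C| * Real.log T ^ ((j + 1) * j) := by
            gcongr; exact le_abs_self C
        _ = _ := by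
            rw [pow_succ]; field_simp
    have h3 := h2.add (t2.const_mul I)
    rw [zero_add] at h3
    refine h3.congr' ?_
    filter_upwards [hLpos] with T hT
    have hL0 : Real.log T ≠ 0 := by linarith
    rw [pow_succ]
    field_simp
    ring
  have t5 : Tendsto (fun T : ℝ => ((j : ℝ) + 1) * c ^ j * (E1 T / Real.log T ^ ((j + 1) * j + 1)) -
      j * c ^ (j + 1) * (E2 T / Real.log T ^ ((j + 1) * j))) atTop
      (𝓝 (I * (ar (j + 1) * (N ^ (j + 1) / D ^ j)))) := by
    have h1 := (t4.const_mul (((j : ℝ) + 1) * c ^ j)).sub (t3.const_mul (j * c ^ (j + 1)))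
    have e1 : ((j : ℝ) + 1) * c ^ j * (I * (ar (j + 1) * N)) -
        j * c ^ (j + 1) * (I * (ar (j + 1) * D)) = I * (ar (j + 1) * (N ^ (j + 1) / D ^ j)) := by
      rw [hc, div_pow, div_pow, pow_succ N, pow_succ D]
      field_simp
      ring
    rw [e1] at h1
    exact h1
  filter_upwards [t5.eventually_const_lt hA, hLpos, eventually_gt_atTop (0 : ℝ)] with T h1 hL hT
  have hL0 : 0 < Real.log T := by linarith
  have hcont : Continuous fun t : ℝ => (WW ω θ (Real.log T) t).re :=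
    Complex.continuous_re.comp (WW_cont ω θ _)
  have hzc : Continuous fun t : ℝ => ‖riemannZeta (cl t)‖ := zeta_cl_cont.norm
  set lam : ℝ := c * Real.log T with hlam
  have hpt : ∀ t : ℝ, w (t / T) * (((j : ℝ) + 1) * lam ^ j *
      (‖riemannZeta (cl t)‖ ^ 2 * (WW ω θ (Real.log T) t).re ^ j) -
      j * lam ^ (j + 1) * (WW ω θ (Real.log T) t).re ^ (j + 1)) ≤
      w (t / T) * ‖riemannZeta (cl t)‖ ^ (2 * (j + 1)) := by
    intro t
    refine mul_le_mul_of_nonneg_left ?_ (hw.nonneg _)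
    have := tangent hj (x := ‖riemannZeta (cl t)‖ ^ 2) (by positivity)
      (lam * (WW ω θ (Real.log T) t).re)
    rw [pow_mul]
    refine le_trans (le_of_eq ?_) this
    rw [mul_pow, mul_pow]; ring
  have hi1 := integrable_wt hw hT (f := fun t => ‖riemannZeta (cl t)‖ ^ 2 *
    (WW ω θ (Real.log T) t).re ^ j) ((hzc.pow 2).mul (hcont.pow j))
  have hi2 := integrable_wt hw hT (f := fun t => (WW ω θ (Real.log T) t).re ^ (j + 1)) (hcont.pow _)
  have hint : ∫ t : ℝ, w (t / T) * (((j : ℝ) + 1) * lam ^ j *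
      (‖riemannZeta (cl t)‖ ^ 2 * (WW ω θ (Real.log T) t).re ^ j) -
      j * lam ^ (j + 1) * (WW ω θ (Real.log T) t).re ^ (j + 1)) =
      ((j : ℝ) + 1) * lam ^ j * (∫ t : ℝ, w (t / T) *
        (‖riemannZeta (cl t)‖ ^ 2 * (WW ω θ (Real.log T) t).re ^ j)) -
      j * lam ^ (j + 1) * ∫ t : ℝ, w (t / T) * (WW ω θ (Real.log T) t).re ^ (j + 1) := by
    rw [← integral_const_mul, ← integral_const_mul, ← integral_sub (hi1.const_mul _) (hi2.const_mul _)]
    refine integral_congr_ae (ae_of_all _ fun t => ?_)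
    simp only
    ring
  have hfin : (1 / T) * (∫ t : ℝ, w (t / T) * (((j : ℝ) + 1) * lam ^ j *
      (‖riemannZeta (cl t)‖ ^ 2 * (WW ω θ (Real.log T) t).re ^ j) -
      j * lam ^ (j + 1) * (WW ω θ (Real.log T) t).re ^ (j + 1))) ≤
      (1 / T) * ∫ t : ℝ, w (t / T) * ‖riemannZeta (cl t)‖ ^ (2 * (j + 1)) := by
    refine mul_le_mul_of_nonneg_left ?_ (by positivity)
    refine integral_mono ?_ (integrable_wt hw hT (hzc.pow _)) hpt
    have := integrable_wt hw hT (f := fun t => ((j : ℝ) + 1) * lam ^ j *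
      (‖riemannZeta (cl t)‖ ^ 2 * (WW ω θ (Real.log T) t).re ^ j) -
      j * lam ^ (j + 1) * (WW ω θ (Real.log T) t).re ^ (j + 1))
      ((continuous_const.mul ((hzc.pow 2).mul (hcont.pow j))).sub (continuous_const.mul (hcont.pow _)))
    exact this
  refine le_trans ?_ hfin
  rw [hint]
  have e2 : (1 / T) * (((j : ℝ) + 1) * lam ^ j * (∫ t : ℝ, w (t / T) *
        (‖riemannZeta (cl t)‖ ^ 2 * (WW ω θ (Real.log T) t).re ^ j)) -
      j * lam ^ (j + 1) * ∫ t : ℝ, w (t / T) * (WW ω θ (Real.log T) t).re ^ (j + 1)) =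
      ((j : ℝ) + 1) * lam ^ j * E1 T - j * lam ^ (j + 1) * E2 T := by
    simp only [hE1, hE2]; ring
  rw [e2]
  have e3 : ((j : ℝ) + 1) * lam ^ j * E1 T - j * lam ^ (j + 1) * E2 T =
      (((j : ℝ) + 1) * c ^ j * (E1 T / Real.log T ^ ((j + 1) * j + 1)) -
      j * c ^ (j + 1) * (E2 T / Real.log T ^ ((j + 1) * j))) * Real.log T ^ ((j + 1) ^ 2) := by
    have e4 : (j + 1) ^ 2 = j + ((j + 1) * j + 1) := by ring
    have e5 : (j + 1) ^ 2 = (j + 1) + ((j + 1) * j) := by ring
    have e6 : E1 T / Real.log T ^ ((j + 1) * j + 1) * Real.log T ^ ((j + 1) ^ 2) =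
        E1 T * Real.log T ^ j := by
      rw [e4, pow_add _ j]; field_simp
    have e7 : E2 T / Real.log T ^ ((j + 1) * j) * Real.log T ^ ((j + 1) ^ 2) =
        E2 T * Real.log T ^ (j + 1) := by
      rw [e5, pow_add _ (j + 1)]; field_simp
    rw [sub_mul, mul_assoc _ (E1 T / _), e6, mul_assoc _ (E2 T / _), e7, hlam, mul_pow, mul_pow]
    ring
  rw [e3]
  exact mul_le_mul_of_nonneg_right h1.le (by positivity)

theorem even_moment {j : ℕ} (hj : Odd j) {θ : ℝ} (hθ : 0 < θ) (hθ1 : j * θ < 1)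
    {ω : ℝ → ℝ} (hω : Adm ω θ) (hN : 0 < LF (j + 1) (Gz ω j))
    (hD : 0 < LF (j + 1) (fun s => ∏ i, ω (s i))) {A : ℝ}
    (hA : A < ar (j + 1) * (LF (j + 1) (Gz ω j) ^ (j + 1) /
      LF (j + 1) (fun s => ∏ i, ω (s i)) ^ j)) :
    ∀ᶠ T : ℝ in atTop, A * Real.log T ^ ((j + 1) ^ 2) ≤
      (1 / T) * ∫ t in (0 : ℝ)..T, ‖riemannZeta (cl t)‖ ^ (2 * (j + 1)) := by
  set X := ar (j + 1) * (LF (j + 1) (Gz ω j) ^ (j + 1) /
      LF (j + 1) (fun s => ∏ i, ω (s i)) ^ j) with hX
  have har : 0 < ar (j + 1) := Real.exp_pos _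
  have hX0 : 0 < X := by positivity
  -- choose κ
  obtain ⟨κ, hκ0, hκ1, hκ2⟩ : ∃ κ : ℝ, 0 < κ ∧ κ < 1 / 2 ∧ A < (1 - 2 * κ) * X := by
    refine ⟨min (1 / 4) ((X - A) / (4 * X)), ?_, ?_, ?_⟩
    · have : 0 < (X - A) / (4 * X) := by
        apply div_pos <;> linarith
      positivity
    · exact lt_of_le_of_lt (min_le_left _ _) (by norm_num)
    · have h1 : min (1 / 4) ((X - A) / (4 * X)) ≤ (X - A) / (4 * X) := min_le_right _ _
      have h2 : (X - A) / (4 * X) * X = (X - A) / 4 := by field_simp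
      nlinarith
  have hw := wK_wgt κ ⟨hκ0, hκ1⟩
  have hmass := wK_mass κ ⟨hκ0, hκ1⟩
  have hA' : A < (∫ x, wK κ ⟨hκ0, hκ1⟩ x) * X := lt_of_lt_of_le hκ2 (by gcongr)
  have h1 := even_moment_weight hj hθ hθ1 hω hN hD hw hA'
  filter_upwards [h1, eventually_gt_atTop (0 : ℝ)] with T h2 hT
  refine h2.trans ?_
  refine mul_le_mul_of_nonneg_left ?_ (by positivity)
  exact weight_le hw (fun x => (wK κ ⟨hκ0, hκ1⟩).le_one) hT (zeta_cl_cont.norm.pow _)
    (fun t => by positivity)

end Pool.Agent.EvenMoment
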