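import Pool.Agent.Lib_MP_112ba8_e.Four

/-!
Piece P13c: upper bound for the denominator integral of the shell test function.
-/

set_option autoImplicit false

namespace Pool.Agent.EvenMoment

open Filter Topology MeasureTheory Set

namespace ShD

/-! ### The hat function -/

theorem hat_nonneg (θ δ s : ℝ) : 0 ≤ hat θ δ s := le_max_left _ _

theorem hat_cont (θ δ : ℝ) : Continuous (hat θ δ) := by
  unfold hat
  fun_prop

theorem hat_supp {θ δ : ℝ} (hδ : 0 < δ) {s : ℝ} (h : hat θ δ s ≠ 0) : θ - δ < s ∧ s < θ := by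
  unfold hat at h
  have h1 : 0 < 1 - |2 * (s - θ) / δ + 1| := by
    by_contra hc
    exact h (max_eq_left (not_lt.mp hc))
  have h2 : |2 * (s - θ) / δ + 1| < 1 := by linarith
  rw [abs_lt] at h2
  have h3 : -2 < 2 * (s - θ) / δ := by linarith [h2.1]
  have h4 : 2 * (s - θ) / δ < 0 := by linarith [h2.2]
  rw [lt_div_iff₀ hδ] at h3
  rw [div_lt_iff₀ hδ] at h4
  constructor <;> linarith

theorem hat_compact {θ δ : ℝ} (hδ : 0 < δ) : HasCompactSupport (hat θ δ) := by
  refine HasCompactSupport.intro (isCompact_Icc (a := θ - δ) (b := θ)) fun s hs => ?_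
  by_contra h
  obtain ⟨h1, h2⟩ := hat_supp hδ h
  exact hs ⟨h1.le, h2.le⟩

theorem hat_integrable {θ δ : ℝ} (hδ : 0 < δ) : Integrable (hat θ δ) :=
  (hat_cont θ δ).integrable_of_hasCompactSupport (hat_compact hδ)

theorem hat_one (v : ℝ) (hv : 0 ≤ v) (hv1 : v ≤ 1) : max 0 (1 - |v|) = 1 - v := by
  rw [abs_of_nonneg hv, max_eq_right (by linarith)]

theorem tri_integral : ∫ u : ℝ, max 0 (1 - |u|) = 1 := by
  have h0 : ∀ u : ℝ, u ∉ Ioc (-1 : ℝ) 1 → max 0 (1 - |u|) = 0 := by
    intro u hu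
    refine max_eq_left ?_
    have : 1 ≤ |u| := by
      by_contra hc
      rw [not_le, abs_lt] at hc
      exact hu ⟨hc.1, hc.2.le⟩
    linarith
  have h1 : ∫ u : ℝ, max 0 (1 - |u|) = ∫ u in Ioc (-1 : ℝ) 1, max 0 (1 - |u|) :=
    (setIntegral_eq_integral_of_forall_compl_eq_zero h0).symm
  have hc : Continuous fun u : ℝ => max 0 (1 - |u|) := by fun_prop
  rw [h1, ← intervalIntegral.integral_of_le (by norm_num : (-1 : ℝ) ≤ 1),
    ← intervalIntegral.integral_add_adjacent_intervals (b := (0 : ℝ))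
      (hc.intervalIntegrable _ _) (hc.intervalIntegrable _ _)]
  have e1 : ∫ u in (-1 : ℝ)..0, max 0 (1 - |u|) = ∫ u in (-1 : ℝ)..0, (1 + u) := by
    refine intervalIntegral.integral_congr fun u hu => ?_
    rw [uIcc_of_le (by norm_num : (-1 : ℝ) ≤ 0)] at hu
    rw [abs_of_nonpos hu.2, max_eq_right (by linarith [hu.1])]
    ring
  have e2 : ∫ u in (0 : ℝ)..1, max 0 (1 - |u|) = ∫ u in (0 : ℝ)..1, (1 - u) := by
    refine intervalIntegral.integral_congr fun u hu => ?_
    rw [uIcc_of_le (by norm_num : (0 : ℝ) ≤ 1)] at hu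
    rw [abs_of_nonneg hu.1, max_eq_right (by linarith [hu.2])]
  rw [e1, e2]
  have e3 : ∫ u in (-1 : ℝ)..0, (1 + u) = 1 / 2 := by
    rw [intervalIntegral.integral_add (by simp) (by simp)]
    simp
    norm_num
  have e4 : ∫ u in (0 : ℝ)..1, (1 - u) = 1 / 2 := by
    rw [intervalIntegral.integral_sub (by simp) (by simp)]
    simp
    norm_num
  rw [e3, e4]
  norm_num

theorem hat_integral {θ δ : ℝ} (hδ : 0 < δ) : ∫ s, hat θ δ s = δ / 2 := by
  have h1 : ∀ s, hat θ δ s = (fun u : ℝ => max 0 (1 - |u|)) ((2 / δ) * (s + (δ / 2 - θ))) := by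
    intro s
    unfold hat
    simp only
    congr 3
    field_simp
    ring
  simp only [h1]
  rw [integral_add_right_eq_self (fun s => (fun u : ℝ => max 0 (1 - |u|)) ((2 / δ) * s)) (δ / 2 - θ),
    Measure.integral_comp_mul_left (fun u : ℝ => max 0 (1 - |u|)) (2 / δ), tri_integral]
  rw [abs_of_pos (by positivity), smul_eq_mul, mul_one, inv_div]

/-! ### Convolutions -/

/-- convolution with the hat function -/
noncomputable def cv (θ δ : ℝ) (P : ℝ → ℝ) (u : ℝ) : ℝ := ∫ s, hat θ δ s * P (u - s)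

theorem cv_eq (θ δ : ℝ) (P : ℝ → ℝ) :
    cv θ δ P = convolution (hat θ δ) P (ContinuousLinearMap.mul ℝ ℝ) volume := rfl

theorem cv_integrable {θ δ : ℝ} (hδ : 0 < δ) {P : ℝ → ℝ} (hP : Integrable P) :
    Integrable (cv θ δ P) := by
  rw [cv_eq]
  exact (hat_integrable hδ).integrable_convolution _ hP

theorem cv_integral {θ δ : ℝ} (hδ : 0 < δ) {P : ℝ → ℝ} (hP : Integrable P) :
    ∫ u, cv θ δ P u = δ / 2 * ∫ u, P u := by
  rw [cv_eq, integral_convolution _ (hat_integrable hδ) hP, hat_integral hδ]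
  rfl

theorem cv_nonneg {θ δ : ℝ} {P : ℝ → ℝ} (hP : ∀ u, 0 ≤ P u) (u : ℝ) : 0 ≤ cv θ δ P u :=
  integral_nonneg fun s => mul_nonneg (hat_nonneg _ _ _) (hP _)

theorem cv_exists {θ δ : ℝ} (hδ : 0 < δ) {P : ℝ → ℝ} (hP : Integrable P) (u : ℝ) :
    Integrable fun s => hat θ δ s * P (u - s) :=
  HasCompactSupport.convolutionExists_left (ContinuousLinearMap.mul ℝ ℝ) (hat_compact hδ)
    (hat_cont θ δ) hP.locallyIntegrable u

/-- the basic step -/
theorem cv_step {θ δ : ℝ} (hδ : 0 < δ) {P : ℝ → ℝ} (hP : Integrable P) (hP0 : ∀ u, 0 ≤ P u)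
    (u w : ℝ) : Integrable (fun z => hat θ δ (u + z) * P (w - z)) ∧
      ∫ z in Ioi (0 : ℝ), hat θ δ (u + z) * P (w - z) ≤ cv θ δ P (u + w) := by
  have h1 := cv_exists (θ := θ) hδ hP (u + w)
  have h2 : Integrable fun z => hat θ δ (u + z) * P (w - z) := by
    have := h1.comp_add_left u
    refine this.congr (Eventually.of_forall fun z => ?_)
    simp only
    congr 2
    ring
  refine ⟨h2, ?_⟩
  have h3 : ∫ z, hat θ δ (u + z) * P (w - z) = cv θ δ P (u + w) := by
    have h4 := integral_add_left_eq_self (μ := volume) (fun s => hat θ δ s * P (u + w - s)) u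
    rw [cv, ← h4]
    refine integral_congr_ae (Eventually.of_forall fun z => ?_)
    simp only
    congr 2
    ring
  rw [← h3]
  exact setIntegral_le_integral h2 (Eventually.of_forall fun z =>
    mul_nonneg (hat_nonneg _ _ _) (hP0 _))

/-- the reflected hat -/
noncomputable def rh (θ δ u : ℝ) : ℝ := hat θ δ (-u)

theorem rh_integrable {θ δ : ℝ} (hδ : 0 < δ) : Integrable (rh θ δ) := (hat_integrable hδ).comp_neg

theorem rh_integral {θ δ : ℝ} (hδ : 0 < δ) : ∫ u, rh θ δ u = δ / 2 := by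
  unfold rh
  rw [integral_neg_eq_self (fun u => hat θ δ u)]
  exact hat_integral hδ

theorem rh_nonneg (θ δ u : ℝ) : 0 ≤ rh θ δ u := hat_nonneg _ _ _

/-! ### The pointwise bound -/

/-- the bound for the polynomial weight -/
noncomputable def Mw (θ κ a b : ℝ) : ℝ :=
  a * b * (max 0 (θ - a - b) * (max 0 (θ - a - b) + κ)) * ((b + κ) * (a + κ))

theorem Mw_nonneg {θ κ a b : ℝ} (hκ : 0 ≤ κ) (ha : 0 ≤ a) (hb : 0 ≤ b) : 0 ≤ Mw θ κ a b := by
  unfold Mw
  have := le_max_left 0 (θ - a - b)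
  positivity

theorem point {θ δ a b c x y z : ℝ} (hδ : 0 < δ) (ha : 0 < a) (hb : 0 < b) (hc : 0 < c)
    (_ : 0 < x) (hy : 0 < y) (hz : 0 < z) :
    a * b * c * (x * y * z) * (hat θ δ (a + b + x) * hat θ δ (a + c + y) * hat θ δ (b + c + z) *
      hat θ δ (x + y + z)) ≤ Mw θ (2 * δ) a b * (hat θ δ (a + b + x) * (hat θ δ (a + c + y) *
        (hat θ δ (b + c + z) * rh θ δ (b + c - x - y - (b + c + z))))) := by
  have hM := Mw_nonneg (θ := θ) (κ := 2 * δ) (by linarith) ha.le hb.le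
  have e : rh θ δ (b + c - x - y - (b + c + z)) = hat θ δ (x + y + z) := by
    unfold rh; congr 1; ring
  rw [e]
  set h1 := hat θ δ (a + b + x) with e1
  set h2 := hat θ δ (a + c + y) with e2
  set h3 := hat θ δ (b + c + z) with e3
  set h4 := hat θ δ (x + y + z) with e4
  have n1 : 0 ≤ h1 := hat_nonneg _ _ _
  have n2 : 0 ≤ h2 := hat_nonneg _ _ _
  have n3 : 0 ≤ h3 := hat_nonneg _ _ _
  have n4 : 0 ≤ h4 := hat_nonneg _ _ _
  have n5 : 0 ≤ h1 * h2 * h3 * h4 := by positivity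
  by_cases hz0 : h1 * h2 * h3 * h4 = 0
  · rw [hz0, mul_zero]
    have : h1 * (h2 * (h3 * h4)) = h1 * h2 * h3 * h4 := by ring
    rw [this, hz0, mul_zero]
  · have z1 : h1 ≠ 0 := fun h => hz0 (by rw [h]; ring)
    have z2 : h2 ≠ 0 := fun h => hz0 (by rw [h]; ring)
    have z3 : h3 ≠ 0 := fun h => hz0 (by rw [h]; ring)
    have z4 : h4 ≠ 0 := fun h => hz0 (by rw [h]; ring)
    obtain ⟨l1, u1⟩ := hat_supp hδ z1
    obtain ⟨l2, u2⟩ := hat_supp hδ z2
    obtain ⟨l3, u3⟩ := hat_supp hδ z3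
    obtain ⟨l4, u4⟩ := hat_supp hδ z4
    have b1 : x ≤ max 0 (θ - a - b) := le_trans (by linarith) (le_max_right _ _)
    have b2 : c ≤ max 0 (θ - a - b) + 2 * δ :=
      le_trans (by linarith : c ≤ (θ - a - b) + 2 * δ) (by linarith [le_max_right 0 (θ - a - b)])
    have b3 : y ≤ b + 2 * δ := by linarith
    have b4 : z ≤ a + 2 * δ := by linarith
    have hm0 := le_max_left 0 (θ - a - b)
    have key : a * b * c * (x * y * z) ≤ Mw θ (2 * δ) a b := by
      unfold Mw
      calc a * b * c * (x * y * z) = a * b * (x * c) * (y * z) := by ring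
        _ ≤ _ := by
          have c1 : x * c ≤ max 0 (θ - a - b) * (max 0 (θ - a - b) + 2 * δ) :=
            mul_le_mul b1 b2 hc.le hm0
          have c2 : y * z ≤ (b + 2 * δ) * (a + 2 * δ) :=
            mul_le_mul b3 b4 hz.le (by linarith)
          exact mul_le_mul (mul_le_mul_of_nonneg_left c1 (by positivity)) c2 (by positivity)
            (by positivity)
    calc a * b * c * (x * y * z) * (h1 * h2 * h3 * h4) ≤ Mw θ (2 * δ) a b * (h1 * h2 * h3 * h4) :=
          mul_le_mul_of_nonneg_right key n5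
      _ = _ := by ring

/-! ### The outer integral -/

theorem beta1 (p : ℝ) : ∫ b in Ioi (0 : ℝ), b ^ 2 * (max 0 (p - b)) ^ 2 = (max 0 p) ^ 5 / 30 := by
  rcases le_total p 0 with hp | hp
  · rw [max_eq_left hp]
    rw [setIntegral_congr_fun (g := fun _ => (0 : ℝ)) measurableSet_Ioi]
    · simp
    · intro b hb
      simp only
      rw [max_eq_left (by linarith [mem_Ioi.mp hb])]
      ring
  · rw [max_eq_right hp]
    have h1 : ∫ b in Ioi (0 : ℝ), b ^ 2 * (max 0 (p - b)) ^ 2 =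
        ∫ b in Ioc (0 : ℝ) p, b ^ 2 * (max 0 (p - b)) ^ 2 := by
      refine setIntegral_eq_of_subset_of_forall_sdiff_eq_zero measurableSet_Ioi
        Ioc_subset_Ioi_self ?_
      intro b hb
      have : p < b := by
        by_contra hc
        exact hb.2 ⟨hb.1, not_lt.mp hc⟩
      rw [max_eq_left (by linarith)]
      ring
    rw [h1, ← intervalIntegral.integral_of_le hp]
    have h2 : ∫ b in (0 : ℝ)..p, b ^ 2 * (max 0 (p - b)) ^ 2 =
        ∫ b in (0 : ℝ)..p, (p ^ 2 * b ^ 2 - 2 * p * b ^ 3 + b ^ 4) := by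
      refine intervalIntegral.integral_congr fun b hb => ?_
      rw [uIcc_of_le hp] at hb
      rw [max_eq_right (by linarith [hb.2])]
      ring
    rw [h2]
    rw [intervalIntegral.integral_add (Continuous.intervalIntegrable (by fun_prop) _ _)
        (Continuous.intervalIntegrable (by fun_prop) _ _),
      intervalIntegral.integral_sub (Continuous.intervalIntegrable (by fun_prop) _ _)
        (Continuous.intervalIntegrable (by fun_prop) _ _),
      intervalIntegral.integral_const_mul, intervalIntegral.integral_const_mul]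
    simp only [integral_pow]
    norm_num
    ring


theorem beta1_int (p : ℝ) : Integrable (fun b : ℝ => b ^ 2 * (max 0 (p - b)) ^ 2)
    (volume.restrict (Ioi (0 : ℝ))) := by
  have hc : Continuous fun b : ℝ => b ^ 2 * (max 0 (p - b)) ^ 2 := by fun_prop
  have h1 : IntegrableOn (fun b : ℝ => b ^ 2 * (max 0 (p - b)) ^ 2) (Ioc 0 p) :=
    hc.integrableOn_Ioc
  refine IntegrableOn.of_forall_sdiff_eq_zero h1 measurableSet_Ioi ?_
  intro b hb
  have : p < b := by
    by_contra hc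
    exact hb.2 ⟨hb.1, not_lt.mp hc⟩
  rw [max_eq_left (by linarith)]
  ring

theorem beta2 {θ : ℝ} (hθ : 0 ≤ θ) :
    ∫ a in Ioi (0 : ℝ), a ^ 2 * ((max 0 (θ - a)) ^ 5 / 30) = θ ^ 8 / 5040 := by
  have h1 : ∫ a in Ioi (0 : ℝ), a ^ 2 * ((max 0 (θ - a)) ^ 5 / 30) =
      ∫ a in Ioc (0 : ℝ) θ, a ^ 2 * ((max 0 (θ - a)) ^ 5 / 30) := by
    refine setIntegral_eq_of_subset_of_forall_sdiff_eq_zero measurableSet_Ioi
      Ioc_subset_Ioi_self ?_
    intro b hb
    have : θ < b := by
      by_contra hc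
      exact hb.2 ⟨hb.1, not_lt.mp hc⟩
    rw [max_eq_left (by linarith)]
    ring
  rw [h1, ← intervalIntegral.integral_of_le hθ]
  have h2 : ∫ a in (0 : ℝ)..θ, a ^ 2 * ((max 0 (θ - a)) ^ 5 / 30) =
      ∫ a in (0 : ℝ)..θ, (θ - (θ - a)) ^ 2 * ((θ - a) ^ 5 / 30) := by
    refine intervalIntegral.integral_congr fun b hb => ?_
    rw [uIcc_of_le hθ] at hb
    rw [max_eq_right (by linarith [hb.2])]
    ring
  rw [h2, intervalIntegral.integral_comp_sub_left (fun v => (θ - v) ^ 2 * (v ^ 5 / 30)) θ]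
  have h3 : ∫ v in θ - θ..θ - 0, (θ - v) ^ 2 * (v ^ 5 / 30) =
      ∫ v in (0 : ℝ)..θ, (θ ^ 2 / 30 * v ^ 5 - θ / 15 * v ^ 6 + 1 / 30 * v ^ 7) := by
    rw [sub_self, sub_zero]
    refine intervalIntegral.integral_congr fun b _ => ?_
    ring
  rw [h3]
  rw [intervalIntegral.integral_add (Continuous.intervalIntegrable (by fun_prop) _ _)
      (Continuous.intervalIntegrable (by fun_prop) _ _),
    intervalIntegral.integral_sub (Continuous.intervalIntegrable (by fun_prop) _ _)
      (Continuous.intervalIntegrable (by fun_prop) _ _),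
    intervalIntegral.integral_const_mul, intervalIntegral.integral_const_mul,
    intervalIntegral.integral_const_mul]
  simp only [integral_pow]
  norm_num
  ring

theorem beta2_int (θ : ℝ) : Integrable (fun a : ℝ => a ^ 2 * ((max 0 (θ - a)) ^ 5 / 30))
    (volume.restrict (Ioi (0 : ℝ))) := by
  have hc : Continuous fun a : ℝ => a ^ 2 * ((max 0 (θ - a)) ^ 5 / 30) := by fun_prop
  have h1 : IntegrableOn (fun a : ℝ => a ^ 2 * ((max 0 (θ - a)) ^ 5 / 30)) (Ioc 0 θ) :=
    hc.integrableOn_Ioc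
  refine IntegrableOn.of_forall_sdiff_eq_zero h1 measurableSet_Ioi ?_
  intro b hb
  have : θ < b := by
    by_contra hc
    exact hb.2 ⟨hb.1, not_lt.mp hc⟩
  rw [max_eq_left (by linarith)]
  ring

/-- indicator of the unit interval -/
noncomputable def i1 (a : ℝ) : ℝ := (Ioc (0 : ℝ) 1).indicator (fun _ => (1 : ℝ)) a

theorem i1_int : Integrable i1 (volume.restrict (Ioi (0 : ℝ))) := by
  unfold i1
  refine Integrable.restrict ?_
  rw [integrable_indicator_iff measurableSet_Ioc]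
  exact integrableOn_const (by simp)

theorem i1_integral : ∫ a in Ioi (0 : ℝ), i1 a = 1 := by
  unfold i1
  rw [setIntegral_indicator measurableSet_Ioc]
  rw [inter_eq_right.mpr Ioc_subset_Ioi_self]
  simp

theorem i1_nonneg (a : ℝ) : 0 ≤ i1 a := by
  unfold i1
  exact indicator_nonneg (fun _ _ => zero_le_one) _

theorem Mw_le {θ κ a b : ℝ} (hκ : 0 ≤ κ) (hκ1 : κ ≤ 1) (hθ : 3 * θ < 1) (ha : 0 < a)
    (hb : 0 < b) : Mw θ κ a b ≤ a ^ 2 * (b ^ 2 * (max 0 (θ - a - b)) ^ 2) + κ * (i1 a * i1 b) := by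
  have hi : 0 ≤ κ * (i1 a * i1 b) := mul_nonneg hκ (mul_nonneg (i1_nonneg _) (i1_nonneg _))
  rcases le_total (θ - a - b) 0 with h | h
  · unfold Mw
    rw [max_eq_left h]
    simp only [zero_mul, mul_zero]
    positivity
  · have ha1 : a ≤ 1 := by linarith
    have hb1 : b ≤ 1 := by linarith
    have ma : a ∈ Ioc (0 : ℝ) 1 := ⟨ha, ha1⟩
    have mb : b ∈ Ioc (0 : ℝ) 1 := ⟨hb, hb1⟩
    have e1 : i1 a = 1 := indicator_of_mem ma _
    have e2 : i1 b = 1 := indicator_of_mem mb _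
    unfold Mw
    rw [e1, e2, max_eq_right h]
    set c := θ - a - b with hc
    have hc3 : c ≤ 1 / 3 := by linarith
    have ha3 : a ≤ 1 / 3 := by linarith
    have hb3 : b ≤ 1 / 3 := by linarith
    have e : a * b * (c * (c + κ)) * ((b + κ) * (a + κ)) = a ^ 2 * (b ^ 2 * c ^ 2) +
        κ * (a * b * c * (a * b + b * c + c * a + κ * (a + b + c) + κ ^ 2)) := by ring
    rw [e]
    have h1 : a * b * c ≤ 1 / 27 := by
      calc a * b * c ≤ 1 / 3 * (1 / 3) * (1 / 3) :=
            mul_le_mul (mul_le_mul ha3 hb3 hb.le (by norm_num)) hc3 h (by norm_num)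
        _ = 1 / 27 := by norm_num
    have h2 : a * b + b * c + c * a + κ * (a + b + c) + κ ^ 2 ≤ 3 := by
      have t1 : a * b ≤ 1 / 3 * (1 / 3) := mul_le_mul ha3 hb3 hb.le (by norm_num)
      have t2 : b * c ≤ 1 / 3 * (1 / 3) := mul_le_mul hb3 hc3 h (by norm_num)
      have t3 : c * a ≤ 1 / 3 * (1 / 3) := mul_le_mul hc3 ha3 ha.le (by norm_num)
      have t4 : κ * (a + b + c) ≤ 1 * 1 :=
        mul_le_mul hκ1 (by linarith) (by linarith) (by norm_num)
      have t5 : κ ^ 2 ≤ 1 := pow_le_one₀ hκ hκ1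
      linarith
    have h3 : a * b * c * (a * b + b * c + c * a + κ * (a + b + c) + κ ^ 2) ≤ 1 := by
      calc a * b * c * (a * b + b * c + c * a + κ * (a + b + c) + κ ^ 2) ≤ 1 / 27 * 3 :=
            mul_le_mul h1 h2 (by positivity) (by norm_num)
        _ ≤ 1 := by norm_num
    have h4 := mul_le_mul_of_nonneg_left h3 hκ
    linarith

end ShD

open ShD in
theorem shell_D {θ δ : ℝ} (hδ : 0 < δ) (hδθ : δ < θ) (hθ : 3 * θ < 1) (hδ1 : δ ≤ 1 / 2) :
    LF 4 (fun s => ∏ i, hat θ δ (s i)) ≤ (δ / 2) ^ 4 / 2 * (θ ^ 8 / 5040 + 16 * δ) := by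
  have hθ0 : 0 ≤ θ := by linarith
  have hG : Continuous fun s : Fin 4 → ℝ => ∏ i, hat θ δ (s i) :=
    continuous_finsetProd _ fun i _ => (hat_cont θ δ).comp (continuous_apply i)
  have hB : ∀ s : Fin 4 → ℝ, (∃ i, θ ≤ s i) → ∏ i, hat θ δ (s i) = 0 := by
    rintro s ⟨i, hi⟩
    refine Finset.prod_eq_zero (Finset.mem_univ i) ?_
    by_contra h
    linarith [(hat_supp hδ h).2]
  rw [LF_four hG hB]
  set E1 := cv θ δ (rh θ δ) with hE1
  set E2 := cv θ δ E1 with hE2
  set E3 := cv θ δ E2 with hE3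
  have i0 : Integrable (rh θ δ) := rh_integrable hδ
  have n0 : ∀ u, 0 ≤ rh θ δ u := rh_nonneg θ δ
  have i1' : Integrable E1 := cv_integrable hδ i0
  have n1 : ∀ u, 0 ≤ E1 u := cv_nonneg n0
  have i2 : Integrable E2 := cv_integrable hδ i1'
  have n2 : ∀ u, 0 ≤ E2 u := cv_nonneg n1
  have i3 : Integrable E3 := cv_integrable hδ i2
  have n3 : ∀ u, 0 ≤ E3 u := cv_nonneg n2
  have t3 : ∫ u, E3 u = (δ / 2) ^ 4 := by
    rw [hE3, cv_integral hδ i2, hE2, cv_integral hδ i1', hE1, cv_integral hδ i0, rh_integral hδ]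
    ring
  -- the integrand
  set F : ℝ → ℝ → ℝ → ℝ → ℝ → ℝ → ℝ := fun a b c x y z => a * b * c * (x * y * z) *
    ∏ i, hat θ δ ((![a + b + x, a + c + y, b + c + z, x + y + z] : Fin 4 → ℝ) i) with hF
  have hFe : ∀ a b c x y z, F a b c x y z = a * b * c * (x * y * z) * (hat θ δ (a + b + x) *
      hat θ δ (a + c + y) * hat θ δ (b + c + z) * hat θ δ (x + y + z)) := by
    intro a b c x y z
    simp only [hF, Fin.prod_univ_four]
    simp
  have hF0 : ∀ a b c x y z, 0 < a → 0 < b → 0 < c → 0 < x → 0 < y → 0 < z →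
      0 ≤ F a b c x y z := by
    intro a b c x y z ha hb hc hx hy hz
    rw [hFe]
    have m1 := hat_nonneg θ δ (a + b + x)
    have m2 := hat_nonneg θ δ (a + c + y)
    have m3 := hat_nonneg θ δ (b + c + z)
    have m4 := hat_nonneg θ δ (x + y + z)
    positivity
  have hM0 : ∀ a b, 0 < a → 0 < b → 0 ≤ Mw θ (2 * δ) a b :=
    fun a b ha hb => Mw_nonneg (by linarith) ha.le hb.le
  -- z
  have sz : ∀ a b c x y, 0 < a → 0 < b → 0 < c → 0 < x → 0 < y →
      0 ≤ ∫ z in Ioi (0 : ℝ), F a b c x y z ∧ ∫ z in Ioi (0 : ℝ), F a b c x y z ≤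
        Mw θ (2 * δ) a b * (hat θ δ (a + b + x) * (hat θ δ (a + c + y) *
          E1 (b + c - x - y))) := by
    intro a b c x y ha hb hc hx hy
    refine ⟨setIntegral_nonneg measurableSet_Ioi fun z hz => hF0 a b c x y z ha hb hc hx hy hz, ?_⟩
    obtain ⟨j1, j2⟩ := cv_step (θ := θ) hδ i0 n0 (b + c) (b + c - x - y - (b + c))
    have g : Integrable (fun z => Mw θ (2 * δ) a b * (hat θ δ (a + b + x) * (hat θ δ (a + c + y) *
        (hat θ δ (b + c + z) * rh θ δ (b + c - x - y - (b + c) - z))))) :=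
      ((j1.const_mul _).const_mul _).const_mul _
    calc ∫ z in Ioi (0 : ℝ), F a b c x y z ≤ ∫ z in Ioi (0 : ℝ),
          Mw θ (2 * δ) a b * (hat θ δ (a + b + x) * (hat θ δ (a + c + y) *
          (hat θ δ (b + c + z) * rh θ δ (b + c - x - y - (b + c) - z)))) := by
          refine integral_mono_of_nonneg ?_ g.restrict ?_
          · exact (ae_restrict_iff' measurableSet_Ioi).mpr (Eventually.of_forall fun z hz =>
              hF0 a b c x y z ha hb hc hx hy hz)
          · refine (ae_restrict_iff' measurableSet_Ioi).mpr (Eventually.of_forall fun z hz => ?_)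
            simp only
            rw [hFe]
            have := point (θ := θ) hδ ha hb hc hx hy (mem_Ioi.mp hz)
            have e : b + c - x - y - (b + c) - z = b + c - x - y - (b + c + z) := by ring
            rw [e]
            exact this
      _ = Mw θ (2 * δ) a b * (hat θ δ (a + b + x) * (hat θ δ (a + c + y) *
          ∫ z in Ioi (0 : ℝ), hat θ δ (b + c + z) * rh θ δ (b + c - x - y - (b + c) - z))) := by
          rw [integral_const_mul, integral_const_mul, integral_const_mul]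
      _ ≤ _ := by
          have e : b + c + (b + c - x - y - (b + c)) = b + c - x - y := by ring
          rw [e] at j2
          exact mul_le_mul_of_nonneg_left (mul_le_mul_of_nonneg_left
            (mul_le_mul_of_nonneg_left j2 (hat_nonneg _ _ _)) (hat_nonneg _ _ _)) (hM0 a b ha hb)
  -- y
  have sy : ∀ a b c x, 0 < a → 0 < b → 0 < c → 0 < x →
      0 ≤ ∫ y in Ioi (0 : ℝ), ∫ z in Ioi (0 : ℝ), F a b c x y z ∧
      ∫ y in Ioi (0 : ℝ), ∫ z in Ioi (0 : ℝ), F a b c x y z ≤
        Mw θ (2 * δ) a b * (hat θ δ (a + b + x) * E2 (a + b + 2 * c - x)) := by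
    intro a b c x ha hb hc hx
    refine ⟨setIntegral_nonneg measurableSet_Ioi fun y hy => (sz a b c x y ha hb hc hx hy).1, ?_⟩
    obtain ⟨j1, j2⟩ := cv_step (θ := θ) hδ i1' n1 (a + c) (b + c - x)
    have g : Integrable (fun y => Mw θ (2 * δ) a b * (hat θ δ (a + b + x) * (hat θ δ (a + c + y) *
        E1 (b + c - x - y)))) := (j1.const_mul _).const_mul _
    calc ∫ y in Ioi (0 : ℝ), ∫ z in Ioi (0 : ℝ), F a b c x y z ≤ ∫ y in Ioi (0 : ℝ),
          Mw θ (2 * δ) a b * (hat θ δ (a + b + x) * (hat θ δ (a + c + y) *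
          E1 (b + c - x - y))) := by
          refine integral_mono_of_nonneg ?_ g.restrict ?_
          · exact (ae_restrict_iff' measurableSet_Ioi).mpr (Eventually.of_forall fun y hy =>
              (sz a b c x y ha hb hc hx hy).1)
          · exact (ae_restrict_iff' measurableSet_Ioi).mpr (Eventually.of_forall fun y hy =>
              (sz a b c x y ha hb hc hx hy).2)
      _ = Mw θ (2 * δ) a b * (hat θ δ (a + b + x) *
          ∫ y in Ioi (0 : ℝ), hat θ δ (a + c + y) * E1 (b + c - x - y)) := by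
          rw [integral_const_mul, integral_const_mul]
      _ ≤ _ := by
          have e : a + c + (b + c - x) = a + b + 2 * c - x := by ring
          rw [e] at j2
          exact mul_le_mul_of_nonneg_left
            (mul_le_mul_of_nonneg_left j2 (hat_nonneg _ _ _)) (hM0 a b ha hb)
  -- x
  have sx : ∀ a b c, 0 < a → 0 < b → 0 < c →
      0 ≤ ∫ x in Ioi (0 : ℝ), ∫ y in Ioi (0 : ℝ), ∫ z in Ioi (0 : ℝ), F a b c x y z ∧
      ∫ x in Ioi (0 : ℝ), ∫ y in Ioi (0 : ℝ), ∫ z in Ioi (0 : ℝ), F a b c x y z ≤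
        Mw θ (2 * δ) a b * E3 (2 * (a + b + c)) := by
    intro a b c ha hb hc
    refine ⟨setIntegral_nonneg measurableSet_Ioi fun x hx => (sy a b c x ha hb hc hx).1, ?_⟩
    obtain ⟨j1, j2⟩ := cv_step (θ := θ) hδ i2 n2 (a + b) (a + b + 2 * c)
    have g : Integrable (fun x => Mw θ (2 * δ) a b * (hat θ δ (a + b + x) *
        E2 (a + b + 2 * c - x))) := j1.const_mul _
    calc ∫ x in Ioi (0 : ℝ), ∫ y in Ioi (0 : ℝ), ∫ z in Ioi (0 : ℝ), F a b c x y z ≤
          ∫ x in Ioi (0 : ℝ), Mw θ (2 * δ) a b * (hat θ δ (a + b + x) *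
          E2 (a + b + 2 * c - x)) := by
          refine integral_mono_of_nonneg ?_ g.restrict ?_
          · exact (ae_restrict_iff' measurableSet_Ioi).mpr (Eventually.of_forall fun x hx =>
              (sy a b c x ha hb hc hx).1)
          · exact (ae_restrict_iff' measurableSet_Ioi).mpr (Eventually.of_forall fun x hx =>
              (sy a b c x ha hb hc hx).2)
      _ = Mw θ (2 * δ) a b *
          ∫ x in Ioi (0 : ℝ), hat θ δ (a + b + x) * E2 (a + b + 2 * c - x) := by
          rw [integral_const_mul]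
      _ ≤ _ := by
          have e : a + b + (a + b + 2 * c) = 2 * (a + b + c) := by ring
          rw [e] at j2
          exact mul_le_mul_of_nonneg_left j2 (hM0 a b ha hb)
  -- c
  have sc : ∀ a b, 0 < a → 0 < b →
      0 ≤ ∫ c in Ioi (0 : ℝ), ∫ x in Ioi (0 : ℝ), ∫ y in Ioi (0 : ℝ), ∫ z in Ioi (0 : ℝ),
        F a b c x y z ∧
      ∫ c in Ioi (0 : ℝ), ∫ x in Ioi (0 : ℝ), ∫ y in Ioi (0 : ℝ), ∫ z in Ioi (0 : ℝ),
        F a b c x y z ≤ Mw θ (2 * δ) a b * ((δ / 2) ^ 4 / 2) := by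
    intro a b ha hb
    refine ⟨setIntegral_nonneg measurableSet_Ioi fun c hc => (sx a b c ha hb hc).1, ?_⟩
    have j0 : Integrable fun c => E3 (2 * (a + b + c)) := by
      have := (i3.comp_mul_left' (R := 2) (by norm_num)).comp_add_left (a + b)
      exact this
    have j3 : ∫ c, E3 (2 * (a + b + c)) = (δ / 2) ^ 4 / 2 := by
      rw [integral_add_left_eq_self (fun c => E3 (2 * c)) (a + b),
        Measure.integral_comp_mul_left (fun c => E3 c) 2, t3]
      rw [smul_eq_mul, abs_of_pos (by norm_num : (0 : ℝ) < 2⁻¹)]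
      ring
    have g : Integrable (fun c => Mw θ (2 * δ) a b * E3 (2 * (a + b + c))) := j0.const_mul _
    calc ∫ c in Ioi (0 : ℝ), ∫ x in Ioi (0 : ℝ), ∫ y in Ioi (0 : ℝ), ∫ z in Ioi (0 : ℝ),
          F a b c x y z ≤ ∫ c in Ioi (0 : ℝ), Mw θ (2 * δ) a b * E3 (2 * (a + b + c)) := by
          refine integral_mono_of_nonneg ?_ g.restrict ?_
          · exact (ae_restrict_iff' measurableSet_Ioi).mpr (Eventually.of_forall fun c hc =>
              (sx a b c ha hb hc).1)
          · exact (ae_restrict_iff' measurableSet_Ioi).mpr (Eventually.of_forall fun c hc =>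
              (sx a b c ha hb hc).2)
      _ ≤ ∫ c, Mw θ (2 * δ) a b * E3 (2 * (a + b + c)) :=
          setIntegral_le_integral g (Eventually.of_forall fun c =>
            mul_nonneg (hM0 a b ha hb) (n3 _))
      _ = _ := by rw [integral_const_mul, j3]
  set D : ℝ := (δ / 2) ^ 4 / 2 with hD
  have hD0 : 0 ≤ D := by positivity
  -- b
  have sb : ∀ a, 0 < a →
      0 ≤ ∫ b in Ioi (0 : ℝ), ∫ c in Ioi (0 : ℝ), ∫ x in Ioi (0 : ℝ), ∫ y in Ioi (0 : ℝ),
        ∫ z in Ioi (0 : ℝ), F a b c x y z ∧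
      ∫ b in Ioi (0 : ℝ), ∫ c in Ioi (0 : ℝ), ∫ x in Ioi (0 : ℝ), ∫ y in Ioi (0 : ℝ),
        ∫ z in Ioi (0 : ℝ), F a b c x y z ≤
        D * (a ^ 2 * ((max 0 (θ - a)) ^ 5 / 30) + 2 * δ * i1 a) := by
    intro a ha
    refine ⟨setIntegral_nonneg measurableSet_Ioi fun b hb => (sc a b ha hb).1, ?_⟩
    have q1 : Integrable (fun b => a ^ 2 * (b ^ 2 * (max 0 (θ - a - b)) ^ 2))
        (volume.restrict (Ioi (0 : ℝ))) := (beta1_int (θ - a)).const_mul _
    have q2 : Integrable (fun b => 2 * δ * (i1 a * i1 b)) (volume.restrict (Ioi (0 : ℝ))) :=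
      (i1_int.const_mul _).const_mul _
    have g : Integrable (fun b => D * (a ^ 2 * (b ^ 2 * (max 0 (θ - a - b)) ^ 2) +
        2 * δ * (i1 a * i1 b))) (volume.restrict (Ioi (0 : ℝ))) := (q1.add q2).const_mul _
    calc ∫ b in Ioi (0 : ℝ), ∫ c in Ioi (0 : ℝ), ∫ x in Ioi (0 : ℝ), ∫ y in Ioi (0 : ℝ),
        ∫ z in Ioi (0 : ℝ), F a b c x y z ≤
          ∫ b in Ioi (0 : ℝ), D * (a ^ 2 * (b ^ 2 * (max 0 (θ - a - b)) ^ 2) +
            2 * δ * (i1 a * i1 b)) := by
          refine integral_mono_of_nonneg ?_ g ?_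
          · exact (ae_restrict_iff' measurableSet_Ioi).mpr (Eventually.of_forall fun b hb =>
              (sc a b ha hb).1)
          · refine (ae_restrict_iff' measurableSet_Ioi).mpr (Eventually.of_forall fun b hb => ?_)
            refine (sc a b ha hb).2.trans ?_
            rw [mul_comm]
            exact mul_le_mul_of_nonneg_left (Mw_le (by linarith) (by linarith) hθ ha hb) hD0
      _ = D * (a ^ 2 * (∫ b in Ioi (0 : ℝ), b ^ 2 * (max 0 (θ - a - b)) ^ 2) +
            2 * δ * (i1 a * ∫ b in Ioi (0 : ℝ), i1 b)) := by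
          rw [integral_const_mul, integral_add q1 q2, integral_const_mul, integral_const_mul,
            integral_const_mul]
      _ = _ := by rw [beta1, i1_integral, mul_one]
  -- a
  have q1 : Integrable (fun a : ℝ => a ^ 2 * ((max 0 (θ - a)) ^ 5 / 30))
      (volume.restrict (Ioi (0 : ℝ))) := beta2_int θ
  have q2 : Integrable (fun a => 2 * δ * i1 a) (volume.restrict (Ioi (0 : ℝ))) :=
    i1_int.const_mul _
  have g : Integrable (fun a => D * (a ^ 2 * ((max 0 (θ - a)) ^ 5 / 30) + 2 * δ * i1 a))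
      (volume.restrict (Ioi (0 : ℝ))) := (q1.add q2).const_mul _
  calc ∫ a in Ioi (0 : ℝ), ∫ b in Ioi (0 : ℝ), ∫ c in Ioi (0 : ℝ), ∫ x in Ioi (0 : ℝ),
        ∫ y in Ioi (0 : ℝ), ∫ z in Ioi (0 : ℝ), F a b c x y z
      ≤ ∫ a in Ioi (0 : ℝ), D * (a ^ 2 * ((max 0 (θ - a)) ^ 5 / 30) + 2 * δ * i1 a) := by
        refine integral_mono_of_nonneg ?_ g ?_
        · exact (ae_restrict_iff' measurableSet_Ioi).mpr (Eventually.of_forall fun a ha =>
            (sb a ha).1)
        · exact (ae_restrict_iff' measurableSet_Ioi).mpr (Eventually.of_forall fun a ha =>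
            (sb a ha).2)
    _ = D * (θ ^ 8 / 5040 + 2 * δ) := by
        rw [integral_const_mul, integral_add q1 q2, integral_const_mul, beta2 hθ0, i1_integral,
          mul_one]
    _ ≤ D * (θ ^ 8 / 5040 + 16 * δ) := by
        refine mul_le_mul_of_nonneg_left ?_ hD0
        linarith

end Pool.Agent.EvenMoment
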