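import Pool.Agent.Lib_MP_112ba8_e.Defs
import Pool.Agent.Lib_MP_112ba8_e.Eta

/-!
Piece P13b: lower bound of the numerator functional and positivity of the denominator functional.
-/

namespace Pool.Agent.EvenMoment

open Filter Topology MeasureTheory
open scoped Pointwise

namespace ShellN

/-- the edges of the complete graph on four vertices: the triangle and the three other edges -/
def edFun : Fin 3 ⊕ Fin 3 → Ed 4 :=
  Sum.elim ![⟨(0, 1), by decide⟩, ⟨(0, 2), by decide⟩, ⟨(1, 2), by decide⟩]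
    ![⟨(0, 3), by decide⟩, ⟨(1, 3), by decide⟩, ⟨(2, 3), by decide⟩]

/-- the same as an equivalence -/
noncomputable def edEquiv : Fin 3 ⊕ Fin 3 ≃ Ed 4 :=
  Equiv.ofBijective edFun (by decide)

/-- the change of variables -/
noncomputable def YY : ((Fin 3 → ℝ) × (Fin 3 → ℝ)) ≃ᵐ (Ed 4 → ℝ) :=
  (MeasurableEquiv.sumPiEquivProdPi (fun _ : Fin 3 ⊕ Fin 3 => ℝ)).symm.trans
    (MeasurableEquiv.piCongrLeft (fun _ : Ed 4 => ℝ) edEquiv)

lemma YY_mp : MeasurePreserving YY volume volume :=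
  (volume_measurePreserving_sumPiEquivProdPi_symm (fun _ : Fin 3 ⊕ Fin 3 => ℝ)).trans
    (volume_measurePreserving_piCongrLeft (fun _ : Ed 4 => ℝ) edEquiv)

lemma YY_inl (z : (Fin 3 → ℝ) × (Fin 3 → ℝ)) (i : Fin 3) : YY z (edEquiv (Sum.inl i)) = z.1 i := by
  unfold YY
  rw [MeasurableEquiv.trans_apply, MeasurableEquiv.coe_piCongrLeft, Equiv.piCongrLeft_apply_apply]
  rfl

lemma YY_inr (z : (Fin 3 → ℝ) × (Fin 3 → ℝ)) (i : Fin 3) : YY z (edEquiv (Sum.inr i)) = z.2 i := by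
  unfold YY
  rw [MeasurableEquiv.trans_apply, MeasurableEquiv.coe_piCongrLeft, Equiv.piCongrLeft_apply_apply]
  rfl

lemma forall_ed (P : Ed 4 → Prop) :
    (∀ e, P e) ↔ (∀ i, P (edEquiv (Sum.inl i))) ∧ ∀ i, P (edEquiv (Sum.inr i)) := by
  constructor
  · intro h
    exact ⟨fun i => h _, fun i => h _⟩
  · rintro ⟨h1, h2⟩ e
    obtain ⟨s, rfl⟩ := edEquiv.surjective e
    rcases s with i | i
    · exact h1 i
    · exact h2 i

lemma sum_ed (F : Ed 4 → ℝ) :
    ∑ e, F e = (F (edEquiv (Sum.inl 0)) + F (edEquiv (Sum.inl 1)) + F (edEquiv (Sum.inl 2))) +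
      (F (edEquiv (Sum.inr 0)) + F (edEquiv (Sum.inr 1)) + F (edEquiv (Sum.inr 2))) := by
  rw [← Equiv.sum_comp edEquiv, Fintype.sum_sum_type, Fin.sum_univ_three, Fin.sum_univ_three]

lemma prod_ed (F : Ed 4 → ℝ) :
    ∏ e, F e = (F (edEquiv (Sum.inl 0)) * F (edEquiv (Sum.inl 1)) * F (edEquiv (Sum.inl 2))) *
      (F (edEquiv (Sum.inr 0)) * F (edEquiv (Sum.inr 1)) * F (edEquiv (Sum.inr 2))) := by
  rw [← Equiv.prod_comp edEquiv, Fintype.prod_sum_type, Fin.prod_univ_three, Fin.prod_univ_three]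

lemma ed_inl0 : (edEquiv (Sum.inl 0)).1 = (0, 1) := rfl
lemma ed_inl1 : (edEquiv (Sum.inl 1)).1 = (0, 2) := rfl
lemma ed_inl2 : (edEquiv (Sum.inl 2)).1 = (1, 2) := rfl
lemma ed_inr0 : (edEquiv (Sum.inr 0)).1 = (0, 3) := rfl
lemma ed_inr1 : (edEquiv (Sum.inr 1)).1 = (1, 3) := rfl
lemma ed_inr2 : (edEquiv (Sum.inr 2)).1 = (2, 3) := rfl

lemma vs_YY (z : (Fin 3 → ℝ) × (Fin 3 → ℝ)) :
    vs (YY z) = ![z.1 0 + z.1 1 + z.2 0, z.1 0 + z.1 2 + z.2 1, z.1 1 + z.1 2 + z.2 2,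
      z.2 0 + z.2 1 + z.2 2] := by
  funext i
  unfold vs
  rw [sum_ed]
  simp only [YY_inl, YY_inr, ed_inl0, ed_inl1, ed_inl2, ed_inr0, ed_inr1, ed_inr2]
  fin_cases i <;> simp

/-- the domain of the new variables -/
def SS : Set ((Fin 3 → ℝ) × (Fin 3 → ℝ)) := {p | ∀ i, 0 < p i} ×ˢ {q | ∀ i, 0 < q i}

/-- the integrand in the new variables -/
noncomputable def FF (G : (Fin 4 → ℝ) → ℝ) (p q : Fin 3 → ℝ) : ℝ :=
  (p 0 * p 1 * p 2) * (q 0 * q 1 * q 2) *
    G ![p 0 + p 1 + q 0, p 0 + p 2 + q 1, p 1 + p 2 + q 2, q 0 + q 1 + q 2]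

lemma SS_pre : YY ⁻¹' {y : Ed 4 → ℝ | ∀ e, 0 < y e} = SS := by
  ext z
  simp only [SS, Set.mem_preimage, Set.mem_ofPred_eq, Set.mem_prod]
  rw [forall_ed]
  simp only [YY_inl, YY_inr]

lemma measurableSet_orthant {ι : Type*} [Fintype ι] : MeasurableSet {y : ι → ℝ | ∀ e, 0 < y e} := by
  rw [Set.ofPred_forall]
  exact MeasurableSet.iInter fun e => measurableSet_lt measurable_const (measurable_pi_apply e)

theorem LF_prod (G : (Fin 4 → ℝ) → ℝ) : LF 4 G = ∫ z in SS, FF G z.1 z.2 := by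
  unfold LF
  rw [← SS_pre, ← YY_mp.setIntegral_preimage_emb YY.measurableEmbedding]
  refine setIntegral_congr_fun ?_ ?_
  · exact YY.measurable measurableSet_orthant
  · intro z _
    simp only [FF]
    rw [vs_YY, prod_ed]
    simp only [YY_inl, YY_inr]

lemma measurableSet_SS : MeasurableSet SS := measurableSet_orthant.prod measurableSet_orthant

lemma FF_cont {G : (Fin 4 → ℝ) → ℝ} (hG : Continuous G) :
    Continuous (fun z : (Fin 3 → ℝ) × (Fin 3 → ℝ) => FF G z.1 z.2) := by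
  unfold FF
  refine Continuous.mul (by fun_prop) (hG.comp ?_)
  refine continuous_pi fun i => ?_
  fin_cases i <;> simp <;> fun_prop

theorem FF_int {G : (Fin 4 → ℝ) → ℝ} (hG : Continuous G) {B : ℝ}
    (hB : ∀ s, (∃ i, B ≤ s i) → G s = 0) :
    IntegrableOn (fun z : (Fin 3 → ℝ) × (Fin 3 → ℝ) => FF G z.1 z.2) SS := by
  have h1 : IntegrableOn (fun z : (Fin 3 → ℝ) × (Fin 3 → ℝ) => FF G z.1 z.2)
      (Set.Icc (0, 0) ((fun _ => B), (fun _ => B))) :=
    (FF_cont hG).continuousOn.integrableOn_compact isCompact_Icc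
  refine h1.of_forall_sdiff_eq_zero measurableSet_SS ?_
  rintro ⟨p, q⟩ ⟨⟨hp, hq⟩, hz⟩
  simp only [Set.mem_ofPred_eq] at hp hq
  have hex : (∃ i, B ≤ p i) ∨ ∃ i, B ≤ q i := by
    by_contra hne
    push Not at hne
    apply hz
    refine ⟨⟨fun i => (hp i).le, fun i => (hq i).le⟩, ⟨fun i => (hne.1 i).le, fun i => (hne.2 i).le⟩⟩
  have hp0 := hp 0
  have hp1 := hp 1
  have hp2 := hp 2
  have hq0 := hq 0
  have hq1 := hq 1
  have hq2 := hq 2
  have h0 : G ![p 0 + p 1 + q 0, p 0 + p 2 + q 1, p 1 + p 2 + q 2, q 0 + q 1 + q 2] = 0 := by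
    apply hB
    rcases hex with ⟨i, hi⟩ | ⟨i, hi⟩
    · fin_cases i
      · refine ⟨0, ?_⟩
        simp at hi ⊢
        linarith
      · refine ⟨0, ?_⟩
        simp at hi ⊢
        linarith
      · refine ⟨1, ?_⟩
        simp at hi ⊢
        linarith
    · refine ⟨3, ?_⟩
      fin_cases i
      · simp at hi ⊢
        linarith
      · simp at hi ⊢
        linarith
      · simp at hi ⊢
        linarith
  simp only [FF, h0, mul_zero]

/-! ### The hat function -/

lemma hat_nonneg (θ δ s : ℝ) : 0 ≤ hat θ δ s := le_max_left _ _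

lemma hat_cont (θ δ : ℝ) : Continuous (hat θ δ) := by
  unfold hat
  fun_prop

lemma hat_zero_of_le {θ δ s : ℝ} (hδ : 0 < δ) (h : θ ≤ s) : hat θ δ s = 0 := by
  unfold hat
  have h1 : 0 ≤ 2 * (s - θ) / δ := by
    apply div_nonneg _ hδ.le
    linarith
  rw [abs_of_nonneg (by linarith)]
  exact max_eq_left (by linarith)

lemma hat_int {θ δ : ℝ} (hδ : 0 < δ) : ∫ s in (θ - δ)..θ, hat θ δ s = δ / 2 := by
  have h1 : ∀ s, hat θ δ s = (fun x : ℝ => max 0 (1 - |x|)) (2 / δ * s + (1 - 2 * θ / δ)) := by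
    intro s
    unfold hat
    have : 2 * (s - θ) / δ + 1 = 2 / δ * s + (1 - 2 * θ / δ) := by field_simp; ring
    rw [this]
  simp_rw [h1]
  rw [intervalIntegral.integral_comp_mul_add (fun x : ℝ => max 0 (1 - |x|))
    (show (2 / δ : ℝ) ≠ 0 by positivity)]
  have e1 : 2 / δ * (θ - δ) + (1 - 2 * θ / δ) = -1 := by field_simp; ring
  have e2 : 2 / δ * θ + (1 - 2 * θ / δ) = 1 := by field_simp; ring
  rw [e1, e2]
  have hc : Continuous (fun x : ℝ => max 0 (1 - |x|)) := by fun_prop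
  have h2 : ∫ x in (-1 : ℝ)..1, max 0 (1 - |x|) = 1 := by
    rw [← intervalIntegral.integral_add_adjacent_intervals (b := 0)
      (hc.intervalIntegrable _ _) (hc.intervalIntegrable _ _)]
    have e3 : ∫ x in (-1 : ℝ)..0, max 0 (1 - |x|) = ∫ x in (-1 : ℝ)..0, (1 + x) := by
      refine intervalIntegral.integral_congr fun x hx => ?_
      rw [Set.uIcc_of_le (by norm_num)] at hx
      rw [abs_of_nonpos hx.2, max_eq_right (by linarith [hx.1])]
      ring
    have e4 : ∫ x in (0 : ℝ)..1, max 0 (1 - |x|) = ∫ x in (0 : ℝ)..1, (1 - x) := by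
      refine intervalIntegral.integral_congr fun x hx => ?_
      rw [Set.uIcc_of_le (by norm_num)] at hx
      rw [abs_of_nonneg hx.1, max_eq_right (by linarith [hx.2])]
    rw [e3, e4, intervalIntegral.integral_add (by simp) (by simp),
      intervalIntegral.integral_sub (by simp) (by simp)]
    simp
    norm_num
  rw [h2]
  simp

/-- the one dimensional weight -/
noncomputable def KK (θ δ u : ℝ) : ℝ := ∫ t in Set.Ioi (0 : ℝ), t * hat θ δ (u + t)

lemma KK_integrable {θ δ : ℝ} (hδ : 0 < δ) (u : ℝ) :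
    IntegrableOn (fun t => t * hat θ δ (u + t)) (Set.Ioi (0 : ℝ)) := by
  have hc : Continuous (fun t => t * hat θ δ (u + t)) :=
    continuous_id.mul ((hat_cont θ δ).comp (continuous_const.add continuous_id))
  have h1 : IntegrableOn (fun t => t * hat θ δ (u + t)) (Set.Icc 0 (θ - u)) :=
    hc.continuousOn.integrableOn_compact isCompact_Icc
  refine h1.of_forall_sdiff_eq_zero measurableSet_Ioi ?_
  rintro t ⟨ht, ht2⟩
  simp only [Set.mem_Ioi] at ht
  have h2 : θ - u ≤ t := by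
    by_contra hne
    push Not at hne
    exact ht2 ⟨ht.le, hne.le⟩
  rw [hat_zero_of_le hδ (by linarith), mul_zero]

lemma KK_nonneg (θ δ u : ℝ) : 0 ≤ KK θ δ u :=
  setIntegral_nonneg measurableSet_Ioi fun _ ht => mul_nonneg (le_of_lt ht) (hat_nonneg _ _ _)

lemma KK_ge {θ δ : ℝ} (hδ : 0 < δ) (u : ℝ) : (δ / 2) * max 0 (θ - δ - u) ≤ KK θ δ u := by
  rcases le_or_gt (θ - δ) u with h | h
  · rw [max_eq_left (by linarith), mul_zero]
    exact KK_nonneg _ _ _
  rw [max_eq_right (by linarith)]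
  have h1 : ∫ t in Set.Ioc (θ - δ - u) (θ - u), t * hat θ δ (u + t) ≤ KK θ δ u := by
    unfold KK
    refine setIntegral_mono_set (KK_integrable hδ u) ?_ ?_
    · filter_upwards [ae_restrict_mem measurableSet_Ioi] with t ht
      exact mul_nonneg (le_of_lt ht) (hat_nonneg _ _ _)
    · exact LE.le.eventuallyLE (fun t ht => lt_trans (by linarith) ht.1)
  have hc : Continuous (fun t => hat θ δ (u + t)) :=
    (hat_cont θ δ).comp (continuous_const.add continuous_id)
  have h2 : ∫ t in Set.Ioc (θ - δ - u) (θ - u), (θ - δ - u) * hat θ δ (u + t) ≤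
      ∫ t in Set.Ioc (θ - δ - u) (θ - u), t * hat θ δ (u + t) := by
    refine setIntegral_mono_on ?_ ?_ measurableSet_Ioc ?_
    · exact ((continuous_const.mul hc).integrableOn_Icc (a := θ - δ - u) (b := θ - u)).mono_set
        Set.Ioc_subset_Icc_self
    · exact ((continuous_id.mul hc).integrableOn_Icc (a := θ - δ - u) (b := θ - u)).mono_set
        Set.Ioc_subset_Icc_self
    · intro t ht
      exact mul_le_mul_of_nonneg_right ht.1.le (hat_nonneg _ _ _)
  have h3 : ∫ t in Set.Ioc (θ - δ - u) (θ - u), (θ - δ - u) * hat θ δ (u + t) =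
      (θ - δ - u) * (δ / 2) := by
    rw [← intervalIntegral.integral_of_le (by linarith), intervalIntegral.integral_const_mul,
      intervalIntegral.integral_comp_add_left (fun s => hat θ δ s)]
    rw [show u + (θ - δ - u) = θ - δ by ring, show u + (θ - u) = θ by ring, hat_int hδ]
  linarith

/-! ### The inner integral -/

/-- the vertex sums inside the triangle -/
def uu (p : Fin 3 → ℝ) : Fin 3 → ℝ := ![p 0 + p 1, p 0 + p 2, p 1 + p 2]

lemma prod_KK (θ δ : ℝ) (u : Fin 3 → ℝ) :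
    ∫ q in {q : Fin 3 → ℝ | ∀ i, 0 < q i}, ∏ i, (q i * hat θ δ (u i + q i)) =
      ∏ i, KK θ δ (u i) := by
  have h1 : {q : Fin 3 → ℝ | ∀ i, 0 < q i} = Set.univ.pi fun _ : Fin 3 => Set.Ioi (0 : ℝ) := by
    ext q
    simp
  rw [h1, volume_pi, Measure.restrict_pi_pi]
  exact integral_fintype_prod_eq_prod (fun i t => t * hat θ δ (u i + t))

lemma Gz_cont {ω : ℝ → ℝ} (hω : Continuous ω) (j : ℕ) : Continuous (Gz ω j) := by
  unfold Gz cut
  refine Continuous.mul ?_ (by fun_prop)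
  exact continuous_finsetProd _ fun i _ => hω.comp (continuous_apply _)

lemma Gz_supp {θ δ : ℝ} (hδ : 0 < δ) (hθ : θ ≤ 2) (s : Fin 4 → ℝ) (h : ∃ i, 2 ≤ s i) :
    Gz (hat θ δ) 3 s = 0 := by
  obtain ⟨i, hi⟩ := h
  unfold Gz
  induction i using Fin.lastCases with
  | last =>
    have : cut (s (Fin.last 3)) = 0 := by
      unfold cut
      rw [min_eq_right (by linarith), max_eq_left (by linarith)]
    rw [this, mul_zero, mul_zero]
  | cast i =>
    rw [Finset.prod_eq_zero (Finset.mem_univ i) (hat_zero_of_le hδ (by linarith)), zero_mul]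

lemma FF_ge {θ δ : ℝ} (hδ : 0 < δ) (hθ : 3 * θ < 1) {p q : Fin 3 → ℝ} (hp : ∀ i, 0 < p i)
    (hq : ∀ i, 0 < q i) :
    (p 0 * p 1 * p 2) * (2 * (p 0 + p 1 + p 2)) * ∏ i, (q i * hat θ δ (uu p i + q i)) ≤
      FF (Gz (hat θ δ) 3) p q := by
  have hp0 := hp 0
  have hp1 := hp 1
  have hp2 := hp 2
  have hq0 := hq 0
  have hq1 := hq 1
  have hq2 := hq 2
  have e : FF (Gz (hat θ δ) 3) p q = (p 0 * p 1 * p 2) * (q 0 * q 1 * q 2) *
      ((hat θ δ (p 0 + p 1 + q 0) * hat θ δ (p 0 + p 2 + q 1) * hat θ δ (p 1 + p 2 + q 2)) *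
        ((1 - (q 0 + q 1 + q 2)) * cut (q 0 + q 1 + q 2))) := by
    unfold FF Gz
    rw [Fin.prod_univ_three]
    rfl
  have e2 : ∏ i, (q i * hat θ δ (uu p i + q i)) = (q 0 * q 1 * q 2) *
      (hat θ δ (p 0 + p 1 + q 0) * hat θ δ (p 0 + p 2 + q 1) * hat θ δ (p 1 + p 2 + q 2)) := by
    rw [Fin.prod_univ_three]
    simp only [uu, Matrix.cons_val_zero, Matrix.cons_val_one, Matrix.cons_val]
    ring
  rw [e, e2]
  have n0 := hat_nonneg θ δ (p 0 + p 1 + q 0)
  have n1 := hat_nonneg θ δ (p 0 + p 2 + q 1)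
  have n2 := hat_nonneg θ δ (p 1 + p 2 + q 2)
  set H := hat θ δ (p 0 + p 1 + q 0) * hat θ δ (p 0 + p 2 + q 1) * hat θ δ (p 1 + p 2 + q 2)
    with hH
  have hH0 : 0 ≤ H := mul_nonneg (mul_nonneg n0 n1) n2
  have key : 2 * (p 0 + p 1 + p 2) * H ≤ H * ((1 - (q 0 + q 1 + q 2)) * cut (q 0 + q 1 + q 2)) := by
    rcases hH0.eq_or_lt with h0 | h0
    · rw [← h0]
      simp
    have m0 : p 0 + p 1 + q 0 < θ := by
      by_contra hne
      rw [hH, hat_zero_of_le hδ (not_lt.mp hne)] at h0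
      simp at h0
    have m1 : p 0 + p 2 + q 1 < θ := by
      by_contra hne
      rw [hH, hat_zero_of_le hδ (not_lt.mp hne)] at h0
      simp at h0
    have m2 : p 1 + p 2 + q 2 < θ := by
      by_contra hne
      rw [hH, hat_zero_of_le hδ (not_lt.mp hne)] at h0
      simp at h0
    have hc : cut (q 0 + q 1 + q 2) = 1 := by
      unfold cut
      rw [min_eq_left (by linarith), max_eq_right (by norm_num)]
    rw [hc, mul_one, mul_comm H]
    exact mul_le_mul_of_nonneg_right (by linarith) hH0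
  have hP : 0 ≤ p 0 * p 1 * p 2 := by positivity
  have hQ : 0 ≤ q 0 * q 1 * q 2 := by positivity
  calc (p 0 * p 1 * p 2) * (2 * (p 0 + p 1 + p 2)) * (q 0 * q 1 * q 2 * H)
      = (p 0 * p 1 * p 2) * (q 0 * q 1 * q 2) * (2 * (p 0 + p 1 + p 2) * H) := by ring
    _ ≤ _ := mul_le_mul_of_nonneg_left key (mul_nonneg hP hQ)

/-- the function of the triangle variables -/
noncomputable def mm (l : ℝ) (p : Fin 3 → ℝ) : ℝ :=
  (p 0 * p 1 * p 2) * (p 0 + p 1 + p 2) *
    (max 0 (l - (p 0 + p 1)) * max 0 (l - (p 0 + p 2)) * max 0 (l - (p 1 + p 2)))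

lemma mm_cont (l : ℝ) : Continuous (mm l) := by
  unfold mm
  fun_prop

lemma mm_nonneg {l : ℝ} {p : Fin 3 → ℝ} (hp : ∀ i, 0 < p i) : 0 ≤ mm l p := by
  have hp0 := hp 0
  have hp1 := hp 1
  have hp2 := hp 2
  unfold mm
  have n0 : 0 ≤ max 0 (l - (p 0 + p 1)) := le_max_left _ _
  have n1 : 0 ≤ max 0 (l - (p 0 + p 2)) := le_max_left _ _
  have n2 : 0 ≤ max 0 (l - (p 1 + p 2)) := le_max_left _ _
  positivity

theorem LF_ge {θ δ : ℝ} (hδ : 0 < δ) (hδθ : δ < θ) (hθ : 3 * θ < 1) :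
    (δ / 2) ^ 3 * (2 * ∫ p in {p : Fin 3 → ℝ | ∀ i, 0 < p i}, mm (θ - δ) p) ≤
      LF 4 (Gz (hat θ δ) 3) := by
  have hG : Continuous (Gz (hat θ δ) 3) := Gz_cont (hat_cont θ δ) 3
  have hint := FF_int hG (B := 2) (fun s h => Gz_supp hδ (by linarith) s h)
  rw [LF_prod]
  unfold SS at hint ⊢
  rw [Measure.volume_eq_prod] at hint ⊢
  rw [setIntegral_prod _ hint]
  rw [← integral_const_mul, ← integral_const_mul]
  have hint' : Integrable (fun z : (Fin 3 → ℝ) × (Fin 3 → ℝ) => FF (Gz (hat θ δ) 3) z.1 z.2)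
      ((volume.restrict {p : Fin 3 → ℝ | ∀ i, 0 < p i}).prod
        (volume.restrict {q : Fin 3 → ℝ | ∀ i, 0 < q i})) := by
    rw [Measure.prod_restrict]
    exact hint
  refine integral_mono_of_nonneg ?_ hint'.integral_prod_left ?_
  · filter_upwards [ae_restrict_mem measurableSet_orthant] with p hp
    have := mm_nonneg (l := θ - δ) hp
    positivity
  · filter_upwards [ae_restrict_mem measurableSet_orthant, hint'.prod_right_ae] with p hp hp2
    have hp' : ∀ i, 0 < p i := hp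
    have hp0 := hp' 0
    have hp1 := hp' 1
    have hp2' := hp' 2
    have step : ∫ q in {q : Fin 3 → ℝ | ∀ i, 0 < q i},
        (p 0 * p 1 * p 2) * (2 * (p 0 + p 1 + p 2)) * ∏ i, (q i * hat θ δ (uu p i + q i)) ≤
        ∫ q in {q : Fin 3 → ℝ | ∀ i, 0 < q i}, FF (Gz (hat θ δ) 3) p q := by
      refine integral_mono_of_nonneg ?_ hp2 ?_
      · filter_upwards [ae_restrict_mem measurableSet_orthant] with q hq
        have : 0 ≤ ∏ i, (q i * hat θ δ (uu p i + q i)) :=
          Finset.prod_nonneg fun i _ => mul_nonneg (le_of_lt (hq i)) (hat_nonneg _ _ _)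
        positivity
      · filter_upwards [ae_restrict_mem measurableSet_orthant] with q hq
        exact FF_ge hδ hθ hp' hq
    rw [integral_const_mul, prod_KK, Fin.prod_univ_three] at step
    refine le_trans ?_ step
    have k0 := KK_ge (θ := θ) hδ (uu p 0)
    have k1 := KK_ge (θ := θ) hδ (uu p 1)
    have k2 := KK_ge (θ := θ) hδ (uu p 2)
    have u0 : uu p 0 = p 0 + p 1 := rfl
    have u1 : uu p 1 = p 0 + p 2 := rfl
    have u2 : uu p 2 = p 1 + p 2 := rfl
    rw [u0] at k0 ⊢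
    rw [u1] at k1 ⊢
    rw [u2] at k2 ⊢
    have n0 : 0 ≤ max 0 (θ - δ - (p 0 + p 1)) := le_max_left _ _
    have n1 : 0 ≤ max 0 (θ - δ - (p 0 + p 2)) := le_max_left _ _
    have n2 : 0 ≤ max 0 (θ - δ - (p 1 + p 2)) := le_max_left _ _
    have q0 := KK_nonneg θ δ (p 0 + p 1)
    have q1 := KK_nonneg θ δ (p 0 + p 2)
    have hprod : (δ / 2 * max 0 (θ - δ - (p 0 + p 1))) * (δ / 2 * max 0 (θ - δ - (p 0 + p 2))) *
        (δ / 2 * max 0 (θ - δ - (p 1 + p 2))) ≤
        KK θ δ (p 0 + p 1) * KK θ δ (p 0 + p 2) * KK θ δ (p 1 + p 2) := by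
      have hd : 0 ≤ δ / 2 := by positivity
      exact mul_le_mul (mul_le_mul k0 k1 (mul_nonneg hd n1) q0) k2 (mul_nonneg hd n2)
        (mul_nonneg q0 q1)
    have hP : 0 ≤ (p 0 * p 1 * p 2) * (2 * (p 0 + p 1 + p 2)) := by positivity
    calc (δ / 2) ^ 3 * (2 * mm (θ - δ) p) = (p 0 * p 1 * p 2) * (2 * (p 0 + p 1 + p 2)) *
          ((δ / 2 * max 0 (θ - δ - (p 0 + p 1))) * (δ / 2 * max 0 (θ - δ - (p 0 + p 2))) *
        (δ / 2 * max 0 (θ - δ - (p 1 + p 2)))) := by
          unfold mm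
          ring
      _ ≤ _ := mul_le_mul_of_nonneg_left hprod hP

/-! ### The triangle integral -/


lemma mm_smul {l : ℝ} (hl : 0 < l) (p : Fin 3 → ℝ) : mm l (l • p) = l ^ 7 * mm 1 p := by
  have key : ∀ x : ℝ, max 0 (l - l * x) = l * max 0 (1 - x) := by
    intro x
    rw [mul_max_of_nonneg _ _ hl.le]
    ring_nf
  unfold mm
  simp only [Pi.smul_apply, smul_eq_mul]
  rw [← mul_add, ← mul_add, ← mul_add, ← mul_add, key, key, key]
  ring

lemma mm_scale {l : ℝ} (hl : 0 < l) :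
    ∫ p in {p : Fin 3 → ℝ | ∀ i, 0 < p i}, mm l p =
      l ^ 10 * ∫ p in {p : Fin 3 → ℝ | ∀ i, 0 < p i}, mm 1 p := by
  have h1 := Measure.setIntegral_comp_smul_of_pos (volume : Measure (Fin 3 → ℝ)) (mm l)
    {p : Fin 3 → ℝ | ∀ i, 0 < p i} hl
  have h2 : l • {p : Fin 3 → ℝ | ∀ i, 0 < p i} = {p : Fin 3 → ℝ | ∀ i, 0 < p i} := by
    ext p
    rw [Set.mem_smul_set_iff_inv_smul_mem₀ hl.ne']
    simp only [Set.mem_ofPred_eq, Pi.smul_apply, smul_eq_mul]
    refine forall_congr' fun i => ?_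
    constructor
    · intro h
      have := mul_pos hl h
      rwa [← mul_assoc, mul_inv_cancel₀ hl.ne', one_mul] at this
    · intro h
      positivity
  rw [h2] at h1
  simp_rw [mm_smul hl] at h1
  rw [integral_const_mul, Module.finrank_fin_fun, smul_eq_mul] at h1
  have h3 : l ^ 3 ≠ 0 := by positivity
  field_simp at h1
  linarith

lemma mm_int (l : ℝ) : IntegrableOn (mm l) {p : Fin 3 → ℝ | ∀ i, 0 < p i} := by
  have h1 : IntegrableOn (mm l) (Set.Icc 0 (fun _ => l)) :=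
    (mm_cont l).continuousOn.integrableOn_compact isCompact_Icc
  refine h1.of_forall_sdiff_eq_zero measurableSet_orthant ?_
  rintro p ⟨hp, hz⟩
  have hp' : ∀ i, 0 < p i := hp
  have hp0 := hp' 0
  have hp1 := hp' 1
  have hp2 := hp' 2
  have hex : ∃ i, l < p i := by
    by_contra hne
    push Not at hne
    exact hz ⟨fun i => (hp' i).le, hne⟩
  obtain ⟨i, hi⟩ := hex
  unfold mm
  fin_cases i
  · simp only [Fin.zero_eta] at hi
    rw [max_eq_left (a := (0 : ℝ)) (b := l - (p 0 + p 1)) (by linarith)]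
    ring
  · simp only [Fin.mk_one] at hi
    rw [max_eq_left (a := (0 : ℝ)) (b := l - (p 0 + p 1)) (by linarith)]
    ring
  · simp only [Fin.reduceFinMk] at hi
    rw [max_eq_left (a := (0 : ℝ)) (b := l - (p 0 + p 2)) (by linarith)]
    ring

/-- exchange of the first two variables -/
noncomputable def sw : (Fin 3 → ℝ) ≃ᵐ (Fin 3 → ℝ) :=
  MeasurableEquiv.piCongrLeft (fun _ : Fin 3 => ℝ) (Equiv.swap 0 1)

lemma sw_apply (p : Fin 3 → ℝ) : sw p = ![p 1, p 0, p 2] := by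
  have h : ∀ i, sw p (Equiv.swap 0 1 i) = p i := by
    intro i
    unfold sw
    rw [MeasurableEquiv.coe_piCongrLeft, Equiv.piCongrLeft_apply_apply]
  funext i
  fin_cases i
  · exact h 1
  · exact h 0
  · exact h 2

lemma mm_sw (l : ℝ) (p : Fin 3 → ℝ) : mm l (sw p) = mm l p := by
  rw [sw_apply]
  unfold mm
  simp only [Matrix.cons_val_zero, Matrix.cons_val_one, Matrix.cons_val]
  rw [add_comm (p 1) (p 0)]
  ring

/-- half of the orthant -/
def TT : Set (Fin 3 → ℝ) := {p | (∀ i, 0 < p i) ∧ p 0 < p 1}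

lemma measurableSet_TT : MeasurableSet TT :=
  MeasurableSet.inter measurableSet_orthant
    (measurableSet_lt (measurable_pi_apply 0) (measurable_pi_apply 1))

lemma mm_half : 2 * ∫ p in TT, mm 1 p ≤ ∫ p in {p : Fin 3 → ℝ | ∀ i, 0 < p i}, mm 1 p := by
  have h1 : ∫ p in sw ⁻¹' TT, mm 1 (sw p) = ∫ p in TT, mm 1 p :=
    (volume_measurePreserving_piCongrLeft (fun _ : Fin 3 => ℝ)
      (Equiv.swap 0 1)).setIntegral_preimage_emb sw.measurableEmbedding _ _
  simp_rw [mm_sw] at h1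
  have hsub1 : TT ⊆ {p : Fin 3 → ℝ | ∀ i, 0 < p i} := fun p hp => hp.1
  have hsub2 : sw ⁻¹' TT ⊆ {p : Fin 3 → ℝ | ∀ i, 0 < p i} := by
    intro p hp
    have hp' : sw p ∈ TT := hp
    rw [sw_apply] at hp'
    intro i
    fin_cases i
    · exact hp'.1 1
    · exact hp'.1 0
    · exact hp'.1 2
  have hdis : Disjoint TT (sw ⁻¹' TT) := by
    rw [Set.disjoint_left]
    intro p hp hp2
    have hp' : sw p ∈ TT := hp2
    rw [sw_apply] at hp'
    have h2 : p 1 < p 0 := hp'.2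
    exact absurd hp.2 (not_lt.mpr h2.le)
  have h2 : ∫ p in TT ∪ sw ⁻¹' TT, mm 1 p =
      (∫ p in TT, mm 1 p) + ∫ p in sw ⁻¹' TT, mm 1 p :=
    setIntegral_union hdis (sw.measurable measurableSet_TT) ((mm_int 1).mono_set hsub1)
      ((mm_int 1).mono_set hsub2)
  have h3 : ∫ p in TT ∪ sw ⁻¹' TT, mm 1 p ≤ ∫ p in {p : Fin 3 → ℝ | ∀ i, 0 < p i}, mm 1 p := by
    refine setIntegral_mono_set (mm_int 1) ?_ (LE.le.eventuallyLE ?_)
    · filter_upwards [ae_restrict_mem measurableSet_orthant] with p hp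
      exact mm_nonneg hp
    · intro p hp
      rcases hp with hp | hp
      · exact hsub1 hp
      · exact hsub2 hp
  rw [h2, h1] at h3
  linarith

/-- the polynomial -/
noncomputable def pol (a b c : ℝ) : ℝ :=
  a * b * c * ((1 - a - b) * (1 - a - c) * (1 - b - c)) * (a + b + c)

/-- the simplex like region -/
def EE : Set (ℝ × (ℝ × ℝ)) :=
  {x | (0 < x.1 ∧ x.1 < x.2.1) ∧ (x.1 + x.2.1 < 1 ∧ 0 < x.2.2) ∧ x.2.1 + x.2.2 < 1}

/-- the three variables as a triple -/
noncomputable def ww : (Fin 3 → ℝ) ≃ᵐ ℝ × (ℝ × ℝ) :=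
  (MeasurableEquiv.piFinSuccAbove (fun _ : Fin 3 => ℝ) 0).trans
    (MeasurableEquiv.prodCongr (MeasurableEquiv.refl ℝ) MeasurableEquiv.finTwoArrow)

lemma ww_apply (p : Fin 3 → ℝ) : ww p = (p 0, (p 1, p 2)) := rfl

lemma ww_mp : MeasurePreserving ww volume volume := by
  have h1 := volume_preserving_piFinSuccAbove (fun _ : Fin 3 => ℝ) 0
  have h2 : MeasurePreserving (MeasurableEquiv.prodCongr (MeasurableEquiv.refl ℝ)
      (MeasurableEquiv.finTwoArrow : (Fin 2 → ℝ) ≃ᵐ ℝ × ℝ)) volume volume :=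
    (MeasurePreserving.id volume).prod (volume_preserving_finTwoArrow ℝ)
  exact h1.trans h2

open Classical in
/-- the integrand on triples -/
noncomputable def Fe (x : ℝ × (ℝ × ℝ)) : ℝ := if x ∈ EE then pol x.1 x.2.1 x.2.2 else 0

lemma Fe_ww (p : Fin 3 → ℝ) : Fe (ww p) = TT.indicator (mm 1) p := by
  rw [ww_apply]
  unfold Fe
  by_cases hp : p ∈ TT
  · rw [Set.indicator_of_mem hp]
    have hp0 := hp.1 0
    have hp1 := hp.1 1
    have hp2 := hp.1 2
    have hlt := hp.2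
    by_cases hE : ((p 0, (p 1, p 2)) : ℝ × (ℝ × ℝ)) ∈ EE
    · rw [if_pos hE]
      obtain ⟨⟨-, -⟩, ⟨h1, -⟩, h2⟩ := hE
      simp only at h1 h2
      unfold pol mm
      rw [max_eq_right (by linarith), max_eq_right (by linarith), max_eq_right (by linarith)]
      ring
    · rw [if_neg hE]
      unfold mm
      by_cases h1 : p 0 + p 1 < 1
      · have h2 : 1 ≤ p 1 + p 2 := by
          by_contra hne
          push Not at hne
          exact hE ⟨⟨hp0, hlt⟩, ⟨h1, hp2⟩, hne⟩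
        rw [max_eq_left (a := (0 : ℝ)) (b := 1 - (p 1 + p 2)) (by linarith)]
        ring
      · rw [max_eq_left (a := (0 : ℝ)) (b := 1 - (p 0 + p 1)) (by linarith)]
        ring
  · rw [Set.indicator_of_notMem hp, if_neg]
    rintro ⟨⟨h1, h2⟩, ⟨-, h3⟩, -⟩
    simp only at h1 h2 h3
    apply hp
    refine ⟨fun i => ?_, h2⟩
    fin_cases i
    · exact h1
    · exact h1.trans h2
    · exact h3

lemma Fe_integrable : Integrable Fe := by
  have h1 : Integrable (Fe ∘ ww) := by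
    have : Fe ∘ ww = TT.indicator (mm 1) := funext Fe_ww
    rw [this, integrable_indicator_iff measurableSet_TT]
    exact (mm_int 1).mono_set fun p hp => hp.1
  exact (ww_mp.integrable_comp_emb ww.measurableEmbedding).mp h1

lemma Fe_c (a b : ℝ) : ∫ c, Fe (a, (b, c)) =
    (Set.Ioo a (1 - a)).indicator (fun b => ∫ c in (0 : ℝ)..(1 - b), pol a b c) b *
      (if 0 < a then 1 else 0) := by
  by_cases ha : 0 < a
  · rw [if_pos ha, mul_one]
    by_cases hb : b ∈ Set.Ioo a (1 - a)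
    · rw [Set.indicator_of_mem hb, intervalIntegral.integral_of_le (by linarith [hb.1, hb.2]),
        integral_Ioc_eq_integral_Ioo, ← integral_indicator measurableSet_Ioo]
      congr 1
      funext c
      unfold Fe
      by_cases hc : c ∈ Set.Ioo 0 (1 - b)
      · rw [Set.indicator_of_mem hc, if_pos]
        exact ⟨⟨ha, hb.1⟩, ⟨by linarith [hb.2], hc.1⟩, by linarith [hc.2]⟩
      · rw [Set.indicator_of_notMem hc, if_neg]
        rintro ⟨⟨-, h2⟩, ⟨-, h3⟩, h4⟩
        exact hc ⟨h3, by simp only at h4; linarith⟩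
    · rw [Set.indicator_of_notMem hb]
      have : ∀ c, Fe (a, (b, c)) = 0 := by
        intro c
        unfold Fe
        rw [if_neg]
        rintro ⟨⟨-, h2⟩, ⟨h3, -⟩, -⟩
        exact hb ⟨h2, by simp only at h3; linarith⟩
      simp_rw [this]
      simp
  · rw [if_neg ha, mul_zero]
    have : ∀ c, Fe (a, (b, c)) = 0 := by
      intro c
      unfold Fe
      rw [if_neg]
      rintro ⟨⟨h1, -⟩, -⟩
      exact ha h1
    simp_rw [this]
    simp

lemma Fe_bc (a : ℝ) : ∫ b, ∫ c, Fe (a, (b, c)) =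
    (Set.Ioo (0 : ℝ) (1 / 2)).indicator
      (fun a => ∫ b in a..(1 - a), ∫ c in (0 : ℝ)..(1 - b), pol a b c) a := by
  simp_rw [Fe_c]
  rw [integral_mul_const, integral_indicator measurableSet_Ioo]
  by_cases ha : a ∈ Set.Ioo (0 : ℝ) (1 / 2)
  · rw [Set.indicator_of_mem ha, if_pos ha.1, mul_one,
      intervalIntegral.integral_of_le (by linarith [ha.2]), integral_Ioc_eq_integral_Ioo]
  · rw [Set.indicator_of_notMem ha]
    by_cases h0 : 0 < a
    · have h1 : Set.Ioo a (1 - a) = ∅ := by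
        apply Set.Ioo_eq_empty
        intro h
        exact ha ⟨h0, by linarith⟩
      rw [h1]
      simp
    · rw [if_neg h0, mul_zero]

lemma TT_eq : ∫ p in TT, mm 1 p =
    ∫ a in (0 : ℝ)..(1 / 2), ∫ b in a..(1 - a), ∫ c in (0 : ℝ)..(1 - b), pol a b c := by
  rw [← integral_indicator measurableSet_TT]
  have h0 : (fun p => TT.indicator (mm 1) p) = fun p => Fe (ww p) := funext fun p => (Fe_ww p).symm
  rw [h0, ww_mp.integral_comp ww.measurableEmbedding]
  have hint := Fe_integrable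
  rw [Measure.volume_eq_prod] at hint ⊢
  rw [integral_prod _ hint]
  have h2 : ∀ᵐ a : ℝ, ∫ y : ℝ × ℝ, Fe (a, y) = ∫ b, ∫ c, Fe (a, (b, c)) := by
    filter_upwards [hint.prod_right_ae] with a ha
    rw [Measure.volume_eq_prod] at ha ⊢
    exact integral_prod _ ha
  rw [integral_congr_ae h2]
  simp_rw [Fe_bc]
  rw [integral_indicator measurableSet_Ioo, intervalIntegral.integral_of_le (by norm_num),
    integral_Ioc_eq_integral_Ioo]

end ShellN

open ShellN

theorem shell_N {θ δ : ℝ} (hδ : 0 < δ) (hδθ : δ < θ) (hθ : 3 * θ < 1) :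
    (δ / 2) ^ 3 * (2 * (θ - δ) ^ 10 * (19 / 179200)) ≤ LF 4 (Gz (hat θ δ) 3) := by
  refine le_trans ?_ (LF_ge hδ hδθ hθ)
  have hl : 0 < θ - δ := by linarith
  rw [mm_scale hl]
  have h1 := mm_half
  rw [TT_eq] at h1
  unfold pol at h1
  rw [eta_integral] at h1
  have h2 : (19 / 179200 : ℝ) ≤ ∫ p in {p : Fin 3 → ℝ | ∀ i, 0 < p i}, mm 1 p := by linarith
  have h3 : 0 ≤ (δ / 2) ^ 3 * (2 * (θ - δ) ^ 10) := by positivity
  calc (δ / 2) ^ 3 * (2 * (θ - δ) ^ 10 * (19 / 179200))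
      = ((δ / 2) ^ 3 * (2 * (θ - δ) ^ 10)) * (19 / 179200) := by ring
    _ ≤ ((δ / 2) ^ 3 * (2 * (θ - δ) ^ 10)) * ∫ p in {p : Fin 3 → ℝ | ∀ i, 0 < p i}, mm 1 p :=
        mul_le_mul_of_nonneg_left h2 h3
    _ = _ := by ring

theorem shell_D_pos {θ δ : ℝ} (hδ : 0 < δ) (hδθ : δ < θ) :
    0 < LF 4 (fun s => ∏ i, hat θ δ (s i)) := by
  have hG : Continuous (fun s : Fin 4 → ℝ => ∏ i, hat θ δ (s i)) :=
    continuous_finsetProd _ fun i _ => (hat_cont θ δ).comp (continuous_apply _)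
  have hint := FF_int hG (B := θ) (by
    rintro s ⟨i, hi⟩
    exact Finset.prod_eq_zero (Finset.mem_univ i) (hat_zero_of_le hδ hi))
  rw [LF_prod]
  have hnn : ∀ z ∈ SS, 0 ≤ FF (fun s : Fin 4 → ℝ => ∏ i, hat θ δ (s i)) z.1 z.2 := by
    rintro ⟨p, q⟩ ⟨hp, hq⟩
    have hp0 := hp 0
    have hp1 := hp 1
    have hp2 := hp 2
    have hq0 := hq 0
    have hq1 := hq 1
    have hq2 := hq 2
    unfold FF
    have hpr : 0 ≤ ∏ i, hat θ δ ((![p 0 + p 1 + q 0, p 0 + p 2 + q 1, p 1 + p 2 + q 2,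
        q 0 + q 1 + q 2] : Fin 4 → ℝ) i) := Finset.prod_nonneg fun i _ => hat_nonneg _ _ _
    have hP : 0 ≤ p 0 * p 1 * p 2 := by simp only at hp0 hp1 hp2; positivity
    have hQ : 0 ≤ q 0 * q 1 * q 2 := by simp only at hq0 hq1 hq2; positivity
    exact mul_nonneg (mul_nonneg hP hQ) hpr
  rw [setIntegral_pos_iff_support_of_nonneg_ae]
  · set U : Set ((Fin 3 → ℝ) × (Fin 3 → ℝ)) :=
      {z | 0 < FF (fun s : Fin 4 → ℝ => ∏ i, hat θ δ (s i)) z.1 z.2} ∩ SS with hU
    have hUo : IsOpen U := by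
      refine (isOpen_lt continuous_const (FF_cont hG)).inter ?_
      refine IsOpen.prod ?_ ?_
      · rw [Set.ofPred_forall]
        exact isOpen_iInter_of_finite fun i => isOpen_lt continuous_const (continuous_apply i)
      · rw [Set.ofPred_forall]
        exact isOpen_iInter_of_finite fun i => isOpen_lt continuous_const (continuous_apply i)
    have hUne : U.Nonempty := by
      set t : ℝ := (θ - δ / 2) / 3 with ht
      have ht0 : 0 < t := by rw [ht]; apply div_pos _ (by norm_num); linarith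
      refine ⟨((fun _ => t), (fun _ => t)), ?_, ⟨fun _ => ht0, fun _ => ht0⟩⟩
      have h3 : t + t + t = θ - δ / 2 := by rw [ht]; ring
      have hh : hat θ δ (θ - δ / 2) = 1 := by
        unfold hat
        have : 2 * (θ - δ / 2 - θ) / δ + 1 = 0 := by field_simp; ring
        rw [this]
        simp
      show 0 < FF (fun s : Fin 4 → ℝ => ∏ i, hat θ δ (s i)) (fun _ => t) (fun _ => t)
      unfold FF
      beta_reduce
      rw [Fin.prod_univ_four]
      simp only [Matrix.cons_val_zero, Matrix.cons_val_one, Matrix.cons_val, h3, hh]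
      positivity
    refine lt_of_lt_of_le (hUo.measure_pos volume hUne) (measure_mono ?_)
    intro z hz
    exact ⟨(ne_of_gt hz.1), hz.2⟩
  · filter_upwards [ae_restrict_mem measurableSet_SS] with z hz
    exact hnn z hz
  · exact hint

end Pool.Agent.EvenMoment
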