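import Pool.Agent.Lib_MP_112ba8_e.Const8
import Pool.Agent.Lib_MP_112ba8_e.ShellN
import Pool.Agent.Lib_MP_112ba8_e.ShellD

/-!
The admissible weight for the eighth moment.
-/

namespace Pool.Agent.EvenMoment

theorem const8 {A : ℝ} (hA : A < 1001 * (361 / 360) ^ 2) : ∃ θ : ℝ, ∃ ω : ℝ → ℝ, 0 < θ ∧
    3 * θ < 1 ∧ Adm ω θ ∧ 0 < LF 4 (Gz ω 3) ∧ 0 < LF 4 (fun s => ∏ i, ω (s i)) ∧
    A / (Nat.factorial 16) < (LF 4 (Gz ω 3)) ^ 4 / (LF 4 (fun s => ∏ i, ω (s i))) ^ 3 :=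
  const8_of (fun h1 h2 h3 => shell_N h1 h2 h3) (fun h1 h2 h3 h4 => shell_D h1 h2 h3 h4)
    (fun h1 h2 => shell_D_pos h1 h2) hA

end Pool.Agent.EvenMoment
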