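import Pool.Agent.Lib_MP_112ba8_e.Defs

/-!
Piece P13a: the functional for four vertices as an iterated integral.
-/

namespace Pool.Agent.EvenMoment

open Filter Topology MeasureTheory

/-- the half line measure -/
noncomputable def hl : Measure ℝ := volume.restrict (Set.Ioi (0 : ℝ))

instance : SigmaFinite hl := by unfold hl; infer_instance

instance : IsLocallyFiniteMeasure hl := by unfold hl; infer_instance

theorem ae_hl_pos (ι : Type) [Fintype ι] :
    ∀ᵐ r ∂(Measure.pi (fun _ : ι => hl)), ∀ i, 0 < r i := by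
  rw [ae_all_iff]
  intro i
  have h1 : ∀ᵐ x ∂hl, 0 < x := by
    unfold hl
    exact (ae_restrict_iff' measurableSet_Ioi).2 (Eventually.of_forall fun x hx => hx)
  exact (Measure.tendsto_eval_ae_ae (μ := fun _ : ι => hl) (i := i)).eventually h1

/-- integrability of functions vanishing outside a box -/
theorem box_integrable (ι : Type) [Fintype ι] {g : (ι → ℝ) → ℝ} (hg : Continuous g) (B : ℝ)
    (h : ∀ r : ι → ℝ, (∀ i, 0 < r i) → (∃ i, B ≤ r i) → g r = 0) :
    Integrable g (Measure.pi (fun _ : ι => hl)) := by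
  have hK : IsCompact (Set.Icc (0 : ι → ℝ) (fun _ => B)) := isCompact_Icc
  have h1 : IntegrableOn g (Set.Icc (0 : ι → ℝ) (fun _ => B)) (Measure.pi (fun _ : ι => hl)) :=
    hg.continuousOn.integrableOn_compact hK
  refine h1.integrable_of_ae_notMem_eq_zero ?_
  filter_upwards [ae_hl_pos ι] with r hr hrK
  apply h r hr
  by_contra hcon
  push Not at hcon
  exact hrK ⟨fun i => (hr i).le, fun i => (hcon i).le⟩

theorem box_cons {n : ℕ} {g : (Fin (n + 1) → ℝ) → ℝ} {B : ℝ}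
    (h : ∀ r : Fin (n + 1) → ℝ, (∀ i, 0 < r i) → (∃ i, B ≤ r i) → g r = 0) {a : ℝ} (ha : 0 < a) :
    ∀ r : Fin n → ℝ, (∀ i, 0 < r i) → (∃ i, B ≤ r i) →
      g (Fin.cons a r : Fin (n + 1) → ℝ) = 0 := by
  rintro r hr ⟨i, hi⟩
  refine h _ (fun j => ?_) ⟨i.succ, by simpa using hi⟩
  refine Fin.cases ?_ (fun j => ?_) j
  · simpa using ha
  · simpa using hr j

/-- one step of Fubini -/
theorem fub_step (n : ℕ) {g : (Fin (n + 1) → ℝ) → ℝ} (hg : Continuous g) (B : ℝ)
    (h : ∀ r : Fin (n + 1) → ℝ, (∀ i, 0 < r i) → (∃ i, B ≤ r i) → g r = 0) :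
    ∫ r, g r ∂(Measure.pi (fun _ : Fin (n + 1) => hl)) =
      ∫ a in Set.Ioi (0 : ℝ), ∫ r, g (Fin.cons a r) ∂(Measure.pi (fun _ : Fin n => hl)) := by
  have hmp := measurePreserving_piFinSuccAbove (fun _ : Fin (n + 1) => hl) 0
  have hI := box_integrable (Fin (n + 1)) hg B h
  have hcons : ∀ p : ℝ × (Fin n → ℝ), (MeasurableEquiv.piFinSuccAbove (fun _ : Fin (n + 1) => ℝ)
      0).symm p = Fin.cons p.1 p.2 := by
    intro p
    exact Fin.insertNth_zero' p.1 p.2
  have hI2 : Integrable (fun p : ℝ × (Fin n → ℝ) => g (Fin.cons p.1 p.2))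
      (hl.prod (Measure.pi (fun _ : Fin n => hl))) := by
    have := (hmp.symm _).integrable_comp_emb
      (MeasurableEquiv.piFinSuccAbove (fun _ : Fin (n + 1) => ℝ) 0).symm.measurableEmbedding
      (g := g)
    refine (this.2 hI).congr (Eventually.of_forall fun p => ?_)
    show g _ = _
    rw [hcons]
  have h2 := (hmp.symm _).integral_comp' (g := g)
  rw [← h2]
  simp only [hcons]
  exact integral_prod _ hI2

/-- the edges of the complete graph on four vertices -/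
def edf : Fin 6 → Ed 4 :=
  ![⟨(0, 1), by decide⟩, ⟨(0, 2), by decide⟩, ⟨(1, 2), by decide⟩, ⟨(0, 3), by decide⟩,
    ⟨(1, 3), by decide⟩, ⟨(2, 3), by decide⟩]

theorem edf_bij : Function.Bijective edf :=
  (Fintype.bijective_iff_injective_and_card _).2 ⟨by decide, by decide⟩

noncomputable def ede : Fin 6 ≃ Ed 4 := Equiv.ofBijective edf edf_bij

theorem LF_four_pi (G : (Fin 4 → ℝ) → ℝ) :
    LF 4 G = ∫ r, (r 0 * r 1 * r 2 * (r 3 * r 4 * r 5)) *
      G ![r 0 + r 1 + r 3, r 0 + r 2 + r 4, r 1 + r 2 + r 5, r 3 + r 4 + r 5]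
      ∂(Measure.pi (fun _ : Fin 6 => hl)) := by
  have h1 : LF 4 G = ∫ y, (∏ e, y e) * G (vs y) ∂(Measure.pi (fun _ : Ed 4 => hl)) := by
    unfold LF
    have h2 : {y : Ed 4 → ℝ | ∀ e, 0 < y e} = Set.univ.pi (fun _ => Set.Ioi (0 : ℝ)) := by
      ext y; simp
    rw [h2, volume_pi, Measure.restrict_pi_pi]
    rfl
  rw [h1]
  have hmp := measurePreserving_piCongrLeft (fun _ : Ed 4 => hl) ede
  rw [← hmp.integral_comp' (g := fun y : Ed 4 → ℝ => (∏ e, y e) * G (vs y))]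
  refine integral_congr_ae (Eventually.of_forall fun r => ?_)
  have h3 : ∀ j : Fin 6, (MeasurableEquiv.piCongrLeft (fun _ : Ed 4 => ℝ) ede) r (ede j) = r j := by
    intro j
    exact Equiv.piCongrLeft_apply_apply (fun _ : Ed 4 => ℝ) ede r j
  set y : Ed 4 → ℝ := (MeasurableEquiv.piCongrLeft (fun _ : Ed 4 => ℝ) ede) r with hy
  have h4 : ∏ e, y e = r 0 * r 1 * r 2 * (r 3 * r 4 * r 5) := by
    rw [← Equiv.prod_comp ede y]
    simp only [h3]
    simp [Fin.prod_univ_succ]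
    ring
  have h5 : ∀ i : Fin 4, vs y i = ∑ j : Fin 6, if (edf j).1.1 = i ∨ (edf j).1.2 = i then r j else 0 := by
    intro i
    unfold vs
    rw [← Equiv.sum_comp ede]
    refine Finset.sum_congr rfl fun j _ => ?_
    rw [h3 j]
    rfl
  have h6 : vs y = ![r 0 + r 1 + r 3, r 0 + r 2 + r 4, r 1 + r 2 + r 5, r 3 + r 4 + r 5] := by
    funext i
    rw [h5]
    fin_cases i <;> simp [Fin.sum_univ_succ, edf] <;> ring
  show (∏ e, y e) * G (vs y) = _
  rw [h4, h6]

/-- representation of the functional for `k = 4` by iterated integrals -/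
theorem LF_four {G : (Fin 4 → ℝ) → ℝ} (hG : Continuous G) {B : ℝ}
    (hB : ∀ s, (∃ i, B ≤ s i) → G s = 0) :
    LF 4 G = ∫ a in Set.Ioi (0 : ℝ), ∫ b in Set.Ioi (0 : ℝ), ∫ c in Set.Ioi (0 : ℝ),
      ∫ x in Set.Ioi (0 : ℝ), ∫ y in Set.Ioi (0 : ℝ), ∫ z in Set.Ioi (0 : ℝ),
        a * b * c * (x * y * z) * G ![a + b + x, a + c + y, b + c + z, x + y + z] := by
  rw [LF_four_pi]
  set g : (Fin 6 → ℝ) → ℝ := fun r => (r 0 * r 1 * r 2 * (r 3 * r 4 * r 5)) *
    G ![r 0 + r 1 + r 3, r 0 + r 2 + r 4, r 1 + r 2 + r 5, r 3 + r 4 + r 5] with hg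
  have hgc : Continuous g := by fun_prop
  have key : ∀ r : Fin 6 → ℝ, (∀ i, 0 < r i) → (∃ i, B ≤ r i) → g r = 0 := by
    rintro r hr ⟨i, hi⟩
    have h0 := hr 0
    have h1 := hr 1
    have h2 := hr 2
    have h3 := hr 3
    have h4 := hr 4
    have h5 := hr 5
    have : ∃ j : Fin 4, B ≤ (![r 0 + r 1 + r 3, r 0 + r 2 + r 4, r 1 + r 2 + r 5,
        r 3 + r 4 + r 5] : Fin 4 → ℝ) j := by
      fin_cases i
      · exact ⟨0, by simp at hi ⊢; linarith⟩
      · exact ⟨0, by simp at hi ⊢; linarith⟩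
      · exact ⟨1, by simp at hi ⊢; linarith⟩
      · exact ⟨0, by simp at hi ⊢; linarith⟩
      · exact ⟨1, by simp at hi ⊢; linarith⟩
      · exact ⟨2, by simp at hi ⊢; linarith⟩
    simp only [hg]
    rw [hB _ this, mul_zero]
  have hcc : ∀ (n : ℕ) (f : (Fin (n + 1) → ℝ) → ℝ) (a : ℝ), Continuous f →
      Continuous (fun r : Fin n → ℝ => f (Fin.cons a r : Fin (n + 1) → ℝ)) := by
    intro n f a hf
    fun_prop
  rw [fub_step 5 hgc B key]
  refine setIntegral_congr_fun measurableSet_Ioi fun a ha => ?_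
  have k1 := box_cons key ha
  have c1 := hcc _ _ a hgc
  show ∫ r, g (Fin.cons a r : Fin 6 → ℝ) ∂_ = _
  rw [fub_step 4 c1 B k1]
  refine setIntegral_congr_fun measurableSet_Ioi fun b hb => ?_
  have k2 := box_cons k1 hb
  have c2 := hcc _ _ b c1
  refine (fub_step 3 c2 B k2).trans ?_
  refine setIntegral_congr_fun measurableSet_Ioi fun c hc => ?_
  have k3 := box_cons k2 hc
  have c3 := hcc _ _ c c2
  refine (fub_step 2 c3 B k3).trans ?_
  refine setIntegral_congr_fun measurableSet_Ioi fun x hx => ?_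
  have k4 := box_cons k3 hx
  have c4 := hcc _ _ x c3
  refine (fub_step 1 c4 B k4).trans ?_
  refine setIntegral_congr_fun measurableSet_Ioi fun y hy => ?_
  have k5 := box_cons k4 hy
  have c5 := hcc _ _ y c4
  refine (fub_step 0 c5 B k5).trans ?_
  refine setIntegral_congr_fun measurableSet_Ioi fun z hz => ?_
  show ∫ r, g (Fin.cons a (Fin.cons b (Fin.cons c (Fin.cons x (Fin.cons y
    (Fin.cons z r : Fin 1 → ℝ) : Fin 2 → ℝ) : Fin 3 → ℝ) : Fin 4 → ℝ) : Fin 5 → ℝ) : Fin 6 → ℝ)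
    ∂_ = _
  rw [Measure.pi_of_empty (fun _ : Fin 0 => hl), integral_dirac]
  rfl

end Pool.Agent.EvenMoment
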