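import Mathlib
import Pool.Agent.Lib_MP_112ba8_e.Defs

/-!
The discrete Laplace transform of tuples of coprime pairs with equal products.
-/

namespace Pool.Agent.EvenMoment

open Filter Topology MeasureTheory

open Pool.Agent.ZetaMoment (pw sg zr FF tm)

/-- the sum over tuples with a given product is a Dirichlet convolution -/
theorem lap_tuple (k : ℕ) (x : Fin k → ℝ) (n : ℕ) :
    ∑' m : Fin k → ℕ, (if ∏ i, m i = n then ∏ i, ENNReal.ofReal (pw (x i) (m i)) else 0) =
      ENNReal.ofReal (sg x n) := by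
  induction k generalizing n with
  | zero =>
    rw [tsum_eq_single default (fun b hb => absurd (Subsingleton.elim b default) hb)]
    simp only [Finset.univ_eq_empty, Finset.prod_empty, sg, ArithmeticFunction.one_apply]
    by_cases hn : n = 1
    · simp [hn]
    · simp [hn, Ne.symm hn]
  | succ k ih =>
    rw [← (Fin.consEquiv (fun _ : Fin (k + 1) => ℕ)).tsum_eq, ENNReal.tsum_prod']
    have e1 : ∀ (a : ℕ) (m : Fin k → ℕ),
        (if ∏ i, (Fin.consEquiv (fun _ : Fin (k + 1) => ℕ)) (a, m) i = n then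
          ∏ i, ENNReal.ofReal (pw (x i) ((Fin.consEquiv (fun _ : Fin (k + 1) => ℕ)) (a, m) i))
          else 0) =
        ∑' b : ℕ, (if a * b = n then ENNReal.ofReal (pw (x 0) a) else 0) *
          (if ∏ i, m i = b then ∏ i, ENNReal.ofReal (pw (x (Fin.succ i)) (m i)) else 0) := by
      intro a m
      rw [tsum_eq_single (∏ i, m i) (fun b hb => by rw [if_neg (Ne.symm hb), mul_zero])]
      simp only [Fin.consEquiv_apply, Fin.prod_univ_succ, Fin.cons_zero, Fin.cons_succ, if_true]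
      split_ifs with h
      · rfl
      · simp
    simp_rw [e1]
    have e2 : ∀ a : ℕ, ∑' m : Fin k → ℕ, ∑' b : ℕ,
        (if a * b = n then ENNReal.ofReal (pw (x 0) a) else 0) *
          (if ∏ i, m i = b then ∏ i, ENNReal.ofReal (pw (x (Fin.succ i)) (m i)) else 0) =
        ∑' b : ℕ, (if a * b = n then ENNReal.ofReal (pw (x 0) a) else 0) *
          ENNReal.ofReal (sg (fun i : Fin k => x (Fin.succ i)) b) := by
      intro a
      rw [ENNReal.tsum_comm]
      refine tsum_congr fun b => ?_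
      rw [ENNReal.tsum_mul_left, ih (fun i => x (Fin.succ i)) b]
    simp_rw [e2]
    rw [← ENNReal.tsum_prod (f := fun a b => (if a * b = n then ENNReal.ofReal (pw (x 0) a) else 0) *
          ENNReal.ofReal (sg (fun i : Fin k => x (Fin.succ i)) b))]
    rw [tsum_eq_sum (s := n.divisorsAntidiagonal)]
    · have e3 : sg x n = ∑ p ∈ n.divisorsAntidiagonal, pw (x 0) p.1 *
          sg (fun i : Fin k => x (Fin.succ i)) p.2 := by
        unfold sg
        rw [Fin.prod_univ_succ, ArithmeticFunction.mul_apply]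
      rw [e3, ENNReal.ofReal_sum_of_nonneg]
      · refine Finset.sum_congr rfl fun p hp => ?_
        rw [if_pos (Nat.mem_divisorsAntidiagonal.mp hp).1,
          ENNReal.ofReal_mul (Pool.Agent.ZetaMoment.pw_nonneg _ _)]
      · intro p _
        exact mul_nonneg (Pool.Agent.ZetaMoment.pw_nonneg _ _)
          (Pool.Agent.ZetaMoment.sg_nonneg _ _)
    · rintro ⟨a, b⟩ hp
      simp only
      by_cases hab : a * b = n
      · have hn : n = 0 := by
          by_contra hn
          exact hp (Nat.mem_divisorsAntidiagonal.mpr ⟨hab, hn⟩)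
        rw [hn] at hab
        rcases Nat.mul_eq_zero.mp hab with h | h
        · rw [h]; simp
        · rw [h]; simp
      · rw [if_neg hab, zero_mul]

/-- the correlation sum as a sum over pairs of tuples -/
theorem lap_pairs (k : ℕ) (x : Fin k → ℝ) :
    ∑' n : ℕ, ENNReal.ofReal (tm x x n) =
      ∑' p : (Fin k → ℕ) × (Fin k → ℕ), (if ∏ i, p.2 i = ∏ i, p.1 i then
        (∏ i, ENNReal.ofReal (pw (x i) (p.1 i))) * (∏ i, ENNReal.ofReal (pw (x i) (p.2 i))) *
          ENNReal.ofReal (1 / ((∏ i, p.1 i : ℕ) : ℝ)) else 0) := by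
  have e1 : ∀ n : ℕ, ENNReal.ofReal (tm x x n) =
      ∑' p : (Fin k → ℕ) × (Fin k → ℕ),
        (if ∏ i, p.1 i = n then ∏ i, ENNReal.ofReal (pw (x i) (p.1 i)) else 0) *
        (if ∏ i, p.2 i = n then ∏ i, ENNReal.ofReal (pw (x i) (p.2 i)) else 0) *
          ENNReal.ofReal (1 / (n : ℝ)) := by
    intro n
    rw [ENNReal.tsum_mul_right, ENNReal.tsum_prod']
    simp only
    simp_rw [ENNReal.tsum_mul_left, lap_tuple k x n]
    rw [ENNReal.tsum_mul_right, lap_tuple k x n]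
    unfold tm
    rw [div_eq_mul_one_div, ENNReal.ofReal_mul
      (mul_nonneg (Pool.Agent.ZetaMoment.sg_nonneg _ _) (Pool.Agent.ZetaMoment.sg_nonneg _ _)),
      ENNReal.ofReal_mul (Pool.Agent.ZetaMoment.sg_nonneg _ _)]
  simp_rw [e1]
  rw [ENNReal.tsum_comm]
  refine tsum_congr fun p => ?_
  rw [tsum_eq_single (∏ i, p.1 i) (fun n hn => by rw [if_neg (Ne.symm hn)]; simp)]
  rw [if_pos rfl]
  split_ifs <;> simp

/-- pulling out the greatest common divisors -/
def lapPhi (k : ℕ) (c : (Fin k → ℕ+) × (Fin k → CP)) : (Fin k → ℕ) × (Fin k → ℕ) :=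
  (fun i => (c.1 i : ℕ) * (c.2 i).1.1, fun i => (c.1 i : ℕ) * (c.2 i).1.2)

theorem lapPhi_inj (k : ℕ) : Function.Injective (lapPhi k) := by
  rintro ⟨g, q⟩ ⟨g', q'⟩ h
  have h1 : ∀ i, (g i : ℕ) * (q i).1.1 = (g' i : ℕ) * (q' i).1.1 := fun i =>
    congrFun (congrArg Prod.fst h) i
  have h2 : ∀ i, (g i : ℕ) * (q i).1.2 = (g' i : ℕ) * (q' i).1.2 := fun i =>
    congrFun (congrArg Prod.snd h) i
  have hg : ∀ i, (g i : ℕ) = (g' i : ℕ) := by
    intro i
    have e1 : Nat.gcd ((g i : ℕ) * (q i).1.1) ((g i : ℕ) * (q i).1.2) = g i := by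
      rw [Nat.gcd_mul_left, (q i).2.2.2, mul_one]
    have e2 : Nat.gcd ((g' i : ℕ) * (q' i).1.1) ((g' i : ℕ) * (q' i).1.2) = g' i := by
      rw [Nat.gcd_mul_left, (q' i).2.2.2, mul_one]
    rw [← e1, ← e2, h1 i, h2 i]
  have hgg : g = g' := funext fun i => PNat.coe_injective (hg i)
  subst hgg
  have hq : q = q' := by
    funext i
    apply Subtype.ext
    apply Prod.ext
    · exact Nat.eq_of_mul_eq_mul_left (g i).pos (h1 i)
    · exact Nat.eq_of_mul_eq_mul_left (g i).pos (h2 i)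
  rw [hq]

theorem lapPhi_range (k : ℕ) (p : (Fin k → ℕ) × (Fin k → ℕ)) (h1 : ∀ i, p.1 i ≠ 0)
    (h2 : ∀ i, p.2 i ≠ 0) : p ∈ Set.range (lapPhi k) := by
  have hg : ∀ i, 0 < Nat.gcd (p.1 i) (p.2 i) := fun i => Nat.gcd_pos_of_pos_left _
    (Nat.pos_of_ne_zero (h1 i))
  refine ⟨(fun i => ⟨Nat.gcd (p.1 i) (p.2 i), hg i⟩, fun i =>
    ⟨(p.1 i / Nat.gcd (p.1 i) (p.2 i), p.2 i / Nat.gcd (p.1 i) (p.2 i)), ?_, ?_, ?_⟩), ?_⟩
  · exact Nat.div_pos (Nat.le_of_dvd (Nat.pos_of_ne_zero (h1 i)) (Nat.gcd_dvd_left _ _)) (hg i)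
  · exact Nat.div_pos (Nat.le_of_dvd (Nat.pos_of_ne_zero (h2 i)) (Nat.gcd_dvd_right _ _)) (hg i)
  · exact Nat.coprime_div_gcd_div_gcd (hg i)
  · unfold lapPhi
    apply Prod.ext
    · funext i
      simp only [PNat.mk_coe]
      exact Nat.mul_div_cancel' (Nat.gcd_dvd_left _ _)
    · funext i
      simp only [PNat.mk_coe]
      exact Nat.mul_div_cancel' (Nat.gcd_dvd_right _ _)

/-- the weight of a tuple of coprime pairs -/
noncomputable def lapE (k : ℕ) (x : Fin k → ℝ) (q : Fin k → CP) : ℝ :=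
  (1 / ∏ i, ((q i).1.1 : ℝ)) * ∏ i, Real.exp (-(x i * lnq (q i)))

theorem lap_exp_lnq (x : ℝ) (q : CP) :
    Real.exp (-(x * lnq q)) = (q.1.1 : ℝ) ^ (-x) * (q.1.2 : ℝ) ^ (-x) := by
  have h1 : (0 : ℝ) < q.1.1 := by exact_mod_cast q.2.1
  have h2 : (0 : ℝ) < q.1.2 := by exact_mod_cast q.2.2.1
  rw [← Real.mul_rpow h1.le h2.le, Real.rpow_def_of_pos (mul_pos h1 h2)]
  congr 1
  unfold lnq
  ring

theorem lap_factor (k : ℕ) (x : Fin k → ℝ) (g : Fin k → ℕ+) (q : Fin k → CP) :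
    (∏ i, pw (x i) ((g i : ℕ) * (q i).1.1)) * (∏ i, pw (x i) ((g i : ℕ) * (q i).1.2)) *
      (1 / ((∏ i, ((g i : ℕ) * (q i).1.1) : ℕ) : ℝ)) =
    (∏ i, ((g i : ℕ) : ℝ) ^ (-(1 + 2 * x i))) * lapE k x q := by
  unfold lapE
  push_cast
  rw [Finset.prod_mul_distrib (f := fun i => ((g i : ℕ) : ℝ)), one_div, mul_inv,
    ← Finset.prod_inv_distrib, one_div, ← Finset.prod_inv_distrib, ← Finset.prod_mul_distrib,
    ← Finset.prod_mul_distrib, ← Finset.prod_mul_distrib, ← Finset.prod_mul_distrib,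
    ← Finset.prod_mul_distrib]
  refine Finset.prod_congr rfl fun i _ => ?_
  have hg : (0 : ℝ) < ((g i : ℕ) : ℝ) := by exact_mod_cast (g i).pos
  have h1 : (0 : ℝ) < (q i).1.1 := by exact_mod_cast (q i).2.1
  have h2 : (0 : ℝ) < (q i).1.2 := by exact_mod_cast (q i).2.2.1
  rw [Pool.Agent.ZetaMoment.pw_apply_of_ne (Nat.mul_pos (g i).pos (q i).2.1).ne',
    Pool.Agent.ZetaMoment.pw_apply_of_ne (Nat.mul_pos (g i).pos (q i).2.2.1).ne', lap_exp_lnq]
  push_cast
  rw [Real.mul_rpow hg.le h1.le, Real.mul_rpow hg.le h2.le]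
  have e : ((g i : ℕ) : ℝ) ^ (-(1 + 2 * x i)) =
      ((g i : ℕ) : ℝ) ^ (-(x i)) * ((g i : ℕ) : ℝ) ^ (-(x i)) * (((g i : ℕ) : ℝ))⁻¹ := by
    rw [← Real.rpow_add hg, ← Real.rpow_neg_one (((g i : ℕ) : ℝ)), ← Real.rpow_add hg]
    congr 1
    ring
  rw [e]
  ring

theorem lap_prod_tsum (k : ℕ) (f : Fin k → ℕ+ → ENNReal) :
    ∑' g : Fin k → ℕ+, ∏ i, f i (g i) = ∏ i, ∑' a, f i a := by
  induction k with
  | zero =>
    rw [tsum_eq_single default (fun b hb => absurd (Subsingleton.elim b default) hb)]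
    simp
  | succ k ih =>
    rw [← (Fin.consEquiv (fun _ : Fin (k + 1) => ℕ+)).tsum_eq, ENNReal.tsum_prod']
    simp only [Fin.consEquiv_apply, Fin.prod_univ_succ, Fin.cons_zero, Fin.cons_succ]
    simp_rw [ENNReal.tsum_mul_left, ih (fun i => f (Fin.succ i))]
    rw [ENNReal.tsum_mul_right]

theorem lapE_nonneg (k : ℕ) (x : Fin k → ℝ) (q : Fin k → CP) : 0 ≤ lapE k x q := by
  unfold lapE
  positivity

theorem lap_main (k : ℕ) (x : Fin k → ℝ) :
    ∑' n : ℕ, ENNReal.ofReal (tm x x n) =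
      (∏ i, ∑' a : ℕ+, ENNReal.ofReal (((a : ℕ) : ℝ) ^ (-(1 + 2 * x i)))) *
        ∑' q : TQ k, ENNReal.ofReal (lapE k x q.1) := by
  rw [lap_pairs, ← (lapPhi_inj k).tsum_eq]
  · have e1 : ∀ c : (Fin k → ℕ+) × (Fin k → CP),
        (if ∏ i, (lapPhi k c).2 i = ∏ i, (lapPhi k c).1 i then
        (∏ i, ENNReal.ofReal (pw (x i) ((lapPhi k c).1 i))) *
          (∏ i, ENNReal.ofReal (pw (x i) ((lapPhi k c).2 i))) *
          ENNReal.ofReal (1 / ((∏ i, (lapPhi k c).1 i : ℕ) : ℝ)) else 0) =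
        (∏ i, ENNReal.ofReal (((c.1 i : ℕ) : ℝ) ^ (-(1 + 2 * x i)))) *
          (Set.indicator {q : Fin k → CP | ∏ i, (q i).1.1 = ∏ i, (q i).1.2}
            (fun q => ENNReal.ofReal (lapE k x q)) c.2) := by
      intro c
      have hcond : (∏ i, (lapPhi k c).2 i = ∏ i, (lapPhi k c).1 i) ↔
          (∏ i, (c.2 i).1.1 = ∏ i, (c.2 i).1.2) := by
        simp only [lapPhi, Finset.prod_mul_distrib]
        have hpos : 0 < ∏ i, (c.1 i : ℕ) := Finset.prod_pos fun i _ => (c.1 i).pos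
        constructor
        · intro h
          exact (Nat.eq_of_mul_eq_mul_left hpos h).symm
        · intro h
          rw [h]
      by_cases h : ∏ i, (c.2 i).1.1 = ∏ i, (c.2 i).1.2
      · rw [if_pos (hcond.2 h), Set.indicator_of_mem (by exact h)]
        rw [← ENNReal.ofReal_prod_of_nonneg (fun i _ => Pool.Agent.ZetaMoment.pw_nonneg _ _),
          ← ENNReal.ofReal_prod_of_nonneg (fun i _ => Pool.Agent.ZetaMoment.pw_nonneg _ _),
          ← ENNReal.ofReal_prod_of_nonneg (fun i _ => by positivity),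
          ← ENNReal.ofReal_mul (Finset.prod_nonneg fun i _ =>
            Pool.Agent.ZetaMoment.pw_nonneg _ _),
          ← ENNReal.ofReal_mul (mul_nonneg (Finset.prod_nonneg fun i _ =>
            Pool.Agent.ZetaMoment.pw_nonneg _ _) (Finset.prod_nonneg fun i _ =>
            Pool.Agent.ZetaMoment.pw_nonneg _ _)),
          ← ENNReal.ofReal_mul (Finset.prod_nonneg fun i _ => by positivity)]
        rw [← lap_factor]
        rfl
      · rw [if_neg (fun h' => h (hcond.1 h')), Set.indicator_of_notMem (by exact h), mul_zero]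
    simp_rw [e1]
    rw [ENNReal.tsum_prod']
    simp only
    simp_rw [ENNReal.tsum_mul_left]
    rw [ENNReal.tsum_mul_right, lap_prod_tsum k (fun i a =>
      ENNReal.ofReal (((a : ℕ) : ℝ) ^ (-(1 + 2 * x i))))]
    congr 1
    exact (tsum_subtype _ _).symm
  · intro p hp
    rw [Function.mem_support] at hp
    have hp1 : (∏ i, ENNReal.ofReal (pw (x i) (p.1 i))) * (∏ i, ENNReal.ofReal (pw (x i) (p.2 i))) *
          ENNReal.ofReal (1 / ((∏ i, p.1 i : ℕ) : ℝ)) ≠ 0 := by
      intro h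
      apply hp
      rw [h]
      simp
    have hp2 := left_ne_zero_of_mul hp1
    have hp3 := left_ne_zero_of_mul hp2
    have hp4 := right_ne_zero_of_mul hp2
    apply lapPhi_range
    · intro i hi
      apply hp3
      apply Finset.prod_eq_zero (Finset.mem_univ i)
      rw [hi]; simp
    · intro i hi
      apply hp4
      apply Finset.prod_eq_zero (Finset.mem_univ i)
      rw [hi]; simp

theorem lap_zr {s : ℝ} (hs : 1 < s) :
    ∑' a : ℕ+, ENNReal.ofReal (((a : ℕ) : ℝ) ^ (-s)) = ENNReal.ofReal (zr s) := by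
  unfold zr
  rw [ENNReal.ofReal_tsum_of_nonneg (fun n => by positivity)
    (Pool.Agent.ZetaMoment.zr_summable hs)]
  refine PNat.coe_injective.tsum_eq (f := fun n : ℕ => ENNReal.ofReal ((n : ℝ) ^ (-s))) ?_
  intro n hn
  rw [Function.mem_support] at hn
  have : n ≠ 0 := by
    rintro rfl
    apply hn
    rw [Nat.cast_zero, Real.zero_rpow (by linarith)]
    simp
  exact ⟨⟨n, Nat.pos_of_ne_zero this⟩, rfl⟩

theorem lap_real (k : ℕ) {x : Fin k → ℝ} (hx : ∀ i, 0 < x i) :
    Summable (fun q : TQ k => lapE k x q.1) ∧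
      FF x x = (∏ i, zr (1 + 2 * x i)) * ∑' q : TQ k, lapE k x q.1 := by
  have hs := Pool.Agent.ZetaMoment.tm_summable (fun i => (hx i).le) (fun i => (hx i).le)
    (fun i j => add_pos (hx i) (hx j))
  have hnn := Pool.Agent.ZetaMoment.tm_nonneg x x
  have h1 := lap_main k x
  rw [← ENNReal.ofReal_tsum_of_nonneg hnn hs] at h1
  have hz : ∀ i, ∑' a : ℕ+, ENNReal.ofReal (((a : ℕ) : ℝ) ^ (-(1 + 2 * x i))) =
      ENNReal.ofReal (zr (1 + 2 * x i)) := fun i => lap_zr (by linarith [hx i])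
  have hzp : ∀ i, 0 < zr (1 + 2 * x i) := fun i =>
    Pool.Agent.ZetaMoment.zr_pos (by linarith [hx i])
  have hP : 0 < ∏ i, zr (1 + 2 * x i) := Finset.prod_pos fun i _ => hzp i
  simp_rw [hz] at h1
  rw [← ENNReal.ofReal_prod_of_nonneg (fun i _ => (hzp i).le)] at h1
  have hfin : ∑' q : TQ k, ENNReal.ofReal (lapE k x q.1) ≠ ⊤ := by
    intro h
    rw [h, ENNReal.mul_top (by simpa using hP)] at h1
    exact ENNReal.ofReal_ne_top h1
  have hsum : Summable (fun q : TQ k => lapE k x q.1) := by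
    have := ENNReal.summable_toReal hfin
    refine this.congr fun q => ?_
    rw [ENNReal.toReal_ofReal (lapE_nonneg _ _ _)]
  refine ⟨hsum, ?_⟩
  rw [← ENNReal.ofReal_tsum_of_nonneg (fun q => lapE_nonneg _ _ _) hsum,
    ← ENNReal.ofReal_mul hP.le] at h1
  have h2 := (ENNReal.ofReal_eq_ofReal_iff (tsum_nonneg hnn)
    (mul_nonneg hP.le (tsum_nonneg fun q => lapE_nonneg _ _ _))).1 h1
  exact h2

theorem LT_summable (k : ℕ) {x : Fin k → ℝ} (hx : ∀ i, 0 < x i) :
    Summable fun q : TQ k => tw q * ∏ i, Real.exp (-(x i * lnq (q.1 i))) :=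
  (lap_real k hx).1

theorem lap_LT (k : ℕ) {x : Fin k → ℝ} (hx : ∀ i, 0 < x i) :
    FF x x = (∏ i, zr (1 + 2 * x i)) * LT k x := (lap_real k hx).2

theorem lap_pw_tendsto (z : ℝ) (n : ℕ) :
    Tendsto (fun L : ℝ => pw (z / L) n) atTop (𝓝 (pw 0 n)) := by
  by_cases hn : n = 0
  · simp only [hn, ArithmeticFunction.map_zero]
    exact tendsto_const_nhds
  · simp only [Pool.Agent.ZetaMoment.pw_apply_of_ne hn]
    have h0 : (n : ℝ) ≠ 0 := by exact_mod_cast hn
    refine Tendsto.rpow tendsto_const_nhds ?_ (Or.inl h0)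
    exact (tendsto_const_nhds.div_atTop tendsto_id).neg

theorem lap_term (u v : ℝ) (p : Nat.Primes) :
    pw u p * pw v p / ((p : ℕ) : ℝ) = ((p : ℕ) : ℝ) ^ (-(1 + (u + v))) := by
  have hp : (0 : ℝ) < ((p : ℕ) : ℝ) := by exact_mod_cast p.2.pos
  rw [Pool.Agent.ZetaMoment.pw_apply_of_ne p.2.ne_zero,
    Pool.Agent.ZetaMoment.pw_apply_of_ne p.2.ne_zero, ← Real.rpow_add hp, div_eq_mul_inv,
    ← Real.rpow_neg_one (((p : ℕ) : ℝ)), ← Real.rpow_add hp]
  congr 1
  ring

theorem lap_FF_tendsto (k : ℕ) {x : Fin k → ℝ} (hx : ∀ i, 0 < x i) :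
    Tendsto (fun L : ℝ => FF (fun i => x i / L) (fun i => x i / L) / L ^ (k * k)) atTop
      (𝓝 (ar k * ∏ q : Fin k × Fin k, (x q.1 + x q.2)⁻¹)) := by
  have hgood : ∀ᶠ L : ℝ in atTop, ∀ i, Pool.Agent.ZetaMoment.Good (pw (x i / L)) := by
    filter_upwards [eventually_gt_atTop (0 : ℝ)] with L hL i
    exact Pool.Agent.ZetaMoment.pw_good (div_nonneg (hx i).le hL.le)
  have h := Pool.Agent.ZetaMoment.FG_tendsto (ι := Fin k) (f := fun L i => pw (x i / L))
    (g := fun L i => pw (x i / L)) (ℓ := fun i j => -Real.log (x i + x j)) hgood hgood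
    (fun i n => lap_pw_tendsto (x i) n) (fun i n => lap_pw_tendsto (x i) n) ?_ ?_
  · rw [Fintype.card_fin] at h
    have e : Real.exp (∑ q : Fin k × Fin k, -Real.log (x q.1 + x q.2)) =
        ∏ q : Fin k × Fin k, (x q.1 + x q.2)⁻¹ := by
      rw [Real.exp_sum]
      refine Finset.prod_congr rfl fun q _ => ?_
      rw [Real.exp_neg, Real.exp_log (add_pos (hx _) (hx _))]
    rw [e] at h
    exact h
  · filter_upwards [eventually_gt_atTop (0 : ℝ)] with L hL i j
    simp only [lap_term]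
    exact Pool.Agent.ZetaMoment.Ps_summable
      (add_pos (div_pos (hx i) hL) (div_pos (hx j) hL))
  · intro i j
    simp only [lap_term]
    have := Pool.Agent.ZetaMoment.Ps_tendsto (add_pos (hx i) (hx j))
    rw [sub_eq_add_neg] at this
    refine this.congr fun L => ?_
    unfold Pool.Agent.ZetaMoment.Ps
    simp only [add_div]

theorem lap_prod_split (k : ℕ) (f : Fin k → Fin k → ℝ) (hf : ∀ i j, f i j = f j i) :
    ∏ q : Fin k × Fin k, f q.1 q.2 = (∏ i, f i i) * ∏ e : Ed k, (f e.1.1 e.1.2) ^ 2 := by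
  classical
  have h1 : (Finset.univ : Finset (Fin k × Fin k)) =
      ((Finset.univ.filter fun q : Fin k × Fin k => q.1 = q.2) ∪
        (Finset.univ.filter fun q : Fin k × Fin k => q.1 < q.2)) ∪
        (Finset.univ.filter fun q : Fin k × Fin k => q.2 < q.1) := by
    ext q
    simp only [Finset.mem_univ, Finset.mem_union, Finset.mem_filter, true_and, true_iff]
    rcases lt_trichotomy q.1 q.2 with h | h | h
    · exact Or.inl (Or.inr h)
    · exact Or.inl (Or.inl h)
    · exact Or.inr h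
  have h2 : ∏ q ∈ Finset.univ.filter (fun q : Fin k × Fin k => q.1 < q.2), f q.1 q.2 =
      ∏ e : Ed k, f e.1.1 e.1.2 := by
    exact (Finset.prod_subtype (Finset.univ.filter (fun q : Fin k × Fin k => q.1 < q.2))
      (by simp) (fun q : Fin k × Fin k => f q.1 q.2))
  have h3 : ∏ q ∈ Finset.univ.filter (fun q : Fin k × Fin k => q.2 < q.1), f q.1 q.2 =
      ∏ q ∈ Finset.univ.filter (fun q : Fin k × Fin k => q.1 < q.2), f q.1 q.2 := by
    refine Finset.prod_nbij' (fun q => (q.2, q.1)) (fun q => (q.2, q.1)) ?_ ?_ ?_ ?_ ?_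
    · intro q hq; simpa using hq
    · intro q hq; simpa using hq
    · intro q _; rfl
    · intro q _; rfl
    · intro q _; exact hf _ _
  have h4 : ∏ q ∈ Finset.univ.filter (fun q : Fin k × Fin k => q.1 = q.2), f q.1 q.2 =
      ∏ i, f i i := by
    refine Finset.prod_nbij' (fun q => q.1) (fun i => (i, i)) ?_ ?_ ?_ ?_ ?_
    · intro q _; simp
    · intro i _; simp
    · intro q hq
      have : q.1 = q.2 := by simpa using hq
      exact Prod.ext rfl this
    · intro i _; rfl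
    · intro q hq
      have : q.1 = q.2 := by simpa using hq
      rw [← this]
  rw [h1, Finset.prod_union, Finset.prod_union, h4, h3, h2, mul_assoc, ← Finset.prod_mul_distrib]
  · congr 1
    exact Finset.prod_congr rfl fun e _ => by ring
  · rw [Finset.disjoint_left]
    intro q hq hq'
    simp only [Finset.mem_filter, Finset.mem_univ, true_and] at hq hq'
    rw [hq] at hq'
    exact lt_irrefl _ hq'
  · rw [Finset.disjoint_left]
    intro q hq hq'
    simp only [Finset.mem_union, Finset.mem_filter, Finset.mem_univ, true_and] at hq hq'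
    rcases hq with hq | hq
    · rw [hq] at hq'
      exact lt_irrefl _ hq'
    · exact lt_asymm hq hq'

theorem LT_tendsto (k : ℕ) {x : Fin k → ℝ} (hx : ∀ i, 0 < x i) :
    Tendsto (fun L : ℝ => LT k (fun i => x i / L) / L ^ (k * (k - 1))) atTop
      (𝓝 (ar k * ∏ e : Ed k, ((x e.1.1 + x e.1.2) ^ 2)⁻¹)) := by
  have h1 := lap_FF_tendsto k hx
  have h2 : Tendsto (fun L : ℝ => ∏ i, (zr (1 + (2 * x i) / L) / L)) atTop
      (𝓝 (∏ i, (2 * x i)⁻¹)) :=
    tendsto_finsetProd _ fun i _ => Pool.Agent.ZetaMoment.zr_scale_tendsto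
      (by linarith [hx i])
  have hne : ∏ i, (2 * x i)⁻¹ ≠ 0 :=
    Finset.prod_ne_zero_iff.2 fun i _ => inv_ne_zero (by linarith [hx i])
  have h3 := h1.div h2 hne
  have e : ar k * (∏ q : Fin k × Fin k, (x q.1 + x q.2)⁻¹) / ∏ i, (2 * x i)⁻¹ =
      ar k * ∏ e : Ed k, ((x e.1.1 + x e.1.2) ^ 2)⁻¹ := by
    rw [lap_prod_split k (fun i j => (x i + x j)⁻¹) (fun i j => by rw [add_comm])]
    have e2 : ∏ i, (x i + x i)⁻¹ = ∏ i, (2 * x i)⁻¹ :=
      Finset.prod_congr rfl fun i _ => by rw [two_mul]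
    rw [e2, mul_div_assoc, mul_div_cancel_left₀ _ hne]
    congr 1
    exact Finset.prod_congr rfl fun i _ => by rw [inv_pow]
  rw [e] at h3
  refine h3.congr' ?_
  filter_upwards [eventually_gt_atTop (0 : ℝ)] with L hL
  change (FF (fun i => x i / L) (fun i => x i / L) / L ^ (k * k)) /
    (∏ i, (zr (1 + (2 * x i) / L) / L)) = _
  rw [lap_LT k (fun i => div_pos (hx i) hL), Finset.prod_div_distrib, Finset.prod_const,
    Finset.card_univ, Fintype.card_fin]
  have hz : ∀ i, 1 + 2 * (x i / L) = 1 + (2 * x i) / L := fun i => by ring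
  simp_rw [hz]
  have hzp : ∏ i, zr (1 + 2 * x i / L) ≠ 0 := by
    refine Finset.prod_ne_zero_iff.2 fun i _ => (Pool.Agent.ZetaMoment.zr_pos ?_).ne'
    have : 0 < 2 * x i / L := by
      have := hx i
      positivity
    linarith
  have hk : k * k = k * (k - 1) + k := by
    cases k with
    | zero => rfl
    | succ k => simp; ring
  rw [hk, pow_add]
  have hL0 : L ^ k ≠ 0 := by positivity
  have hL1 : L ^ (k * (k - 1)) ≠ 0 := by positivity
  set Z := ∏ i, zr (1 + 2 * x i / L) with hZ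
  set A := LT k fun i => x i / L with hA
  field_simp

end Pool.Agent.EvenMoment
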