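import Pool.Agent.Lib_MP_112ba8_e.Defs

/-!
P7c: sums of logarithms over roots of unity and of distances to the nearest integer.
-/

namespace Pool.Agent.EvenMoment

open Filter Topology MeasureTheory

/-- sum of the logarithms -/
theorem log_sum {h k : ℕ} (hh : 0 < h) (hk : h.Coprime k) :
    ∑ c ∈ Finset.Ico 1 h, Complex.log (1 - Complex.exp (-(2 * Real.pi * Complex.I * (c * k / h : ℝ)))) =
      Real.log h := by
  have hh' : (h : ℂ) ≠ 0 := by exact_mod_cast hh.ne'
  set μ : ℂ := (Complex.exp (2 * Real.pi * Complex.I * ((k : ℂ) / h)))⁻¹ with hμ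
  have hprim : IsPrimitiveRoot μ h :=
    (Complex.isPrimitiveRoot_exp_of_coprime k h hh.ne' hk.symm).inv
  have hw : ∀ c : ℕ, Complex.exp (-(2 * Real.pi * Complex.I * (c * k / h : ℝ))) = μ ^ c := by
    intro c
    rw [hμ, inv_pow, ← Complex.exp_nat_mul, ← Complex.exp_neg]
    congr 1
    push_cast
    ring
  simp_rw [hw]
  have hnorm : ∀ c : ℕ, ‖μ ^ c‖ = 1 := by
    intro c
    rw [norm_pow, hprim.norm'_eq_one hh.ne', one_pow]
  have hre : ∀ c ∈ Finset.Ico 1 h, 0 < (1 - μ ^ c).re := by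
    intro c hc
    rw [Finset.mem_Ico] at hc
    have hne : μ ^ c ≠ 1 := hprim.pow_ne_one_of_pos_of_lt (by omega) hc.2
    have h1 : (μ ^ c).re ≤ 1 := by
      have := Complex.re_le_norm (μ ^ c)
      rwa [hnorm] at this
    have h2 : (μ ^ c).re ≠ 1 := by
      intro h3
      apply hne
      have h4 : (μ ^ c).re ^ 2 + (μ ^ c).im ^ 2 = 1 := by
        have := Complex.sq_norm (μ ^ c)
        rw [hnorm, Complex.normSq_apply] at this
        nlinarith
      have h5 : (μ ^ c).im = 0 := by
        rw [h3] at h4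
        nlinarith
      exact Complex.ext (by simpa using h3) (by simpa using h5)
    have h3 : (μ ^ c).re < 1 := lt_of_le_of_ne h1 h2
    simpa using h3
  -- the sum is real
  have hconj : ∀ c ∈ Finset.Ico 1 h, Complex.log (1 - μ ^ (h - c)) =
      (starRingEnd ℂ) (Complex.log (1 - μ ^ c)) := by
    intro c hc
    have hr := hre c hc
    rw [Finset.mem_Ico] at hc
    have e1 : μ ^ (h - c) = (starRingEnd ℂ) (μ ^ c) := by
      have h1 : μ ^ (h - c) * μ ^ c = 1 := by
        rw [← pow_add, Nat.sub_add_cancel hc.2.le, hprim.pow_eq_one]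
      have h2 : (starRingEnd ℂ) (μ ^ c) * μ ^ c = 1 := by
        rw [Complex.conj_mul', hnorm]
        simp
      have h0 : μ ^ c ≠ 0 := by
        intro h0
        rw [h0, mul_zero] at h1
        exact zero_ne_one h1
      exact mul_right_cancel₀ h0 (h1.trans h2.symm)
    rw [e1, ← Complex.log_conj]
    · simp
    · intro harg
      have := (Complex.abs_arg_lt_pi_div_two_iff.2 (Or.inl hr))
      rw [harg, abs_of_pos Real.pi_pos] at this
      linarith [Real.pi_pos]
  set S := ∑ c ∈ Finset.Ico 1 h, Complex.log (1 - μ ^ c) with hS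
  have hSconj : (starRingEnd ℂ) S = S := by
    rw [hS, map_sum, ← Finset.sum_congr rfl hconj]
    refine Finset.sum_bij' (fun c _ => h - c) (fun c _ => h - c) ?_ ?_ ?_ ?_ ?_
    · intro c hc
      rw [Finset.mem_Ico] at hc ⊢
      omega
    · intro c hc
      rw [Finset.mem_Ico] at hc ⊢
      omega
    · intro c hc
      rw [Finset.mem_Ico] at hc
      omega
    · intro c hc
      rw [Finset.mem_Ico] at hc
      omega
    · intro c hc
      rfl
  have hSre : S = (S.re : ℂ) := (Complex.conj_eq_iff_real.1 hSconj).elim fun r hr => by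
    rw [hr, Complex.ofReal_re]
  have hprod : ∏ c ∈ Finset.Ico 1 h, (1 - μ ^ c) = h := by
    obtain ⟨n, rfl⟩ : ∃ n, h = n + 1 := ⟨h - 1, by omega⟩
    have := hprim.prod_one_sub_pow_eq_order
    rw [Finset.prod_Ico_eq_prod_range]
    simp only [Nat.add_sub_cancel]
    push_cast
    rw [← this]
    refine Finset.prod_congr rfl fun c _ => ?_
    rw [add_comm]
  rw [hSre]
  congr 1
  rw [hS, Complex.re_sum]
  simp_rw [Complex.log_re]
  rw [← Real.log_prod]
  · rw [← norm_prod, hprod]
    simp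
  · intro c hc
    have := hre c hc
    intro h0
    rw [norm_eq_zero] at h0
    rw [h0] at this
    simp at this

theorem dist_sum {h k : ℕ} (hh : 0 < h) (hk : h.Coprime k) :
    ∑ c ∈ Finset.Ico 1 h, 1 / |(c * k / h : ℝ) - round (c * k / h : ℝ)| ≤
      2 * h * (1 + Real.log h) := by
  classical
  have hhR : (0 : ℝ) < h := by exact_mod_cast hh
  have hmaps : ∀ c ∈ Finset.Ico 1 h, c * k % h ∈ Finset.Ico 1 h := by
    intro c hc
    rw [Finset.mem_Ico] at hc ⊢
    refine ⟨?_, Nat.mod_lt _ hh⟩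
    by_contra hcon
    have h0 : c * k % h = 0 := by omega
    have h1 : h ∣ c * k := Nat.dvd_of_mod_eq_zero h0
    have h2 : h ∣ c := hk.dvd_of_dvd_mul_right h1
    have := Nat.le_of_dvd (by omega) h2
    omega
  have hinj : Set.InjOn (fun c => c * k % h) (Finset.Ico 1 h : Set ℕ) := by
    intro a ha b hb hab
    rw [Finset.mem_coe, Finset.mem_Ico] at ha hb
    have h1 : a * k ≡ b * k [MOD h] := hab
    have h2 : a ≡ b [MOD h] := Nat.ModEq.cancel_right_of_coprime hk h1
    exact Nat.ModEq.eq_of_lt_of_lt h2 ha.2 hb.2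
  have himg : (Finset.Ico 1 h).image (fun c => c * k % h) = Finset.Ico 1 h := by
    apply Finset.eq_of_subset_of_card_le
    · intro x hx
      rw [Finset.mem_image] at hx
      obtain ⟨c, hc, rfl⟩ := hx
      exact hmaps c hc
    · rw [Finset.card_image_of_injOn hinj]
  have hterm : ∀ c ∈ Finset.Ico 1 h, 1 / |(c * k / h : ℝ) - round (c * k / h : ℝ)| ≤
      (h : ℝ) * (1 / ((c * k % h : ℕ) : ℝ) + 1 / ((h : ℝ) - ((c * k % h : ℕ) : ℝ))) := by
    intro c hc
    have hr := hmaps c hc
    rw [Finset.mem_Ico] at hr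
    set r := c * k % h with hrdef
    have hr0 : (0 : ℝ) < r := by
      have : 0 < r := by omega
      exact_mod_cast this
    have hrh : (r : ℝ) < h := by exact_mod_cast hr.2
    have hfr : Int.fract (c * k / h : ℝ) = (r : ℝ) / h := by
      have := Int.fract_div_natCast_eq_div_natCast_mod (k := ℝ) (m := c * k) (n := h)
      push_cast at this
      rw [this, hrdef]
    rw [abs_sub_round_eq_min, hfr]
    have h1 : 0 < (r : ℝ) / h := by positivity
    have h2 : 0 < 1 - (r : ℝ) / h := by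
      rw [sub_pos, div_lt_one hhR]
      exact hrh
    have e1 : 1 / ((r : ℝ) / h) = h * (1 / r) := by field_simp
    have h4 : 0 < (h : ℝ) - r := by linarith
    have e2 : 1 / (1 - (r : ℝ) / h) = h * (1 / (h - r)) := by
      have : (h : ℝ) - r ≠ 0 := h4.ne'
      have h5 : 1 - (r : ℝ) / h ≠ 0 := h2.ne'
      field_simp
    rcases le_total ((r : ℝ) / h) (1 - r / h) with hle | hle
    · rw [min_eq_left hle, e1]
      have : 0 ≤ (h : ℝ) * (1 / (h - r)) := by positivity
      nlinarith
    · rw [min_eq_right hle, e2]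
      have : 0 ≤ (h : ℝ) * (1 / r) := by positivity
      nlinarith
  have hharm : ∑ r ∈ Finset.Ico 1 h, 1 / (r : ℝ) ≤ 1 + Real.log h := by
    have h1 := harmonic_le_one_add_log h
    refine le_trans ?_ h1
    unfold harmonic
    push_cast
    rw [Finset.sum_Ico_eq_sum_range]
    refine le_trans (le_of_eq ?_) (Finset.sum_le_sum_of_subset_of_nonneg
      (Finset.range_mono (Nat.sub_le h 1)) fun i _ _ => by positivity)
    refine Finset.sum_congr rfl fun i _ => ?_
    push_cast
    rw [one_div, add_comm]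
  have hrefl : ∑ r ∈ Finset.Ico 1 h, 1 / ((h : ℝ) - r) = ∑ r ∈ Finset.Ico 1 h, 1 / (r : ℝ) := by
    refine Finset.sum_bij' (fun c _ => h - c) (fun c _ => h - c) ?_ ?_ ?_ ?_ ?_
    · intro c hc
      rw [Finset.mem_Ico] at hc ⊢
      omega
    · intro c hc
      rw [Finset.mem_Ico] at hc ⊢
      omega
    · intro c hc
      rw [Finset.mem_Ico] at hc
      omega
    · intro c hc
      rw [Finset.mem_Ico] at hc
      omega
    · intro c hc
      rw [Finset.mem_Ico] at hc
      rw [Nat.cast_sub hc.2.le]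
  calc ∑ c ∈ Finset.Ico 1 h, 1 / |(c * k / h : ℝ) - round (c * k / h : ℝ)|
      ≤ ∑ c ∈ Finset.Ico 1 h, (h : ℝ) * (1 / ((c * k % h : ℕ) : ℝ) +
          1 / ((h : ℝ) - ((c * k % h : ℕ) : ℝ))) := Finset.sum_le_sum hterm
    _ = ∑ r ∈ (Finset.Ico 1 h).image (fun c => c * k % h),
          (h : ℝ) * (1 / (r : ℝ) + 1 / ((h : ℝ) - r)) := by
        rw [Finset.sum_image hinj]
    _ = ∑ r ∈ Finset.Ico 1 h, (h : ℝ) * (1 / (r : ℝ) + 1 / ((h : ℝ) - r)) := by rw [himg]
    _ = h * (∑ r ∈ Finset.Ico 1 h, 1 / (r : ℝ) + ∑ r ∈ Finset.Ico 1 h, 1 / (r : ℝ)) := by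
        rw [← Finset.mul_sum, Finset.sum_add_distrib, hrefl]
    _ ≤ 2 * h * (1 + Real.log h) := by nlinarith

end Pool.Agent.EvenMoment
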